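import Mathlib

/-! MP_6c0025_co (S09336): mostly free sets without linear free subsets.  Definitions and the statements of
all modules.  Paper proof: note 1963 of the problem. -/

set_option autoImplicit false

namespace MFS

/-- points of the plane -/
abbrev Pt := ℝ × ℝ

/-- cross product `(q - p) × (r - p)`; positive when `p q r` is counterclockwise -/
def D (p q r : Pt) : ℝ := (q.1 - p.1) * (r.2 - p.2) - (q.2 - p.2) * (r.1 - p.1)

/-- the open triangle `a b c` when `0 < D a b c` (and empty when `D a b c ≤ 0`) -/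
def Tri (a b c : Pt) : Set Pt := {x | 0 < D a b x ∧ 0 < D b c x ∧ 0 < D c a x}

/-- the open triangle, any orientation -/
def TriU (a b c : Pt) : Set Pt := Tri a b c ∪ Tri a c b

/-- straight-line crossing-free drawing, literally as in the frozen statement -/
structure Drw {V : Type} (Adj : V → V → Prop) (f : V → Pt) : Prop where
  inj : Function.Injective f
  vtx : ∀ u v w : V, Adj u v → w ≠ u → w ≠ v → f w ∉ segment ℝ (f u) (f v)
  edg : ∀ u v x y : V, Adj u v → Adj x y → u ≠ x → u ≠ y → v ≠ x → v ≠ y →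
    Disjoint (segment ℝ (f u) (f v)) (segment ℝ (f x) (f y))

/-- general position -/
def GP (P : Finset Pt) : Prop :=
  ∀ a ∈ P, ∀ b ∈ P, ∀ c ∈ P, a ≠ b → a ≠ c → b ≠ c → D a b c ≠ 0

/-! ### the gadget graph: 25 vertices, 27 special faces -/

/-- adjacency masks -/
def adjM : List ℕ := [11796798, 39645, 5072907, 12681991, 99, 1361, 1202, 1602, 1577, 1418, 992, 12294,
  174082, 153604, 204804, 200714, 180236, 126976, 1572869, 22282244, 19660801, 26214401, 25690124,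
  23068681, 16252928]

/-- adjacency of the gadget graph -/
def ga (u v : Fin 25) : Bool := (adjM.getD u.val 0).testBit v.val

/-- adjacency of the gadget graph -/
def GA (u v : Fin 25) : Prop := ga u v = true

instance : DecidableRel GA := fun u v => inferInstanceAs (Decidable (ga u v = true))

/-- the special faces, counterclockwise -/
def spL : List (Fin 25 × Fin 25 × Fin 25) :=
  [(0, 1, 4), (0, 5, 8), (5, 4, 6), (6, 1, 7), (6, 7, 10), (7, 1, 9), (7, 9, 10), (5, 10, 8), (8, 9, 3),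
   (0, 23, 21), (0, 21, 20), (0, 18, 2), (18, 20, 19), (20, 21, 24), (21, 23, 24), (23, 3, 22),
   (24, 22, 19), (19, 22, 2), (3, 15, 16), (15, 1, 12), (15, 12, 17), (12, 11, 13), (17, 13, 14),
   (17, 14, 16), (16, 14, 2), (14, 13, 2), (11, 1, 2)]

/-- corners of the special face `j` -/
def Sa (j : Fin 27) : Fin 25 := (spL.getD j.val (0, 0, 0)).1
def Sb (j : Fin 27) : Fin 25 := (spL.getD j.val (0, 0, 0)).2.1
def Sc (j : Fin 27) : Fin 25 := (spL.getD j.val (0, 0, 0)).2.2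

/-- rank in the first coordinate -/
def rkA (v : Fin 25) : ℕ := ([0, 136, 135, 91, 15, 10, 16, 25, 41, 45, 40, 131, 105, 130, 125, 95, 120,
  110, 60, 85, 65, 70, 90, 75, 80] : List ℕ).getD v.val 0

/-- rank in the second coordinate -/
def rkC (v : Fin 25) : ℕ := ([0, 1, 135, 45, 5, 6, 15, 20, 40, 30, 35, 101, 100, 110, 115, 90, 120,
  111, 56, 85, 55, 50, 80, 46, 81] : List ℕ).getD v.val 0

/-- the box of the special face `j` -/
def cc (j : Fin 27) : ℕ := 5 * j.val + 3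

/-- the special face `j` in a placement `g` of the gadget graph -/
def Tj (g : Fin 25 → Pt) (j : Fin 27) : Set Pt := Tri (g (Sa j)) (g (Sb j)) (g (Sc j))

/-! ### the recursive gadgets -/

/-- vertices of the gadget of depth `i` with `q` leaves per bottom root (the three outer corners are not
included) -/
def Inn (q : ℕ) : ℕ → Type
  | 0 => Option (Fin q)
  | i + 1 => Option (Fin 25 ⊕ (Fin 27 × Inn q i))

/-- the root -/
def root {q : ℕ} : (i : ℕ) → Inn q i
  | 0 => (none : Option (Fin q))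
  | i + 1 => (none : Option (Fin 25 ⊕ (Fin 27 × Inn q i)))

/-- corner of the special face `j` -/
def IsCor (u : Fin 25) (j : Fin 27) : Prop := u = Sa j ∨ u = Sb j ∨ u = Sc j

instance (u : Fin 25) (j : Fin 27) : Decidable (IsCor u j) :=
  inferInstanceAs (Decidable (u = Sa j ∨ u = Sb j ∨ u = Sc j))

/-- adjacency in the star -/
def Adj0 (q : ℕ) : Option (Fin q) → Option (Fin q) → Prop
  | none, some _ => True
  | some _, none => True
  | _, _ => False

/-- adjacency one level up -/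
def AdjS {I : Type} (A : I → I → Prop) (r : I) :
    Option (Fin 25 ⊕ (Fin 27 × I)) → Option (Fin 25 ⊕ (Fin 27 × I)) → Prop
  | none, some (Sum.inl v) => v = 0
  | some (Sum.inl v), none => v = 0
  | some (Sum.inl u), some (Sum.inl v) => GA u v
  | some (Sum.inl u), some (Sum.inr (j, x)) => x = r ∧ IsCor u j
  | some (Sum.inr (j, x)), some (Sum.inl u) => x = r ∧ IsCor u j
  | some (Sum.inr (j, x)), some (Sum.inr (j', y)) => j = j' ∧ A x y
  | _, _ => False

/-- adjacency of the gadget: the root is joined to vertex 0 of the gadget graph, in every special face there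
is a copy of the gadget one level down, its root joined to the corners of the face -/
def Gad (q : ℕ) : (i : ℕ) → Inn q i → Inn q i → Prop
  | 0 => Adj0 q
  | i + 1 => AdjS (Gad q i) (root i)

/-- leaves -/
def Lf (q : ℕ) : ℕ → Type
  | 0 => Fin q
  | i + 1 => Fin 27 × Lf q i

/-- leaf as a vertex -/
def leaf {q : ℕ} : (i : ℕ) → Lf q i → Inn q i
  | 0, s => (some s : Option (Fin q))
  | i + 1, p => (some (Sum.inr (p.1, leaf i p.2)) : Option (Fin 25 ⊕ (Fin 27 × Inn q i)))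

instance instFintypeInn (q : ℕ) : (i : ℕ) → Fintype (Inn q i)
  | 0 => inferInstanceAs (Fintype (Option (Fin q)))
  | i + 1 => by
      haveI := instFintypeInn q i
      exact inferInstanceAs (Fintype (Option (Fin 25 ⊕ (Fin 27 × Inn q i))))

instance instFintypeLf (q : ℕ) : (i : ℕ) → Fintype (Lf q i)
  | 0 => inferInstanceAs (Fintype (Fin q))
  | i + 1 => by
      haveI := instFintypeLf q i
      exact inferInstanceAs (Fintype (Fin 27 × Lf q i))

theorem card_Lf (q i : ℕ) : Fintype.card (Lf q i) = 27 ^ i * q := by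
  induction i with
  | zero => simp [show Fintype.card (Lf q 0) = Fintype.card (Fin q) from rfl]
  | succ i ih =>
    have : Fintype.card (Lf q (i + 1)) = Fintype.card (Fin 27 × Lf q i) := rfl
    rw [this, Fintype.card_prod, ih, Fintype.card_fin]; ring

theorem leaf_injective {q : ℕ} : (i : ℕ) → Function.Injective (leaf (q := q) i)
  | 0 => fun a b h => Option.some.inj h
  | i + 1 => fun a b h => by
      have h1 := Sum.inr.inj (Option.some.inj h)
      have h2 := (Prod.mk.inj h1)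
      exact Prod.ext h2.1 (leaf_injective i h2.2)

theorem Gad_symm {q : ℕ} : (i : ℕ) → ∀ x y : Inn q i, Gad q i x y → Gad q i y x
  | 0 => by
      intro x y h
      change Adj0 q x y at h; change Adj0 q y x
      match (x : Option (Fin q)), (y : Option (Fin q)), h with
      | none, some _, _ => trivial
      | some _, none, _ => trivial
  | i + 1 => by
      intro x y h
      change AdjS (Gad q i) (root i) x y at h; change AdjS (Gad q i) (root i) y x
      match (x : Option (Fin 25 ⊕ (Fin 27 × Inn q i))), (y : Option (Fin 25 ⊕ (Fin 27 × Inn q i))), h with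
      | none, some (Sum.inl v), h => exact h
      | some (Sum.inl v), none, h => exact h
      | some (Sum.inl u), some (Sum.inl v), h => exact (by decide : ∀ u v : Fin 25, GA u v → GA v u) u v h
      | some (Sum.inl u), some (Sum.inr (j, x)), h => exact h
      | some (Sum.inr (j, x)), some (Sum.inl u), h => exact h
      | some (Sum.inr (j, x)), some (Sum.inr (j', y)), h => exact ⟨h.1.symm, Gad_symm i x y h.2⟩

theorem Gad_irrefl {q : ℕ} : (i : ℕ) → ∀ x : Inn q i, ¬ Gad q i x x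
  | 0 => by
      intro x h
      change Adj0 q x x at h
      match (x : Option (Fin q)), h with
      | none, h => exact h
      | some _, h => exact h
  | i + 1 => by
      intro x h
      change AdjS (Gad q i) (root i) x x at h
      match (x : Option (Fin 25 ⊕ (Fin 27 × Inn q i))), h with
      | none, h => exact h
      | some (Sum.inl u), h => exact (by decide : ∀ u : Fin 25, ¬ GA u u) u h
      | some (Sum.inr (j, x)), h => exact Gad_irrefl i x h.2

/-! ### placements -/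

/-- the set drawn by a placed gadget, with the three segments from the root to the corners -/
def DSet (q i : ℕ) (A B C : Pt) (f : Inn q i → Pt) : Set Pt :=
  {p | (∃ x y, Gad q i x y ∧ p ∈ segment ℝ (f x) (f y)) ∨ p ∈ segment ℝ (f (root i)) A ∨
    p ∈ segment ℝ (f (root i)) B ∨ p ∈ segment ℝ (f (root i)) C}

/-- a gadget drawn inside the triangle `A B C`, leaves in `P`, root joined to the corners -/
structure Placed (q i : ℕ) (A B C : Pt) (P : Finset Pt) (f : Inn q i → Pt) : Prop where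
  drw : Drw (Gad q i) f
  ins : ∀ x, f x ∈ Tri A B C
  leafP : ∀ l, f (leaf i l) ∈ P
  cor1 : ∀ K, (K = A ∨ K = B ∨ K = C) → ∀ x, x ≠ root i → f x ∉ segment ℝ (f (root i)) K
  cor2 : ∀ K, (K = A ∨ K = B ∨ K = C) → ∀ x y, Gad q i x y → x ≠ root i → y ≠ root i →
    Disjoint (segment ℝ (f (root i)) K) (segment ℝ (f x) (f y))
  off : ∀ p ∈ P, p ∈ DSet q i A B C f → ∃ l, p = f (leaf i l)

abbrev T3 := Pt × Pt × Pt

/-- open triangle of a triple -/
def tri (t : T3) : Set Pt := Tri t.1 t.2.1 t.2.2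

open Classical in
/-- leftover family: at most `b` disjoint open triangles in `U`, disjoint from `X`, which contain all but at
most `b` points of `P` outside `X` -/
structure Left (b : ℕ) (P : Finset Pt) (U X : Set Pt) (F : List T3) : Prop where
  len : F.length ≤ b
  pos : ∀ t ∈ F, 0 < D t.1 t.2.1 t.2.2
  sub : ∀ t ∈ F, tri t ⊆ U
  dis : F.Pairwise (fun s t => Disjoint (tri s) (tri t))
  off : ∀ t ∈ F, Disjoint (tri t) X
  cov : (P.filter (fun p => p ∉ X ∧ ∀ t ∈ F, p ∉ tri t)).card ≤ b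

/-- universality of the gadgets of depth `i` -/
def Univ (i : ℕ) : Prop :=
  ∃ c b : ℕ, ∀ q : ℕ, 1 ≤ q → ∀ A B C : Pt, 0 < D A B C → ∀ P : Finset Pt, GP P →
    (∀ p ∈ P, p ∈ Tri A B C) → c * q ≤ P.card →
    ∃ f : Inn q i → Pt, Placed q i A B C P f ∧
      ∃ F : List T3, Left b P (Tri A B C) (DSet q i A B C f) F

/-- properties of a placement of the gadget graph -/
structure GamOK (g : Fin 25 → Pt) : Prop where
  drw : Drw GA g
  out : ∀ v, 0 ≤ D (g 0) (g 1) (g v)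
  pos : ∀ j, 0 < D (g (Sa j)) (g (Sb j)) (g (Sc j))
  edg : ∀ j u v, GA u v → Disjoint (Tj g j) (segment ℝ (g u) (g v))
  fac : ∀ j j', j ≠ j' → Disjoint (Tj g j) (Tj g j')

open Classical in
/-- the gadget graph can be placed with a positive fraction of `P` in every special face -/
def GamPlace : Prop :=
  ∃ W n0 : ℕ, ∀ A B C : Pt, 0 < D A B C → ∀ P : Finset Pt, GP P → (∀ p ∈ P, p ∈ Tri A B C) →
    n0 ≤ P.card → ∃ g : Fin 25 → Pt, (∀ v, g v ∈ Tri A B C) ∧ GamOK g ∧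
      (∀ u v, GA u v → ∀ p ∈ P, p ∉ segment ℝ (g u) (g v)) ∧
      ∀ j, P.card ≤ W * (P.filter (fun p => p ∈ Tj g j)).card

/-! ### frames and chains -/

/-- first frame coordinate -/
noncomputable def fX (O H V p : Pt) : ℝ := D O p V / D p H V
/-- second frame coordinate -/
noncomputable def fS (O H V p : Pt) : ℝ := D O H p / D O p V

/-- box in frame coordinates -/
def Box (O H V : Pt) (x x' s s' : ℝ) : Set Pt :=
  {p | p ∈ Tri O H V ∧ x ≤ fX O H V p ∧ fX O H V p ≤ x' ∧ s ≤ fS O H V p ∧ fS O H V p ≤ s'}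

/-- point with frame coordinates `x`, `s` -/
noncomputable def pt (O H V : Pt) (x s : ℝ) : Pt :=
  ((O.1 + x * H.1 + x * s * V.1) / (1 + x + x * s), (O.2 + x * H.2 + x * s * V.2) / (1 + x + x * s))

/-- 3-separated positive sequence -/
def Sep (ξ : ℕ → ℝ) : Prop := (∀ l, 0 < ξ l) ∧ ∀ l, 3 * ξ l ≤ ξ (l + 1)

open Classical in
def ChainLemma : Prop :=
  ∀ M : ℕ, ∃ W n0 : ℕ, ∀ A B C : Pt, 0 < D A B C → ∀ P : Finset Pt, GP P →
    (∀ p ∈ P, p ∈ Tri A B C) → n0 ≤ P.card →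
    ∃ (O H V : Pt) (ξ σ : ℕ → ℝ), O ∈ Tri A B C ∧ H ∈ Tri A B C ∧ V ∈ Tri A B C ∧ 0 < D O H V ∧
      Sep ξ ∧ Sep σ ∧
      ∀ l < M, P.card ≤
        W * (P.filter (fun p => p ∈ Box O H V (ξ l) (ξ (l + 1)) (σ l) (σ (l + 1)))).card

def FrameDraw : Prop :=
  ∀ (O H V : Pt), 0 < D O H V → ∀ ξ σ : ℕ → ℝ, Sep ξ → Sep σ →
    ∃ g : Fin 25 → Pt, (∀ v, g v ∈ Tri O H V) ∧ GamOK g ∧
      ∀ j : Fin 27, Box O H V (ξ (cc j)) (ξ (cc j + 1)) (σ (cc j)) (σ (cc j + 1)) ⊆ Tj g j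

/-! ### lines -/

/-- every line contains at most `26 ^ i * q` leaves -/
def LineBound : Prop :=
  ∀ (q i : ℕ) (f : Inn q i → Pt), Drw (Gad q i) f → ∀ n : Pt, n ≠ 0 → ∀ c : ℝ,
    (Finset.univ.filter
      (fun l : Lf q i => n.1 * (f (leaf i l)).1 + n.2 * (f (leaf i l)).2 = c)).card ≤ 26 ^ i * q

/-- the gadget graph with a vertex stacked in every special face -/
def GPl : (Fin 25 ⊕ Fin 27) → (Fin 25 ⊕ Fin 27) → Prop
  | Sum.inl u, Sum.inl v => GA u v
  | Sum.inl u, Sum.inr j => IsCor u j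
  | Sum.inr j, Sum.inl u => IsCor u j
  | _, _ => False

/-- special face `j` in an arbitrary drawing -/
def TU (g : Fin 25 ⊕ Fin 27 → Pt) (j : Fin 27) : Set Pt :=
  TriU (g (Sum.inl (Sa j))) (g (Sum.inl (Sb j))) (g (Sum.inl (Sc j)))

def LineLemma : Prop :=
  ∀ g : Fin 25 ⊕ Fin 27 → Pt, Drw GPl g → ∀ n : Pt, n ≠ 0 → ∀ c : ℝ,
    ∃ j, g (Sum.inr j) ∈ TU g j ∧ ∀ p ∈ TU g j, n.1 * p.1 + n.2 * p.2 ≠ c

/-- monotone neighbours -/
def MNLemma : Prop :=
  ∀ g : Fin 25 → Pt, Drw GA g → ∀ n : Pt, ∀ u : Fin 25,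
    (∃ w, GA u w ∧ n.1 * (g u).1 + n.2 * (g u).2 < n.1 * (g w).1 + n.2 * (g w).2) ∨
    ∀ x, n.1 * (g x).1 + n.2 * (g x).2 ≤ n.1 * (g u).1 + n.2 * (g u).2

/-- the stacked vertex is in its face unless all other vertices are in the face -/
def StackLemma : Prop :=
  ∀ g : Fin 25 ⊕ Fin 27 → Pt, Drw GPl g → ∀ j, g (Sum.inr j) ∈ TU g j ∨
    ∀ x, ¬ IsCor x j → g (Sum.inl x) ∈ TU g j

def ColLemma : Prop :=
  ∀ h : Fin 25 → ℝ, Function.Injective h →
    (∀ u, (∃ w, GA u w ∧ h u < h w) ∨ ∀ x, h x ≤ h u) →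
    (∀ u, (∃ w, GA u w ∧ h w < h u) ∨ ∀ x, h u ≤ h x) →
    ∀ L : Fin 25 → Prop, (∀ u v, L v → ¬ L u → h u < h v) →
    ∃ j, (L (Sa j) ∧ L (Sb j) ∧ L (Sc j)) ∨ (¬ L (Sa j) ∧ ¬ L (Sb j) ∧ ¬ L (Sc j))

/-! ### cutting, root selection -/

open Classical in
/-- cutting a triangle by `m` lines into a bounded number of triangles -/
def CutLemma : Prop :=
  ∀ m : ℕ, ∃ b : ℕ, ∀ ls : List (Pt × Pt), ls.length = m → (∀ l ∈ ls, l.1 ≠ l.2) →
    ∀ A B C : Pt, 0 < D A B C → ∀ P : Finset Pt, GP P →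
    ∃ F : List T3, F.length ≤ b ∧ (∀ t ∈ F, 0 < D t.1 t.2.1 t.2.2) ∧ (∀ t ∈ F, tri t ⊆ Tri A B C) ∧
      F.Pairwise (fun s t => Disjoint (tri s) (tri t)) ∧
      (∀ t ∈ F, ∀ l ∈ ls, ∀ x ∈ tri t, D l.1 l.2 x ≠ 0) ∧
      (P.filter (fun p => p ∈ Tri A B C ∧ ∀ t ∈ F, p ∉ tri t)).card ≤ b

/-- a generic root close to the corner `C` -/
def RootSel : Prop :=
  ∀ A B C : Pt, 0 < D A B C → ∀ F : Finset Pt, (∀ x ∈ F, x ∈ Tri A B C) →
    ∀ X Y : Pt, D X Y C < 0 → ∀ Q : Finset (Pt × Pt), (∀ s ∈ Q, s.1 ≠ s.2) →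
    ∃ k ∈ Tri A B C, (∀ x ∈ F, x ∈ Tri A B k) ∧ D X Y k < 0 ∧ ∀ s ∈ Q, D s.1 s.2 k ≠ 0

/-! ### packing -/

/-- disjoint union of gadgets of depth `i` -/
def Vs (i : ℕ) : List ℕ → Type
  | [] => Empty
  | q :: qs => Inn q i ⊕ Vs i qs

/-- adjacency in a disjoint union -/
def AdjU {I J : Type} (A : I → I → Prop) (B : J → J → Prop) : I ⊕ J → I ⊕ J → Prop
  | Sum.inl x, Sum.inl y => A x y
  | Sum.inr x, Sum.inr y => B x y
  | _, _ => False

def As (i : ℕ) : (qs : List ℕ) → Vs i qs → Vs i qs → Prop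
  | [] => fun _ _ => False
  | q :: qs => AdjU (Gad q i) (As i qs)

/-- leaves of the union -/
def Ls (i : ℕ) : List ℕ → Type
  | [] => Empty
  | q :: qs => Lf q i ⊕ Ls i qs

def lfs (i : ℕ) : (qs : List ℕ) → Ls i qs → Vs i qs
  | [] => fun x => x
  | _ :: qs => Sum.map (leaf i) (lfs i qs)

instance instFintypeVs (i : ℕ) : (qs : List ℕ) → Fintype (Vs i qs)
  | [] => inferInstanceAs (Fintype Empty)
  | q :: qs => by
      haveI := instFintypeVs i qs
      exact inferInstanceAs (Fintype (Inn q i ⊕ Vs i qs))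

instance instFintypeLs (i : ℕ) : (qs : List ℕ) → Fintype (Ls i qs)
  | [] => inferInstanceAs (Fintype Empty)
  | q :: qs => by
      haveI := instFintypeLs i qs
      exact inferInstanceAs (Fintype (Lf q i ⊕ Ls i qs))

/-- numbers for which the greedy packing works: `N` points in at most `t` triangles -/
def Good (i c b : ℕ) : List ℕ → ℕ → ℕ → Prop
  | [], _, _ => True
  | q :: qs, N, t => 1 ≤ q ∧ c * q * t < N ∧ Good i c b qs (N - 27 ^ i * q - b) (t + b)

open Classical in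
/-- the greedy packing -/
def PackLemma : Prop :=
  ∀ i, Univ i → ∃ c b : ℕ, 27 ^ i ≤ c ∧ ∀ (qs : List ℕ) (N t : ℕ), Good i c b qs N t →
    ∀ F : List T3, F.length ≤ t → (∀ s ∈ F, 0 < D s.1 s.2.1 s.2.2) →
    F.Pairwise (fun s t => Disjoint (tri s) (tri t)) →
    ∀ P : Finset Pt, GP P → N ≤ (P.filter (fun p => ∃ s ∈ F, p ∈ tri s)).card →
    ∃ f : Vs i qs → Pt, Drw (As i qs) f ∧ (∀ x, ∃ s ∈ F, f x ∈ tri s) ∧
      (∀ x y, As i qs x y → ∃ s ∈ F, segment ℝ (f x) (f y) ⊆ tri s) ∧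
      (∀ l, f (lfs i qs l) ∈ P) ∧
      (∀ p ∈ P, (∀ l, p ≠ f (lfs i qs l)) → (∀ x, p ≠ f x) ∧
        ∀ x y, As i qs x y → p ∉ segment ℝ (f x) (f y))

/-- numbers with few leftovers -/
def NumLemma : Prop :=
  ∀ i c b : ℕ, 27 ^ i ≤ c → ∀ δ : ℝ, 0 < δ → ∃ (qs : List ℕ) (n : ℕ), 0 < n ∧ Good i c b qs n 1 ∧
    27 ^ i * qs.sum ≤ n ∧ (n : ℝ) - 27 ^ i * qs.sum ≤ δ * n

/-! ### Ramsey theorem for `r`-tuples -/

/-- `r`-uniform Ramsey theorem with `c` colours, for increasing tuples -/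
def RamseyLemma : Prop :=
  ∀ r c L : ℕ, 1 ≤ c → ∃ K : ℕ, ∀ χ : (Fin r → Fin K) → Fin c, ∃ e : Fin L → Fin K, StrictMono e ∧
    ∃ k : Fin c, ∀ s : Fin r → Fin L, StrictMono s → χ (e ∘ s) = k

/-- `s 0, ..., s (2M+4)` is a good chain in the triangle `A B C` -/
structure GoodChain (A B C : Pt) (M : ℕ) (s : ℕ → Pt) : Prop where
  conv : ∀ i j k, i < j → j < k → k < 2 * M + 5 → 0 < D (s i) (s j) (s k)
  apex : ∃ z ∈ Tri A B C, (∃ τ : ℝ, 1 < τ ∧ z = s 0 + τ • (s 1 - s 0)) ∧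
    ∃ τ : ℝ, 1 < τ ∧ z = s (2 * M + 4) + τ • (s (2 * M + 3) - s (2 * M + 4))
  sepS : ∀ k l, 2 ≤ k → k < l → l ≤ 2 * M + 2 →
    3 * (D (s 0) (s 1) (s k) * D (s 0) (s l) (s (2 * M + 4))) ≤
      D (s 0) (s 1) (s l) * D (s 0) (s k) (s (2 * M + 4))
  sepX : ∀ k l, 2 ≤ k → k < l → l ≤ 2 * M + 2 →
    3 * (D (s 0) (s k) (s (2 * M + 4)) * D (s l) (s (2 * M + 3)) (s (2 * M + 4))) ≤
      D (s 0) (s l) (s (2 * M + 4)) * D (s k) (s (2 * M + 3)) (s (2 * M + 4))

/-- every large set contains a good chain -/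
def GoodLemma : Prop :=
  ∀ M : ℕ, ∃ K : ℕ, ∀ A B C : Pt, 0 < D A B C → ∀ φ : Fin K → Pt, Function.Injective φ →
    (∀ i, φ i ∈ Tri A B C) →
    (∀ i j k, i ≠ j → i ≠ k → j ≠ k → D (φ i) (φ j) (φ k) ≠ 0) →
    ∃ ι : ℕ → Fin K, (∀ i j, i < 2 * M + 5 → j < 2 * M + 5 → ι i = ι j → i = j) ∧
      GoodChain A B C M (fun i => φ (ι i))

/-- supersaturation (abstract): `G R Q` = the references `R` and the completions `Q` fit -/
def SupLemma : Prop :=
  ∀ a b K : ℕ, ∃ W n0 : ℕ, ∀ (P : Finset Pt) (G : (Fin a → Pt) → (Fin b → Pt) → Prop),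
    n0 ≤ P.card →
    (∀ φ : Fin K → Pt, Function.Injective φ → (∀ i, φ i ∈ P) →
      ∃ (ρ : Fin a → Fin K) (κ : Fin b → Fin K), Function.Injective (Sum.elim ρ κ) ∧
        G (φ ∘ ρ) (φ ∘ κ)) →
    ∃ R : Fin a → Pt, (∀ i, R i ∈ P) ∧ (∃ Q, G R Q) ∧ ∀ l : Fin b, ∃ B : Finset Pt, B ⊆ P ∧
      (∀ p ∈ B, ∃ Q, G R Q ∧ Q l = p) ∧ P.card ≤ W * B.card

/-! ### the induction step of universality -/

/-- the placement one level up: root, gadget graph, copies -/
def comb {q i : ℕ} (k : Pt) (g : Fin 25 → Pt) (fj : Fin 27 → Inn q i → Pt) : Inn q (i + 1) → Pt :=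
  fun x => match (x : Option (Fin 25 ⊕ (Fin 27 × Inn q i))) with
    | none => k
    | some (Sum.inl v) => g v
    | some (Sum.inr (j, x)) => fj j x

open Classical in
/-- hypotheses of the induction step (root `k` close to the corner `C`) -/
structure StepHyp (q i : ℕ) (A B C : Pt) (P : Finset Pt) (k : Pt) (g : Fin 25 → Pt)
    (fj : Fin 27 → Inn q i → Pt) : Prop where
  hD : 0 < D A B C
  gp : GP P
  hP : ∀ p ∈ P, p ∈ Tri A B C
  hg : ∀ v, g v ∈ Tri A B C
  ok : GamOK g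
  av : ∀ u v, GA u v → ∀ p ∈ P, p ∉ segment ℝ (g u) (g v)
  hk : k ∈ Tri A B C
  gk : ∀ v, g v ∈ Tri A B k
  Pk : ∀ p ∈ P, p ∈ Tri A B k
  neg : D (g 0) (g 1) k < 0
  gen : ∀ p ∈ P, D (g 0) p k ≠ 0
  cop : ∀ j, Placed q i (g (Sa j)) (g (Sb j)) (g (Sc j)) (P.filter (fun p => p ∈ Tj g j)) (fj j)

def StepDraw : Prop :=
  ∀ (q i : ℕ) (A B C : Pt) (P : Finset Pt) (k : Pt) (g : Fin 25 → Pt) (fj : Fin 27 → Inn q i → Pt),
    1 ≤ q → StepHyp q i A B C P k g fj → Placed q (i + 1) A B C P (comb k g fj)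

open Classical in
def StepLeft : Prop :=
  ∀ b : ℕ, ∃ b' : ℕ, ∀ (q i : ℕ) (A B C : Pt) (P : Finset Pt) (k : Pt) (g : Fin 25 → Pt)
    (fj : Fin 27 → Inn q i → Pt), 1 ≤ q → StepHyp q i A B C P k g fj →
    (∀ j, ∃ F : List T3, Left b (P.filter (fun p => p ∈ Tj g j)) (Tj g j)
      (DSet q i (g (Sa j)) (g (Sb j)) (g (Sc j)) (fj j)) F) →
    ∃ F : List T3, Left b' P (Tri A B C) (DSet q (i + 1) A B C (comb k g fj)) F

/-- the frozen statement -/
def Target : Prop :=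
    ¬ (∃ γ : ℝ, 0 < γ ∧ ∀ (V : Type) [Fintype V] (G : SimpleGraph V) (S : Finset V),
      (∀ P : Finset (ℝ × ℝ), P.card = S.card →
        (∀ a ∈ P, ∀ b ∈ P, ∀ c ∈ P, a ≠ b → a ≠ c → b ≠ c →
            ¬ Collinear ℝ ({a, b, c} : Set (ℝ × ℝ))) →
        ∃ f : V → ℝ × ℝ, Function.Injective f ∧
          (∀ u v w : V, G.Adj u v → w ≠ u → w ≠ v → f w ∉ segment ℝ (f u) (f v)) ∧
          (∀ u v x y : V, G.Adj u v → G.Adj x y → u ≠ x → u ≠ y → v ≠ x → v ≠ y →
            Disjoint (segment ℝ (f u) (f v)) (segment ℝ (f x) (f y))) ∧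
          (∀ s ∈ S, f s ∈ P)) →
      ∃ T : Finset V, T ⊆ S ∧
        (∀ P : Finset (ℝ × ℝ), P.card = T.card →
          ∃ f : V → ℝ × ℝ, Function.Injective f ∧
            (∀ u v w : V, G.Adj u v → w ≠ u → w ≠ v → f w ∉ segment ℝ (f u) (f v)) ∧
            (∀ u v x y : V, G.Adj u v → G.Adj x y → u ≠ x → u ≠ y → v ≠ x → v ≠ y →
              Disjoint (segment ℝ (f u) (f v)) (segment ℝ (f x) (f y))) ∧
            (∀ t ∈ T, f t ∈ P)) ∧
        γ * (S.card : ℝ) ≤ (T.card : ℝ))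

end MFS
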