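import Pool.Agent.MFS.Defs

/-! Basic lemmas on `D`, `Tri`, segments. -/

set_option autoImplicit false

namespace MFS

theorem D_rot (a b c : Pt) : D a b c = D b c a := by unfold D; ring
theorem D_rot' (a b c : Pt) : D a b c = D c a b := by unfold D; ring
theorem D_swap12 (a b c : Pt) : D a b c = - D b a c := by unfold D; ring
theorem D_swap23 (a b c : Pt) : D a b c = - D a c b := by unfold D; ring
theorem D_swap13 (a b c : Pt) : D a b c = - D c b a := by unfold D; ring
theorem D_aab (a b : Pt) : D a a b = 0 := by unfold D; ring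
theorem D_aba (a b : Pt) : D a b a = 0 := by unfold D; ring
theorem D_abb (a b : Pt) : D a b b = 0 := by unfold D; ring

theorem D_sum (a b c x : Pt) : D a b x + D b c x + D c a x = D a b c := by unfold D; ring

theorem D_line (a b x y : Pt) (t : ℝ) :
    D a b ((1 - t) • x + t • y) = (1 - t) * D a b x + t * D a b y := by
  unfold D; simp only [Prod.fst_add, Prod.snd_add, Prod.smul_fst, Prod.smul_snd, smul_eq_mul]; ring

theorem D_lin3 (a b x y z : Pt) (r s t : ℝ) (h : r + s + t = 1) :
    D a b (r • x + s • y + t • z) = r * D a b x + s * D a b y + t * D a b z := by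
  have hr : r = 1 - s - t := by linarith
  subst hr
  unfold D; simp only [Prod.fst_add, Prod.snd_add, Prod.smul_fst, Prod.smul_snd, smul_eq_mul]; ring

/-- translation invariance -/
theorem D_add (a b c t : Pt) : D (a + t) (b + t) (c + t) = D a b c := by
  unfold D; simp only [Prod.fst_add, Prod.snd_add]; ring

theorem D_ext {a b c d : Pt} : D a b d - D a b c = (b.1 - a.1) * (d.2 - c.2) - (b.2 - a.2) * (d.1 - c.1) := by
  unfold D; ring

theorem mem_seg {a b p : Pt} :
    p ∈ segment ℝ a b ↔ ∃ t : ℝ, 0 ≤ t ∧ t ≤ 1 ∧ p = (1 - t) • a + t • b := by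
  constructor
  · rintro ⟨r, s, hr, hs, hrs, h⟩
    refine ⟨s, hs, by linarith, ?_⟩
    rw [← h, show (1 - s) = r by linarith]
  · rintro ⟨t, h0, h1, h⟩
    exact ⟨1 - t, t, by linarith, h0, by ring, h.symm⟩

theorem D_seg_zero {a b p : Pt} (h : p ∈ segment ℝ a b) : D a b p = 0 := by
  obtain ⟨t, -, -, rfl⟩ := mem_seg.1 h
  rw [D_line, D_aba, D_abb]; ring

theorem D_seg_nonneg {a b x y p : Pt} (h : p ∈ segment ℝ x y) (hx : 0 ≤ D a b x) (hy : 0 ≤ D a b y) :
    0 ≤ D a b p := by
  obtain ⟨t, h0, h1, rfl⟩ := mem_seg.1 h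
  rw [D_line]
  have : 0 ≤ (1 - t) := by linarith
  positivity

theorem D_seg_nonpos {a b x y p : Pt} (h : p ∈ segment ℝ x y) (hx : D a b x ≤ 0) (hy : D a b y ≤ 0) :
    D a b p ≤ 0 := by
  obtain ⟨t, h0, h1, rfl⟩ := mem_seg.1 h
  rw [D_line]
  have : 0 ≤ (1 - t) := by linarith
  nlinarith [mul_nonneg this (neg_nonneg.2 hx), mul_nonneg h0 (neg_nonneg.2 hy)]

theorem D_seg_pos {a b x y p : Pt} (h : p ∈ segment ℝ x y) (hx : 0 < D a b x) (hy : 0 < D a b y) :
    0 < D a b p := by
  obtain ⟨t, h0, h1, rfl⟩ := mem_seg.1 h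
  rw [D_line]
  rcases eq_or_lt_of_le h0 with h | h
  · rw [← h]; simpa using hx
  · have : 0 ≤ (1 - t) := by linarith
    have := mul_nonneg this hx.le
    have := mul_pos h hy
    linarith

theorem D_seg_neg {a b x y p : Pt} (h : p ∈ segment ℝ x y) (hx : D a b x < 0) (hy : D a b y < 0) :
    D a b p < 0 := by
  have h1 := D_seg_pos (a := b) (b := a) h (by rw [D_swap12]; linarith) (by rw [D_swap12]; linarith)
  rw [D_swap12] at h1; linarith

theorem Tri_rot (a b c : Pt) : Tri a b c = Tri b c a := by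
  ext x; simp only [Tri, Set.mem_setOf_eq]; tauto

theorem Tri_rot' (a b c : Pt) : Tri a b c = Tri c a b := by
  ext x; simp only [Tri, Set.mem_setOf_eq]; tauto

theorem Tri_pos {a b c x : Pt} (h : x ∈ Tri a b c) : 0 < D a b c := by
  have := D_sum a b c x
  obtain ⟨h1, h2, h3⟩ := h
  linarith

theorem seg_Tri {a b c x y : Pt} (hx : x ∈ Tri a b c) (hy : y ∈ Tri a b c) :
    segment ℝ x y ⊆ Tri a b c := fun _ hp =>
  ⟨D_seg_pos hp hx.1 hy.1, D_seg_pos hp hx.2.1 hy.2.1, D_seg_pos hp hx.2.2 hy.2.2⟩

theorem Tri_convex (a b c : Pt) : Convex ℝ (Tri a b c) :=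
  convex_iff_segment_subset.2 fun _ hx _ hy => seg_Tri hx hy

theorem D_cont (a b : Pt) : Continuous fun x : Pt => D a b x := by unfold D; fun_prop

theorem Tri_open (a b c : Pt) : IsOpen (Tri a b c) :=
  (isOpen_lt continuous_const (D_cont a b)).inter
    ((isOpen_lt continuous_const (D_cont b c)).inter (isOpen_lt continuous_const (D_cont c a)))

theorem left_notMem_Tri (a b c : Pt) : a ∉ Tri a b c := fun h => by
  have := h.1; rw [D_aba] at this; exact lt_irrefl _ this
theorem mid_notMem_Tri (a b c : Pt) : b ∉ Tri a b c := fun h => by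
  have := h.1; rw [D_abb] at this; exact lt_irrefl _ this
theorem right_notMem_Tri (a b c : Pt) : c ∉ Tri a b c := fun h => by
  have := h.2.1; rw [D_abb] at this; exact lt_irrefl _ this

/-- a segment from a corner to an inner point -/
theorem seg_corner_Tri {a b c x p : Pt} (hx : x ∈ Tri a b c) (hp : p ∈ segment ℝ a x) :
    p = a ∨ p ∈ Tri a b c := by
  have hD := Tri_pos hx
  obtain ⟨t, h0, h1, rfl⟩ := mem_seg.1 hp
  rcases eq_or_lt_of_le h0 with h | h
  · left; rw [← h]; simp
  · right
    obtain ⟨h1', h2', h3'⟩ := hx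
    have h1t : 0 ≤ 1 - t := by linarith
    refine ⟨?_, ?_, ?_⟩
    · rw [D_line, D_aba]; nlinarith [mul_pos h h1']
    · rw [D_line, ← D_rot a b c]; nlinarith [mul_pos h h2', mul_nonneg h1t hD.le]
    · rw [D_line, D_abb]; nlinarith [mul_pos h h3']

/-- barycentric coordinates -/
theorem bary {a b c : Pt} (h : D a b c ≠ 0) (x : Pt) :
    x = (D b c x / D a b c) • a + (D c a x / D a b c) • b + (D a b x / D a b c) • c := by
  have h' : (b.1 - a.1) * (c.2 - a.2) - (b.2 - a.2) * (c.1 - a.1) ≠ 0 := h
  ext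
  · simp only [Prod.fst_add, Prod.smul_fst, smul_eq_mul]
    unfold D; field_simp; ring
  · simp only [Prod.snd_add, Prod.smul_snd, smul_eq_mul]
    unfold D; field_simp; ring

theorem bary_mem {a b c : Pt} (h : 0 < D a b c) {r s t : ℝ} (hr : 0 < r) (hs : 0 < s) (ht : 0 < t)
    (hrst : r + s + t = 1) : r • a + s • b + t • c ∈ Tri a b c := by
  refine ⟨?_, ?_, ?_⟩
  · rw [D_lin3 _ _ _ _ _ _ _ _ hrst, D_aba, D_abb]; nlinarith [mul_pos ht h]
  · rw [D_lin3 _ _ _ _ _ _ _ _ hrst, D_aba, D_abb, ← D_rot a b c]; nlinarith [mul_pos hr h]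
  · rw [D_lin3 _ _ _ _ _ _ _ _ hrst, D_aba, D_abb, ← D_rot' a b c]; nlinarith [mul_pos hs h]

/-- the closed half planes of a triangle contain its points -/
theorem D_nonneg_of_Tri {a b c u v x : Pt} (hx : x ∈ Tri a b c) (ha : 0 ≤ D u v a) (hb : 0 ≤ D u v b)
    (hc : 0 ≤ D u v c) : 0 ≤ D u v x := by
  have hD := Tri_pos hx
  obtain ⟨h1, h2, h3⟩ := hx
  have hs := D_sum a b c x
  rw [bary hD.ne' x, D_lin3]
  · positivity
  · field_simp; linarith

/-- strictly inside if one corner is strictly inside -/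
theorem D_pos_of_Tri {a b c u v x : Pt} (hx : x ∈ Tri a b c) (ha : 0 ≤ D u v a) (hb : 0 ≤ D u v b)
    (hc : 0 ≤ D u v c) (h : 0 < D u v a ∨ 0 < D u v b ∨ 0 < D u v c) : 0 < D u v x := by
  have hD := Tri_pos hx
  obtain ⟨h1, h2, h3⟩ := hx
  have hs := D_sum a b c x
  rw [bary hD.ne' x, D_lin3]
  · have e1 : 0 < D b c x / D a b c := by positivity
    have e2 : 0 < D c a x / D a b c := by positivity
    have e3 : 0 < D a b x / D a b c := by positivity
    rcases h with h | h | h
    · have := mul_pos e1 h; have := mul_nonneg e2.le hb; have := mul_nonneg e3.le hc; linarith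
    · have := mul_pos e2 h; have := mul_nonneg e1.le ha; have := mul_nonneg e3.le hc; linarith
    · have := mul_pos e3 h; have := mul_nonneg e1.le ha; have := mul_nonneg e2.le hb; linarith
  · field_simp; linarith

theorem D_nonpos_of_Tri {a b c u v x : Pt} (hx : x ∈ Tri a b c) (ha : D u v a ≤ 0) (hb : D u v b ≤ 0)
    (hc : D u v c ≤ 0) : D u v x ≤ 0 := by
  have := D_nonneg_of_Tri (u := v) (v := u) hx (by rw [D_swap12]; linarith) (by rw [D_swap12]; linarith)
    (by rw [D_swap12]; linarith)
  rw [D_swap12] at this; linarith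

theorem D_neg_of_Tri {a b c u v x : Pt} (hx : x ∈ Tri a b c) (ha : D u v a ≤ 0) (hb : D u v b ≤ 0)
    (hc : D u v c ≤ 0) (h : D u v a < 0 ∨ D u v b < 0 ∨ D u v c < 0) : D u v x < 0 := by
  have := D_pos_of_Tri (u := v) (v := u) hx (by rw [D_swap12]; linarith) (by rw [D_swap12]; linarith)
    (by rw [D_swap12]; linarith) (by rw [D_swap12 v u a, D_swap12 v u b, D_swap12 v u c]
                                     rcases h with h | h | h
                                     · left; linarith
                                     · right; left; linarith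
                                     · right; right; linarith)
  rw [D_swap12] at this; linarith

/-- smaller triangle: move one corner inside -/
theorem Tri_sub_corner {a b c k : Pt} (hk : k ∈ Tri a b c) : Tri a b k ⊆ Tri a b c := by
  intro x hx
  have h := Tri_pos hk
  obtain ⟨k1, k2, k3⟩ := hk
  refine ⟨hx.1, ?_, ?_⟩
  · refine D_pos_of_Tri hx ?_ ?_ k2.le (Or.inr (Or.inr k2))
    · rw [← D_rot a b c]; exact h.le
    · rw [D_aba]
  · refine D_pos_of_Tri hx ?_ ?_ k3.le (Or.inr (Or.inr k3))
    · rw [D_abb]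
    · rw [← D_rot' a b c]; exact h.le

/-- all corners in a triangle: inclusion -/
theorem Tri_sub {a b c u v w : Pt} (hu : u ∈ Tri a b c) (hv : v ∈ Tri a b c) (hw : w ∈ Tri a b c) :
    Tri u v w ⊆ Tri a b c := fun _ hx =>
  ⟨D_pos_of_Tri hx hu.1.le hv.1.le hw.1.le (Or.inl hu.1),
   D_pos_of_Tri hx hu.2.1.le hv.2.1.le hw.2.1.le (Or.inl hu.2.1),
   D_pos_of_Tri hx hu.2.2.le hv.2.2.le hw.2.2.le (Or.inl hu.2.2)⟩

/-- the segment from the inner point `k` to the corner `c` avoids `Tri a b k` -/
theorem seg_corner_disj {a b c k p : Pt} (hk : k ∈ Tri a b c) (hp : p ∈ segment ℝ k c) :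
    p ∉ Tri a b k := by
  intro h
  have h2 := h.2.1
  have : D b k p ≤ 0 := D_seg_nonpos hp (by rw [D_abb]) (by rw [D_swap23]; have := hk.2.1; linarith)
  linarith

/-- the segments from `k` to `a` and to `b` avoid `Tri a b k` -/
theorem seg_side_disj_a {a b k p : Pt} (hp : p ∈ segment ℝ k a) : p ∉ Tri a b k := by
  intro h
  have := h.2.2
  rw [D_seg_zero hp] at this; exact lt_irrefl _ this

theorem seg_side_disj_b {a b k p : Pt} (hp : p ∈ segment ℝ k b) : p ∉ Tri a b k := by
  intro h
  have := h.2.1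
  rw [segment_symm] at hp
  rw [D_seg_zero hp] at this; exact lt_irrefl _ this

/-- separation of two segments by the line of the first -/
theorem disj_of_pos {a b x y : Pt} (hx : 0 < D a b x) (hy : 0 < D a b y) :
    Disjoint (segment ℝ a b) (segment ℝ x y) := by
  rw [Set.disjoint_left]
  intro p hp hq
  have := D_seg_pos hq hx hy
  rw [D_seg_zero hp] at this; exact lt_irrefl _ this

theorem disj_of_neg {a b x y : Pt} (hx : D a b x < 0) (hy : D a b y < 0) :
    Disjoint (segment ℝ a b) (segment ℝ x y) := by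
  rw [Set.disjoint_left]
  intro p hp hq
  have := D_seg_neg hq hx hy
  rw [D_seg_zero hp] at this; exact lt_irrefl _ this

/-- two segments whose ends lie on different (closed) sides of each other meet; the segments are not on one
line -/
theorem cross {a b c d : Pt} (h1 : 0 ≤ D a b c) (h2 : D a b d ≤ 0) (h3 : D c d a ≤ 0) (h4 : 0 ≤ D c d b)
    (h5 : D a b c - D a b d ≠ 0) : ∃ p, p ∈ segment ℝ a b ∧ p ∈ segment ℝ c d := by
  have hs : 0 < D a b c - D a b d := lt_of_le_of_ne (by linarith) (Ne.symm h5)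
  have hs' : D a b c - D a b d = D c d b - D c d a := by unfold D; ring
  have key : (1 - -(D c d a) / (D a b c - D a b d)) • a + (-(D c d a) / (D a b c - D a b d)) • b =
      (1 - (D a b c) / (D a b c - D a b d)) • c + ((D a b c) / (D a b c - D a b d)) • d := by
    have h5' : (b.1 - a.1) * (c.2 - a.2) - (b.2 - a.2) * (c.1 - a.1) -
      ((b.1 - a.1) * (d.2 - a.2) - (b.2 - a.2) * (d.1 - a.1)) ≠ 0 := h5
    ext
    · simp only [Prod.fst_add, Prod.smul_fst, smul_eq_mul]
      unfold D
      field_simp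
      ring
    · simp only [Prod.snd_add, Prod.smul_snd, smul_eq_mul]
      unfold D
      field_simp
      ring
  refine ⟨_, mem_seg.2 ⟨-(D c d a) / (D a b c - D a b d), ?_, ?_, rfl⟩, mem_seg.2
    ⟨(D a b c) / (D a b c - D a b d), ?_, ?_, key⟩⟩
  · exact div_nonneg (by linarith) hs.le
  · rw [div_le_one hs]; linarith
  · exact div_nonneg h1 hs.le
  · rw [div_le_one hs]; linarith

/-- leaving a triangle through its boundary -/
theorem Tri_exit {a b c p q : Pt} (hp : p ∈ Tri a b c) (hq : q ∉ Tri a b c) :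
    ∃ x ∈ segment ℝ p q, x ∈ segment ℝ a b ∨ x ∈ segment ℝ b c ∨ x ∈ segment ℝ c a := by
  have hD := Tri_pos hp
  obtain ⟨p1, p2, p3⟩ := hp
  -- parameters at which the three functions vanish
  set d1 := D a b p - D a b q
  set d2 := D b c p - D b c q
  set d3 := D c a p - D c a q
  -- choose the smallest exit time
  have hf : ∃ t : ℝ, 0 ≤ t ∧ t ≤ 1 ∧ 0 ≤ D a b ((1 - t) • p + t • q) ∧
      0 ≤ D b c ((1 - t) • p + t • q) ∧ 0 ≤ D c a ((1 - t) • p + t • q) ∧
      (D a b ((1 - t) • p + t • q) = 0 ∨ D b c ((1 - t) • p + t • q) = 0 ∨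
        D c a ((1 - t) • p + t • q) = 0) := by
    let m : ℝ → ℝ := fun t => min (D a b ((1 - t) • p + t • q))
      (min (D b c ((1 - t) • p + t • q)) (D c a ((1 - t) • p + t • q)))
    have hm : Continuous m := by
      have h1 : Continuous fun t : ℝ => (1 - t) • p + t • q := by fun_prop
      exact ((D_cont a b).comp h1).min (((D_cont b c).comp h1).min ((D_cont c a).comp h1))
    have hm0 : 0 ≤ m 0 := by
      simp only [m, sub_zero, one_smul, zero_smul, add_zero]
      exact le_min p1.le (le_min p2.le p3.le)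
    have hm1 : m 1 ≤ 0 := by
      simp only [m, sub_self, one_smul, zero_smul, zero_add]
      by_contra hcon
      push Not at hcon
      rw [lt_min_iff, lt_min_iff] at hcon
      exact hq hcon
    obtain ⟨t, ht, hmt⟩ := intermediate_value_Icc' (zero_le_one) hm.continuousOn ⟨hm1, hm0⟩
    refine ⟨t, ht.1, ht.2, ?_, ?_, ?_, ?_⟩
    · rw [← hmt]; exact min_le_left _ _
    · rw [← hmt]; exact (min_le_right _ _).trans (min_le_left _ _)
    · rw [← hmt]; exact (min_le_right _ _).trans (min_le_right _ _)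
    · simp only [m] at hmt
      rcases min_choice (D a b ((1 - t) • p + t • q))
        (min (D b c ((1 - t) • p + t • q)) (D c a ((1 - t) • p + t • q))) with h | h
      · left; rw [← h]; exact hmt
      · rw [h] at hmt
        rcases min_choice (D b c ((1 - t) • p + t • q)) (D c a ((1 - t) • p + t • q)) with h' | h'
        · right; left; rw [← h']; exact hmt
        · right; right; rw [← h']; exact hmt
  obtain ⟨t, h0, h1, e1, e2, e3, hz⟩ := hf
  set x := (1 - t) • p + t • q with hx
  have hs := D_sum a b c x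
  have hb := bary hD.ne' x
  refine ⟨x, mem_seg.2 ⟨t, h0, h1, rfl⟩, ?_⟩
  rcases hz with hz | hz | hz
  · left
    rw [mem_seg]
    refine ⟨D c a x / D a b c, div_nonneg e3 hD.le, ?_, ?_⟩
    · rw [div_le_one hD]; linarith
    · conv_lhs => rw [hb]
      rw [hz, zero_div, zero_smul, add_zero]
      congr 2
      field_simp
      linarith
  · right; left
    rw [mem_seg]
    refine ⟨D a b x / D a b c, div_nonneg e1 hD.le, ?_, ?_⟩
    · rw [div_le_one hD]; linarith
    · conv_lhs => rw [hb]
      rw [hz, zero_div, zero_smul, zero_add]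
      congr 2
      field_simp
      linarith
  · right; right
    rw [segment_symm, mem_seg]
    refine ⟨D a b x / D a b c, div_nonneg e1 hD.le, ?_, ?_⟩
    · rw [div_le_one hD]; linarith
    · conv_lhs => rw [hb]
      rw [hz, zero_div, zero_smul, add_zero]
      congr 2
      field_simp
      linarith

/-- restriction of a drawing -/
theorem Drw.restrict {V W : Type} {A : V → V → Prop} {B : W → W → Prop} {f : V → Pt} (h : Drw A f)
    (e : W → V) (he : Function.Injective e) (hAB : ∀ x y, B x y → A (e x) (e y)) :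
    Drw B (fun x => f (e x)) where
  inj := fun x y hxy => he (h.inj hxy)
  vtx := fun u v w huv h1 h2 => h.vtx _ _ _ (hAB _ _ huv) (fun hh => h1 (he hh)) (fun hh => h2 (he hh))
  edg := fun u v x y huv hxy h1 h2 h3 h4 => h.edg _ _ _ _ (hAB _ _ huv) (hAB _ _ hxy)
    (fun hh => h1 (he hh)) (fun hh => h2 (he hh)) (fun hh => h3 (he hh)) (fun hh => h4 (he hh))

/-- drawings are translation invariant -/
theorem Drw.translate {V : Type} {A : V → V → Prop} {f : V → Pt} (h : Drw A f) (τ : Pt) :
    Drw A (fun x => f x + τ) := by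
  have key : ∀ a b p : Pt, p ∈ segment ℝ (a + τ) (b + τ) → p - τ ∈ segment ℝ a b := by
    intro a b p hp
    obtain ⟨t, h0, h1, rfl⟩ := mem_seg.1 hp
    refine mem_seg.2 ⟨t, h0, h1, ?_⟩
    ext <;> simp <;> ring
  refine ⟨fun x y hxy => h.inj (add_right_cancel hxy), ?_, ?_⟩
  · intro u v w huv h1 h2 hm
    have := key _ _ _ hm
    rw [add_sub_cancel_right] at this
    exact h.vtx u v w huv h1 h2 this
  · intro u v x y huv hxy h1 h2 h3 h4
    rw [Set.disjoint_left]
    intro p hp hq
    exact Set.disjoint_left.1 (h.edg u v x y huv hxy h1 h2 h3 h4) (key _ _ _ hp) (key _ _ _ hq)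

/-- `D` vanishes exactly on collinear triples -/
theorem collinear_iff_D (a b c : Pt) : Collinear ℝ ({a, b, c} : Set Pt) ↔ D a b c = 0 := by
  by_cases hab : a = b
  · subst hab
    simp only [D_aab, iff_true]
    rw [Set.insert_eq_of_mem (by simp)]
    exact collinear_pair ℝ a c
  rw [collinear_iff_of_mem (p₀ := a) (by simp)]
  constructor
  · rintro ⟨v, hv⟩
    obtain ⟨r, hr⟩ := hv b (by simp)
    obtain ⟨s, hs⟩ := hv c (by simp)
    rw [hr, hs]
    unfold D; simp; ring
  · intro h
    refine ⟨b - a, ?_⟩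
    intro p hp
    simp only [Set.mem_insert_iff, Set.mem_singleton_iff] at hp
    rcases hp with rfl | rfl | rfl
    · exact ⟨0, by simp⟩
    · exact ⟨1, by simp⟩
    · by_cases h1 : b.1 - a.1 = 0
      · have h2 : b.2 - a.2 ≠ 0 := by
          intro h2
          exact hab (Prod.ext (by linarith) (by linarith))
        refine ⟨(p.2 - a.2) / (b.2 - a.2), ?_⟩
        unfold D at h
        rw [h1] at h
        have h3 : p.1 - a.1 = 0 := by
          have : (b.2 - a.2) * (p.1 - a.1) = 0 := by linarith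
          rcases mul_eq_zero.1 this with h4 | h4
          · exact absurd h4 h2
          · exact h4
        ext
        · simp [h1]; linarith
        · simp; field_simp; ring
      · refine ⟨(p.1 - a.1) / (b.1 - a.1), ?_⟩
        unfold D at h
        ext
        · simp; field_simp; ring
        · simp
          rw [div_mul_eq_mul_div, ← sub_eq_iff_eq_add, eq_div_iff h1]
          linarith

end MFS
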