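import Mathlib
import Pool.Agent.MFS.Defs
import Pool.Agent.MFS.Geo

/-! Helper lemmas for MFS/Bound (MP_6c0025_co, S09336): a connected family of segments which starts in a
triangle and does not meet its sides stays in the triangle; connectivity of the gadgets. -/

set_option autoImplicit false

namespace MFS
namespace BoundH

theorem exitU {a b c p q : Pt} (hp : p ∈ TriU a b c) (hq : q ∉ TriU a b c) :
    ∃ x ∈ segment ℝ p q, x ∈ segment ℝ a b ∨ x ∈ segment ℝ b c ∨ x ∈ segment ℝ c a := by
  rcases hp with hp | hp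
  · exact Tri_exit hp (fun h => hq (Or.inl h))
  · obtain ⟨x, hx, h⟩ := Tri_exit hp (fun h => hq (Or.inr h))
    refine ⟨x, hx, ?_⟩
    rcases h with h | h | h
    · right; right; rwa [segment_symm]
    · right; left; rwa [segment_symm]
    · left; rwa [segment_symm]

/-- a connected drawn graph which starts inside and misses the three sides stays inside -/
theorem stay {I : Type} (A : I → I → Prop) (f : I → Pt) {a b c : Pt} {r : I}
    (hconn : ∀ x, Relation.ReflTransGen A r x) (hr : f r ∈ TriU a b c)
    (h1 : ∀ x y, A x y → Disjoint (segment ℝ (f x) (f y)) (segment ℝ a b))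
    (h2 : ∀ x y, A x y → Disjoint (segment ℝ (f x) (f y)) (segment ℝ b c))
    (h3 : ∀ x y, A x y → Disjoint (segment ℝ (f x) (f y)) (segment ℝ c a)) :
    ∀ x, f x ∈ TriU a b c := by
  intro x
  induction hconn x with
  | refl => exact hr
  | @tail y z _ hyz ih =>
    by_contra hz
    obtain ⟨p, hp, h⟩ := exitU ih hz
    rcases h with h | h | h
    · exact Set.disjoint_left.1 (h1 _ _ hyz) hp h
    · exact Set.disjoint_left.1 (h2 _ _ hyz) hp h
    · exact Set.disjoint_left.1 (h3 _ _ hyz) hp h

/-- breadth first numbers: every vertex of the gadget graph is reached from vertex 0 -/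
theorem ga_reach : ∀ v : Fin 25, Relation.ReflTransGen GA 0 v := by
  have key : ∀ v : Fin 25, v ≠ 0 → ∃ u : Fin 25, GA u v ∧
      ([0, 1, 1, 1, 1, 1, 2, 2, 1, 2, 2, 2, 2, 3, 2, 2, 2, 3, 1, 2, 1, 1, 2, 1, 2] : List ℕ).getD u.val 0 <
      ([0, 1, 1, 1, 1, 1, 2, 2, 1, 2, 2, 2, 2, 3, 2, 2, 2, 3, 1, 2, 1, 1, 2, 1, 2] : List ℕ).getD v.val 0 := by
    decide
  intro v
  obtain ⟨n, hn⟩ : ∃ n, n = ([0, 1, 1, 1, 1, 1, 2, 2, 1, 2, 2, 2, 2, 3, 2, 2, 2, 3, 1, 2, 1, 1, 2, 1, 2] :
    List ℕ).getD v.val 0 := ⟨_, rfl⟩
  induction n using Nat.strong_induction_on generalizing v with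
  | _ n ih =>
    by_cases h0 : v = 0
    · rw [h0]
    · obtain ⟨u, hu, hlt⟩ := key v h0
      exact (ih _ (by rw [hn]; exact hlt) u rfl).tail hu

/-- every vertex of a gadget is reached from its root -/
theorem gad_reach (q : ℕ) : ∀ (i : ℕ) (x : Inn q i), Relation.ReflTransGen (Gad q i) (root i) x
  | 0 => by
      intro x
      match (x : Option (Fin q)) with
      | none => exact Relation.ReflTransGen.refl
      | some s => exact Relation.ReflTransGen.single (show Adj0 q none (some s) from trivial)
  | i + 1 => by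
      have hX : Relation.ReflTransGen (AdjS (Gad q i) (root i)) none (some (Sum.inl 0)) :=
        Relation.ReflTransGen.single (show AdjS (Gad q i) (root i) none (some (Sum.inl 0)) from rfl)
      have hG : ∀ v, Relation.ReflTransGen (AdjS (Gad q i) (root i)) none (some (Sum.inl v)) := by
        intro v
        refine hX.trans ?_
        exact Relation.ReflTransGen.lift (p := AdjS (Gad q i) (root i)) (fun v : Fin 25 => (some (Sum.inl v) : Option (Fin 25 ⊕ (Fin 27 × Inn q i))))
          (fun a b h => (show AdjS (Gad q i) (root i) (some (Sum.inl a)) (some (Sum.inl b)) from h))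
          _ _ (ga_reach v)
      intro x
      match (x : Option (Fin 25 ⊕ (Fin 27 × Inn q i))) with
      | none => exact Relation.ReflTransGen.refl
      | some (Sum.inl v) => exact hG v
      | some (Sum.inr (j, y)) =>
        have h1 : Relation.ReflTransGen (AdjS (Gad q i) (root i)) none
            (some (Sum.inr (j, root i))) :=
          (hG (Sa j)).tail (show AdjS (Gad q i) (root i) (some (Sum.inl (Sa j)))
            (some (Sum.inr (j, root i))) from ⟨rfl, Or.inl rfl⟩)
        refine h1.trans ?_
        exact Relation.ReflTransGen.lift (p := AdjS (Gad q i) (root i)) (fun y : Inn q i => (some (Sum.inr (j, y)) : Option (Fin 25 ⊕ (Fin 27 × Inn q i))))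
          (fun a b h => (show AdjS (Gad q i) (root i) (some (Sum.inr (j, a)))
            (some (Sum.inr (j, b))) from ⟨rfl, h⟩)) _ _ (gad_reach q i y)

theorem inside {I : Type} {A : I → I → Prop} {r : I} (hr : ∀ x, Relation.ReflTransGen A r x)
    {f : I → Pt} {a b c : Pt} (h0 : f r ∈ TriU a b c)
    (hs : ∀ x y, A x y → Disjoint (segment ℝ (f x) (f y)) (segment ℝ a b) ∧
      Disjoint (segment ℝ (f x) (f y)) (segment ℝ b c) ∧
      Disjoint (segment ℝ (f x) (f y)) (segment ℝ c a)) : ∀ x, f x ∈ TriU a b c :=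
  stay A f hr h0 (fun x y h => (hs x y h).1) (fun x y h => (hs x y h).2.1)
    (fun x y h => (hs x y h).2.2)

theorem reach (q i : ℕ) : ∀ x : Inn q i, Relation.ReflTransGen (Gad q i) (root i) x :=
  gad_reach q i

end BoundH
end MFS
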