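import Pool.Agent.MFS.Defs
import Pool.Agent.MFS.BoundH

/-! MP_6c0025_co: the bound for leaves on a line. -/

set_option autoImplicit false

namespace MFS

namespace BoundP

open Classical in
/-- counting -/
theorem count {α : Type} [Fintype α] (p : Fin 27 × α → Prop) (K : ℕ) (j0 : Fin 27)
    (h0 : ∀ a, ¬ p (j0, a))
    (h1 : ∀ j, (Finset.univ.filter (fun a : α => p (j, a))).card ≤ K) :
    (Finset.univ.filter p).card ≤ 26 * K := by
  have e : (Finset.univ.filter p).card =
      ∑ j : Fin 27, (Finset.univ.filter (fun a : α => p (j, a))).card := by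
    rw [Finset.card_filter, Fintype.sum_prod_type]
    refine Finset.sum_congr rfl ?_
    intro j _
    rw [Finset.card_filter]
  rw [e, ← Finset.add_sum_erase _ _ (Finset.mem_univ j0)]
  have z : (Finset.univ.filter (fun a : α => p (j0, a))).card = 0 := by
    rw [Finset.card_eq_zero, Finset.filter_eq_empty_iff]
    intro a _
    exact h0 a
  rw [z, zero_add]
  calc ∑ j ∈ Finset.univ.erase j0, (Finset.univ.filter (fun a : α => p (j, a))).card
      ≤ ∑ _j ∈ Finset.univ.erase j0, K := Finset.sum_le_sum (fun j _ => h1 j)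
    _ = 26 * K := by
      rw [Finset.sum_const, Finset.card_erase_of_mem (Finset.mem_univ _), Finset.card_univ,
        Fintype.card_fin, smul_eq_mul]

/-- restriction of a drawing along an embedding -/
theorem restr {V W : Type} {A : V → V → Prop} {B : W → W → Prop} {f : V → Pt} (h : Drw A f)
    (m : W → V) (hm : Function.Injective m) (hA : ∀ x y, B x y → A (m x) (m y)) :
    Drw B (fun x => f (m x)) where
  inj := h.inj.comp hm
  vtx := fun u v w huv h1 h2 =>
    h.vtx (m u) (m v) (m w) (hA _ _ huv) (fun e => h1 (hm e)) (fun e => h2 (hm e))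
  edg := fun u v x y huv hxy h1 h2 h3 h4 =>
    h.edg (m u) (m v) (m x) (m y) (hA _ _ huv) (hA _ _ hxy) (fun e => h1 (hm e))
      (fun e => h2 (hm e)) (fun e => h3 (hm e)) (fun e => h4 (hm e))

/-- the gadget graph with the roots of the copies inside a gadget -/
def mP {q i : ℕ} : (Fin 25 ⊕ Fin 27) → Inn q (i + 1) := fun x =>
  (match x with
  | Sum.inl u => some (Sum.inl u)
  | Sum.inr j => some (Sum.inr (j, root i)) : Option (Fin 25 ⊕ (Fin 27 × Inn q i)))

/-- a copy inside a gadget -/
def mC {q i : ℕ} (j : Fin 27) : Inn q i → Inn q (i + 1) := fun x =>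
  (some (Sum.inr (j, x)) : Option (Fin 25 ⊕ (Fin 27 × Inn q i)))

theorem mP_inj {q i : ℕ} : Function.Injective (mP (q := q) (i := i)) := by
  intro x y h
  rcases x with u | j <;> rcases y with v | j'
  · exact congrArg Sum.inl (Sum.inl.inj (Option.some.inj h))
  · exact absurd (Option.some.inj h) (by intro h; cases h)
  · exact absurd (Option.some.inj h) (by intro h; cases h)
  · exact congrArg Sum.inr (Prod.mk.inj (Sum.inr.inj (Option.some.inj h))).1

theorem mC_inj {q i : ℕ} (j : Fin 27) : Function.Injective (mC (q := q) (i := i) j) := by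
  intro x y h
  exact (Prod.mk.inj (Sum.inr.inj (Option.some.inj h))).2

theorem mP_adj {q i : ℕ} : ∀ x y, GPl x y → Gad q (i + 1) (mP x) (mP y) := by
  intro x y h
  change AdjS (Gad q i) (root i) (mP x) (mP y)
  rcases x with u | j <;> rcases y with v | j'
  · exact h
  · exact ⟨rfl, h⟩
  · exact ⟨rfl, h⟩
  · exact h.elim

theorem mC_adj {q i : ℕ} (j : Fin 27) : ∀ x y, Gad q i x y → Gad q (i + 1) (mC j x) (mC j y) := by
  intro x y h
  change AdjS (Gad q i) (root i) (mC j x) (mC j y)
  exact ⟨rfl, h⟩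

theorem side1 : ∀ j : Fin 27, GA (Sa j) (Sb j) := by decide
theorem side2 : ∀ j : Fin 27, GA (Sb j) (Sc j) := by decide
theorem side3 : ∀ j : Fin 27, GA (Sc j) (Sa j) := by decide


/-- a copy is inside its special face -/
theorem copyIn {q i : ℕ} {f : Inn q (i + 1) → Pt} (hf : Drw (Gad q (i + 1)) f) (j : Fin 27)
    (hr : ∀ x : Inn q i, Relation.ReflTransGen (Gad q i) (root i) x)
    (h0 : f (mC j (root i)) ∈ TU (fun x => f (mP x)) j) (x : Inn q i) :
    f (mC j x) ∈ TU (fun x => f (mP x)) j := by
  have key : ∀ u v : Fin 25, GA u v → ∀ x y : Inn q i, Gad q i x y →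
      Disjoint (segment ℝ (f (mC j x)) (f (mC j y)))
        (segment ℝ (f (mP (Sum.inl u))) (f (mP (Sum.inl v)))) := by
    intro u v huv x y hxy
    have hn : ∀ (z : Inn q i) (w : Fin 25), mC j z ≠ mP (q := q) (i := i) (Sum.inl w) := by
      intro z w h
      exact absurd (Option.some.inj h) (by intro h; cases h)
    exact hf.edg _ _ _ _ (mC_adj j x y hxy) (mP_adj (Sum.inl u) (Sum.inl v) huv)
      (hn _ _) (hn _ _) (hn _ _) (hn _ _)
  exact BoundH.inside hr (f := fun x => f (mC j x)) h0
    (fun x y hxy => ⟨key _ _ (side1 j) x y hxy, key _ _ (side2 j) x y hxy,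
      key _ _ (side3 j) x y hxy⟩) x

end BoundP

theorem lineBound (h : LineLemma) : LineBound := by
  intro q i
  induction i with
  | zero =>
    intro f _ n _ c
    refine (Finset.card_le_univ _).trans (le_of_eq ?_)
    rw [card_Lf]
    simp
  | succ i ih =>
    intro f hf n hn c
    obtain ⟨j0, hj1, hj2⟩ := h (fun x => f (BoundP.mP x))
      (BoundP.restr hf _ BoundP.mP_inj BoundP.mP_adj) n hn c
    have key := BoundP.count (α := Lf q i)
      (fun l : Fin 27 × Lf q i =>
        n.1 * (f (BoundP.mC l.1 (leaf i l.2))).1 + n.2 * (f (BoundP.mC l.1 (leaf i l.2))).2 = c)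
      (26 ^ i * q) j0
      (fun a => hj2 _ (BoundP.copyIn hf j0 (BoundH.reach q i) hj1 (leaf i a)))
      (fun j => ih (fun x => f (BoundP.mC j x))
        (BoundP.restr hf _ (BoundP.mC_inj j) (BoundP.mC_adj j)) n hn c)
    rw [pow_succ']
    rw [mul_assoc]
    refine le_trans (le_of_eq ?_) key
    congr 1

end MFS
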