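import Pool.Agent.MFS.Defs
import Pool.Agent.MFS.Geo

/-! MP_6c0025_co: the chain lemma from good chains and supersaturation. -/

set_option autoImplicit false

namespace MFS

namespace ChainAux

/-- index of the reference points in the chain -/
def idx (M n : ℕ) : ℕ :=
  if n ≤ 1 then n else if n = M + 3 then 2 * M + 3 else if n = M + 4 then 2 * M + 4 else 2 * (n - 1)

/-- the chain assembled from references and completions -/
def asm (M : ℕ) (R : ℕ → Pt) (Q : ℕ → Pt) (i : ℕ) : Pt :=
  if i ≤ 1 then R i else if i = 2 * M + 3 then R (M + 3) else if i = 2 * M + 4 then R (M + 4)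
  else if i % 2 = 0 then R (i / 2 + 1) else Q ((i - 3) / 2)

/-- total extension of a finite tuple -/
def ext {a : ℕ} (R : Fin a → Pt) (n : ℕ) : Pt := if h : n < a then R ⟨n, h⟩ else 0

theorem asm_zero (M : ℕ) (R Q : ℕ → Pt) : asm M R Q 0 = R 0 := by simp [asm]
theorem asm_one (M : ℕ) (R Q : ℕ → Pt) : asm M R Q 1 = R 1 := by simp [asm]
theorem asm_e' (M : ℕ) (R Q : ℕ → Pt) : asm M R Q (2 * M + 3) = R (M + 3) := by
  unfold asm; rw [if_neg (by omega), if_pos rfl]
theorem asm_e (M : ℕ) (R Q : ℕ → Pt) : asm M R Q (2 * M + 4) = R (M + 4) := by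
  unfold asm; rw [if_neg (by omega), if_neg (by omega), if_pos rfl]
theorem asm_even (M : ℕ) (R Q : ℕ → Pt) (l : ℕ) (hl : l ≤ M) : asm M R Q (2 * l + 2) = R (l + 2) := by
  unfold asm
  rw [if_neg (by omega), if_neg (by omega), if_neg (by omega), if_pos (by omega)]
  congr 1; omega
theorem asm_odd (M : ℕ) (R Q : ℕ → Pt) (l : ℕ) (hl : l < M) : asm M R Q (2 * l + 3) = Q l := by
  unfold asm
  rw [if_neg (by omega), if_neg (by omega), if_neg (by omega), if_neg (by omega)]
  congr 1; omega

/-- a good chain depends only on its first `2M+5` points -/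
theorem congr_chain {A B C : Pt} {M : ℕ} {s s' : ℕ → Pt} (h : ∀ i < 2 * M + 5, s' i = s i)
    (hs : GoodChain A B C M s) : GoodChain A B C M s' := by
  have e0 := h 0 (by omega)
  have e1 := h 1 (by omega)
  have e3 := h (2 * M + 3) (by omega)
  have e4 := h (2 * M + 4) (by omega)
  refine ⟨?_, ?_, ?_, ?_⟩
  · intro i j k hij hjk hk
    rw [h i (by omega), h j (by omega), h k (by omega)]
    exact hs.conv i j k hij hjk hk
  · rw [e0, e1, e3, e4]
    exact hs.apex
  · intro k l hk hkl hl
    rw [e0, e1, e4, h k (by omega), h l (by omega)]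
    exact hs.sepS k l hk hkl hl
  · intro k l hk hkl hl
    rw [e0, e3, e4, h k (by omega), h l (by omega)]
    exact hs.sepX k l hk hkl hl

theorem idx_lt (M n : ℕ) (hn : n < M + 5) : idx M n < 2 * M + 5 := by
  unfold idx; split_ifs <;> omega

theorem idx_inj (M m n : ℕ) (hm : m < M + 5) (hn : n < M + 5) (h : idx M m = idx M n) : m = n := by
  unfold idx at h; split_ifs at h <;> omega

theorem idx_ne (M n l : ℕ) (hn : n < M + 5) (hl : l < M) : idx M n ≠ 2 * l + 3 := by
  unfold idx; split_ifs <;> omega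

/-- the assembled chain is the given chain -/
theorem asm_idx (M : ℕ) (t : ℕ → Pt) (R Q : ℕ → Pt) (hR : ∀ n < M + 5, R n = t (idx M n))
    (hQ : ∀ l < M, Q l = t (2 * l + 3)) : ∀ i < 2 * M + 5, asm M R Q i = t i := by
  intro i hi
  by_cases h1 : i ≤ 1
  · have : asm M R Q i = R i := by unfold asm; rw [if_pos h1]
    rw [this, hR i (by omega)]
    congr 1
    unfold idx; rw [if_pos h1]
  by_cases h3 : i = 2 * M + 3
  · subst h3
    rw [asm_e', hR _ (by omega)]
    congr 1
    unfold idx; rw [if_neg (by omega), if_pos rfl]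
  by_cases h4 : i = 2 * M + 4
  · subst h4
    rw [asm_e, hR _ (by omega)]
    congr 1
    unfold idx; rw [if_neg (by omega), if_neg (by omega), if_pos rfl]
  rcases Nat.even_or_odd' i with ⟨l, hl | hl⟩
  · obtain ⟨m, rfl⟩ : ∃ m, l = m + 1 := ⟨l - 1, by omega⟩
    have : i = 2 * m + 2 := by omega
    subst this
    rw [asm_even M R Q m (by omega), hR _ (by omega)]
    congr 1
    unfold idx; rw [if_neg (by omega), if_neg (by omega), if_neg (by omega)]
    omega
  · obtain ⟨m, rfl⟩ : ∃ m, l = m + 1 := ⟨l - 1, by omega⟩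
    have : i = 2 * m + 3 := by omega
    subst this
    rw [asm_odd M R Q m (by omega), hQ m (by omega)]

theorem D_apex1 (a b e : Pt) (τ : ℝ) : D a (a + τ • (b - a)) e = τ * D a b e := by
  unfold D
  simp only [Prod.fst_add, Prod.snd_add, Prod.smul_fst, Prod.smul_snd, Prod.fst_sub, Prod.snd_sub,
    smul_eq_mul]
  ring

theorem D_apex2 (e e' p : Pt) (τ : ℝ) : D p (e + τ • (e' - e)) e = τ * D p e' e := by
  unfold D
  simp only [Prod.fst_add, Prod.snd_add, Prod.smul_fst, Prod.smul_snd, Prod.fst_sub, Prod.snd_sub,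
    smul_eq_mul]
  ring

/-- geometric continuation of a finite sequence -/
noncomputable def cont (M : ℕ) (x : ℕ → ℝ) (l : ℕ) : ℝ := if l ≤ M then x l else x M * 3 ^ (l - M)

theorem cont_le {M : ℕ} {x : ℕ → ℝ} {l : ℕ} (h : l ≤ M) : cont M x l = x l := if_pos h

theorem cont_sep {M : ℕ} {x : ℕ → ℝ} (h0 : ∀ l ≤ M, 0 < x l) (h1 : ∀ l < M, 3 * x l ≤ x (l + 1)) :
    Sep (cont M x) := by
  constructor
  · intro l
    unfold cont
    split_ifs with h
    · exact h0 l h
    · exact mul_pos (h0 M le_rfl) (by positivity)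
  · intro l
    unfold cont
    rcases lt_trichotomy l M with h | h | h
    · rw [if_pos h.le, if_pos (by omega)]
      exact h1 l h
    · subst h
      rw [if_pos le_rfl, if_neg (by omega), show l + 1 - l = 1 by omega]
      linarith
    · rw [if_neg (by omega), if_neg (by omega), show l + 1 - M = (l - M) + 1 by omega, pow_succ]
      linarith

end ChainAux

open ChainAux

theorem chainLemma (h1 : GoodLemma) (h2 : SupLemma) : ChainLemma := by
  classical
  intro M
  obtain ⟨K, hK⟩ := h1 M
  obtain ⟨W, n0, hW⟩ := h2 (M + 5) M K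
  refine ⟨W, n0, ?_⟩
  intro A B C hABC P hGP hP hn0
  obtain ⟨R, hRP, ⟨Q0, hQ0⟩, hB⟩ := hW P
    (fun R Q => GoodChain A B C M (asm M (ext R) (ext Q))) hn0 (by
      intro φ hφ hφP
      obtain ⟨ι, hι, hgood⟩ := hK A B C hABC φ hφ (fun i => hP _ (hφP i))
        (fun i j k hij hik hjk => hGP _ (hφP i) _ (hφP j) _ (hφP k) (fun h => hij (hφ h))
          (fun h => hik (hφ h)) (fun h => hjk (hφ h)))
      refine ⟨fun n => ι (idx M n), fun l => ι (2 * l + 3), ?_, ?_⟩
      · rintro (m | m) (n | n) h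
        · have hm := m.2
          have hn := n.2
          simp only [Sum.elim_inl] at h
          have := hι _ _ (idx_lt M m hm) (idx_lt M n hn) h
          rw [Fin.ext (idx_inj M m n hm hn this)]
        · have hm := m.2
          have hn := n.2
          simp only [Sum.elim_inl, Sum.elim_inr] at h
          have := hι _ _ (idx_lt M m hm) (by omega) h
          exact absurd this (idx_ne M m n hm hn)
        · have hm := m.2
          have hn := n.2
          simp only [Sum.elim_inl, Sum.elim_inr] at h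
          have := hι _ _ (by omega) (idx_lt M n hn) h
          exact absurd this.symm (idx_ne M n m hn hm)
        · have hm := m.2
          have hn := n.2
          simp only [Sum.elim_inr] at h
          have := hι _ _ (by omega) (by omega) h
          rw [Fin.ext (show (m : ℕ) = n by omega)]
      · refine congr_chain ?_ hgood
        refine asm_idx M _ _ _ ?_ ?_
        · intro n hn
          simp only [ext, hn, dif_pos, Function.comp]
        · intro l hl
          simp only [ext, hl, dif_pos, Function.comp])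
  -- the frame
  have hr : ∀ n < M + 5, ext R n ∈ P := by
    intro n hn
    simp only [ext, hn, dif_pos]
    exact hRP _
  set r := ext R with hrdef
  obtain ⟨z, hz, ⟨τ1, hτ1, hz1⟩, τ2, hτ2, hz2⟩ := hQ0.apex
  rw [asm_zero, asm_one] at hz1
  rw [asm_e, asm_e'] at hz2
  have hτ1' : 0 < τ1 := by linarith
  have hτ2' : 0 < τ2 := by linarith
  -- D with the apex
  have dS : ∀ p, D (r 0) z p = τ1 * D (r 0) (r 1) p := by
    intro p; rw [hz1]; exact D_apex1 _ _ _ _
  have dX : ∀ p, D p z (r (M + 4)) = τ2 * D p (r (M + 3)) (r (M + 4)) := by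
    intro p; rw [hz2]; exact D_apex2 _ _ _ _
  -- facts about a point of a chain
  have fact : ∀ (Q : Fin M → Pt), GoodChain A B C M (asm M r (ext Q)) → ∀ k, 2 ≤ k → k ≤ 2 * M + 2 →
      0 < D (r 0) (r 1) (asm M r (ext Q) k) ∧ 0 < D (r 0) (asm M r (ext Q) k) (r (M + 4)) ∧
        0 < D (asm M r (ext Q) k) (r (M + 3)) (r (M + 4)) := by
    intro Q hQ k hk hk'
    have c1 := hQ.conv 0 1 k (by omega) (by omega) (by omega)
    have c2 := hQ.conv 0 k (2 * M + 4) (by omega) (by omega) (by omega)
    have c3 := hQ.conv k (2 * M + 3) (2 * M + 4) (by omega) (by omega) (by omega)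
    rw [asm_zero, asm_one] at c1
    rw [asm_zero, asm_e] at c2
    rw [asm_e, asm_e'] at c3
    exact ⟨c1, c2, c3⟩
  have eX : ∀ p, fX (r 0) z (r (M + 4)) p =
      D (r 0) p (r (M + 4)) / (τ2 * D p (r (M + 3)) (r (M + 4))) := by
    intro p; unfold fX; rw [dX]
  have eS : ∀ p, fS (r 0) z (r (M + 4)) p =
      τ1 * D (r 0) (r 1) p / D (r 0) p (r (M + 4)) := by
    intro p; unfold fS; rw [dS]
  have sX : ∀ (Q : Fin M → Pt), GoodChain A B C M (asm M r (ext Q)) → ∀ k l, 2 ≤ k → k < l →
      l ≤ 2 * M + 2 → 3 * fX (r 0) z (r (M + 4)) (asm M r (ext Q) k) ≤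
        fX (r 0) z (r (M + 4)) (asm M r (ext Q) l) := by
    intro Q hQ k l hk hkl hl
    obtain ⟨-, k2, k3⟩ := fact Q hQ k hk (by omega)
    obtain ⟨-, l2, l3⟩ := fact Q hQ l (by omega) hl
    have hs := hQ.sepX k l hk hkl hl
    rw [asm_zero, asm_e, asm_e'] at hs
    rw [eX, eX, ← mul_div_assoc, div_le_div_iff₀ (by positivity) (by positivity)]
    have := mul_le_mul_of_nonneg_left hs hτ2'.le
    nlinarith [this]
  have sS : ∀ (Q : Fin M → Pt), GoodChain A B C M (asm M r (ext Q)) → ∀ k l, 2 ≤ k → k < l →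
      l ≤ 2 * M + 2 → 3 * fS (r 0) z (r (M + 4)) (asm M r (ext Q) k) ≤
        fS (r 0) z (r (M + 4)) (asm M r (ext Q) l) := by
    intro Q hQ k l hk hkl hl
    obtain ⟨k1, k2, -⟩ := fact Q hQ k hk (by omega)
    obtain ⟨l1, l2, -⟩ := fact Q hQ l (by omega) hl
    have hs := hQ.sepS k l hk hkl hl
    rw [asm_zero, asm_e, asm_one] at hs
    rw [eS, eS, ← mul_div_assoc, div_le_div_iff₀ (by positivity) (by positivity)]
    have := mul_le_mul_of_nonneg_left hs hτ1'.le
    nlinarith [this]
  have pX : ∀ (Q : Fin M → Pt), GoodChain A B C M (asm M r (ext Q)) → ∀ k, 2 ≤ k →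
      k ≤ 2 * M + 2 → 0 < fX (r 0) z (r (M + 4)) (asm M r (ext Q) k) := by
    intro Q hQ k hk hk'
    obtain ⟨-, k2, k3⟩ := fact Q hQ k hk hk'
    rw [eX]; positivity
  have pS : ∀ (Q : Fin M → Pt), GoodChain A B C M (asm M r (ext Q)) → ∀ k, 2 ≤ k →
      k ≤ 2 * M + 2 → 0 < fS (r 0) z (r (M + 4)) (asm M r (ext Q) k) := by
    intro Q hQ k hk hk'
    obtain ⟨k1, k2, -⟩ := fact Q hQ k hk hk'
    rw [eS]; positivity
  refine ⟨r 0, z, r (M + 4), cont M (fun l => fX (r 0) z (r (M + 4)) (r (l + 2))),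
    cont M (fun l => fS (r 0) z (r (M + 4)) (r (l + 2))), hP _ (hr _ (by omega)), hz,
    hP _ (hr _ (by omega)), ?_, ?_, ?_, ?_⟩
  · rw [dS]
    have := hQ0.conv 0 1 (2 * M + 4) (by omega) (by omega) (by omega)
    rw [asm_zero, asm_one, asm_e] at this
    positivity
  · refine cont_sep ?_ ?_
    · intro l hl
      have := pX Q0 hQ0 (2 * l + 2) (by omega) (by omega)
      rwa [asm_even M _ _ l hl] at this
    · intro l hl
      have := sX Q0 hQ0 (2 * l + 2) (2 * (l + 1) + 2) (by omega) (by omega) (by omega)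
      rwa [asm_even M _ _ l (by omega), asm_even M _ _ (l + 1) (by omega)] at this
  · refine cont_sep ?_ ?_
    · intro l hl
      have := pS Q0 hQ0 (2 * l + 2) (by omega) (by omega)
      rwa [asm_even M _ _ l hl] at this
    · intro l hl
      have := sS Q0 hQ0 (2 * l + 2) (2 * (l + 1) + 2) (by omega) (by omega) (by omega)
      rwa [asm_even M _ _ l (by omega), asm_even M _ _ (l + 1) (by omega)] at this
  · intro l hl
    obtain ⟨S, hSP, hS, hcard⟩ := hB ⟨l, hl⟩
    refine hcard.trans (Nat.mul_le_mul_left W (Finset.card_le_card ?_))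
    intro p hp
    rw [Finset.mem_filter]
    refine ⟨hSP hp, ?_⟩
    obtain ⟨Q, hQ, hQp⟩ := hS p hp
    have hp' : asm M r (ext Q) (2 * l + 3) = p := by
      rw [asm_odd M _ _ l hl]
      simp only [ext, hl, dif_pos]
      exact hQp
    obtain ⟨f1, f2, f3⟩ := fact Q hQ (2 * l + 3) (by omega) (by omega)
    rw [hp'] at f1 f2 f3
    have b1 := sX Q hQ (2 * l + 2) (2 * l + 3) (by omega) (by omega) (by omega)
    have b2 := sX Q hQ (2 * l + 3) (2 * (l + 1) + 2) (by omega) (by omega) (by omega)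
    have b3 := sS Q hQ (2 * l + 2) (2 * l + 3) (by omega) (by omega) (by omega)
    have b4 := sS Q hQ (2 * l + 3) (2 * (l + 1) + 2) (by omega) (by omega) (by omega)
    have q1 := pX Q hQ (2 * l + 2) (by omega) (by omega)
    have q2 := pX Q hQ (2 * l + 3) (by omega) (by omega)
    have q3 := pS Q hQ (2 * l + 2) (by omega) (by omega)
    have q4 := pS Q hQ (2 * l + 3) (by omega) (by omega)
    rw [hp'] at b1 b2 b3 b4 q2 q4
    rw [asm_even M _ _ l (by omega)] at b1 b3 q1 q3
    rw [asm_even M _ _ (l + 1) (by omega)] at b2 b4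
    rw [cont_le hl.le, cont_le (show l + 1 ≤ M from hl), cont_le hl.le,
      cont_le (show l + 1 ≤ M from hl)]
    refine ⟨⟨?_, ?_, ?_⟩, ?_, ?_, ?_, ?_⟩
    · rw [dS]; positivity
    · rw [D_rot' z (r (M + 4)) p, dX]; positivity
    · rw [D_rot (r (M + 4)) (r 0) p]; exact f2
    · linarith
    · linarith
    · linarith
    · linarith

end MFS
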