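import Pool.Agent.MFS.Geo

/-! The core statement from which the frozen statement and our own one follow. -/

set_option autoImplicit false

namespace MFS

/-- core: mostly free sets with few vertices on every line -/
def Core : Prop :=
  ∀ γ : ℝ, 0 < γ → ∃ (V : Type) (_ : Fintype V) (G : SimpleGraph V) (S : Finset V), S.Nonempty ∧
    (∀ P : Finset Pt, P.card = S.card → GP P → ∃ f : V → Pt, Drw G.Adj f ∧ ∀ s ∈ S, f s ∈ P) ∧
    ∀ f : V → Pt, Drw G.Adj f → ∀ n : Pt, n ≠ 0 → ∀ c : ℝ,
      ((S.filter (fun s => n.1 * (f s).1 + n.2 * (f s).2 = c)).card : ℝ) < γ * S.card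

end MFS
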