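import Pool.Agent.MFS.Final
import Pool.Agent.MFS.CoreDef

/-! The core statement: mostly free sets with few vertices on every line. -/

set_option autoImplicit false

namespace MFS

namespace CoreP

open Fin0

open Classical in
theorem line_As (h1 : LineBound) (i : ℕ) (n : Pt) (hn : n ≠ 0) (c : ℝ) :
    (qs : List ℕ) → ∀ f : Vs i qs → Pt, Drw (As i qs) f →
    (Finset.univ.filter (fun l : Ls i qs =>
      n.1 * (f (lfs i qs l)).1 + n.2 * (f (lfs i qs l)).2 = c)).card ≤ 26 ^ i * qs.sum
  | [] => by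
      intro f _
      have : Fintype.card (Ls i []) = 0 := by rw [card_Ls]; simp
      have h2 : (Finset.univ.filter (fun l : Ls i [] =>
          n.1 * (f (lfs i [] l)).1 + n.2 * (f (lfs i [] l)).2 = c)).card ≤
        (Finset.univ : Finset (Ls i [])).card := Finset.card_filter_le _ _
      rw [Finset.card_univ, this] at h2
      omega
  | q :: qs => by
      intro f hf
      have ha : (Finset.univ.filter (fun l : Lf q i =>
          n.1 * ((f ∘ Sum.inl) (leaf i l)).1 + n.2 * ((f ∘ Sum.inl) (leaf i l)).2 = c)).card ≤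
          26 ^ i * q := by
        have hd : Drw (Gad q i) (f ∘ (Sum.inl : Inn q i → Inn q i ⊕ Vs i qs)) :=
          Drw.comp (A := As i (q :: qs)) hf (Sum.inl : Inn q i → Inn q i ⊕ Vs i qs) Sum.inl_injective
            (fun x y hxy => hxy)
        exact h1 q i _ hd n hn c
      have hb : (Finset.univ.filter (fun l : Ls i qs =>
          n.1 * ((f ∘ Sum.inr) (lfs i qs l)).1 + n.2 * ((f ∘ Sum.inr) (lfs i qs l)).2 = c)).card ≤
          26 ^ i * qs.sum := by
        have hd : Drw (As i qs) (f ∘ (Sum.inr : Vs i qs → Inn q i ⊕ Vs i qs)) :=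
          Drw.comp (A := As i (q :: qs)) hf (Sum.inr : Vs i qs → Inn q i ⊕ Vs i qs) Sum.inr_injective
            (fun x y hxy => hxy)
        exact line_As h1 i n hn c qs _ hd
      have hle : (Finset.univ.filter
          (fun l : Ls i (q :: qs) =>
            n.1 * (f (lfs i (q :: qs) l)).1 + n.2 * (f (lfs i (q :: qs) l)).2 = c)).card ≤
          ((Finset.univ.filter (fun l : Lf q i =>
              n.1 * ((f ∘ Sum.inl) (leaf i l)).1 + n.2 * ((f ∘ Sum.inl) (leaf i l)).2 = c)).disjSum
            (Finset.univ.filter (fun l : Ls i qs =>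
              n.1 * ((f ∘ Sum.inr) (lfs i qs l)).1 + n.2 * ((f ∘ Sum.inr) (lfs i qs l)).2 = c))).card := by
        apply Finset.card_le_card_of_injOn (fun x => (x : Lf q i ⊕ Ls i qs))
        · intro x hx
          have hx' := (Finset.mem_filter.1 (Finset.mem_coe.1 hx)).2
          rw [Finset.mem_coe]
          match x, hx' with
          | Sum.inl x, hx' =>
            exact Finset.inl_mem_disjSum.2 (Finset.mem_filter.2 ⟨Finset.mem_univ _, hx'⟩)
          | Sum.inr x, hx' =>
            exact Finset.inr_mem_disjSum.2 (Finset.mem_filter.2 ⟨Finset.mem_univ _, hx'⟩)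
        · intro x _ y _ h
          exact h
      rw [Finset.card_disjSum] at hle
      rw [List.sum_cons, Nat.mul_add]
      omega

/-- vertices of the special set on a line -/
theorem small (h1 : LineBound) (i : ℕ) (qs : List ℕ) (I : ℕ) (n : Pt) (hn : n ≠ 0) (c : ℝ)
    (T : Finset (Vs i qs ⊕ Fin I))
    (hT : T ⊆ Sp i qs I) (f : Vs i qs ⊕ Fin I → Pt) (hf : Drw (Gr i qs I).Adj f)
    (hl : ∀ t ∈ T, n.1 * (f t).1 + n.2 * (f t).2 = c) : T.card ≤ 26 ^ i * qs.sum + I := by
  classical
  have hd : Drw (As i qs) (f ∘ Sum.inl) := Drw.comp hf Sum.inl Sum.inl_injective (fun x y h => h)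
  have h2 := line_As h1 i n hn c qs _ hd
  have h3 : T ⊆ ((Finset.univ.filter
      (fun l : Ls i qs => n.1 * ((f ∘ Sum.inl) (lfs i qs l)).1 +
        n.2 * ((f ∘ Sum.inl) (lfs i qs l)).2 = c)).disjSum
        (Finset.univ : Finset (Fin I))).image (Sum.map (lfs i qs) (id : Fin I → Fin I)) := by
    intro t ht
    have h4 := hT ht
    unfold Sp at h4
    rw [Finset.mem_image] at h4 ⊢
    obtain ⟨l, -, rfl⟩ := h4
    refine ⟨l, ?_, rfl⟩
    match l, ht with
    | Sum.inl l, ht =>
      exact Finset.inl_mem_disjSum.2 (Finset.mem_filter.2 ⟨Finset.mem_univ _, hl _ ht⟩)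
    | Sum.inr j, _ => exact Finset.inr_mem_disjSum.2 (Finset.mem_univ _)
  have h4 := Finset.card_le_card h3
  have h5 := h4.trans Finset.card_image_le
  rw [Finset.card_disjSum, Finset.card_univ, Fintype.card_fin] at h5
  omega

end CoreP

open Fin0 in
theorem core (h1 : LineBound) (h2 : PackLemma) (h3 : ∀ i, Univ i) (h4 : NumLemma) : Core := by
  classical
  intro γ hγ
  obtain ⟨i, hi⟩ : ∃ i : ℕ, ((26 : ℝ) / 27) ^ i < γ / 2 :=
    exists_pow_lt_of_lt_one (by linarith) (by norm_num)
  obtain ⟨c, b, hc, hpack⟩ := h2 i (h3 i)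
  obtain ⟨qs, n, hn, hgood, hle, hδ⟩ := h4 i c b hc (γ / 2) (by linarith)
  obtain ⟨I, hI⟩ := Nat.exists_eq_add_of_le hle
  have hI' : 27 ^ i * qs.sum + I = n := hI.symm
  refine ⟨Vs i qs ⊕ Fin I, inferInstance, Gr i qs I, Sp i qs I, ?_, ?_, ?_⟩
  · rw [← Finset.card_pos, card_Sp, hI']; exact hn
  · intro P hPc hgp
    exact mostly i c b qs n I hI' hgood hpack P (by rw [hPc, card_Sp, hI']) hgp
  · intro f hf m hm d
    have hsm := CoreP.small h1 i qs I m hm d
      ((Sp i qs I).filter (fun s => m.1 * (f s).1 + m.2 * (f s).2 = d)) (Finset.filter_subset _ _) f hf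
      (fun t ht => (Finset.mem_filter.1 ht).2)
    rw [card_Sp, hI']
    have hn0 : (0 : ℝ) < n := by exact_mod_cast hn
    have e1 : (((Sp i qs I).filter (fun s => m.1 * (f s).1 + m.2 * (f s).2 = d)).card : ℝ) ≤
      26 ^ i * qs.sum + I := by exact_mod_cast hsm
    have e2 : (n : ℝ) = 27 ^ i * qs.sum + I := by exact_mod_cast hI
    have e3 : (I : ℝ) ≤ γ / 2 * n := by
      have : (I : ℝ) = n - 27 ^ i * qs.sum := by rw [e2]; ring
      rw [this]
      linarith [hδ]
    have e4 : (26 : ℝ) ^ i * qs.sum = (26 / 27) ^ i * (27 ^ i * qs.sum) := by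
      rw [div_pow]; field_simp
    have e5 : (27 : ℝ) ^ i * qs.sum ≤ n := by rw [e2]; linarith [Nat.cast_nonneg (α := ℝ) I]
    have e6 : ((26 : ℝ) / 27) ^ i * (27 ^ i * qs.sum) ≤ (26 / 27) ^ i * n :=
      mul_le_mul_of_nonneg_left e5 (by positivity)
    have e7 : ((26 : ℝ) / 27) ^ i * n < γ / 2 * n := mul_lt_mul_of_pos_right hi hn0
    rw [e4] at e1
    linarith

end MFS
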