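import Mathlib
import Pool.Agent.MFS.Defs

/-! Cutting a triangle by finitely many lines (MP_6c0025_co, S09336). -/

set_option autoImplicit false

namespace MFS
namespace CutL

theorem D_swap (u v x : Pt) : D v u x = - D u v x := by simp only [D]; ring

theorem tri_comb (a b c p q x : Pt) :
    D a b c * D p q x = D b c x * D p q a + D c a x * D p q b + D a b x * D p q c := by
  simp only [D]; ring

theorem D_sum (a b c x : Pt) : D a b x + D b c x + D c a x = D a b c := by
  simp only [D]; ring

theorem pos_of_mem {a b c x : Pt} (h : x ∈ Tri a b c) : 0 < D a b c := by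
  rw [← D_sum a b c x]; exact add_pos (add_pos h.1 h.2.1) h.2.2

theorem posTri {a b c p q x : Pt} (hx : x ∈ Tri a b c) (ha : 0 ≤ D p q a) (hb : 0 ≤ D p q b)
    (hc : 0 ≤ D p q c) (h : 0 < D p q a ∨ 0 < D p q b ∨ 0 < D p q c) : 0 < D p q x := by
  have h0 := pos_of_mem hx
  have h1 := tri_comb a b c p q x
  have hA : 0 ≤ D b c x * D p q a := mul_nonneg hx.2.1.le ha
  have hB : 0 ≤ D c a x * D p q b := mul_nonneg hx.2.2.le hb
  have hC : 0 ≤ D a b x * D p q c := mul_nonneg hx.1.le hc
  have h2 : 0 < D a b c * D p q x := by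
    rw [h1]
    rcases h with h | h | h
    · have : 0 < D b c x * D p q a := mul_pos hx.2.1 h
      linarith
    · have : 0 < D c a x * D p q b := mul_pos hx.2.2 h
      linarith
    · have : 0 < D a b x * D p q c := mul_pos hx.1 h
      linarith
  exact (pos_iff_pos_of_mul_pos h2).1 h0

/-- one line, conclusion -/
def One (u v A B C : Pt) : Prop :=
  ∃ F : List T3, F.length ≤ 3 ∧ (∀ t ∈ F, 0 < D t.1 t.2.1 t.2.2) ∧ (∀ t ∈ F, tri t ⊆ Tri A B C) ∧
    F.Pairwise (fun s t => Disjoint (tri s) (tri t)) ∧
    (∀ t ∈ F, ∀ x ∈ tri t, D u v x ≠ 0) ∧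
    ∃ u' v' : Pt, u' ≠ v' ∧ ∀ p ∈ Tri A B C, (∃ t ∈ F, p ∈ tri t) ∨ D u v p = 0 ∨ D u' v' p = 0

theorem Tri_rot (A B C : Pt) : Tri A B C = Tri B C A := by
  ext x; constructor
  · rintro ⟨h1, h2, h3⟩; exact ⟨h2, h3, h1⟩
  · rintro ⟨h1, h2, h3⟩; exact ⟨h3, h1, h2⟩

theorem One.rot {u v A B C : Pt} (h : One u v B C A) : One u v A B C := by
  obtain ⟨F, h1, h2, h3, h4, h5, u', v', h6, h7⟩ := h
  refine ⟨F, h1, h2, ?_, h4, h5, u', v', h6, ?_⟩
  · intro t ht; rw [Tri_rot A B C]; exact h3 t ht
  · intro p hp; rw [Tri_rot A B C] at hp; exact h7 p hp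

theorem One.swap {u v A B C : Pt} (h : One v u A B C) : One u v A B C := by
  obtain ⟨F, h1, h2, h3, h4, h5, u', v', h6, h7⟩ := h
  refine ⟨F, h1, h2, h3, h4, ?_, u', v', h6, ?_⟩
  · intro t ht x hx hc; apply h5 t ht x hx; rw [D_swap u v x, hc, neg_zero]
  · intro p hp
    rcases h7 p hp with h | h | h
    · exact Or.inl h
    · right; left; rw [D_swap v u p, h, neg_zero]
    · right; right; exact h

/-- no line passes weakly on one side of all three corners and through an inner point -/
theorem one_side {u v A B C : Pt} (hD : 0 < D A B C) (huv : u ≠ v)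
    (ha : 0 ≤ D u v A) (hb : 0 ≤ D u v B) (hc : 0 ≤ D u v C) : One u v A B C := by
  have hne : 0 < D u v A ∨ 0 < D u v B ∨ 0 < D u v C := by
    by_contra hcon
    push Not at hcon
    obtain ⟨h1, h2, h3⟩ := hcon
    have a0 : D u v A = 0 := le_antisymm h1 ha
    have b0 : D u v B = 0 := le_antisymm h2 hb
    have c0 : D u v C = 0 := le_antisymm h3 hc
    apply huv
    simp only [D] at a0 b0 c0 hD
    have e1 : (v.1 - u.1) * (B.2 - A.2) - (v.2 - u.2) * (B.1 - A.1) = 0 := by linarith
    have e2 : (v.1 - u.1) * (C.2 - A.2) - (v.2 - u.2) * (C.1 - A.1) = 0 := by linarith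
    have f1 : (v.1 - u.1) * ((B.1 - A.1) * (C.2 - A.2) - (B.2 - A.2) * (C.1 - A.1)) = 0 := by
      linear_combination (B.1 - A.1) * e2 - (C.1 - A.1) * e1
    have f2 : (v.2 - u.2) * ((B.1 - A.1) * (C.2 - A.2) - (B.2 - A.2) * (C.1 - A.1)) = 0 := by
      linear_combination (B.2 - A.2) * e2 - (C.2 - A.2) * e1
    have g1 : v.1 - u.1 = 0 := (mul_eq_zero.1 f1).resolve_right hD.ne'
    have g2 : v.2 - u.2 = 0 := (mul_eq_zero.1 f2).resolve_right hD.ne'
    exact Prod.ext (by linarith) (by linarith)
  refine ⟨[(A, B, C)], by simp, ?_, ?_, by simp, ?_, u, v, huv, ?_⟩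
  · intro t ht; rw [List.mem_singleton.1 ht]; exact hD
  · intro t ht; rw [List.mem_singleton.1 ht]; exact fun x hx => hx
  · intro t ht; rw [List.mem_singleton.1 ht]
    intro x hx; exact (posTri (show x ∈ Tri A B C from hx) ha hb hc hne).ne'
  · intro p hp; exact Or.inl ⟨_, List.mem_singleton_self _, hp⟩

open Classical in
/-- the corner `A` is strictly alone on its side -/
theorem one_alone {u v A B C : Pt} (hD : 0 < D A B C)
    (ha : 0 < D u v A) (hb : D u v B ≤ 0) (hc : D u v C ≤ 0) : One u v A B C := by
  obtain ⟨tb, htb⟩ : ∃ tb, tb = D u v A / (D u v A - D u v B) := ⟨_, rfl⟩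
  obtain ⟨tc, htc⟩ : ∃ tc, tc = D u v A / (D u v A - D u v C) := ⟨_, rfl⟩
  have hab : 0 < D u v A - D u v B := by linarith
  have hac : 0 < D u v A - D u v C := by linarith
  have htb0 : 0 < tb := by rw [htb]; exact div_pos ha hab
  have htc0 : 0 < tc := by rw [htc]; exact div_pos ha hac
  have htb1 : tb ≤ 1 := by rw [htb, div_le_one hab]; linarith
  have htc1 : tc ≤ 1 := by rw [htc, div_le_one hac]; linarith
  have eb : tb * (D u v A - D u v B) = D u v A := by rw [htb]; field_simp
  have ec : tc * (D u v A - D u v C) = D u v A := by rw [htc]; field_simp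
  obtain ⟨B', hB'⟩ : ∃ B' : Pt, B' = (A.1 + tb * (B.1 - A.1), A.2 + tb * (B.2 - A.2)) := ⟨_, rfl⟩
  obtain ⟨C', hC'⟩ : ∃ C' : Pt, C' = (A.1 + tc * (C.1 - A.1), A.2 + tc * (C.2 - A.2)) := ⟨_, rfl⟩
  -- values of affine functions at the new points
  have valB : ∀ p q : Pt, D p q B' = (1 - tb) * D p q A + tb * D p q B := by
    intro p q; rw [hB']; simp only [D]; ring
  have valC : ∀ p q : Pt, D p q C' = (1 - tc) * D p q A + tc * D p q C := by
    intro p q; rw [hC']; simp only [D]; ring
  have gB : D u v B' = 0 := by rw [valB]; linarith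
  have gC : D u v C' = 0 := by rw [valC]; linarith
  have eAB : ∀ x, D A B' x = tb * D A B x := by
    intro x; rw [hB']; simp only [D]; ring
  have eBB : ∀ x, D B' B x = (1 - tb) * D A B x := by
    intro x; rw [hB']; simp only [D]; ring
  have eCA : ∀ x, D C' A x = tc * D C A x := by
    intro x; rw [hC']; simp only [D]; ring
  have eCC : ∀ x, D C C' x = (1 - tc) * D C A x := by
    intro x; rw [hC']; simp only [D]; ring
  have eBCA : D B' C' A = tb * tc * D A B C := by
    rw [hB', hC']; simp only [D]; ring
  have hBCA : 0 < D B' C' A := by rw [eBCA]; positivity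
  -- the line B' C' is the zero set of D u v
  have eG : ∀ x, D B' C' A * D u v x = D B' C' x * D u v A := by
    intro x
    have h := tri_comb B' C' A u v x
    rw [gB, gC] at h; linarith
  have sgn : ∀ x, 0 < D u v x ↔ 0 < D B' C' x := by
    intro x
    have h := eG x
    constructor
    · intro hx
      have : 0 < D B' C' x * D u v A := by rw [← h]; exact mul_pos hBCA hx
      exact (pos_iff_pos_of_mul_pos this).2 ha
    · intro hx
      have : 0 < D B' C' A * D u v x := by rw [h]; exact mul_pos hx ha
      exact (pos_iff_pos_of_mul_pos this).1 hBCA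
  have sgn' : ∀ x, D u v x < 0 ↔ D B' C' x < 0 := by
    intro x
    have h := eG x
    constructor
    · intro hx
      by_contra hcon
      push Not at hcon
      have h1 : 0 ≤ D B' C' x * D u v A := mul_nonneg hcon ha.le
      have h2 : D B' C' A * D u v x < 0 := mul_neg_of_pos_of_neg hBCA hx
      linarith
    · intro hx
      by_contra hcon
      push Not at hcon
      have h1 : 0 ≤ D B' C' A * D u v x := mul_nonneg hBCA.le hcon
      have h2 : D B' C' x * D u v A < 0 := mul_neg_of_neg_of_pos hx ha
      linarith
  obtain ⟨L, hL⟩ : ∃ L : List T3, L = [(A, B', C'), (B', B, C), (B', C, C')] := ⟨_, rfl⟩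
  have hBC : B' ≠ C := by
    intro h
    have h1 : D A B' C = 0 := by rw [h]; simp only [D]; ring
    rw [eAB] at h1
    have : 0 < tb * D A B C := by positivity
    linarith
  -- the three pieces
  have sub1 : ∀ x ∈ Tri A B' C', x ∈ Tri A B C ∧ 0 < D u v x := by
    rintro x ⟨h1, h2, h3⟩
    rw [eAB] at h1; rw [eCA] at h3
    have h4 : 0 < D u v x := (sgn x).2 h2
    have h1' : 0 < D A B x := (pos_iff_pos_of_mul_pos h1).1 htb0
    have h3' : 0 < D C A x := (pos_iff_pos_of_mul_pos h3).1 htc0
    refine ⟨⟨h1', ?_, h3'⟩, h4⟩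
    have h := tri_comb A B C u v x
    have h5 : 0 < D A B C * D u v x := mul_pos hD h4
    have h6 : D C A x * D u v B ≤ 0 := mul_nonpos_of_nonneg_of_nonpos h3'.le hb
    have h7 : D A B x * D u v C ≤ 0 := mul_nonpos_of_nonneg_of_nonpos h1'.le hc
    have h8 : 0 < D B C x * D u v A := by linarith
    exact (pos_iff_pos_of_mul_pos h8).2 ha
  have nv : ∀ x, D v u x = - D u v x := fun x => D_swap u v x
  have dCB : D C A B = D A B C := by simp only [D]; ring
  have dBC : D B C A = D A B C := by simp only [D]; ring
  have z1 : ∀ p q : Pt, D p q p = 0 := by intro p q; simp only [D]; ring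
  have z2 : ∀ p q : Pt, D p q q = 0 := by intro p q; simp only [D]; ring
  have sub2 : ∀ x ∈ Tri B' B C, x ∈ Tri A B C ∧ D u v x < 0 ∧ D B' C x < 0 := by
    intro x hx
    have h0 := hx
    obtain ⟨h1, h2, h3⟩ := hx
    rw [eBB] at h1
    have ht : tb < 1 := by
      rcases lt_or_eq_of_le htb1 with h | h
      · exact h
      · rw [h] at h1; simp at h1
    have hbneg : D u v B < 0 := by
      rcases lt_or_eq_of_le hb with h | h
      · exact h
      · exfalso; rw [h, sub_zero] at eb
        have := mul_lt_mul_of_pos_right ht ha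
        linarith
    have h1' : 0 < D A B x := (pos_iff_pos_of_mul_pos h1).1 (by linarith)
    refine ⟨⟨h1', h2, ?_⟩, ?_, ?_⟩
    · apply posTri h0
      · rw [valB, z2, dCB]; positivity
      · rw [dCB]; exact hD.le
      · rw [z1]
      · right; left; rw [dCB]; exact hD
    · have : 0 < D v u x := by
        apply posTri h0
        · rw [nv, gB, neg_zero]
        · rw [nv]; linarith
        · rw [nv]; linarith
        · right; left; rw [nv]; linarith
      rw [nv] at this; linarith
    · have := D_swap C B' x; linarith
  have sub3 : ∀ x ∈ Tri B' C C', x ∈ Tri A B C ∧ D u v x < 0 ∧ 0 < D B' C x := by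
    intro x hx
    have h0 := hx
    obtain ⟨h1, h2, h3⟩ := hx
    rw [eCC] at h2
    have ht : tc < 1 := by
      rcases lt_or_eq_of_le htc1 with h | h
      · exact h
      · rw [h] at h2; simp at h2
    have h2' : 0 < D C A x := (pos_iff_pos_of_mul_pos h2).1 (by linarith)
    have h3' : D B' C' x < 0 := by have := D_swap C' B' x; linarith
    refine ⟨⟨?_, ?_, h2'⟩, (sgn' x).2 h3', h1⟩
    · apply posTri h0
      · rw [valB, z1, z2]; simp
      · exact hD.le
      · rw [valC, z1]; nlinarith [mul_pos htc0 hD]
      · right; left; exact hD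
    · apply posTri h0
      · rw [valB, z1, dBC]; nlinarith [mul_nonneg (sub_nonneg.2 htb1) hD.le]
      · rw [z2]
      · rw [valC, z2, dBC]; nlinarith [mul_nonneg (sub_nonneg.2 htc1) hD.le]
      · right; right; rw [valC, z2, dBC]; nlinarith [mul_pos (sub_pos.2 ht) hD]
  refine ⟨L.filter (fun t => decide (0 < D t.1 t.2.1 t.2.2)), ?_, ?_, ?_, ?_, ?_, B', C, hBC, ?_⟩
  · refine (List.length_filter_le _ _).trans ?_
    rw [hL]; simp
  · intro t ht; simpa using (List.mem_filter.1 ht).2
  · intro t ht
    have h := (List.mem_filter.1 ht).1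
    rw [hL] at h
    simp only [List.mem_cons, List.not_mem_nil, or_false] at h
    rcases h with h | h | h <;> rw [h] <;> intro x hx
    · exact (sub1 x hx).1
    · exact (sub2 x hx).1
    · exact (sub3 x hx).1
  · apply List.Pairwise.filter
    rw [hL]
    simp only [List.pairwise_cons, List.mem_cons, List.not_mem_nil, or_false, forall_eq_or_imp,
      forall_eq, IsEmpty.forall_iff, implies_true, List.Pairwise.nil, and_true]
    refine ⟨⟨?_, ?_⟩, ?_⟩
    · rw [Set.disjoint_left]; intro x hx hy
      have a1 := (sub1 x hx).2; have a2 := (sub2 x hy).2.1; linarith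
    · rw [Set.disjoint_left]; intro x hx hy
      have a1 := (sub1 x hx).2; have a2 := (sub3 x hy).2.1; linarith
    · rw [Set.disjoint_left]; intro x hx hy
      have a1 := (sub2 x hx).2.2; have a2 := (sub3 x hy).2.2; linarith
  · intro t ht x hx
    have h := (List.mem_filter.1 ht).1
    rw [hL] at h
    simp only [List.mem_cons, List.not_mem_nil, or_false] at h
    rcases h with h | h | h <;> rw [h] at hx
    · exact (sub1 x hx).2.ne'
    · exact (sub2 x hx).2.1.ne
    · exact (sub3 x hx).2.1.ne
  · intro p hp
    by_cases hz : D u v p = 0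
    · exact Or.inr (Or.inl hz)
    by_cases hz' : D B' C p = 0
    · exact Or.inr (Or.inr hz')
    left
    have key : ∀ t ∈ L, p ∈ tri t → ∃ t ∈ L.filter (fun t => decide (0 < D t.1 t.2.1 t.2.2)),
        p ∈ tri t := by
      intro t ht hpt
      refine ⟨t, List.mem_filter.2 ⟨ht, ?_⟩, hpt⟩
      simpa using pos_of_mem hpt
    rcases lt_or_gt_of_ne hz with h | h
    · rcases lt_or_gt_of_ne hz' with h' | h'
      · -- piece 2
        have ht : tb < 1 := by
          rcases lt_or_eq_of_le htb1 with h1 | h1
          · exact h1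
          · exfalso
            have hBB : B' = B := by rw [hB', h1]; ext <;> simp
            rw [hBB] at h'
            have := hp.2.1
            linarith
        refine key (B', B, C) (by rw [hL]; simp) ⟨?_, hp.2.1, ?_⟩
        · show 0 < D B' B p
          rw [eBB]; exact mul_pos (by linarith) hp.1
        · show 0 < D C B' p
          have := D_swap B' C p; linarith
      · -- piece 3
        have ht : tc < 1 := by
          rcases lt_or_eq_of_le htc1 with h1 | h1
          · exact h1
          · exfalso
            have hCC : C' = C := by rw [hC', h1]; ext <;> simp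
            have h2 := (sgn' p).1 h
            rw [hCC] at h2
            linarith
        refine key (B', C, C') (by rw [hL]; simp) ⟨h', ?_, ?_⟩
        · show 0 < D C C' p
          rw [eCC]; exact mul_pos (by linarith) hp.2.2
        · show 0 < D C' B' p
          have := D_swap B' C' p; have h2 := (sgn' p).1 h; linarith
    · refine key (A, B', C') (by rw [hL]; simp) ⟨?_, (sgn p).1 h, ?_⟩
      · show 0 < D A B' p
        rw [eAB]; exact mul_pos htb0 hp.1
      · show 0 < D C' A p
        rw [eCA]; exact mul_pos htc0 hp.2.2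

theorem one_line {u v A B C : Pt} (hD : 0 < D A B C) (huv : u ≠ v) : One u v A B C := by
  have hD1 : 0 < D B C A := by have : D B C A = D A B C := by simp only [D]; ring
                               rw [this]; exact hD
  have hD2 : 0 < D C A B := by have : D C A B = D A B C := by simp only [D]; ring
                               rw [this]; exact hD
  have nA := D_swap u v A
  have nB := D_swap u v B
  have nC := D_swap u v C
  rcases lt_trichotomy (D u v A) 0 with a | a | a <;> rcases lt_trichotomy (D u v B) 0 with b | b | b <;>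
    rcases lt_trichotomy (D u v C) 0 with c | c | c
  -- A neg
  · exact One.swap (one_side hD huv.symm (by linarith) (by linarith) (by linarith))
  · exact One.swap (one_side hD huv.symm (by linarith) (by linarith) (by linarith))
  · exact One.rot (One.rot (one_alone hD2 c (by linarith) (by linarith)))
  · exact One.swap (one_side hD huv.symm (by linarith) (by linarith) (by linarith))
  · exact One.swap (one_side hD huv.symm (by linarith) (by linarith) (by linarith))
  · exact One.rot (One.rot (one_alone hD2 c (by linarith) (by linarith)))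
  · exact One.rot (one_alone hD1 b (by linarith) (by linarith))
  · exact One.rot (one_alone hD1 b (by linarith) (by linarith))
  · exact One.swap (one_alone hD (by linarith) (by linarith) (by linarith))
  -- A zero
  · exact One.swap (one_side hD huv.symm (by linarith) (by linarith) (by linarith))
  · exact One.swap (one_side hD huv.symm (by linarith) (by linarith) (by linarith))
  · exact One.rot (One.rot (one_alone hD2 c (by linarith) (by linarith)))
  · exact One.swap (one_side hD huv.symm (by linarith) (by linarith) (by linarith))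
  · exact one_side hD huv (by linarith) (by linarith) (by linarith)
  · exact one_side hD huv (by linarith) (by linarith) (by linarith)
  · exact One.rot (one_alone hD1 b (by linarith) (by linarith))
  · exact one_side hD huv (by linarith) (by linarith) (by linarith)
  · exact one_side hD huv (by linarith) (by linarith) (by linarith)
  -- A pos
  · exact one_alone hD a (by linarith) (by linarith)
  · exact one_alone hD a (by linarith) (by linarith)
  · exact One.rot (One.swap (one_alone hD1 (by linarith) (by linarith) (by linarith)))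
  · exact one_alone hD a (by linarith) (by linarith)
  · exact one_side hD huv (by linarith) (by linarith) (by linarith)
  · exact one_side hD huv (by linarith) (by linarith) (by linarith)
  · exact One.rot (One.rot (One.swap (one_alone hD2 (by linarith) (by linarith) (by linarith))))
  · exact one_side hD huv (by linarith) (by linarith) (by linarith)
  · exact one_side hD huv (by linarith) (by linarith) (by linarith)

open Classical in
/-- at most two points of a set in general position lie on a line -/
theorem two_on_line {P : Finset Pt} (hP : GP P) {u v : Pt} (huv : u ≠ v) :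
    (P.filter (fun p => D u v p = 0)).card ≤ 2 := by
  by_contra hcon
  push Not at hcon
  obtain ⟨a, b, c, ha, hb, hc, hab, hac, hbc⟩ := (Finset.two_lt_card_iff).1 hcon
  rw [Finset.mem_filter] at ha hb hc
  apply hP a ha.1 b hb.1 c hc.1 hab hac hbc
  have a0 := ha.2; have b0 := hb.2; have c0 := hc.2
  by_contra hne
  apply huv
  simp only [D] at a0 b0 c0 hne
  have e1 : (v.1 - u.1) * (b.2 - a.2) - (v.2 - u.2) * (b.1 - a.1) = 0 := by linarith
  have e2 : (v.1 - u.1) * (c.2 - a.2) - (v.2 - u.2) * (c.1 - a.1) = 0 := by linarith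
  have f1 : (v.1 - u.1) * ((b.1 - a.1) * (c.2 - a.2) - (b.2 - a.2) * (c.1 - a.1)) = 0 := by
    linear_combination (b.1 - a.1) * e2 - (c.1 - a.1) * e1
  have f2 : (v.2 - u.2) * ((b.1 - a.1) * (c.2 - a.2) - (b.2 - a.2) * (c.1 - a.1)) = 0 := by
    linear_combination (b.2 - a.2) * e2 - (c.2 - a.2) * e1
  have g1 : v.1 - u.1 = 0 := (mul_eq_zero.1 f1).resolve_right hne
  have g2 : v.2 - u.2 = 0 := (mul_eq_zero.1 f2).resolve_right hne
  exact Prod.ext (by linarith) (by linarith)

end CutL

open Classical in
theorem cutLemma : CutLemma := by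
  intro m
  induction m with
  | zero =>
    refine ⟨1, fun ls hls _ A B C hD P _ => ⟨[(A, B, C)], by simp, ?_, ?_, by simp, ?_, ?_⟩⟩
    · intro t ht; rw [List.mem_singleton.1 ht]; exact hD
    · intro t ht; rw [List.mem_singleton.1 ht]; exact fun x hx => hx
    · intro t _ l hl
      rw [List.length_eq_zero_iff.1 hls] at hl
      exact absurd hl List.not_mem_nil
    · have : P.filter (fun p => p ∈ Tri A B C ∧ ∀ t ∈ [(A, B, C)], p ∉ tri t) = ∅ := by
        apply Finset.filter_false_of_mem
        rintro p _ ⟨h1, h2⟩
        exact h2 (A, B, C) (List.mem_singleton_self _) h1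
      rw [this]; simp
  | succ m ih =>
    obtain ⟨b, hb⟩ := ih
    refine ⟨5 * b, fun ls hls hne A B C hD P hP => ?_⟩
    match ls, hls, hne with
    | l :: ls, hls, hne =>
      obtain ⟨F, f1, f2, f3, f4, f5, f6⟩ := hb ls (by simpa using hls)
        (fun x hx => hne x (List.mem_cons_of_mem _ hx)) A B C hD P hP
      have hl : l.1 ≠ l.2 := hne l List.mem_cons_self
      have h1 : ∀ t : T3, ∃ G : List T3, t ∈ F → (G.length ≤ 3 ∧
          (∀ s ∈ G, 0 < D s.1 s.2.1 s.2.2) ∧ (∀ s ∈ G, tri s ⊆ tri t) ∧
          G.Pairwise (fun s t => Disjoint (tri s) (tri t)) ∧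
          (∀ s ∈ G, ∀ x ∈ tri s, D l.1 l.2 x ≠ 0) ∧
          (P.filter (fun p => p ∈ tri t ∧ ∀ s ∈ G, p ∉ tri s)).card ≤ 4) := by
        intro t
        by_cases ht : t ∈ F
        · obtain ⟨G, g1, g2, g3, g4, g5, u', v', g6, g7⟩ := CutL.one_line (f2 t ht) hl
          refine ⟨G, fun _ => ⟨g1, g2, g3, g4, g5, ?_⟩⟩
          have hsub : P.filter (fun p => p ∈ tri t ∧ ∀ s ∈ G, p ∉ tri s) ⊆
              P.filter (fun p => D l.1 l.2 p = 0) ∪ P.filter (fun p => D u' v' p = 0) := by
            intro p hp
            rw [Finset.mem_filter] at hp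
            rw [Finset.mem_union, Finset.mem_filter, Finset.mem_filter]
            rcases g7 p hp.2.1 with ⟨s, hs, hps⟩ | h | h
            · exact absurd hps (hp.2.2 s hs)
            · exact Or.inl ⟨hp.1, h⟩
            · exact Or.inr ⟨hp.1, h⟩
          have c1 := CutL.two_on_line hP hl
          have c2 := CutL.two_on_line hP g6
          exact (Finset.card_le_card hsub).trans ((Finset.card_union_le _ _).trans (by omega))
        · exact ⟨[], fun h => absurd h ht⟩
      choose G hG using h1
      refine ⟨F.flatMap G, ?_, ?_, ?_, ?_, ?_, ?_⟩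
      · have : (F.flatMap G).length ≤ 3 * F.length := by
          rw [List.length_flatMap]
          have h2 : ∀ L : List T3, (∀ t ∈ L, t ∈ F) → (L.map (fun a => (G a).length)).sum ≤ 3 * L.length := by
            intro L
            induction L with
            | nil => intro _; simp
            | cons a L ihL =>
              intro h
              have h3 := ihL (fun t ht => h t (List.mem_cons_of_mem _ ht))
              have h4 := (hG a (h a List.mem_cons_self)).1
              simp only [List.map_cons, List.sum_cons, List.length_cons]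
              omega
          exact h2 F (fun _ h => h)
        omega
      · intro s hs
        obtain ⟨t, ht, hst⟩ := List.mem_flatMap.1 hs
        exact (hG t ht).2.1 s hst
      · intro s hs
        obtain ⟨t, ht, hst⟩ := List.mem_flatMap.1 hs
        exact ((hG t ht).2.2.1 s hst).trans (f3 t ht)
      · rw [List.pairwise_flatMap]
        refine ⟨fun t ht => (hG t ht).2.2.2.1, ?_⟩
        have h3 : F.Pairwise (fun s t => s ∈ F ∧ t ∈ F ∧ Disjoint (tri s) (tri t)) := by
          rw [List.pairwise_iff_getElem] at f4 ⊢
          intro i j hi hj hij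
          exact ⟨List.getElem_mem _, List.getElem_mem _, f4 i j hi hj hij⟩
        apply h3.imp
        rintro s t ⟨hs, ht, hst⟩ x hx y hy
        exact Disjoint.mono ((hG s hs).2.2.1 x hx) ((hG t ht).2.2.1 y hy) hst
      · intro s hs l' hl' x hx
        obtain ⟨t, ht, hst⟩ := List.mem_flatMap.1 hs
        rcases List.mem_cons.1 hl' with h | h
        · rw [h]; exact (hG t ht).2.2.2.2.1 s hst x hx
        · exact f5 t ht l' h x ((hG t ht).2.2.1 s hst hx)
      · have hsub : P.filter (fun p => p ∈ Tri A B C ∧ ∀ t ∈ F.flatMap G, p ∉ tri t) ⊆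
            P.filter (fun p => p ∈ Tri A B C ∧ ∀ t ∈ F, p ∉ tri t) ∪
              F.toFinset.biUnion (fun t => P.filter (fun p => p ∈ tri t ∧ ∀ s ∈ G t, p ∉ tri s)) := by
          intro p hp
          rw [Finset.mem_filter] at hp
          obtain ⟨hp1, hp2, hp3⟩ := hp
          rw [Finset.mem_union]
          by_cases hex : ∃ t ∈ F, p ∈ tri t
          · right
            obtain ⟨t, ht, hpt⟩ := hex
            rw [Finset.mem_biUnion]
            refine ⟨t, List.mem_toFinset.2 ht, Finset.mem_filter.2 ⟨hp1, hpt, ?_⟩⟩
            intro s hs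
            exact hp3 s (List.mem_flatMap.2 ⟨t, ht, hs⟩)
          · left
            push Not at hex
            exact Finset.mem_filter.2 ⟨hp1, hp2, hex⟩
        have c1 : (F.toFinset.biUnion
            (fun t => P.filter (fun p => p ∈ tri t ∧ ∀ s ∈ G t, p ∉ tri s))).card ≤ F.toFinset.card * 4 :=
          Finset.card_biUnion_le_card_mul _ _ _ (fun t ht =>
            (hG t (List.mem_toFinset.1 ht)).2.2.2.2.2)
        have c2 : F.toFinset.card ≤ b := (List.toFinset_card_le F).trans f1
        calc (P.filter (fun p => p ∈ Tri A B C ∧ ∀ t ∈ F.flatMap G, p ∉ tri t)).card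
            ≤ _ := Finset.card_le_card hsub
          _ ≤ _ := Finset.card_union_le _ _
          _ ≤ b + b * 4 := by
              apply add_le_add f6
              exact c1.trans (Nat.mul_le_mul_right 4 c2)
          _ = 5 * b := by ring

end MFS
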