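import Pool.Agent.MFS.Defs

/-! MP_6c0025_co (S09336): assembly of the final statement from the packing lemma, universality, the line
bound and the numbers.  Paper proof: note 1963, section 7. -/

set_option autoImplicit false

namespace MFS

namespace Fin0

theorem collinear_of_D {a b c : Pt} (hab : a ≠ b) (h : D a b c = 0) :
    Collinear ℝ ({a, b, c} : Set (ℝ × ℝ)) := by
  obtain ⟨a1, a2⟩ := a
  obtain ⟨b1, b2⟩ := b
  obtain ⟨c1, c2⟩ := c
  have h' : (b1 - a1) * (c2 - a2) - (b2 - a2) * (c1 - a1) = 0 := h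
  have key : ∃ r : ℝ, ((c1, c2) : ℝ × ℝ) = r • ((b1 - a1, b2 - a2) : ℝ × ℝ) + (a1, a2) := by
    by_cases h1 : b1 - a1 = 0
    · have h2 : b2 - a2 ≠ 0 := by
        intro h2
        apply hab
        have e1 : a1 = b1 := by linarith
        have e2 : a2 = b2 := by linarith
        rw [e1, e2]
      refine ⟨(c2 - a2) / (b2 - a2), ?_⟩
      have h3 : c1 - a1 = 0 := by
        rw [h1] at h'
        have : (b2 - a2) * (c1 - a1) = 0 := by linarith
        rcases mul_eq_zero.1 this with h4 | h4
        · exact absurd h4 h2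
        · exact h4
      ext
      · simp only [Prod.smul_mk, smul_eq_mul, Prod.mk_add_mk]
        rw [h1]; linarith
      · simp only [Prod.smul_mk, smul_eq_mul, Prod.mk_add_mk]
        field_simp
        ring
    · refine ⟨(c1 - a1) / (b1 - a1), ?_⟩
      ext
      · simp only [Prod.smul_mk, smul_eq_mul, Prod.mk_add_mk]
        field_simp
        ring
      · simp only [Prod.smul_mk, smul_eq_mul, Prod.mk_add_mk]
        field_simp
        linarith
  obtain ⟨r, hr⟩ := key
  rw [collinear_iff_of_mem (p₀ := (a1, a2)) (by simp)]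
  refine ⟨(b1 - a1, b2 - a2), ?_⟩
  intro p hp
  simp only [Set.mem_insert_iff, Set.mem_singleton_iff] at hp
  rcases hp with rfl | rfl | rfl
  · exact ⟨0, by simp⟩
  · refine ⟨1, ?_⟩
    simp
  · exact ⟨r, by simpa using hr⟩

theorem lfs_injective (i : ℕ) : (qs : List ℕ) → Function.Injective (lfs i qs)
  | [] => fun x => (x : Empty).elim
  | q :: qs => by
      intro x y h
      exact Function.Injective.sumMap (leaf_injective i) (lfs_injective i qs) h

theorem card_Ls (i : ℕ) : (qs : List ℕ) → Fintype.card (Ls i qs) = 27 ^ i * qs.sum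
  | [] => by
      have : Fintype.card (Ls i []) = Fintype.card Empty := rfl
      rw [this]; simp
  | q :: qs => by
      have : Fintype.card (Ls i (q :: qs)) = Fintype.card (Lf q i ⊕ Ls i qs) := rfl
      rw [this, Fintype.card_sum, card_Lf, card_Ls i qs, List.sum_cons]; ring

theorem As_symm (i : ℕ) : (qs : List ℕ) → ∀ x y, As i qs x y → As i qs y x
  | [] => fun _ _ h => h
  | q :: qs => by
      intro x y h
      match x, y, h with
      | Sum.inl x, Sum.inl y, h => exact Gad_symm i x y h
      | Sum.inr x, Sum.inr y, h => exact As_symm i qs x y h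

theorem As_irrefl (i : ℕ) : (qs : List ℕ) → ∀ x, ¬ As i qs x x
  | [] => fun _ h => h
  | q :: qs => by
      intro x h
      match x, h with
      | Sum.inl x, h => exact Gad_irrefl i x h
      | Sum.inr x, h => exact As_irrefl i qs x h

/-- restriction of a drawing along an injective map preserving adjacency -/
theorem Drw.comp {V W : Type} {A : V → V → Prop} {B : W → W → Prop} {f : V → Pt} (h : Drw A f)
    (e : W → V) (he : Function.Injective e) (hA : ∀ x y, B x y → A (e x) (e y)) : Drw B (f ∘ e) where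
  inj := h.inj.comp he
  vtx := fun u v w huv h1 h2 =>
    h.vtx (e u) (e v) (e w) (hA _ _ huv) (fun h3 => h1 (he h3)) (fun h3 => h2 (he h3))
  edg := fun u v x y huv hxy h1 h2 h3 h4 =>
    h.edg (e u) (e v) (e x) (e y) (hA _ _ huv) (hA _ _ hxy) (fun h => h1 (he h)) (fun h => h2 (he h))
      (fun h => h3 (he h)) (fun h => h4 (he h))

open Classical in
theorem line_As (h1 : LineBound) (i : ℕ) : (qs : List ℕ) → ∀ f : Vs i qs → Pt, Drw (As i qs) f →
    (Finset.univ.filter (fun l : Ls i qs => (f (lfs i qs l)).2 = 0)).card ≤ 26 ^ i * qs.sum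
  | [] => by
      intro f _
      have : Fintype.card (Ls i []) = 0 := by rw [card_Ls]; simp
      have h2 : (Finset.univ.filter (fun l : Ls i [] => (f (lfs i [] l)).2 = 0)).card ≤
        (Finset.univ : Finset (Ls i [])).card := Finset.card_filter_le _ _
      rw [Finset.card_univ, this] at h2
      omega
  | q :: qs => by
      intro f hf
      have ha : (Finset.univ.filter (fun l : Lf q i => ((f ∘ Sum.inl) (leaf i l)).2 = 0)).card ≤
          26 ^ i * q := by
        have hd : Drw (Gad q i) (f ∘ (Sum.inl : Inn q i → Inn q i ⊕ Vs i qs)) :=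
          Drw.comp (A := As i (q :: qs)) hf (Sum.inl : Inn q i → Inn q i ⊕ Vs i qs) Sum.inl_injective
            (fun x y hxy => hxy)
        have := h1 q i _ hd (0, 1) (by simp) 0
        simpa using this
      have hb : (Finset.univ.filter (fun l : Ls i qs => ((f ∘ Sum.inr) (lfs i qs l)).2 = 0)).card ≤
          26 ^ i * qs.sum := by
        have hd : Drw (As i qs) (f ∘ (Sum.inr : Vs i qs → Inn q i ⊕ Vs i qs)) :=
          Drw.comp (A := As i (q :: qs)) hf (Sum.inr : Vs i qs → Inn q i ⊕ Vs i qs) Sum.inr_injective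
            (fun x y hxy => hxy)
        exact line_As h1 i qs _ hd
      have hle : (Finset.univ.filter
          (fun l : Ls i (q :: qs) => (f (lfs i (q :: qs) l)).2 = 0)).card ≤
          ((Finset.univ.filter (fun l : Lf q i => ((f ∘ Sum.inl) (leaf i l)).2 = 0)).disjSum
            (Finset.univ.filter (fun l : Ls i qs => ((f ∘ Sum.inr) (lfs i qs l)).2 = 0))).card := by
        apply Finset.card_le_card_of_injOn (fun x => (x : Lf q i ⊕ Ls i qs))
        · intro x hx
          have hx' : (f (lfs i (q :: qs) x)).2 = 0 := (Finset.mem_filter.1 (Finset.mem_coe.1 hx)).2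
          rw [Finset.mem_coe]
          match x, hx' with
          | Sum.inl x, hx' =>
            exact Finset.inl_mem_disjSum.2 (Finset.mem_filter.2 ⟨Finset.mem_univ _, hx'⟩)
          | Sum.inr x, hx' =>
            exact Finset.inr_mem_disjSum.2 (Finset.mem_filter.2 ⟨Finset.mem_univ _, hx'⟩)
        · intro x _ y _ h
          exact h
      rw [Finset.card_disjSum] at hle
      rw [List.sum_cons, Nat.mul_add]
      omega

theorem big_tri (P : Finset Pt) : ∃ A B C : Pt, 0 < D A B C ∧ ∀ p ∈ P, p ∈ Tri A B C := by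
  obtain ⟨R, hR⟩ : ∃ R : ℝ, ∀ p ∈ P, |p.1| < R ∧ |p.2| < R := by
    induction P using Finset.induction_on with
    | empty => exact ⟨0, by simp⟩
    | insert a s ha ih =>
      obtain ⟨R, hR⟩ := ih
      refine ⟨max R (max (|a.1| + 1) (|a.2| + 1)), ?_⟩
      intro p hp
      rw [Finset.mem_insert] at hp
      rcases hp with rfl | hp
      · constructor
        · refine lt_of_lt_of_le (lt_add_one _) ?_
          exact le_trans (le_max_left _ _) (le_max_right _ _)
        · refine lt_of_lt_of_le (lt_add_one _) ?_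
          exact le_trans (le_max_right _ _) (le_max_right _ _)
      · exact ⟨lt_of_lt_of_le (hR p hp).1 (le_max_left _ _), lt_of_lt_of_le (hR p hp).2 (le_max_left _ _)⟩
  set r : ℝ := max R 1 with hr
  have hr0 : 0 < r := lt_of_lt_of_le one_pos (le_max_right _ _)
  have hRr : R ≤ r := le_max_left _ _
  refine ⟨(-3 * r, -r), (3 * r, -r), (0, 5 * r), ?_, ?_⟩
  · unfold D
    simp only
    nlinarith [mul_pos hr0 hr0]
  · intro p hp
    have h1 := (hR p hp).1
    have h2 := (hR p hp).2
    have h1' := abs_lt.1 (lt_of_lt_of_le h1 hRr)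
    have h2' := abs_lt.1 (lt_of_lt_of_le h2 hRr)
    refine ⟨?_, ?_, ?_⟩
    · unfold D
      simp only
      nlinarith [mul_pos hr0 (by linarith : 0 < p.2 + r)]
    · unfold D
      simp only
      nlinarith [mul_pos hr0 (by linarith : 0 < r - p.2), mul_pos hr0 (by linarith : 0 < r - p.1),
        mul_pos hr0 hr0]
    · unfold D
      simp only
      nlinarith [mul_pos hr0 (by linarith : 0 < r - p.2), mul_pos hr0 (by linarith : 0 < p.1 + r),
        mul_pos hr0 hr0]

/-- the graph: disjoint union of gadgets and isolated vertices -/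
def Gr (i : ℕ) (qs : List ℕ) (I : ℕ) : SimpleGraph (Vs i qs ⊕ Fin I) where
  Adj := AdjU (As i qs) (fun _ _ => False)
  symm := by
    constructor
    intro x y h
    match x, y, h with
    | Sum.inl x, Sum.inl y, h => exact As_symm i qs x y h
  loopless := by
    constructor
    intro x h
    match x, h with
    | Sum.inl x, h => exact As_irrefl i qs x h

open Classical in
/-- the special vertices: leaves and isolated vertices -/
noncomputable def Sp (i : ℕ) (qs : List ℕ) (I : ℕ) : Finset (Vs i qs ⊕ Fin I) :=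
  Finset.univ.image (Sum.map (lfs i qs) (id : Fin I → Fin I))

theorem card_Sp (i : ℕ) (qs : List ℕ) (I : ℕ) : (Sp i qs I).card = 27 ^ i * qs.sum + I := by
  classical
  unfold Sp
  rw [Finset.card_image_of_injective _
    (Function.Injective.sumMap (lfs_injective i qs) Function.injective_id), Finset.card_univ,
    Fintype.card_sum, card_Ls, Fintype.card_fin]

open Classical in
/-- the special set is mostly free -/
theorem mostly (i c b : ℕ) (qs : List ℕ) (n I : ℕ) (hI : 27 ^ i * qs.sum + I = n)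
    (hgood : Good i c b qs n 1)
    (hpack : ∀ (qs : List ℕ) (N t : ℕ), Good i c b qs N t →
      ∀ F : List T3, F.length ≤ t → (∀ s ∈ F, 0 < D s.1 s.2.1 s.2.2) →
      F.Pairwise (fun s t => Disjoint (tri s) (tri t)) →
      ∀ P : Finset Pt, GP P → N ≤ (P.filter (fun p => ∃ s ∈ F, p ∈ tri s)).card →
      ∃ f : Vs i qs → Pt, Drw (As i qs) f ∧ (∀ x, ∃ s ∈ F, f x ∈ tri s) ∧
        (∀ x y, As i qs x y → ∃ s ∈ F, segment ℝ (f x) (f y) ⊆ tri s) ∧
        (∀ l, f (lfs i qs l) ∈ P) ∧
        (∀ p ∈ P, (∀ l, p ≠ f (lfs i qs l)) → (∀ x, p ≠ f x) ∧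
          ∀ x y, As i qs x y → p ∉ segment ℝ (f x) (f y)))
    (P : Finset Pt) (hP : P.card = n) (hgp : GP P) :
    ∃ f : Vs i qs ⊕ Fin I → Pt, Drw (Gr i qs I).Adj f ∧ ∀ s ∈ Sp i qs I, f s ∈ P := by
  classical
  obtain ⟨A, B, C, hD, hin⟩ := big_tri P
  obtain ⟨f, hf, -, -, hleaf, hoff⟩ := hpack qs n 1 hgood [(A, B, C)] (by simp) (by simpa using hD)
    (by simp) P hgp (by
      have : P.filter (fun p => ∃ s ∈ [(A, B, C)], p ∈ tri s) = P := by
        apply Finset.filter_true_of_mem
        intro p hp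
        exact ⟨(A, B, C), by simp, hin p hp⟩
      rw [this, hP])
  set L : Finset Pt := Finset.univ.image (fun l : Ls i qs => f (lfs i qs l)) with hL
  have hLc : L.card = 27 ^ i * qs.sum := by
    rw [hL, Finset.card_image_of_injective _
      (show Function.Injective (fun l : Ls i qs => f (lfs i qs l)) from
        hf.inj.comp (lfs_injective i qs)), Finset.card_univ, card_Ls]
  have hLP : L ⊆ P := by
    intro p hp
    rw [hL, Finset.mem_image] at hp
    obtain ⟨l, -, rfl⟩ := hp
    exact hleaf l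
  have hRc : (P \ L).card = I := by
    rw [Finset.card_sdiff_of_subset hLP, hP, hLc]; omega
  obtain ⟨e⟩ : Nonempty (Fin I ≃ {x // x ∈ P \ L}) := by
    refine ⟨(Finset.equivFinOfCardEq hRc).symm⟩
  have he : ∀ j : Fin I, (e j : Pt) ∈ P ∧ ∀ l, (e j : Pt) ≠ f (lfs i qs l) := by
    intro j
    have := (e j).2
    rw [Finset.mem_sdiff] at this
    exact ⟨this.1, fun l h => this.2 (Finset.mem_image.2 ⟨l, Finset.mem_univ _, h.symm⟩)⟩
  have hq : ∀ j : Fin I, (∀ x, (e j : Pt) ≠ f x) ∧
      ∀ x y, As i qs x y → (e j : Pt) ∉ segment ℝ (f x) (f y) := fun j =>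
    hoff _ (he j).1 (he j).2
  refine ⟨Sum.elim f (fun j => (e j : Pt)), ?_, ?_⟩
  · refine ⟨?_, ?_, ?_⟩
    · intro x y h
      match x, y, h with
      | Sum.inl x, Sum.inl y, h => exact congrArg _ (hf.inj h)
      | Sum.inl x, Sum.inr y, h => exact absurd h.symm ((hq y).1 x)
      | Sum.inr x, Sum.inl y, h => exact absurd h ((hq x).1 y)
      | Sum.inr x, Sum.inr y, h => exact congrArg _ (e.injective (Subtype.ext h))
    · intro u v w huv h1 h2
      match u, v, huv with
      | Sum.inl u, Sum.inl v, huv =>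
        match w, h1, h2 with
        | Sum.inl w, h1, h2 =>
          exact hf.vtx u v w huv (fun h => h1 (congrArg _ h)) (fun h => h2 (congrArg _ h))
        | Sum.inr w, _, _ => exact (hq w).2 u v huv
    · intro u v x y huv hxy h1 h2 h3 h4
      match u, v, huv, x, y, hxy with
      | Sum.inl u, Sum.inl v, huv, Sum.inl x, Sum.inl y, hxy =>
        exact hf.edg u v x y huv hxy (fun h => h1 (congrArg _ h)) (fun h => h2 (congrArg _ h))
          (fun h => h3 (congrArg _ h)) (fun h => h4 (congrArg _ h))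
  · intro s hs
    unfold Sp at hs
    rw [Finset.mem_image] at hs
    obtain ⟨l, -, rfl⟩ := hs
    match l with
    | Sum.inl l => exact hleaf l
    | Sum.inr j => exact (he j).1

/-- free subsets are small -/
theorem small (h1 : LineBound) (i : ℕ) (qs : List ℕ) (I : ℕ) (T : Finset (Vs i qs ⊕ Fin I))
    (hT : T ⊆ Sp i qs I) (f : Vs i qs ⊕ Fin I → Pt) (hf : Drw (Gr i qs I).Adj f)
    (hl : ∀ t ∈ T, (f t).2 = 0) : T.card ≤ 26 ^ i * qs.sum + I := by
  classical
  have hd : Drw (As i qs) (f ∘ Sum.inl) := Drw.comp hf Sum.inl Sum.inl_injective (fun x y h => h)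
  have h2 := line_As h1 i qs _ hd
  have h3 : T ⊆ ((Finset.univ.filter
      (fun l : Ls i qs => ((f ∘ Sum.inl) (lfs i qs l)).2 = 0)).disjSum
        (Finset.univ : Finset (Fin I))).image (Sum.map (lfs i qs) (id : Fin I → Fin I)) := by
    intro t ht
    have h4 := hT ht
    unfold Sp at h4
    rw [Finset.mem_image] at h4 ⊢
    obtain ⟨l, -, rfl⟩ := h4
    refine ⟨l, ?_, rfl⟩
    match l, ht with
    | Sum.inl l, ht =>
      exact Finset.inl_mem_disjSum.2 (Finset.mem_filter.2 ⟨Finset.mem_univ _, hl _ ht⟩)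
    | Sum.inr j, _ => exact Finset.inr_mem_disjSum.2 (Finset.mem_univ _)
  have h4 := Finset.card_le_card h3
  have h5 := h4.trans Finset.card_image_le
  rw [Finset.card_disjSum, Finset.card_univ, Fintype.card_fin] at h5
  omega

end Fin0

open Fin0 in
theorem final (h1 : LineBound) (h2 : PackLemma) (h3 : ∀ i, Univ i) (h4 : NumLemma) : Target := by
  classical
  rintro ⟨γ, hγ, H⟩
  obtain ⟨i, hi⟩ : ∃ i : ℕ, ((26 : ℝ) / 27) ^ i < γ / 2 :=
    exists_pow_lt_of_lt_one (by linarith) (by norm_num)
  obtain ⟨c, b, hc, hpack⟩ := h2 i (h3 i)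
  obtain ⟨qs, n, hn, hgood, hle, hδ⟩ := h4 i c b hc (γ / 2) (by linarith)
  obtain ⟨I, hI⟩ := Nat.exists_eq_add_of_le hle
  have hI' : 27 ^ i * qs.sum + I = n := hI.symm
  obtain ⟨T, hTS, hTfree, hTc⟩ := H (Vs i qs ⊕ Fin I) (Gr i qs I) (Sp i qs I) (by
    intro P hPc hPg
    have hgp : GP P := by
      intro a ha b hb c hc hab hac hbc hD
      exact hPg a ha b hb c hc hab hac hbc (collinear_of_D hab hD)
    obtain ⟨f, hf, hfS⟩ := mostly i c b qs n I hI' hgood hpack P (by rw [hPc, card_Sp, hI']) hgp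
    exact ⟨f, hf.inj, hf.vtx, hf.edg, hfS⟩)
  obtain ⟨f, hf1, hf2, hf3, hf4⟩ := hTfree
    ((Finset.range T.card).image (fun k : ℕ => (((k : ℝ), (0 : ℝ)) : Pt))) (by
      rw [Finset.card_image_of_injective, Finset.card_range]
      intro x y h
      have h' : ((x : ℝ), (0 : ℝ)) = ((y : ℝ), (0 : ℝ)) := h
      have h'' : (x : ℝ) = (y : ℝ) := congrArg Prod.fst h'
      exact_mod_cast h'')
  have hsm := small h1 i qs I T hTS f ⟨hf1, hf2, hf3⟩ (by
    intro t ht
    have := hf4 t ht
    rw [Finset.mem_image] at this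
    obtain ⟨k, -, hk⟩ := this
    rw [← hk])
  rw [card_Sp, hI'] at hTc
  have hn0 : (0 : ℝ) < n := by exact_mod_cast hn
  have e1 : (T.card : ℝ) ≤ 26 ^ i * qs.sum + I := by exact_mod_cast hsm
  have e2 : (n : ℝ) = 27 ^ i * qs.sum + I := by exact_mod_cast hI
  have e3 : (I : ℝ) ≤ γ / 2 * n := by
    have : (I : ℝ) = n - 27 ^ i * qs.sum := by rw [e2]; ring
    rw [this]
    have h5 : ((qs.sum : ℕ) : ℝ) = (qs.sum : ℝ) := rfl
    linarith [hδ]
  have e4 : (26 : ℝ) ^ i * qs.sum = (26 / 27) ^ i * (27 ^ i * qs.sum) := by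
    rw [div_pow]; field_simp
  have e5 : (27 : ℝ) ^ i * qs.sum ≤ n := by rw [e2]; linarith [Nat.cast_nonneg (α := ℝ) I]
  have e6 : ((26 : ℝ) / 27) ^ i * (27 ^ i * qs.sum) ≤ (26 / 27) ^ i * n :=
    mul_le_mul_of_nonneg_left e5 (by positivity)
  have e7 : ((26 : ℝ) / 27) ^ i * n < γ / 2 * n := mul_lt_mul_of_pos_right hi hn0
  rw [e4] at e1
  linarith

end MFS
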