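import Pool.Agent.MFS.Defs

/-! MP_6c0025_co (S09336), module Frame: the robust drawing of the gadget graph in a frame.  Note 1963,
section 3.  All positions are `pt O H V (ξ (rkA v)) (σ (rkC v))`; all certificates are decidable from the
ranks. -/

set_option autoImplicit false

namespace MFS

namespace Frame

/-! ### identities in a frame -/

theorem D_cyc (a b c : Pt) : D a b c = D b c a := by unfold D; ring

theorem D_swap (a b c : Pt) : D a b c = - D b a c := by unfold D; ring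

theorem D_self1 (a b : Pt) : D a b a = 0 := by unfold D; ring

theorem D_self2 (a b : Pt) : D a b b = 0 := by unfold D; ring

theorem D_sum (O H V p : Pt) : D p H V + D O p V + D O H p = D O H V := by
  unfold D; ring

theorem D_det (O H V p q r : Pt) : D p q r * D O H V ^ 2 =
    D p H V * (D O q V * D O H r - D O r V * D O H q)
    - D O p V * (D q H V * D O H r - D r H V * D O H q)
    + D O H p * (D q H V * D O r V - D r H V * D O q V) := by
  unfold D; ring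

theorem tri_iff (O H V p : Pt) : p ∈ Tri O H V ↔ 0 < D p H V ∧ 0 < D O p V ∧ 0 < D O H p := by
  have h1 : D H V p = D p H V := by unfold D; ring
  have h2 : D V O p = D O p V := by unfold D; ring
  constructor
  · rintro ⟨a, b, c⟩
    exact ⟨h1 ▸ b, h2 ▸ c, a⟩
  · rintro ⟨a, b, c⟩
    exact ⟨c, h1 ▸ a, h2 ▸ b⟩

theorem tri_cyc (a b c : Pt) : Tri a b c = Tri b c a := by
  ext p
  constructor
  · rintro ⟨h1, h2, h3⟩; exact ⟨h2, h3, h1⟩
  · rintro ⟨h1, h2, h3⟩; exact ⟨h3, h1, h2⟩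

theorem tri_pos {a b c p : Pt} (h : p ∈ Tri a b c) : 0 < D a b c := by
  have h' := (tri_iff a b c p).1 h
  have := D_sum a b c p
  linarith [h'.1, h'.2.1, h'.2.2]

theorem fX_pos {O H V p : Pt} (h : p ∈ Tri O H V) : 0 < fX O H V p := by
  have h' := (tri_iff O H V p).1 h
  exact div_pos h'.2.1 h'.1

theorem fS_pos {O H V p : Pt} (h : p ∈ Tri O H V) : 0 < fS O H V p := by
  have h' := (tri_iff O H V p).1 h
  exact div_pos h'.2.2 h'.2.1

theorem fX_mul {O H V p : Pt} (h : p ∈ Tri O H V) : D O p V = fX O H V p * D p H V := by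
  have h' := (tri_iff O H V p).1 h
  unfold fX
  rw [div_mul_cancel₀ _ h'.1.ne']

theorem fS_mul {O H V p : Pt} (h : p ∈ Tri O H V) : D O H p = fS O H V p * D O p V := by
  have h' := (tri_iff O H V p).1 h
  unfold fS
  rw [div_mul_cancel₀ _ h'.2.1.ne']

theorem brk_pos {x1 x2 x3 s1 s2 s3 : ℝ} (hx1 : 0 < x1) (hs1 : 0 < s1) (hs2 : 0 < s2)
    (h1 : 3 * x1 ≤ x2) (h2 : 3 * x1 ≤ x3) (h3 : 3 * s1 ≤ s3) (h4 : 3 * s2 ≤ s3) :
    0 < x2 * x3 * (s3 - s2) - x1 * x3 * (s3 - s1) - x1 * x2 * (s1 - s2) := by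
  have hx2 : 0 < x2 := by linarith
  have hx3 : 0 < x3 := by linarith
  have hs3 : 0 < s3 := by linarith
  have e1 : x2 * x3 * (3 * s2) ≤ x2 * x3 * s3 := by gcongr
  have e2 : (3 * x1) * x3 * s3 ≤ x2 * x3 * s3 := by gcongr
  have e3 : x2 * (3 * x1) * (3 * s1) ≤ x2 * x3 * s3 := by gcongr
  have e4 : 0 < x2 * x3 * s3 := by positivity
  have e5 : 0 < x1 * x3 * s1 := by positivity
  have e6 : 0 < x1 * x2 * s2 := by positivity
  nlinarith [e1, e2, e3, e4, e5, e6]

theorem P3 {O H V p q r : Pt} (hD : 0 < D O H V) (hp : p ∈ Tri O H V) (hq : q ∈ Tri O H V)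
    (hr : r ∈ Tri O H V) (h1 : 3 * fX O H V p ≤ fX O H V q) (h2 : 3 * fX O H V p ≤ fX O H V r)
    (h3 : 3 * fS O H V p ≤ fS O H V r) (h4 : 3 * fS O H V q ≤ fS O H V r) : 0 < D p q r := by
  have hb := brk_pos (fX_pos hp) (fS_pos hp) (fS_pos hq) h1 h2 h3 h4
  have e := D_det O H V p q r
  have hpa := ((tri_iff O H V p).1 hp).1
  have hqa := ((tri_iff O H V q).1 hq).1
  have hra := ((tri_iff O H V r).1 hr).1
  rw [fS_mul hp, fS_mul hq, fS_mul hr, fX_mul hp, fX_mul hq, fX_mul hr] at e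
  have e2 : D p q r * D O H V ^ 2 = D p H V * D q H V * D r H V *
      (fX O H V q * fX O H V r * (fS O H V r - fS O H V q) -
        fX O H V p * fX O H V r * (fS O H V r - fS O H V p) -
        fX O H V p * fX O H V q * (fS O H V p - fS O H V q)) := by
    rw [e]; ring
  have e3 : 0 < D p q r * D O H V ^ 2 := by rw [e2]; positivity
  exact (mul_pos_iff_of_pos_right (by positivity)).1 e3

/-! ### the points `pt` -/

theorem pt_a (O H V : Pt) {x s : ℝ} (hx : 0 < x) (hs : 0 < s) :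
    D (pt O H V x s) H V = D O H V / (1 + x + x * s) := by
  have h : (1 + x + x * s) ≠ 0 := by positivity
  unfold D pt
  field_simp
  ring

theorem pt_b (O H V : Pt) {x s : ℝ} (hx : 0 < x) (hs : 0 < s) :
    D O (pt O H V x s) V = x * (D O H V / (1 + x + x * s)) := by
  have h : (1 + x + x * s) ≠ 0 := by positivity
  unfold D pt
  field_simp
  ring

theorem pt_c (O H V : Pt) {x s : ℝ} (hx : 0 < x) (hs : 0 < s) :
    D O H (pt O H V x s) = s * (x * (D O H V / (1 + x + x * s))) := by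
  have h : (1 + x + x * s) ≠ 0 := by positivity
  unfold D pt
  field_simp
  ring

theorem pt_mem {O H V : Pt} (hD : 0 < D O H V) {x s : ℝ} (hx : 0 < x) (hs : 0 < s) :
    pt O H V x s ∈ Tri O H V := by
  rw [tri_iff, pt_a O H V hx hs, pt_b O H V hx hs, pt_c O H V hx hs]
  refine ⟨?_, ?_, ?_⟩ <;> positivity

theorem pt_fX {O H V : Pt} (hD : 0 < D O H V) {x s : ℝ} (hx : 0 < x) (hs : 0 < s) :
    fX O H V (pt O H V x s) = x := by
  unfold fX
  rw [pt_a O H V hx hs, pt_b O H V hx hs]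
  exact mul_div_cancel_right₀ _ (by positivity)

theorem pt_fS {O H V : Pt} (hD : 0 < D O H V) {x s : ℝ} (hx : 0 < x) (hs : 0 < s) :
    fS O H V (pt O H V x s) = s := by
  unfold fS
  rw [pt_b O H V hx hs, pt_c O H V hx hs]
  exact mul_div_cancel_right₀ _ (by positivity)

/-! ### affine functions -/

def Aff (f : Pt → ℝ) : Prop := ∃ α β γ : ℝ, ∀ p : Pt, f p = α * p.1 + β * p.2 + γ

theorem aff_tri {f : Pt → ℝ} (hf : Aff f) (a b c z : Pt) :
    f z * D a b c = D b c z * f a + D c a z * f b + D a b z * f c := by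
  obtain ⟨α, β, γ, h⟩ := hf
  simp only [h, D]
  ring

theorem aff_seg {f : Pt → ℝ} (hf : Aff f) {a b z : Pt} (hz : z ∈ segment ℝ a b) :
    ∃ s t : ℝ, 0 ≤ s ∧ 0 ≤ t ∧ s + t = 1 ∧ f z = s * f a + t * f b := by
  obtain ⟨α, β, γ, h⟩ := hf
  obtain ⟨s, t, hs, ht, hst, rfl⟩ := hz
  refine ⟨s, t, hs, ht, hst, ?_⟩
  rw [h, h, h]
  have hs1 : s = 1 - t := by linarith
  subst hs1
  simp only [Prod.fst_add, Prod.smul_fst, Prod.snd_add, Prod.smul_snd, smul_eq_mul]
  ring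

theorem aff_seg_le {f : Pt → ℝ} (hf : Aff f) {a b z : Pt} (hz : z ∈ segment ℝ a b)
    (ha : f a ≤ 0) (hb : f b ≤ 0) : f z ≤ 0 := by
  obtain ⟨s, t, hs, ht, hst, e⟩ := aff_seg hf hz
  rw [e]
  nlinarith [mul_nonneg hs (neg_nonneg.2 ha), mul_nonneg ht (neg_nonneg.2 hb)]

theorem aff_seg_ge {f : Pt → ℝ} (hf : Aff f) {a b z : Pt} (hz : z ∈ segment ℝ a b)
    (ha : 0 ≤ f a) (hb : 0 ≤ f b) : 0 ≤ f z := by
  obtain ⟨s, t, hs, ht, hst, e⟩ := aff_seg hf hz
  rw [e]
  positivity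

theorem aff_seg_pos {f : Pt → ℝ} (hf : Aff f) {a b z : Pt} (hz : z ∈ segment ℝ a b)
    (ha : 0 < f a) (hb : 0 < f b) : 0 < f z := by
  obtain ⟨s, t, hs, ht, hst, e⟩ := aff_seg hf hz
  rw [e]
  rcases hs.eq_or_lt with h | h
  · have : t = 1 := by linarith
    rw [← h, this]; linarith
  · have := mul_pos h ha
    have := mul_nonneg ht hb.le
    linarith

theorem aff_tri_pos {f : Pt → ℝ} (hf : Aff f) {a b c z : Pt} (hz : z ∈ Tri a b c)
    (ha : 0 ≤ f a) (hb : 0 ≤ f b) (hc : 0 ≤ f c) (h : 0 < f a ∨ 0 < f b ∨ 0 < f c) : 0 < f z := by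
  have e := aff_tri hf a b c z
  have hD := tri_pos hz
  obtain ⟨h1, h2, h3⟩ := hz
  have k1 := mul_nonneg h2.le ha
  have k2 := mul_nonneg h3.le hb
  have k3 := mul_nonneg h1.le hc
  have : 0 < f z * D a b c := by
    rw [e]
    rcases h with h | h | h
    · have := mul_pos h2 h; linarith
    · have := mul_pos h3 h; linarith
    · have := mul_pos h1 h; linarith
  exact (mul_pos_iff_of_pos_right hD).1 this

theorem aff_tri_ge {f : Pt → ℝ} (hf : Aff f) {a b c z : Pt} (hz : z ∈ Tri a b c)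
    (ha : 0 ≤ f a) (hb : 0 ≤ f b) (hc : 0 ≤ f c) : 0 ≤ f z := by
  have e := aff_tri hf a b c z
  have hD := tri_pos hz
  obtain ⟨h1, h2, h3⟩ := hz
  have k1 := mul_nonneg h2.le ha
  have k2 := mul_nonneg h3.le hb
  have k3 := mul_nonneg h1.le hc
  have : 0 ≤ f z * D a b c := by rw [e]; linarith
  exact nonneg_of_mul_nonneg_left this hD

theorem aff_neg {f : Pt → ℝ} (hf : Aff f) : Aff (fun p => - f p) := by
  obtain ⟨α, β, γ, h⟩ := hf
  exact ⟨-α, -β, -γ, fun p => by simp only [h]; ring⟩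

/-! ### separators -/

/-- ranks, kernel friendly -/
def rA (n : ℕ) : ℕ := (504015780052984457641554622947360857823660305364787944458240 >>> (8 * n)) % 256
/-- ranks, kernel friendly -/
def rC (n : ℕ) : ℕ := (509580838550192836171168488338442167025519144725369737117952 >>> (8 * n)) % 256

theorem rkA_eq : ∀ v : Fin 25, rkA v = rA v.val := by decide +kernel
theorem rkC_eq : ∀ v : Fin 25, rkC v = rC v.val := by decide +kernel

/-- separating functions -/
inductive Sp : Type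
  | A (t : ℕ) : Sp
  | C (t : ℕ) : Sp
  | L (p q : ℕ) : Sp

def p3 (o h v : ℕ) : Bool :=
  Nat.blt (rA o) (rA h) && Nat.blt (rA o) (rA v) && Nat.blt (rC o) (rC v) && Nat.blt (rC h) (rC v)

def psv (p q v : ℕ) : Bool := p3 p q v || p3 q v p || p3 v p q

def gtS : Sp → ℕ → Bool
  | Sp.A t, v => Nat.blt t (rA v)
  | Sp.C t, v => Nat.blt t (rC v)
  | Sp.L p q, v => psv p q v

def ltS : Sp → ℕ → Bool
  | Sp.A t, v => Nat.blt (rA v) t
  | Sp.C t, v => Nat.blt (rC v) t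
  | Sp.L p q, v => psv q p v

def geS : Sp → ℕ → Bool
  | Sp.A t, v => Nat.ble t (rA v)
  | Sp.C t, v => Nat.ble t (rC v)
  | Sp.L p q, v => Nat.beq v p || Nat.beq v q || psv p q v

def leS : Sp → ℕ → Bool
  | Sp.A t, v => Nat.ble (rA v) t
  | Sp.C t, v => Nat.ble (rC v) t
  | Sp.L p q, v => Nat.beq v p || Nat.beq v q || psv q p v

def mx (a b : ℕ) : ℕ := cond (Nat.ble a b) b a
def mn (a b : ℕ) : ℕ := cond (Nat.ble a b) a b

/-- edge against edge -/
def cEE (u v x y : ℕ) : Bool :=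
  [Sp.A (mx (rA u) (rA v)), Sp.A (mx (rA x) (rA y)), Sp.C (mx (rC u) (rC v)), Sp.C (mx (rC x) (rC y)),
    Sp.L u v, Sp.L v u, Sp.L x y, Sp.L y x].any fun s =>
    (leS s u && leS s v && gtS s x && gtS s y) || (leS s x && leS s y && gtS s u && gtS s v)

/-- edge against vertex -/
def cEV (u v w : ℕ) : Bool :=
  [Sp.A (mx (rA u) (rA v)), Sp.A (rA w), Sp.C (mx (rC u) (rC v)), Sp.C (rC w),
    Sp.L u v, Sp.L v u].any fun s =>
    (leS s u && leS s v && gtS s w) || (leS s w && gtS s u && gtS s v)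

def wkP (s : Sp) (a b c : ℕ) : Bool :=
  geS s a && geS s b && geS s c && (gtS s a || gtS s b || gtS s c)

def wkN (s : Sp) (a b c : ℕ) : Bool :=
  leS s a && leS s b && leS s c && (ltS s a || ltS s b || ltS s c)

/-- face against edge -/
def cFE (a b c u v : ℕ) : Bool :=
  [Sp.A (mn (rA a) (mn (rA b) (rA c))), Sp.A (mx (rA a) (mx (rA b) (rA c))),
    Sp.C (mn (rC a) (mn (rC b) (rC c))), Sp.C (mx (rC a) (mx (rC b) (rC c))),
    Sp.L a b, Sp.L b c, Sp.L c a, Sp.L u v, Sp.L v u].any fun s =>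
    (wkP s a b c && leS s u && leS s v) || (wkN s a b c && geS s u && geS s v)

/-- face against face -/
def cFF (a b c x y z : ℕ) : Bool :=
  [Sp.A (mn (rA a) (mn (rA b) (rA c))), Sp.A (mx (rA a) (mx (rA b) (rA c))),
    Sp.C (mn (rC a) (mn (rC b) (rC c))), Sp.C (mx (rC a) (mx (rC b) (rC c))),
    Sp.L a b, Sp.L b c, Sp.L c a, Sp.L x y, Sp.L y z, Sp.L z x].any fun s =>
    (wkP s a b c && leS s x && leS s y && leS s z) || (wkN s a b c && geS s x && geS s y && geS s z)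

/-- the 69 edges -/
def eds : List (ℕ × ℕ) := [
  (0, 1), (0, 2), (0, 3), (0, 4), (0, 5), (0, 8), (0, 18), (0, 20), (0, 21), (0, 23), (1, 2), (1, 3),
   (1, 4), (1, 6), (1, 7), (1, 9), (1, 11), (1, 12), (1, 15), (2, 3), (2, 11), (2, 13), (2, 14),
   (2, 16), (2, 18), (2, 19), (2, 22), (3, 8), (3, 9), (3, 15), (3, 16), (3, 22), (3, 23), (4, 5),
   (4, 6), (5, 6), (5, 8), (5, 10), (6, 7), (6, 10), (7, 9), (7, 10), (8, 9), (8, 10), (9, 10),
   (11, 12), (11, 13), (12, 13), (12, 15), (12, 17), (13, 14), (13, 17), (14, 16), (14, 17), (15, 16),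
   (15, 17), (16, 17), (18, 19), (18, 20), (19, 20), (19, 22), (19, 24), (20, 21), (20, 24), (21, 23),
   (21, 24), (22, 23), (22, 24), (23, 24)]

/-- the 27 special faces with their index -/
def sps : List (ℕ × ℕ × ℕ × ℕ) := [
  (0, 0, 1, 4), (1, 0, 5, 8), (2, 5, 4, 6), (3, 6, 1, 7), (4, 6, 7, 10), (5, 7, 1, 9), (6, 7, 9, 10),
   (7, 5, 10, 8), (8, 8, 9, 3), (9, 0, 23, 21), (10, 0, 21, 20), (11, 0, 18, 2), (12, 18, 20, 19),
   (13, 20, 21, 24), (14, 21, 23, 24), (15, 23, 3, 22), (16, 24, 22, 19), (17, 19, 22, 2),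
   (18, 3, 15, 16), (19, 15, 1, 12), (20, 15, 12, 17), (21, 12, 11, 13), (22, 17, 13, 14),
   (23, 17, 14, 16), (24, 16, 14, 2), (25, 14, 13, 2), (26, 11, 1, 2)]

theorem eds_spec : ∀ u v : Fin 25, GA u v → (u.val, v.val) ∈ eds ∨ (v.val, u.val) ∈ eds := by
  decide +kernel

theorem sps_spec : ∀ j : Fin 27, (j.val, (Sa j).val, (Sb j).val, (Sc j).val) ∈ sps := by
  decide +kernel

theorem chkEE : (eds.all fun e => eds.all fun f =>
    Nat.beq e.1 f.1 || Nat.beq e.1 f.2 || Nat.beq e.2 f.1 || Nat.beq e.2 f.2 ||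
      cEE e.1 e.2 f.1 f.2) = true := by
  decide +kernel

theorem chkEV : (eds.all fun e => (List.range 25).all fun w =>
    Nat.beq w e.1 || Nat.beq w e.2 || cEV e.1 e.2 w) = true := by
  decide +kernel

theorem chkFE : (sps.all fun t => eds.all fun e =>
    cFE t.2.1 t.2.2.1 t.2.2.2 e.1 e.2) = true := by
  decide +kernel

theorem chkFF : (sps.all fun t => sps.all fun r =>
    Nat.beq t.1 r.1 || cFF t.2.1 t.2.2.1 t.2.2.2 r.2.1 r.2.2.1 r.2.2.2) = true := by
  decide +kernel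

theorem chkOut : ((List.range 25).all fun w => Nat.beq w 0 || Nat.beq w 1 || psv 0 1 w) = true := by
  decide +kernel

theorem chkPos : (sps.all fun t => psv t.2.1 t.2.2.1 t.2.2.2) = true := by
  decide +kernel

/-- box certificate -/
def bx (o h v c : ℕ) : Bool :=
  Nat.blt (rA o) c && Nat.blt (rC o) c && Nat.blt (rC h) c && Nat.blt (c + 1) (rA h) &&
    Nat.blt (c + 1) (rA v) && Nat.blt (c + 1) (rC v)

theorem chkBox : (sps.all fun t => bx t.2.1 t.2.2.1 t.2.2.2 (5 * t.1 + 3) ||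
    bx t.2.2.1 t.2.2.2 t.2.1 (5 * t.1 + 3) || bx t.2.2.2 t.2.1 t.2.2.1 (5 * t.1 + 3)) = true := by
  decide +kernel

theorem rkA_inj : ∀ u v : Fin 25, rkA u = rkA v → u = v := by decide +kernel

/-! ### soundness -/

theorem sep_pos {ξ : ℕ → ℝ} (h : Sep ξ) (l : ℕ) : 0 < ξ l := h.1 l

theorem sep_step {ξ : ℕ → ℝ} (h : Sep ξ) : ∀ i k : ℕ, 3 * ξ i ≤ ξ (i + 1 + k)
  | i, 0 => h.2 i
  | i, k + 1 => by
      have h1 := sep_step h i k
      have h2 := h.2 (i + 1 + k)
      have h3 := h.1 (i + 1 + k)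
      have e : i + 1 + (k + 1) = i + 1 + k + 1 := by ring
      rw [e]
      linarith

theorem sep_three {ξ : ℕ → ℝ} (h : Sep ξ) {i j : ℕ} (hij : i < j) : 3 * ξ i ≤ ξ j := by
  obtain ⟨k, rfl⟩ := Nat.exists_eq_add_of_le hij
  exact sep_step h i k

theorem sep_lt {ξ : ℕ → ℝ} (h : Sep ξ) {i j : ℕ} (hij : i < j) : ξ i < ξ j := by
  have h1 := sep_three h hij
  have h2 := h.1 i
  linarith

theorem sep_le {ξ : ℕ → ℝ} (h : Sep ξ) {i j : ℕ} (hij : i ≤ j) : ξ i ≤ ξ j := by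
  rcases hij.eq_or_lt with e | e
  · rw [e]
  · exact (sep_lt h e).le

theorem sep_inj {ξ : ℕ → ℝ} (h : Sep ξ) {i j : ℕ} (hij : ξ i = ξ j) : i = j := by
  rcases lt_trichotomy i j with e | e | e
  · exact absurd hij (sep_lt h e).ne
  · exact e
  · exact absurd hij (sep_lt h e).ne'

theorem blt_iff {a b : ℕ} (h : Nat.blt a b = true) : a < b := by simpa using h
theorem ble_iff {a b : ℕ} (h : Nat.ble a b = true) : a ≤ b := by simpa using h

/-- the positions -/
noncomputable def gN (O H V : Pt) (ξ σ : ℕ → ℝ) (n : ℕ) : Pt := pt O H V (ξ (rA n)) (σ (rC n))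

/-- the separating function of a separator -/
noncomputable def Fn (O H V : Pt) (ξ σ : ℕ → ℝ) : Sp → Pt → ℝ
  | Sp.A t => fun p => D O p V - ξ t * D p H V
  | Sp.C t => fun p => D O H p - σ t * D O p V
  | Sp.L p q => fun z => D (gN O H V ξ σ p) (gN O H V ξ σ q) z

theorem Fn_aff (O H V : Pt) (ξ σ : ℕ → ℝ) : ∀ s : Sp, Aff (Fn O H V ξ σ s)
  | Sp.A t => by
      refine ⟨(V.2 - O.2) - ξ t * (H.2 - V.2), -(V.1 - O.1) - ξ t * (V.1 - H.1),
        D O (0, 0) V - ξ t * D (0, 0) H V, fun p => ?_⟩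
      simp only [Fn, D]
      ring
  | Sp.C t => by
      refine ⟨-(H.2 - O.2) - σ t * (V.2 - O.2), (H.1 - O.1) + σ t * (V.1 - O.1),
        D O H (0, 0) - σ t * D O (0, 0) V, fun p => ?_⟩
      simp only [Fn, D]
      ring
  | Sp.L a b => by
      refine ⟨-((gN O H V ξ σ b).2 - (gN O H V ξ σ a).2), (gN O H V ξ σ b).1 - (gN O H V ξ σ a).1,
        D (gN O H V ξ σ a) (gN O H V ξ σ b) (0, 0), fun p => ?_⟩
      simp only [Fn, D]
      ring

section sound

variable {O H V : Pt} {ξ σ : ℕ → ℝ} (hD : 0 < D O H V) (hξ : Sep ξ) (hσ : Sep σ)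

include hD hξ hσ

theorem g_mem (n : ℕ) : gN O H V ξ σ n ∈ Tri O H V := pt_mem hD (hξ.1 _) (hσ.1 _)

theorem g_X (n : ℕ) : fX O H V (gN O H V ξ σ n) = ξ (rA n) := pt_fX hD (hξ.1 _) (hσ.1 _)

theorem g_S (n : ℕ) : fS O H V (gN O H V ξ σ n) = σ (rC n) := pt_fS hD (hξ.1 _) (hσ.1 _)

theorem p3_sound {o h v : ℕ} (e : p3 o h v = true) :
    0 < D (gN O H V ξ σ o) (gN O H V ξ σ h) (gN O H V ξ σ v) := by
  simp only [p3, Bool.and_eq_true] at e
  obtain ⟨⟨⟨e1, e2⟩, e3⟩, e4⟩ := e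
  refine P3 hD (g_mem hD hξ hσ _) (g_mem hD hξ hσ _) (g_mem hD hξ hσ _) ?_ ?_ ?_ ?_
  · rw [g_X hD hξ hσ, g_X hD hξ hσ]; exact sep_three hξ (blt_iff e1)
  · rw [g_X hD hξ hσ, g_X hD hξ hσ]; exact sep_three hξ (blt_iff e2)
  · rw [g_S hD hξ hσ, g_S hD hξ hσ]; exact sep_three hσ (blt_iff e3)
  · rw [g_S hD hξ hσ, g_S hD hξ hσ]; exact sep_three hσ (blt_iff e4)

theorem psv_sound {p q v : ℕ} (e : psv p q v = true) :
    0 < D (gN O H V ξ σ p) (gN O H V ξ σ q) (gN O H V ξ σ v) := by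
  simp only [psv, Bool.or_eq_true] at e
  rcases e with (e | e) | e
  · exact p3_sound hD hξ hσ e
  · rw [D_cyc]; exact p3_sound hD hξ hσ e
  · rw [← D_cyc]; exact p3_sound hD hξ hσ e

theorem fA_eq (t n : ℕ) : Fn O H V ξ σ (Sp.A t) (gN O H V ξ σ n) =
    (ξ (rA n) - ξ t) * D (gN O H V ξ σ n) H V := by
  have h := fX_mul (g_mem hD hξ hσ n)
  rw [g_X hD hξ hσ] at h
  simp only [Fn]
  rw [h]; ring

theorem fC_eq (t n : ℕ) : Fn O H V ξ σ (Sp.C t) (gN O H V ξ σ n) =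
    (σ (rC n) - σ t) * D O (gN O H V ξ σ n) V := by
  have h := fS_mul (g_mem hD hξ hσ n)
  rw [g_S hD hξ hσ] at h
  simp only [Fn]
  rw [h]; ring

theorem gt_sound : ∀ (s : Sp) (v : ℕ), gtS s v = true → 0 < Fn O H V ξ σ s (gN O H V ξ σ v)
  | Sp.A t, v, e => by
      rw [fA_eq hD hξ hσ]
      have h1 := ((tri_iff _ _ _ _).1 (g_mem hD hξ hσ v)).1
      have h2 := sep_lt hξ (blt_iff (show Nat.blt t (rA v) = true from e))
      exact mul_pos (by linarith) h1
  | Sp.C t, v, e => by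
      rw [fC_eq hD hξ hσ]
      have h1 := ((tri_iff _ _ _ _).1 (g_mem hD hξ hσ v)).2.1
      have h2 := sep_lt hσ (blt_iff (show Nat.blt t (rC v) = true from e))
      exact mul_pos (by linarith) h1
  | Sp.L p q, v, e => psv_sound hD hξ hσ (show psv p q v = true from e)

theorem lt_sound : ∀ (s : Sp) (v : ℕ), ltS s v = true → Fn O H V ξ σ s (gN O H V ξ σ v) < 0
  | Sp.A t, v, e => by
      rw [fA_eq hD hξ hσ]
      have h1 := ((tri_iff _ _ _ _).1 (g_mem hD hξ hσ v)).1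
      have h2 := sep_lt hξ (blt_iff (show Nat.blt (rA v) t = true from e))
      exact mul_neg_of_neg_of_pos (by linarith) h1
  | Sp.C t, v, e => by
      rw [fC_eq hD hξ hσ]
      have h1 := ((tri_iff _ _ _ _).1 (g_mem hD hξ hσ v)).2.1
      have h2 := sep_lt hσ (blt_iff (show Nat.blt (rC v) t = true from e))
      exact mul_neg_of_neg_of_pos (by linarith) h1
  | Sp.L p q, v, e => by
      have := psv_sound hD hξ hσ (show psv q p v = true from e)
      show D _ _ _ < 0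
      rw [D_swap]
      linarith

theorem ge_sound : ∀ (s : Sp) (v : ℕ), geS s v = true → 0 ≤ Fn O H V ξ σ s (gN O H V ξ σ v)
  | Sp.A t, v, e => by
      rw [fA_eq hD hξ hσ]
      have h1 := ((tri_iff _ _ _ _).1 (g_mem hD hξ hσ v)).1
      have h2 := sep_le hξ (ble_iff (show Nat.ble t (rA v) = true from e))
      exact mul_nonneg (by linarith) h1.le
  | Sp.C t, v, e => by
      rw [fC_eq hD hξ hσ]
      have h1 := ((tri_iff _ _ _ _).1 (g_mem hD hξ hσ v)).2.1
      have h2 := sep_le hσ (ble_iff (show Nat.ble t (rC v) = true from e))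
      exact mul_nonneg (by linarith) h1.le
  | Sp.L p q, v, e => by
      have e' : (Nat.beq v p || Nat.beq v q || psv p q v) = true := e
      simp only [Bool.or_eq_true] at e'
      show 0 ≤ D _ _ _
      rcases e' with (e' | e') | e'
      · rw [Nat.eq_of_beq_eq_true e', D_self1]
      · rw [Nat.eq_of_beq_eq_true e', D_self2]
      · exact (psv_sound hD hξ hσ e').le

theorem le_sound : ∀ (s : Sp) (v : ℕ), leS s v = true → Fn O H V ξ σ s (gN O H V ξ σ v) ≤ 0
  | Sp.A t, v, e => by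
      rw [fA_eq hD hξ hσ]
      have h1 := ((tri_iff _ _ _ _).1 (g_mem hD hξ hσ v)).1
      have h2 := sep_le hξ (ble_iff (show Nat.ble (rA v) t = true from e))
      exact mul_nonpos_of_nonpos_of_nonneg (by linarith) h1.le
  | Sp.C t, v, e => by
      rw [fC_eq hD hξ hσ]
      have h1 := ((tri_iff _ _ _ _).1 (g_mem hD hξ hσ v)).2.1
      have h2 := sep_le hσ (ble_iff (show Nat.ble (rC v) t = true from e))
      exact mul_nonpos_of_nonpos_of_nonneg (by linarith) h1.le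
  | Sp.L p q, v, e => by
      have e' : (Nat.beq v p || Nat.beq v q || psv q p v) = true := e
      simp only [Bool.or_eq_true] at e'
      show D _ _ _ ≤ 0
      rcases e' with (e' | e') | e'
      · rw [Nat.eq_of_beq_eq_true e', D_self1]
      · rw [Nat.eq_of_beq_eq_true e', D_self2]
      · have := psv_sound hD hξ hσ e'
        rw [D_swap]
        linarith

theorem cEE_sound {u v x y : ℕ} (e : cEE u v x y = true) :
    Disjoint (segment ℝ (gN O H V ξ σ u) (gN O H V ξ σ v))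
      (segment ℝ (gN O H V ξ σ x) (gN O H V ξ σ y)) := by
  unfold cEE at e
  obtain ⟨s, -, hs⟩ := List.any_eq_true.1 e
  simp only [Bool.or_eq_true, Bool.and_eq_true] at hs
  rw [Set.disjoint_left]
  intro z hz hz'
  have hA := Fn_aff O H V ξ σ s
  rcases hs with ⟨⟨⟨h1, h2⟩, h3⟩, h4⟩ | ⟨⟨⟨h1, h2⟩, h3⟩, h4⟩
  · have k1 := aff_seg_le hA hz (le_sound hD hξ hσ _ _ h1) (le_sound hD hξ hσ _ _ h2)
    have k2 := aff_seg_pos hA hz' (gt_sound hD hξ hσ _ _ h3) (gt_sound hD hξ hσ _ _ h4)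
    linarith
  · have k1 := aff_seg_le hA hz' (le_sound hD hξ hσ _ _ h1) (le_sound hD hξ hσ _ _ h2)
    have k2 := aff_seg_pos hA hz (gt_sound hD hξ hσ _ _ h3) (gt_sound hD hξ hσ _ _ h4)
    linarith

theorem cEV_sound {u v w : ℕ} (e : cEV u v w = true) :
    gN O H V ξ σ w ∉ segment ℝ (gN O H V ξ σ u) (gN O H V ξ σ v) := by
  unfold cEV at e
  obtain ⟨s, -, hs⟩ := List.any_eq_true.1 e
  simp only [Bool.or_eq_true, Bool.and_eq_true] at hs
  intro hz
  have hA := Fn_aff O H V ξ σ s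
  rcases hs with ⟨⟨h1, h2⟩, h3⟩ | ⟨⟨h1, h2⟩, h3⟩
  · have k1 := aff_seg_le hA hz (le_sound hD hξ hσ _ _ h1) (le_sound hD hξ hσ _ _ h2)
    have k2 := gt_sound hD hξ hσ _ _ h3
    linarith
  · have k1 := le_sound hD hξ hσ _ _ h1
    have k2 := aff_seg_pos hA hz (gt_sound hD hξ hσ _ _ h2) (gt_sound hD hξ hσ _ _ h3)
    linarith

theorem wkP_sound {s : Sp} {a b c : ℕ} (e : wkP s a b c = true) {z : Pt}
    (hz : z ∈ Tri (gN O H V ξ σ a) (gN O H V ξ σ b) (gN O H V ξ σ c)) : 0 < Fn O H V ξ σ s z := by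
  simp only [wkP, Bool.or_eq_true, Bool.and_eq_true] at e
  obtain ⟨⟨⟨h1, h2⟩, h3⟩, h4⟩ := e
  refine aff_tri_pos (Fn_aff O H V ξ σ s) hz (ge_sound hD hξ hσ _ _ h1) (ge_sound hD hξ hσ _ _ h2)
    (ge_sound hD hξ hσ _ _ h3) ?_
  rcases h4 with (h4 | h4) | h4
  · exact Or.inl (gt_sound hD hξ hσ _ _ h4)
  · exact Or.inr (Or.inl (gt_sound hD hξ hσ _ _ h4))
  · exact Or.inr (Or.inr (gt_sound hD hξ hσ _ _ h4))

theorem wkN_sound {s : Sp} {a b c : ℕ} (e : wkN s a b c = true) {z : Pt}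
    (hz : z ∈ Tri (gN O H V ξ σ a) (gN O H V ξ σ b) (gN O H V ξ σ c)) : Fn O H V ξ σ s z < 0 := by
  simp only [wkN, Bool.or_eq_true, Bool.and_eq_true] at e
  obtain ⟨⟨⟨h1, h2⟩, h3⟩, h4⟩ := e
  have := aff_tri_pos (aff_neg (Fn_aff O H V ξ σ s)) hz
    (neg_nonneg.2 (le_sound hD hξ hσ _ _ h1)) (neg_nonneg.2 (le_sound hD hξ hσ _ _ h2))
    (neg_nonneg.2 (le_sound hD hξ hσ _ _ h3)) (by
      rcases h4 with (h4 | h4) | h4
      · exact Or.inl (neg_pos.2 (lt_sound hD hξ hσ _ _ h4))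
      · exact Or.inr (Or.inl (neg_pos.2 (lt_sound hD hξ hσ _ _ h4)))
      · exact Or.inr (Or.inr (neg_pos.2 (lt_sound hD hξ hσ _ _ h4))))
  exact neg_pos.1 this

theorem cFE_sound {a b c u v : ℕ} (e : cFE a b c u v = true) :
    Disjoint (Tri (gN O H V ξ σ a) (gN O H V ξ σ b) (gN O H V ξ σ c))
      (segment ℝ (gN O H V ξ σ u) (gN O H V ξ σ v)) := by
  unfold cFE at e
  obtain ⟨s, -, hs⟩ := List.any_eq_true.1 e
  simp only [Bool.or_eq_true, Bool.and_eq_true] at hs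
  rw [Set.disjoint_left]
  intro z hz hz'
  have hA := Fn_aff O H V ξ σ s
  rcases hs with ⟨⟨h1, h2⟩, h3⟩ | ⟨⟨h1, h2⟩, h3⟩
  · have k1 := wkP_sound hD hξ hσ h1 hz
    have k2 := aff_seg_le hA hz' (le_sound hD hξ hσ _ _ h2) (le_sound hD hξ hσ _ _ h3)
    linarith
  · have k1 := wkN_sound hD hξ hσ h1 hz
    have k2 := aff_seg_ge hA hz' (ge_sound hD hξ hσ _ _ h2) (ge_sound hD hξ hσ _ _ h3)
    linarith

theorem cFF_sound {a b c x y w : ℕ} (e : cFF a b c x y w = true) :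
    Disjoint (Tri (gN O H V ξ σ a) (gN O H V ξ σ b) (gN O H V ξ σ c))
      (Tri (gN O H V ξ σ x) (gN O H V ξ σ y) (gN O H V ξ σ w)) := by
  unfold cFF at e
  obtain ⟨s, -, hs⟩ := List.any_eq_true.1 e
  simp only [Bool.or_eq_true, Bool.and_eq_true] at hs
  rw [Set.disjoint_left]
  intro z hz hz'
  have hA := Fn_aff O H V ξ σ s
  rcases hs with ⟨⟨⟨h1, h2⟩, h3⟩, h4⟩ | ⟨⟨⟨h1, h2⟩, h3⟩, h4⟩
  · have k1 := wkP_sound hD hξ hσ h1 hz
    have k2 := aff_tri_ge (aff_neg hA) hz' (neg_nonneg.2 (le_sound hD hξ hσ _ _ h2))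
      (neg_nonneg.2 (le_sound hD hξ hσ _ _ h3)) (neg_nonneg.2 (le_sound hD hξ hσ _ _ h4))
    have k3 := neg_nonneg.1 k2
    linarith
  · have k1 := wkN_sound hD hξ hσ h1 hz
    have k2 := aff_tri_ge hA hz' (ge_sound hD hξ hσ _ _ h2) (ge_sound hD hξ hσ _ _ h3)
      (ge_sound hD hξ hσ _ _ h4)
    linarith

theorem bx_sound {o h v c : ℕ} (e : bx o h v c = true) :
    Box O H V (ξ c) (ξ (c + 1)) (σ c) (σ (c + 1)) ⊆
      Tri (gN O H V ξ σ o) (gN O H V ξ σ h) (gN O H V ξ σ v) := by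
  simp only [bx, Bool.and_eq_true] at e
  obtain ⟨⟨⟨⟨⟨e1, e2⟩, e3⟩, e4⟩, e5⟩, e6⟩ := e
  have e1 := blt_iff e1
  have e2 := blt_iff e2
  have e3 := blt_iff e3
  have e4 := blt_iff e4
  have e5 := blt_iff e5
  have e6 := blt_iff e6
  have mo := g_mem hD hξ hσ o
  have mh := g_mem hD hξ hσ h
  have mv := g_mem hD hξ hσ v
  have xo := g_X hD hξ hσ o
  have xh := g_X hD hξ hσ h
  have xv := g_X hD hξ hσ v
  have so := g_S hD hξ hσ o
  have sh := g_S hD hξ hσ h
  have sv := g_S hD hξ hσ v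
  rintro p ⟨hp, hx1, hx2, hs1, hs2⟩
  have a1 := sep_three hξ e1
  have a2 := sep_three hσ e2
  have a3 := sep_three hσ e3
  have a4 := sep_three hξ e4
  have a5 := sep_three hξ e5
  have a6 := sep_three hσ e6
  have pX := fX_pos hp
  have pS := fS_pos hp
  have c1 := sep_lt hξ (Nat.lt_succ_self c)
  have c2 := sep_lt hσ (Nat.lt_succ_self c)
  have p1 := sep_pos hξ c
  have p2 := sep_pos hσ c
  refine ⟨?_, ?_, ?_⟩
  · refine P3 hD mo mh hp ?_ ?_ ?_ ?_
    · rw [xo, xh]; linarith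
    · rw [xo]; linarith
    · rw [so]; linarith
    · rw [sh]; linarith
  · rw [← D_cyc]
    refine P3 hD hp mh mv ?_ ?_ ?_ ?_
    · rw [xh]; linarith
    · rw [xv]; linarith
    · rw [sv]; linarith
    · rw [sh, sv]; linarith
  · rw [D_cyc]
    refine P3 hD mo hp mv ?_ ?_ ?_ ?_
    · rw [xo]; linarith
    · rw [xo, xv]; linarith
    · rw [so, sv]; linarith
    · rw [sv]; linarith

end sound

end Frame

open MFS.Frame in
theorem frameDraw : FrameDraw := by
  intro O H V hD ξ σ hξ hσ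
  have hg : ∀ v : Fin 25, pt O H V (ξ (rkA v)) (σ (rkC v)) = gN O H V ξ σ v.val := by
    intro v
    rw [rkA_eq, rkC_eq]
    rfl
  have hEE := chkEE
  have hEV := chkEV
  have hFE := chkFE
  have hFF := chkFF
  have hOut := chkOut
  have hPos := chkPos
  have hBox := chkBox
  rw [List.all_eq_true] at hEE hEV hFE hFF hOut hPos hBox
  refine ⟨fun v => gN O H V ξ σ v.val, fun v => g_mem hD hξ hσ _, ⟨⟨?_, ?_, ?_⟩, ?_, ?_, ?_, ?_⟩, ?_⟩
  · intro u v huv
    have h1 : ξ (rA u.val) = ξ (rA v.val) := by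
      rw [← g_X hD hξ hσ u.val, ← g_X hD hξ hσ v.val]
      exact congrArg _ huv
    have h2 := sep_inj hξ h1
    apply rkA_inj
    rw [rkA_eq, rkA_eq, h2]
  · intro u v w huv hwu hwv
    have hw : w.val ∈ List.range 25 := List.mem_range.2 w.isLt
    rcases eds_spec u v huv with h | h
    · have h1 := List.all_eq_true.1 (hEV _ h) w.val hw
      simp only [Bool.or_eq_true] at h1
      rcases h1 with (h1 | h1) | h1
      · exact absurd (Fin.ext (Nat.eq_of_beq_eq_true h1)) hwu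
      · exact absurd (Fin.ext (Nat.eq_of_beq_eq_true h1)) hwv
      · exact cEV_sound hD hξ hσ h1
    · have h1 := List.all_eq_true.1 (hEV _ h) w.val hw
      simp only [Bool.or_eq_true] at h1
      rcases h1 with (h1 | h1) | h1
      · exact absurd (Fin.ext (Nat.eq_of_beq_eq_true h1)) hwv
      · exact absurd (Fin.ext (Nat.eq_of_beq_eq_true h1)) hwu
      · rw [segment_symm]; exact cEV_sound hD hξ hσ h1
  · have key : ∀ u v x y : Fin 25, (u.val, v.val) ∈ eds → (x.val, y.val) ∈ eds →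
        u ≠ x → u ≠ y → v ≠ x → v ≠ y →
        Disjoint (segment ℝ (gN O H V ξ σ u.val) (gN O H V ξ σ v.val))
          (segment ℝ (gN O H V ξ σ x.val) (gN O H V ξ σ y.val)) := by
      intro u v x y h1 h2 a b c d
      have h3 := List.all_eq_true.1 (hEE _ h1) _ h2
      simp only [Bool.or_eq_true] at h3
      rcases h3 with (((h3 | h3) | h3) | h3) | h3
      · exact absurd (Fin.ext (Nat.eq_of_beq_eq_true h3)) a
      · exact absurd (Fin.ext (Nat.eq_of_beq_eq_true h3)) b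
      · exact absurd (Fin.ext (Nat.eq_of_beq_eq_true h3)) c
      · exact absurd (Fin.ext (Nat.eq_of_beq_eq_true h3)) d
      · exact cEE_sound hD hξ hσ h3
    intro u v x y huv hxy a b c d
    rcases eds_spec u v huv with h | h <;> rcases eds_spec x y hxy with h' | h'
    · exact key u v x y h h' a b c d
    · rw [segment_symm ℝ (gN O H V ξ σ x.val)]
      exact key u v y x h h' b a d c
    · rw [segment_symm ℝ (gN O H V ξ σ u.val)]
      exact key v u x y h h' c d a b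
    · rw [segment_symm ℝ (gN O H V ξ σ u.val), segment_symm ℝ (gN O H V ξ σ x.val)]
      exact key v u y x h h' d c b a
  · intro v
    have h := hOut v.val (List.mem_range.2 v.isLt)
    simp only [Bool.or_eq_true] at h
    show 0 ≤ D (gN O H V ξ σ 0) (gN O H V ξ σ 1) (gN O H V ξ σ v.val)
    rcases h with (h | h) | h
    · rw [Nat.eq_of_beq_eq_true h, D_self1]
    · rw [Nat.eq_of_beq_eq_true h, D_self2]
    · exact (psv_sound hD hξ hσ h).le
  · intro j
    exact psv_sound hD hξ hσ (hPos _ (sps_spec j))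
  · intro j u v huv
    have h1 := hFE _ (sps_spec j)
    rcases eds_spec u v huv with h | h
    · exact cFE_sound hD hξ hσ (List.all_eq_true.1 h1 _ h)
    · show Disjoint _ (segment ℝ (gN O H V ξ σ u.val) (gN O H V ξ σ v.val))
      rw [segment_symm]
      exact cFE_sound hD hξ hσ (List.all_eq_true.1 h1 _ h)
  · intro j j' hjj
    have h1 := List.all_eq_true.1 (hFF _ (sps_spec j)) _ (sps_spec j')
    simp only [Bool.or_eq_true] at h1
    rcases h1 with h1 | h1
    · exact absurd (Fin.ext (Nat.eq_of_beq_eq_true h1)) hjj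
    · exact cFF_sound hD hξ hσ h1
  · intro j
    have h := hBox _ (sps_spec j)
    simp only [Bool.or_eq_true] at h
    have hc : cc j = 5 * j.val + 3 := rfl
    rw [hc]
    rcases h with (h | h) | h
    · exact bx_sound hD hξ hσ h
    · show _ ⊆ Tri _ _ _
      rw [tri_cyc]
      exact bx_sound hD hξ hσ h
    · show _ ⊆ Tri _ _ _
      rw [← tri_cyc]
      exact bx_sound hD hξ hσ h

end MFS
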