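import Pool.Agent.MFS.Defs
import Pool.Agent.H78.DS.Ramsey

/-! MFS/Good : every large finite set in general position contains a good chain. -/

set_option autoImplicit false

namespace MFS

namespace GoodAux

theorem ramseyN (r L : ℕ) : ∃ K : ℕ, ∀ χ : (Fin r → ℕ) → Prop, ∃ e : ℕ → ℕ,
    (∀ i j, i < j → j < L → e i < e j) ∧ (∀ i, i < L → e i < K) ∧
    ((∀ s : Fin r → ℕ, StrictMono s → (∀ t, s t < L) → χ (fun t => e (s t))) ∨
     (∀ s : Fin r → ℕ, StrictMono s → (∀ t, s t < L) → ¬ χ (fun t => e (s t)))) := by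
  classical
  obtain ⟨R, _, hR⟩ := Pool.Agent.H78.DS.ramsey Bool r
  refine ⟨R L, fun χ => ?_⟩
  obtain ⟨S, hS, hcard, κ, hκ⟩ := hR L (Finset.range (R L)) (by simp)
     (fun F => if h : F.card = r then decide (χ (fun t => F.orderEmbOfFin h t)) else true)
  set e : ℕ → ℕ := fun i => if h : i < L then S.orderEmbOfFin hcard ⟨i, h⟩ else 0 with hedef
  have he : ∀ i (h : i < L), e i = S.orderEmbOfFin hcard ⟨i, h⟩ := fun i h => dif_pos h
  have hmem : ∀ i, i < L → e i ∈ S := by
    intro i hi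
    rw [he i hi]; exact Finset.orderEmbOfFin_mem _ _ _
  have hmono : ∀ i j, i < j → j < L → e i < e j := by
    intro i j hij hj
    rw [he i (hij.trans hj), he j hj]
    exact (S.orderEmbOfFin hcard).strictMono (by simpa using hij)
  have key : ∀ s : Fin r → ℕ, StrictMono s → (∀ t, s t < L) →
      decide (χ (fun t => e (s t))) = κ := by
    intro s hs hsL
    have hinj : StrictMono (fun t => e (s t)) := fun a b hab => hmono _ _ (hs hab) (hsL b)
    have hFc : (Finset.univ.image (fun t => e (s t))).card = r := by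
      rw [Finset.card_image_of_injective _ hinj.injective]; simp
    have hFS : Finset.univ.image (fun t => e (s t)) ⊆ S := by
      intro x hx
      obtain ⟨t, _, rfl⟩ := Finset.mem_image.1 hx
      exact hmem _ (hsL t)
    have h1 := hκ _ hFS hFc
    rw [dif_pos hFc] at h1
    have h2 : (fun t => e (s t)) = (Finset.univ.image (fun t => e (s t))).orderEmbOfFin hFc :=
      Finset.orderEmbOfFin_unique hFc (fun t => Finset.mem_image_of_mem _ (Finset.mem_univ t)) hinj
    have h3 : (fun t => e (s t)) =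
        (fun t => (Finset.univ.image (fun t => e (s t))).orderEmbOfFin hFc t) := h2
    rw [← h1]
    congr 1
    rw [← h3]
  refine ⟨e, hmono, fun i hi => Finset.mem_range.1 (hS (hmem i hi)), ?_⟩
  cases κ with
  | true => exact Or.inl fun s hs hsL => of_decide_eq_true (key s hs hsL)
  | false => exact Or.inr fun s hs hsL => of_decide_eq_false (key s hs hsL)

/-- seven increasing numbers have a 4-tuple with cross ratio at least three -/
theorem slopes (w : ℕ → ℝ) (hw : ∀ i j, i < j → j < 7 → w i < w j)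
    (h : ∀ a k l j, a < k → k < l → l < j → j < 7 →
      (w l - w a) * (w j - w k) < 3 * ((w k - w a) * (w j - w l))) : False := by
  have P : ∀ a k l j, a < k → k < l → l < j → j < 7 → w l - w a < 3 * (w k - w a) := by
    intro a k l j h1 h2 h3 h4
    have q := h a k l j h1 h2 h3 h4
    have e1 := hw a k h1 (by omega)
    have e2 := hw k l h2 (by omega)
    have e3 := hw l j h3 (by omega)
    by_contra hc
    push Not at hc
    nlinarith [mul_nonneg (sub_nonneg.2 hc) (sub_nonneg.2 (e2.trans e3).le),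
      mul_pos (sub_pos.2 e1) (sub_pos.2 e2)]
  have Q : ∀ a k l j, a < k → k < l → l < j → j < 7 → w j - w k < 3 * (w j - w l) := by
    intro a k l j h1 h2 h3 h4
    have q := h a k l j h1 h2 h3 h4
    have e1 := hw a k h1 (by omega)
    have e2 := hw k l h2 (by omega)
    have e3 := hw l j h3 (by omega)
    by_contra hc
    push Not at hc
    nlinarith [mul_nonneg (sub_nonneg.2 hc) (sub_nonneg.2 (e1.trans e2).le),
      mul_pos (sub_pos.2 e2) (sub_pos.2 e3)]
  have p1 := P 1 2 5 6 (by omega) (by omega) (by omega) (by omega)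
  have p2 := P 2 3 5 6 (by omega) (by omega) (by omega) (by omega)
  have p3 := P 3 4 5 6 (by omega) (by omega) (by omega) (by omega)
  have q1 := Q 0 1 4 5 (by omega) (by omega) (by omega) (by omega)
  have e := hw 1 5 (by omega) (by omega)
  linarith

theorem slopesD (F : ℕ → ℕ → ℝ) (U w : ℕ → ℝ) (hU : ∀ a, a < 7 → 0 < U a)
    (hF : ∀ a b, a < b → b < 7 → F a b = U a * U b * (w b - w a))
    (hpos : ∀ a b, a < b → b < 7 → 0 < F a b)
    (h : ∀ a k l j, a < k → k < l → l < j → j < 7 → F a l * F k j < 3 * (F a k * F l j)) :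
    False := by
  apply slopes w
  · intro i j hij hj
    have h1 := hpos i j hij hj
    rw [hF i j hij hj] at h1
    have h2 : 0 < U i * U j := mul_pos (hU i (by omega)) (hU j hj)
    have h3 : 0 < w j - w i := (pos_iff_pos_of_mul_pos h1).1 h2
    linarith
  · intro a k l j h1 h2 h3 h4
    have q := h a k l j h1 h2 h3 h4
    rw [hF a l (by omega) (by omega), hF k j (by omega) h4, hF a k h1 (by omega), hF l j h3 h4] at q
    have hc : 0 < U a * U k * U l * U j :=
      mul_pos (mul_pos (mul_pos (hU a (by omega)) (hU k (by omega))) (hU l (by omega))) (hU j h4)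
    have q' : (U a * U k * U l * U j) * ((w l - w a) * (w j - w k)) <
        (U a * U k * U l * U j) * (3 * ((w k - w a) * (w j - w l))) := by nlinarith [q]
    exact lt_of_mul_lt_mul_left q' hc.le

/-- an `x`-monotone convex chain, in suitable linear coordinates -/
structure Cup (n : ℕ) (p : ℕ → Pt) (u y : Pt → ℝ) : Prop where
  hD : ∀ a b c, D a b c = (u b - u a) * (y c - y a) - (y b - y a) * (u c - u a)
  lin : ∀ A B : Pt, ∃ α β : ℝ, ∀ p q, D A B q - D A B p = α * (u q - u p) + β * (y q - y p)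
  mono : ∀ i j, i < j → j < n → u (p i) < u (p j)
  pos : ∀ i j k, i < j → j < k → k < n → 0 < D (p i) (p j) (p k)

theorem Cup.comp {n m : ℕ} {p : ℕ → Pt} {u y : Pt → ℝ} (h : Cup n p u y) (e : ℕ → ℕ)
    (he : ∀ i j, i < j → j < m → e i < e j) (hn : ∀ i, i < m → e i < n) :
    Cup m (fun i => p (e i)) u y where
  hD := h.hD
  lin := h.lin
  mono := fun i j hij hj => h.mono _ _ (he i j hij hj) (hn j hj)
  pos := fun i j k hij hjk hk => h.pos _ _ _ (he i j hij (hjk.trans hk)) (he j k hjk hk) (hn k hk)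

theorem Cup.notA {n : ℕ} {p : ℕ → Pt} {u y : Pt → ℝ} (h : Cup n p u y) (hn : 8 ≤ n)
    (hA : ∀ i k0 k l j, i < k0 → k0 < k → k < l → l < j → j < n →
      D (p i) (p k0) (p l) * D (p i) (p k) (p j) <
      3 * (D (p i) (p k0) (p k) * D (p i) (p l) (p j))) : False := by
  apply slopesD (fun a b => D (p 0) (p (a + 1)) (p (b + 1))) (fun a => u (p (a + 1)) - u (p 0))
    (fun a => (y (p (a + 1)) - y (p 0)) / (u (p (a + 1)) - u (p 0)))
  · intro a ha
    have := h.mono 0 (a + 1) (by omega) (by omega)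
    simpa using this
  · intro a b hab hb
    have h1 := h.mono 0 (a + 1) (by omega) (by omega)
    have h2 := h.mono 0 (b + 1) (by omega) (by omega)
    have h1' : u (p (a + 1)) - u (p 0) ≠ 0 := (sub_pos.2 h1).ne'
    have h2' : u (p (b + 1)) - u (p 0) ≠ 0 := (sub_pos.2 h2).ne'
    rw [h.hD]
    field_simp
  · intro a b hab hb
    exact h.pos 0 (a + 1) (b + 1) (by omega) (by omega) (by omega)
  · intro a k l j h1 h2 h3 h4
    exact hA 0 (a + 1) (k + 1) (l + 1) (j + 1) (by omega) (by omega) (by omega) (by omega) (by omega)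

theorem Cup.notB {n : ℕ} {p : ℕ → Pt} {u y : Pt → ℝ} (h : Cup n p u y) (hn : 8 ≤ n)
    (hB : ∀ i k l j0 j, i < k → k < l → l < j0 → j0 < j → j < n →
      D (p i) (p l) (p j) * D (p k) (p j0) (p j) <
      3 * (D (p i) (p k) (p j) * D (p l) (p j0) (p j))) : False := by
  apply slopesD (fun a b => D (p a) (p b) (p 7)) (fun a => u (p 7) - u (p a))
    (fun a => (y (p 7) - y (p a)) / (u (p 7) - u (p a)))
  · intro a ha
    have := h.mono a 7 (by omega) (by omega)
    simpa using this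
  · intro a b hab hb
    have h1 := h.mono a 7 (by omega) (by omega)
    have h2 := h.mono b 7 (by omega) (by omega)
    have h1' : u (p 7) - u (p a) ≠ 0 := (sub_pos.2 h1).ne'
    have h2' : u (p 7) - u (p b) ≠ 0 := (sub_pos.2 h2).ne'
    rw [h.hD]
    field_simp
    ring
  · intro a b hab hb
    exact h.pos a b 7 hab (by omega) (by omega)
  · intro a k l j h1 h2 h3 h4
    exact hB a k l j 7 h1 h2 h3 (by omega) (by omega)

theorem D_seg (a b p q : Pt) (τ : ℝ) : D a b (p + τ • (q - p)) = D a b p + τ * (D a b q - D a b p) := by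
  simp only [D, Prod.fst_add, Prod.snd_add, Prod.smul_fst, Prod.smul_snd, Prod.fst_sub, Prod.snd_sub,
    smul_eq_mul]
  ring

/-- slopes of successive edges of a cup increase -/
theorem Cup.cross {n : ℕ} {p : ℕ → Pt} {u y : Pt → ℝ} (h : Cup n p u y) {a b c d : ℕ}
    (hab : a < b) (hbc : b < c) (hcd : c < d) (hd : d < n) :
    (y (p b) - y (p a)) * (u (p d) - u (p c)) < (y (p d) - y (p c)) * (u (p b) - u (p a)) := by
  have m1 := h.mono a b hab (by omega)
  have m2 := h.mono b c hbc (by omega)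
  have m3 := h.mono c d hcd (by omega)
  have d1 := h.pos a b c hab hbc (by omega)
  have d2 := h.pos b c d hbc hcd hd
  rw [h.hD] at d1 d2
  set ua := u (p a); set ub := u (p b); set uc := u (p c); set ud := u (p d)
  set ya := y (p a); set yb := y (p b); set yc := y (p c); set yd := y (p d)
  have e1 : (yb - ya) * (uc - ub) < (yc - yb) * (ub - ua) := by nlinarith
  have e2 : (yc - yb) * (ud - uc) < (yd - yc) * (uc - ub) := by nlinarith
  have f1 : 0 < ub - ua := sub_pos.2 m1
  have f2 : 0 < uc - ub := sub_pos.2 m2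
  have f3 : 0 < ud - uc := sub_pos.2 m3
  have g1 : (yb - ya) * (uc - ub) * (ud - uc) < (yc - yb) * (ub - ua) * (ud - uc) :=
    mul_lt_mul_of_pos_right e1 f3
  have g2 : (yc - yb) * (ud - uc) * (ub - ua) < (yd - yc) * (uc - ub) * (ub - ua) :=
    mul_lt_mul_of_pos_right e2 f1
  have g3 : (uc - ub) * ((yb - ya) * (ud - uc)) < (uc - ub) * ((yd - yc) * (ub - ua)) := by nlinarith
  exact lt_of_mul_lt_mul_left g3 f2.le

/-- the apex condition -/
def Apex (A B C a b c d : Pt) : Prop :=
  ∃ z ∈ Tri A B C, (∃ τ : ℝ, 1 < τ ∧ z = a + τ • (b - a)) ∧ ∃ τ : ℝ, 1 < τ ∧ z = d + τ • (c - d)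

/-- the intersection of the first and the last edge exists, and if it is not in the triangle then a side
functional decreases along the first edge and increases along the last edge -/
theorem Cup.apex {n : ℕ} {p : ℕ → Pt} {u y : Pt → ℝ} (h : Cup n p u y) {A B C : Pt}
    (hT : ∀ i, i < n → p i ∈ Tri A B C) {a b c d : ℕ}
    (hab : a < b) (hbc : b < c) (hcd : c < d) (hd : d < n) (hno : ¬ Apex A B C (p a) (p b) (p c) (p d)) :
    ∃ t : Fin 3, D (![A, B, C] t) (![B, C, A] t) (p b) < D (![A, B, C] t) (![B, C, A] t) (p a) ∧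
      D (![A, B, C] t) (![B, C, A] t) (p c) < D (![A, B, C] t) (![B, C, A] t) (p d) := by
  have hcr := h.cross hab hbc hcd hd
  have d1 := h.pos a c d (by omega) hcd hd
  have d2 := h.pos b c d hbc hcd hd
  have d3 := h.pos a b c hab hbc (by omega)
  have d4 := h.pos a b d hab (by omega) hd
  -- the two numerators
  have k1 : D (p a) (p c) (p d) - D (p b) (p c) (p d) =
      (y (p d) - y (p c)) * (u (p b) - u (p a)) - (y (p b) - y (p a)) * (u (p d) - u (p c)) := by
    rw [h.hD, h.hD]; ring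
  have k2 : D (p a) (p b) (p d) - D (p a) (p b) (p c) =
      (y (p d) - y (p c)) * (u (p b) - u (p a)) - (y (p b) - y (p a)) * (u (p d) - u (p c)) := by
    rw [h.hD, h.hD]; ring
  set δ := (y (p d) - y (p c)) * (u (p b) - u (p a)) - (y (p b) - y (p a)) * (u (p d) - u (p c))
    with hδ
  have hδ0 : 0 < δ := by rw [hδ]; linarith
  set τ := D (p a) (p c) (p d) / δ with hτ
  set τ' := D (p a) (p b) (p d) / δ with hτ'
  have t1 : 1 < τ := by rw [hτ, lt_div_iff₀ hδ0]; linarith
  have t2 : 1 < τ' := by rw [hτ', lt_div_iff₀ hδ0]; linarith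
  have hz : p a + τ • (p b - p a) = p d + τ' • (p c - p d) := by
    have hδD : δ = ((p b).1 - (p a).1) * ((p d).2 - (p c).2) -
        ((p b).2 - (p a).2) * ((p d).1 - (p c).1) := by
      rw [← k1]; simp only [D]; ring
    have e1 : δ * τ = D (p a) (p c) (p d) := by rw [hτ]; field_simp
    have e2 : δ * τ' = D (p a) (p b) (p d) := by rw [hτ']; field_simp
    simp only [D] at e1 e2
    have h1 : δ * ((p a).1 + τ * ((p b).1 - (p a).1)) = δ * ((p d).1 + τ' * ((p c).1 - (p d).1)) := by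
      linear_combination ((p b).1 - (p a).1) * e1 - ((p c).1 - (p d).1) * e2 +
        ((p a).1 - (p d).1) * hδD
    have h2 : δ * ((p a).2 + τ * ((p b).2 - (p a).2)) = δ * ((p d).2 + τ' * ((p c).2 - (p d).2)) := by
      linear_combination ((p b).2 - (p a).2) * e1 - ((p c).2 - (p d).2) * e2 +
        ((p a).2 - (p d).2) * hδD
    refine Prod.ext ?_ ?_
    · simpa using mul_left_cancel₀ hδ0.ne' h1
    · simpa using mul_left_cancel₀ hδ0.ne' h2
  by_contra hcon
  push Not at hcon
  apply hno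
  refine ⟨p a + τ • (p b - p a), ?_, ⟨τ, t1, rfl⟩, ⟨τ', t2, hz⟩⟩
  have side : ∀ X Y : Pt, 0 < D X Y (p a) → 0 < D X Y (p b) → 0 < D X Y (p c) → 0 < D X Y (p d) →
      (D X Y (p b) < D X Y (p a) → D X Y (p d) ≤ D X Y (p c)) →
      0 < D X Y (p a + τ • (p b - p a)) := by
    intro X Y ha hb hc hd' himp
    by_cases hlt : D X Y (p b) < D X Y (p a)
    · have h4 := himp hlt
      rw [hz, D_seg]
      nlinarith
    · push Not at hlt
      rw [D_seg]
      nlinarith
  obtain ⟨a1, a2, a3⟩ := hT a (by omega)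
  obtain ⟨b1, b2, b3⟩ := hT b (by omega)
  obtain ⟨c1, c2, c3⟩ := hT c (by omega)
  obtain ⟨d1', d2', d3'⟩ := hT d hd
  refine ⟨side A B a1 b1 c1 d1' (hcon 0), side B C a2 b2 c2 d2' (hcon 1), side C A a3 b3 c3 d3' (hcon 2)⟩

theorem Cup.notC {n : ℕ} {p : ℕ → Pt} {u y : Pt → ℝ} (h : Cup n p u y) (hn : 16 ≤ n) {A B C : Pt}
    (hT : ∀ i, i < n → p i ∈ Tri A B C)
    (hC : ∀ a b c d, a < b → b < c → c < d → d < n → ¬ Apex A B C (p a) (p b) (p c) (p d)) :
    False := by
  have hb : ∀ b : Fin 4, ∃ t : Fin 3,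
      D (![A, B, C] t) (![B, C, A] t) (p (4 * b.val + 1)) <
        D (![A, B, C] t) (![B, C, A] t) (p (4 * b.val)) ∧
      D (![A, B, C] t) (![B, C, A] t) (p (4 * b.val + 2)) <
        D (![A, B, C] t) (![B, C, A] t) (p (4 * b.val + 3)) := by
    intro b
    have := b.isLt
    exact h.apex hT (by omega) (by omega) (by omega) (by omega)
      (hC (4 * b.val) (4 * b.val + 1) (4 * b.val + 2) (4 * b.val + 3) (by omega) (by omega) (by omega)
        (by omega))
  choose t ht1 ht2 using hb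
  have core : ∀ b b' : Fin 4, b < b' → t b = t b' → False := by
    intro b b' hbb' htt
    have hlt : b.val < b'.val := hbb'
    have hlt' := b'.isLt
    obtain ⟨α, β, hαβ⟩ := h.lin (![A, B, C] (t b)) (![B, C, A] (t b))
    have q1 := ht1 b
    have q2 := ht2 b
    have q3 := ht1 b'
    rw [← htt] at q3
    have r1 := hαβ (p (4 * b.val)) (p (4 * b.val + 1))
    have r2 := hαβ (p (4 * b.val + 2)) (p (4 * b.val + 3))
    have r3 := hαβ (p (4 * b'.val)) (p (4 * b'.val + 1))
    have s1 := h.cross (a := 4 * b.val) (b := 4 * b.val + 1) (c := 4 * b.val + 2)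
      (d := 4 * b.val + 3) (by omega) (by omega) (by omega) (by omega)
    have s2 := h.cross (a := 4 * b.val + 2) (b := 4 * b.val + 3) (c := 4 * b'.val)
      (d := 4 * b'.val + 1) (by omega) (by omega) (by omega) (by omega)
    have m1 := h.mono (4 * b.val) (4 * b.val + 1) (by omega) (by omega)
    have m2 := h.mono (4 * b.val + 2) (4 * b.val + 3) (by omega) (by omega)
    have m3 := h.mono (4 * b'.val) (4 * b'.val + 1) (by omega) (by omega)
    set U1 := u (p (4 * b.val + 1)) - u (p (4 * b.val)) with hU1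
    set U2 := u (p (4 * b.val + 3)) - u (p (4 * b.val + 2)) with hU2
    set U3 := u (p (4 * b'.val + 1)) - u (p (4 * b'.val)) with hU3
    set Y1 := y (p (4 * b.val + 1)) - y (p (4 * b.val)) with hY1
    set Y2 := y (p (4 * b.val + 3)) - y (p (4 * b.val + 2)) with hY2
    set Y3 := y (p (4 * b'.val + 1)) - y (p (4 * b'.val)) with hY3
    have u1 : 0 < U1 := by rw [hU1]; linarith
    have u2 : 0 < U2 := by rw [hU2]; linarith
    have u3 : 0 < U3 := by rw [hU3]; linarith
    have v1 : α * U1 + β * Y1 < 0 := by rw [← r1]; linarith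
    have v2 : 0 < α * U2 + β * Y2 := by rw [← r2]; linarith
    have v3 : α * U3 + β * Y3 < 0 := by rw [← r3]; linarith
    -- `s1 : Y1 * U2 < Y2 * U1`, `s2 : Y2 * U3 < Y3 * U2`
    have w1 : 0 < β * (Y2 * U1 - Y1 * U2) := by nlinarith
    have w2 : β * (Y3 * U2 - Y2 * U3) < 0 := by nlinarith
    have b1 : 0 < β := (pos_iff_pos_of_mul_pos w1).2 (by linarith)
    nlinarith
  obtain ⟨b, b', hne, heq⟩ := Fintype.exists_ne_map_eq_of_card_lt t (by simp)
  rcases lt_or_gt_of_ne hne with hlt | hlt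
  · exact core b b' hlt heq
  · exact core b' b hlt heq.symm

theorem sm3 {i j k : ℕ} (h1 : i < j) (h2 : j < k) : StrictMono ![i, j, k] := by
  rw [Fin.strictMono_iff_lt_succ]
  intro t
  fin_cases t
  · exact h1
  · exact h2

theorem sm4 {i j k l : ℕ} (h1 : i < j) (h2 : j < k) (h3 : k < l) : StrictMono ![i, j, k, l] := by
  rw [Fin.strictMono_iff_lt_succ]
  intro t
  fin_cases t
  · exact h1
  · exact h2
  · exact h3

theorem sm5 {i j k l m : ℕ} (h1 : i < j) (h2 : j < k) (h3 : k < l) (h4 : l < m) :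
    StrictMono ![i, j, k, l, m] := by
  rw [Fin.strictMono_iff_lt_succ]
  intro t
  fin_cases t
  · exact h1
  · exact h2
  · exact h3
  · exact h4

theorem bd3 {i j k L : ℕ} (h1 : i < j) (h2 : j < k) (h : k < L) : ∀ t, ![i, j, k] t < L := by
  intro t
  fin_cases t
  · exact (h1.trans h2).trans h
  · exact h2.trans h
  · exact h

theorem bd4 {i j k l L : ℕ} (h1 : i < j) (h2 : j < k) (h3 : k < l) (h : l < L) :
    ∀ t, ![i, j, k, l] t < L := by
  intro t
  fin_cases t
  · exact ((h1.trans h2).trans h3).trans h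
  · exact (h2.trans h3).trans h
  · exact h3.trans h
  · exact h

theorem bd5 {i j k l m L : ℕ} (h1 : i < j) (h2 : j < k) (h3 : k < l) (h4 : l < m) (h : m < L) :
    ∀ t, ![i, j, k, l, m] t < L := by
  intro t
  fin_cases t
  · exact (((h1.trans h2).trans h3).trans h4).trans h
  · exact ((h2.trans h3).trans h4).trans h
  · exact (h3.trans h4).trans h
  · exact h4.trans h
  · exact h

theorem exists_shear {ι : Type} [Finite ι] (φ : ι → Pt) (hφ : Function.Injective φ) :
    ∃ ε : ℝ, Function.Injective (fun i => (φ i).1 + ε * (φ i).2) := by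
  have hfin : (⋃ q : ι × ι, {ε : ℝ | q.1 ≠ q.2 ∧
      (φ q.1).1 + ε * (φ q.1).2 = (φ q.2).1 + ε * (φ q.2).2}).Finite := by
    apply Set.finite_iUnion
    intro q
    apply Set.Subsingleton.finite
    rintro ε ⟨hne, h1⟩ ε' ⟨_, h2⟩
    by_contra hεε
    have h3 : (ε - ε') * ((φ q.1).2 - (φ q.2).2) = 0 := by linarith
    have h4 : (φ q.1).2 = (φ q.2).2 := by
      rcases mul_eq_zero.1 h3 with h | h
      · exact absurd (sub_eq_zero.1 h) hεε
      · linarith
    have h5 : (φ q.1).1 = (φ q.2).1 := by rw [h4] at h1; linarith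
    exact hne (hφ (Prod.ext h5 h4))
  obtain ⟨ε, hε⟩ := hfin.exists_notMem
  refine ⟨ε, fun i j hij => ?_⟩
  by_contra hne
  exact hε (Set.mem_iUnion.2 ⟨(i, j), hne, hij⟩)

end GoodAux

open GoodAux

theorem goodLemma : GoodLemma := by
  classical
  intro M
  obtain ⟨K3, h3⟩ := ramseyN 4 (2 * M + 21)
  obtain ⟨K2, h2⟩ := ramseyN 5 (K3 + 8)
  obtain ⟨K1, h1⟩ := ramseyN 5 (K2 + 8)
  obtain ⟨K0, h0⟩ := ramseyN 3 (K1 + 3)
  refine ⟨K0, fun A B C _ φ hφ hT hgp => ?_⟩
  have hK0 : 0 < K0 := by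
    obtain ⟨e, _, he, _⟩ := h0 (fun _ => True)
    exact lt_of_le_of_lt (Nat.zero_le _) (he 0 (by omega))
  obtain ⟨ε, hε⟩ := exists_shear φ hφ
  set v : Fin K0 → ℝ := fun i => (φ i).1 + ε * (φ i).2 with hv
  set σ := Tuple.sort v with hσ
  have hmono : StrictMono (v ∘ σ) :=
    (Tuple.monotone_sort v).strictMono_of_injective (hε.comp σ.injective)
  -- natural index
  set ν : ℕ → Fin K0 := fun i => if h : i < K0 then σ ⟨i, h⟩ else ⟨0, hK0⟩ with hνdef
  have hν : ∀ i (h : i < K0), ν i = σ ⟨i, h⟩ := fun i h => dif_pos h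
  have hνinj : ∀ i j, i < K0 → j < K0 → ν i = ν j → i = j := by
    intro i j hi hj hij
    rw [hν i hi, hν j hj] at hij
    simpa using σ.injective hij
  -- linear coordinates
  set u : Pt → ℝ := fun q => q.1 + ε * q.2 with hu
  set y : Pt → ℝ := fun q => q.2 with hy
  have uD : ∀ a b c : Pt, D a b c = (u b - u a) * (y c - y a) - (y b - y a) * (u c - u a) := by
    intro a b c; simp only [D, hu, hy]; ring
  have ulin : ∀ A B : Pt, ∃ α β : ℝ, ∀ p q, D A B q - D A B p = α * (u q - u p) + β * (y q - y p) := by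
    intro A B
    refine ⟨-(B.2 - A.2), (B.1 - A.1) + ε * (B.2 - A.2), fun p q => ?_⟩
    simp only [D, hu, hy]; ring
  have hum : ∀ i j, i < j → j < K0 → u (φ (ν i)) < u (φ (ν j)) := by
    intro i j hij hj
    rw [hν i (hij.trans hj), hν j hj]
    exact hmono (show (⟨i, hij.trans hj⟩ : Fin K0) < ⟨j, hj⟩ from hij)
  -- stage 0: orientation
  obtain ⟨f, u', y', hfinj, hcup⟩ : ∃ (f : ℕ → Fin K0) (u' y' : Pt → ℝ),
      (∀ i j, i < K1 + 3 → j < K1 + 3 → f i = f j → i = j) ∧
      Cup (K1 + 3) (fun i => φ (f i)) u' y' := by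
    obtain ⟨e, he, heK, hcol⟩ := h0 (fun t => 0 < D (φ (ν (t 0))) (φ (ν (t 1))) (φ (ν (t 2))))
    have heinj : ∀ i j, i < K1 + 3 → j < K1 + 3 → e i = e j → i = j := by
      intro i j hi hj hij
      rcases lt_trichotomy i j with h | h | h
      · exact absurd hij (he i j h hj).ne
      · exact h
      · exact absurd hij (he j i h hi).ne'
    rcases hcol with hpos | hneg
    · refine ⟨fun i => ν (e i), u, y, ?_, ?_⟩
      · intro i j hi hj hij
        exact heinj i j hi hj (hνinj _ _ (heK i hi) (heK j hj) hij)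
      · refine ⟨uD, ulin, fun i j hij hj => hum _ _ (he i j hij hj) (heK j hj), ?_⟩
        intro i j k hij hjk hk
        exact hpos ![i, j, k] (sm3 hij hjk) (bd3 hij hjk hk)
    · refine ⟨fun i => ν (e (K1 + 2 - i)), fun q => -u q, fun q => -y q, ?_, ?_⟩
      · intro i j hi hj hij
        have := heinj _ _ (by omega) (by omega)
          (hνinj _ _ (heK (K1 + 2 - i) (by omega)) (heK (K1 + 2 - j) (by omega)) hij)
        omega
      · refine ⟨?_, ?_, ?_, ?_⟩
        · intro a b c; rw [uD]; ring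
        · intro A B
          obtain ⟨α, β, hαβ⟩ := ulin A B
          refine ⟨-α, -β, fun p q => ?_⟩
          rw [hαβ]; ring
        · intro i j hij hj
          have := hum _ _ (he (K1 + 2 - j) (K1 + 2 - i) (by omega) (by omega))
            (heK (K1 + 2 - i) (by omega))
          simp only
          linarith
        · intro i j k hij hjk hk
          have h1 : ¬ 0 < D (φ (ν (e (K1 + 2 - k)))) (φ (ν (e (K1 + 2 - j))))
              (φ (ν (e (K1 + 2 - i)))) :=
            hneg ![K1 + 2 - k, K1 + 2 - j, K1 + 2 - i] (sm3 (by omega) (by omega))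
              (bd3 (by omega) (by omega) (by omega))
          have hne : ∀ a b, a < K1 + 3 → b < K1 + 3 → a ≠ b → ν (e a) ≠ ν (e b) := by
            intro a b ha hb hab hcon
            exact hab (heinj a b ha hb (hνinj _ _ (heK a ha) (heK b hb) hcon))
          have h2 := hgp (ν (e (K1 + 2 - k))) (ν (e (K1 + 2 - j))) (ν (e (K1 + 2 - i)))
            (hne _ _ (by omega) (by omega) (by omega)) (hne _ _ (by omega) (by omega) (by omega))
            (hne _ _ (by omega) (by omega) (by omega))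
          have h3 : D (φ (ν (e (K1 + 2 - k)))) (φ (ν (e (K1 + 2 - j))))
              (φ (ν (e (K1 + 2 - i)))) < 0 := lt_of_le_of_ne (not_lt.1 h1) h2
          have h4 : D (φ (ν (e (K1 + 2 - i)))) (φ (ν (e (K1 + 2 - j))))
              (φ (ν (e (K1 + 2 - k)))) = - D (φ (ν (e (K1 + 2 - k)))) (φ (ν (e (K1 + 2 - j))))
              (φ (ν (e (K1 + 2 - i)))) := by simp only [D]; ring
          simp only
          rw [h4]; linarith
  -- stage 1: colour A
  obtain ⟨e1, he1, he1K, hA⟩ := h1 (fun t => 3 * (D (φ (f (t 0))) (φ (f (t 1))) (φ (f (t 2))) *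
      D (φ (f (t 0))) (φ (f (t 3))) (φ (f (t 4)))) ≤
      D (φ (f (t 0))) (φ (f (t 1))) (φ (f (t 3))) * D (φ (f (t 0))) (φ (f (t 2))) (φ (f (t 4))))
  have cup1 : Cup (K2 + 8) (fun i => φ (f (e1 i))) u' y' :=
    hcup.comp e1 he1 (fun i hi => (he1K i hi).trans (by omega))
  have hA' : ∀ i k0 k l j, i < k0 → k0 < k → k < l → l < j → j < K2 + 8 →
      3 * (D (φ (f (e1 i))) (φ (f (e1 k0))) (φ (f (e1 k))) *
      D (φ (f (e1 i))) (φ (f (e1 l))) (φ (f (e1 j)))) ≤
      D (φ (f (e1 i))) (φ (f (e1 k0))) (φ (f (e1 l))) *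
      D (φ (f (e1 i))) (φ (f (e1 k))) (φ (f (e1 j))) := by
    rcases hA with hA | hA
    · intro i k0 k l j g1 g2 g3 g4 g5
      exact hA ![i, k0, k, l, j] (sm5 g1 g2 g3 g4) (bd5 g1 g2 g3 g4 g5)
    · exfalso
      refine cup1.notA (by omega) ?_
      intro i k0 k l j g1 g2 g3 g4 g5
      exact not_le.1 (hA ![i, k0, k, l, j] (sm5 g1 g2 g3 g4) (bd5 g1 g2 g3 g4 g5))
  -- stage 2: colour B
  obtain ⟨e2, he2, he2K, hB⟩ := h2 (fun t => 3 * (D (φ (f (e1 (t 0)))) (φ (f (e1 (t 1)))) (φ (f (e1 (t 4)))) *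
      D (φ (f (e1 (t 2)))) (φ (f (e1 (t 3)))) (φ (f (e1 (t 4))))) ≤
      D (φ (f (e1 (t 0)))) (φ (f (e1 (t 2)))) (φ (f (e1 (t 4)))) *
      D (φ (f (e1 (t 1)))) (φ (f (e1 (t 3)))) (φ (f (e1 (t 4)))))
  have cup2 : Cup (K3 + 8) (fun i => φ (f (e1 (e2 i)))) u' y' :=
    cup1.comp e2 he2 (fun i hi => (he2K i hi).trans (by omega))
  have hB' : ∀ i k l j0 j, i < k → k < l → l < j0 → j0 < j → j < K3 + 8 →
      3 * (D (φ (f (e1 (e2 i)))) (φ (f (e1 (e2 k)))) (φ (f (e1 (e2 j)))) *
      D (φ (f (e1 (e2 l)))) (φ (f (e1 (e2 j0)))) (φ (f (e1 (e2 j))))) ≤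
      D (φ (f (e1 (e2 i)))) (φ (f (e1 (e2 l)))) (φ (f (e1 (e2 j)))) *
      D (φ (f (e1 (e2 k)))) (φ (f (e1 (e2 j0)))) (φ (f (e1 (e2 j)))) := by
    rcases hB with hB | hB
    · intro i k l j0 j g1 g2 g3 g4 g5
      exact hB ![i, k, l, j0, j] (sm5 g1 g2 g3 g4) (bd5 g1 g2 g3 g4 g5)
    · exfalso
      refine cup2.notB (by omega) ?_
      intro i k l j0 j g1 g2 g3 g4 g5
      exact not_le.1 (hB ![i, k, l, j0, j] (sm5 g1 g2 g3 g4) (bd5 g1 g2 g3 g4 g5))
  -- stage 3: colour C
  obtain ⟨e3, he3, he3K, hC⟩ := h3 (fun t => Apex A B C (φ (f (e1 (e2 (t 0))))) (φ (f (e1 (e2 (t 1)))))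
    (φ (f (e1 (e2 (t 2))))) (φ (f (e1 (e2 (t 3))))))
  have cup3 : Cup (2 * M + 21) (fun i => φ (f (e1 (e2 (e3 i))))) u' y' :=
    cup2.comp e3 he3 (fun i hi => (he3K i hi).trans (by omega))
  have hC' : ∀ a b c d, a < b → b < c → c < d → d < 2 * M + 21 →
      Apex A B C (φ (f (e1 (e2 (e3 a))))) (φ (f (e1 (e2 (e3 b)))))
        (φ (f (e1 (e2 (e3 c))))) (φ (f (e1 (e2 (e3 d))))) := by
    rcases hC with hC | hC
    · intro a b c d g1 g2 g3 g4
      exact hC ![a, b, c, d] (sm4 g1 g2 g3) (bd4 g1 g2 g3 g4)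
    · exfalso
      refine cup3.notC (by omega) (fun i _ => hT _) ?_
      intro a b c d g1 g2 g3 g4
      exact hC ![a, b, c, d] (sm4 g1 g2 g3) (bd4 g1 g2 g3 g4)
  have m3 : ∀ i j, i < j → j < 2 * M + 21 → e2 (e3 i) < e2 (e3 j) := fun i j hij hj =>
    he2 _ _ (he3 i j hij hj) ((he3K j hj).trans (by omega))
  have b2 : ∀ i, i < 2 * M + 21 → e2 (e3 i) < K2 := fun i hi => he2K _ ((he3K i hi).trans (by omega))
  refine ⟨fun i => f (e1 (e2 (e3 i))), ?_, ?_, ?_, ?_, ?_⟩
  · intro i j hi hj hij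
    have hb : ∀ t, t < 2 * M + 21 → e1 (e2 (e3 t)) < K1 := fun t ht => he1K _ ((b2 t ht).trans (by omega))
    have h5 := hfinj _ _ ((hb i (by omega)).trans (by omega)) ((hb j (by omega)).trans (by omega)) hij
    rcases lt_trichotomy i j with h | h | h
    · exact absurd h5 (he1 _ _ (m3 i j h (by omega)) ((b2 j (by omega)).trans (by omega))).ne
    · exact h
    · exact absurd h5 (he1 _ _ (m3 j i h (by omega)) ((b2 i (by omega)).trans (by omega))).ne'
  · intro i j k hij hjk hk
    exact cup3.pos i j k hij hjk (by omega)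
  · exact hC' 0 1 (2 * M + 3) (2 * M + 4) (by omega) (by omega) (by omega) (by omega)
  · intro k l hk hkl hl
    exact hA' _ _ _ _ _ (m3 0 1 (by omega) (by omega)) (m3 1 k (by omega) (by omega))
      (m3 k l hkl (by omega)) (m3 l (2 * M + 4) (by omega) (by omega))
      ((b2 (2 * M + 4) (by omega)).trans (by omega))
  · intro k l hk hkl hl
    have hb3 : ∀ i, i < 2 * M + 21 → e3 i < K3 + 8 := fun i hi => (he3K i hi).trans (by omega)
    exact hB' _ _ _ _ _ (he3 0 k (by omega) (by omega)) (he3 k l hkl (by omega))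
      (he3 l (2 * M + 3) (by omega) (by omega)) (he3 (2 * M + 3) (2 * M + 4) (by omega) (by omega))
      (hb3 _ (by omega))

end MFS
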