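import Pool.Agent.MFS.Defs

/-! The line lemma: every line misses the open triangle of some special face which contains its stacked
vertex.  Note 1963, section 1 (d), (e). -/

set_option autoImplicit false

namespace MFS

namespace LineL27

/-- the linear form `n · p` -/
def lf (n p : Pt) : ℝ := n.1 * p.1 + n.2 * p.2

theorem bary (a b c p n : Pt) (t : ℝ) :
    D a b c * (lf n p - t) = D b c p * (lf n a - t) + D c a p * (lf n b - t) + D a b p * (lf n c - t) := by
  unfold D lf; ring

theorem Dsum (a b c p : Pt) : D a b c = D a b p + D b c p + D c a p := by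
  unfold D; ring

/-- three points on a line are degenerate -/
theorem flat {a b c n : Pt} (hn : n ≠ 0) {t : ℝ} (ha : lf n a = t) (hb : lf n b = t) (hc : lf n c = t) :
    D a b c = 0 := by
  have h1 : n.1 * D a b c = 0 := by
    have e : n.1 * D a b c = (lf n b - lf n a) * (c.2 - a.2) - (lf n c - lf n a) * (b.2 - a.2) := by
      unfold D lf; ring
    rw [e, ha, hb, hc]; ring
  have h2 : n.2 * D a b c = 0 := by
    have e : n.2 * D a b c = (lf n c - lf n a) * (b.1 - a.1) - (lf n b - lf n a) * (c.1 - a.1) := by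
      unfold D lf; ring
    rw [e, ha, hb, hc]; ring
  by_contra hD
  apply hn
  have h3 : n.1 = 0 := by
    rcases mul_eq_zero.mp h1 with h | h
    · exact h
    · exact absurd h hD
  have h4 : n.2 = 0 := by
    rcases mul_eq_zero.mp h2 with h | h
    · exact h
    · exact absurd h hD
  exact Prod.ext h3 h4

theorem tri_gt {a b c p n : Pt} (hn : n ≠ 0) {t : ℝ} (hp : p ∈ Tri a b c) (ha : t ≤ lf n a)
    (hb : t ≤ lf n b) (hc : t ≤ lf n c) : t < lf n p := by
  obtain ⟨h1, h2, h3⟩ := hp
  have hD : 0 < D a b c := by rw [Dsum a b c p]; linarith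
  by_contra hlt
  push Not at hlt
  have key := bary a b c p n t
  have k1 : 0 ≤ D b c p * (lf n a - t) := mul_nonneg h2.le (by linarith)
  have k2 : 0 ≤ D c a p * (lf n b - t) := mul_nonneg h3.le (by linarith)
  have k3 : 0 ≤ D a b p * (lf n c - t) := mul_nonneg h1.le (by linarith)
  have k4 : D a b c * (lf n p - t) ≤ 0 := mul_nonpos_of_nonneg_of_nonpos hD.le (by linarith)
  have e1 : D b c p * (lf n a - t) = 0 := by linarith
  have e2 : D c a p * (lf n b - t) = 0 := by linarith
  have e3 : D a b p * (lf n c - t) = 0 := by linarith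
  have f1 : lf n a = t := by
    rcases mul_eq_zero.mp e1 with h | h
    · exact absurd h h2.ne'
    · linarith
  have f2 : lf n b = t := by
    rcases mul_eq_zero.mp e2 with h | h
    · exact absurd h h3.ne'
    · linarith
  have f3 : lf n c = t := by
    rcases mul_eq_zero.mp e3 with h | h
    · exact absurd h h1.ne'
    · linarith
  exact hD.ne' (flat hn f1 f2 f3)

theorem triU_gt {a b c p n : Pt} (hn : n ≠ 0) {t : ℝ} (hp : p ∈ TriU a b c) (ha : t ≤ lf n a)
    (hb : t ≤ lf n b) (hc : t ≤ lf n c) : t < lf n p := by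
  rcases hp with hp | hp
  · exact tri_gt hn hp ha hb hc
  · exact tri_gt hn hp ha hc hb

theorem lf_neg (n p : Pt) : lf (-n) p = - lf n p := by
  unfold lf; simp only [Prod.fst_neg, Prod.snd_neg]; ring

theorem triU_lt {a b c p n : Pt} (hn : n ≠ 0) {t : ℝ} (hp : p ∈ TriU a b c) (ha : lf n a ≤ t)
    (hb : lf n b ≤ t) (hc : lf n c ≤ t) : lf n p < t := by
  have h := triU_gt (n := -n) (t := -t) (neg_ne_zero.mpr hn) hp (by rw [lf_neg]; linarith)
    (by rw [lf_neg]; linarith) (by rw [lf_neg]; linarith)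
  rw [lf_neg] at h; linarith

/-- a point of the open triangle is strictly below some corner -/
theorem TU_lt {g : Fin 25 ⊕ Fin 27 → Pt} {j : Fin 27} {p n : Pt} (hn : n ≠ 0) (hp : p ∈ TU g j) :
    ∃ y, IsCor y j ∧ lf n p < lf n (g (Sum.inl y)) := by
  by_contra hcon
  push Not at hcon
  have h := triU_lt (t := lf n p) hn hp (hcon _ (Or.inl rfl)) (hcon _ (Or.inr (Or.inl rfl)))
    (hcon _ (Or.inr (Or.inr rfl)))
  exact lt_irrefl _ h

/-- disjoint special faces -/
theorem disj_face : ∀ j : Fin 27, ∃ j' : Fin 27, ∀ x : Fin 25, ¬ (IsCor x j ∧ IsCor x j') := by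
  decide

/-- two special faces without a common corner are not both full -/
theorem not_both {g : Fin 25 ⊕ Fin 27 → Pt} {j j' : Fin 27} (hd : ∀ x : Fin 25, ¬ (IsCor x j ∧ IsCor x j'))
    (h1 : ∀ x, ¬ IsCor x j → g (Sum.inl x) ∈ TU g j) (h2 : ∀ x, ¬ IsCor x j' → g (Sum.inl x) ∈ TU g j') :
    False := by
  have hn : ((1, 0) : Pt) ≠ 0 := by
    intro h; exact one_ne_zero (congrArg Prod.fst h)
  have hne : (Finset.univ.filter (fun x : Fin 25 => IsCor x j ∨ IsCor x j')).Nonempty :=
    ⟨Sa j, by rw [Finset.mem_filter]; exact ⟨Finset.mem_univ _, Or.inl (Or.inl rfl)⟩⟩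
  obtain ⟨x, hx, hmax⟩ := Finset.exists_max_image _ (fun x => lf (1, 0) (g (Sum.inl x))) hne
  rw [Finset.mem_filter] at hx
  rcases hx.2 with h | h
  · have h3 : ¬ IsCor x j' := fun h' => hd x ⟨h, h'⟩
    obtain ⟨y, hy, hlt⟩ := TU_lt hn (h2 x h3)
    have := hmax y (by rw [Finset.mem_filter]; exact ⟨Finset.mem_univ _, Or.inr hy⟩)
    exact absurd hlt (not_lt.mpr this)
  · have h3 : ¬ IsCor x j := fun h' => hd x ⟨h', h⟩
    obtain ⟨y, hy, hlt⟩ := TU_lt hn (h1 x h3)
    have := hmax y (by rw [Finset.mem_filter]; exact ⟨Finset.mem_univ _, Or.inl hy⟩)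
    exact absurd hlt (not_lt.mpr this)

/-- a small perturbation of the direction which is injective and keeps the sides -/
theorem perturb (f : Fin 25 → Pt) (hf : Function.Injective f) (n : Pt) (hn : n ≠ 0) (c : ℝ) :
    ∃ n' : Pt, Function.Injective (fun v => lf n' (f v)) ∧
      (∀ v, c < lf n (f v) → c < lf n' (f v)) ∧ (∀ v, lf n (f v) < c → lf n' (f v) < c) := by
  set m : Pt := (-n.2, n.1) with hm
  have hcomb : ∀ (δ : ℝ) (p : Pt), lf (n.1 + δ * m.1, n.2 + δ * m.2) p = lf n p + δ * lf m p := by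
    intro δ p; unfold lf; ring
  have hcont : ∀ a b : ℝ, Filter.Tendsto (fun δ : ℝ => a + δ * b) (nhdsWithin 0 (Set.Ioi 0)) (nhds a) := by
    intro a b
    have h : Filter.Tendsto (fun δ : ℝ => a + δ * b) (nhds 0) (nhds (a + 0 * b)) := by
      apply Continuous.tendsto
      fun_prop
    rw [zero_mul, add_zero] at h
    exact h.mono_left nhdsWithin_le_nhds
  have E1 : ∀ v : Fin 25, ∀ᶠ δ in nhdsWithin (0 : ℝ) (Set.Ioi 0),
      (c < lf n (f v) → c < lf n (f v) + δ * lf m (f v)) ∧
      (lf n (f v) < c → lf n (f v) + δ * lf m (f v) < c) := by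
    intro v
    apply Filter.Eventually.and
    · by_cases h : c < lf n (f v)
      · filter_upwards [(hcont (lf n (f v)) (lf m (f v))).eventually (lt_mem_nhds h)] with δ hδ _
        exact hδ
      · exact Filter.Eventually.of_forall (fun δ h' => absurd h' h)
    · by_cases h : lf n (f v) < c
      · filter_upwards [(hcont (lf n (f v)) (lf m (f v))).eventually (gt_mem_nhds h)] with δ hδ _
        exact hδ
      · exact Filter.Eventually.of_forall (fun δ h' => absurd h' h)
  have E2 : ∀ u v : Fin 25, ∀ᶠ δ in nhdsWithin (0 : ℝ) (Set.Ioi 0),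
      u ≠ v → lf n (f u) + δ * lf m (f u) ≠ lf n (f v) + δ * lf m (f v) := by
    intro u v
    by_cases huv : u = v
    · exact Filter.Eventually.of_forall (fun δ h' => absurd huv h')
    by_cases h : lf n (f u) - lf n (f v) = 0
    · -- then the perpendicular form separates
      have h2 : lf m (f u) - lf m (f v) ≠ 0 := by
        intro h2
        apply huv
        apply hf
        have a1 : n.1 * ((f u).1 - (f v).1) + n.2 * ((f u).2 - (f v).2) = 0 := by
          unfold lf at h; linarith
        have a2 : -n.2 * ((f u).1 - (f v).1) + n.1 * ((f u).2 - (f v).2) = 0 := by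
          have : lf m (f u) - lf m (f v) =
              -n.2 * ((f u).1 - (f v).1) + n.1 * ((f u).2 - (f v).2) := by
            rw [hm]; unfold lf; ring
          rw [← this]; exact h2
        have hpos : n.1 ^ 2 + n.2 ^ 2 ≠ 0 := by
          intro h0
          apply hn
          have e1 : n.1 = 0 := by nlinarith [sq_nonneg n.1, sq_nonneg n.2]
          have e2 : n.2 = 0 := by nlinarith [sq_nonneg n.1, sq_nonneg n.2]
          exact Prod.ext e1 e2
        have b1 : (n.1 ^ 2 + n.2 ^ 2) * ((f u).1 - (f v).1) = 0 := by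
          linear_combination n.1 * a1 - n.2 * a2
        have b2 : (n.1 ^ 2 + n.2 ^ 2) * ((f u).2 - (f v).2) = 0 := by
          linear_combination n.2 * a1 + n.1 * a2
        have c1 := (mul_eq_zero.mp b1).resolve_left hpos
        have c2 := (mul_eq_zero.mp b2).resolve_left hpos
        exact Prod.ext (by linarith) (by linarith)
      filter_upwards [self_mem_nhdsWithin] with δ hδ _ heq
      have hδ' : (0 : ℝ) < δ := hδ
      have : δ * (lf m (f u) - lf m (f v)) = 0 := by linarith
      rcases mul_eq_zero.mp this with h3 | h3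
      · exact hδ'.ne' h3
      · exact h2 h3
    · have h3 : ∀ᶠ δ in nhdsWithin (0 : ℝ) (Set.Ioi 0),
          (lf n (f u) - lf n (f v)) + δ * (lf m (f u) - lf m (f v)) ∈ ({0}ᶜ : Set ℝ) :=
        (hcont _ _).eventually (isOpen_compl_singleton.mem_nhds h)
      filter_upwards [h3] with δ hδ _ heq
      apply hδ
      rw [Set.mem_singleton_iff]
      linarith
  have hall : ∀ᶠ δ in nhdsWithin (0 : ℝ) (Set.Ioi 0),
      (∀ v, (c < lf n (f v) → c < lf n (f v) + δ * lf m (f v)) ∧
        (lf n (f v) < c → lf n (f v) + δ * lf m (f v) < c)) ∧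
      ∀ u v, u ≠ v → lf n (f u) + δ * lf m (f u) ≠ lf n (f v) + δ * lf m (f v) := by
    apply Filter.Eventually.and
    · exact Filter.eventually_all.mpr E1
    · exact Filter.eventually_all.mpr (fun u => Filter.eventually_all.mpr (E2 u))
  obtain ⟨δ, h1, h2⟩ := hall.exists
  refine ⟨(n.1 + δ * m.1, n.2 + δ * m.2), ?_, ?_, ?_⟩
  · intro u v huv
    by_contra hne
    simp only [hcomb] at huv
    exact h2 u v hne huv
  · intro v hv; rw [hcomb]; exact (h1 v).1 hv
  · intro v hv; rw [hcomb]; exact (h1 v).2 hv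

end LineL27

open LineL27 in
theorem lineLemma (h1 : ColLemma) (h2 : MNLemma) (h3 : StackLemma) : LineLemma := by
  intro g hg n hn c
  -- the drawing of the gadget graph
  have hG : Drw GA (fun v => g (Sum.inl v)) := by
    refine ⟨?_, ?_, ?_⟩
    · intro u v huv; exact Sum.inl_injective (hg.inj huv)
    · intro u v w huv hu hv
      exact hg.vtx (Sum.inl u) (Sum.inl v) (Sum.inl w) huv (fun h => hu (Sum.inl_injective h))
        (fun h => hv (Sum.inl_injective h))
    · intro u v x y huv hxy a1 a2 a3 a4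
      exact hg.edg (Sum.inl u) (Sum.inl v) (Sum.inl x) (Sum.inl y) huv hxy
        (fun h => a1 (Sum.inl_injective h)) (fun h => a2 (Sum.inl_injective h))
        (fun h => a3 (Sum.inl_injective h)) (fun h => a4 (Sum.inl_injective h))
  obtain ⟨n', hinj, hgt, hlt⟩ := perturb (fun v => g (Sum.inl v)) hG.inj n hn c
  obtain ⟨j, hj⟩ := h1 (fun v => lf n' (g (Sum.inl v))) hinj (h2 _ hG n')
    (by
      intro u
      rcases h2 _ hG (-n') u with ⟨w, hw, h⟩ | h
      · left
        refine ⟨w, hw, ?_⟩
        have h' : lf (-n') (g (Sum.inl u)) < lf (-n') (g (Sum.inl w)) := h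
        rw [lf_neg, lf_neg] at h'
        change lf n' (g (Sum.inl w)) < lf n' (g (Sum.inl u))
        linarith
      · right
        intro x
        have h' : lf (-n') (g (Sum.inl x)) ≤ lf (-n') (g (Sum.inl u)) := h x
        rw [lf_neg, lf_neg] at h'
        change lf n' (g (Sum.inl u)) ≤ lf n' (g (Sum.inl x))
        linarith)
    (fun v => c < lf n' (g (Sum.inl v)))
    (by
      intro u v hv hu
      exact lt_of_le_of_lt (not_lt.mp hu) hv)
  -- all corners of `j` are on one closed side
  have hside : (∀ y, IsCor y j → c ≤ lf n (g (Sum.inl y))) ∨ (∀ y, IsCor y j → lf n (g (Sum.inl y)) ≤ c) := by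
    rcases hj with ⟨ha, hb, hc⟩ | ⟨ha, hb, hc⟩
    · left
      have key : ∀ y, c < lf n' (g (Sum.inl y)) → c ≤ lf n (g (Sum.inl y)) := by
        intro y hy
        by_contra hcon
        exact absurd (hlt y (not_le.mp hcon)) (not_lt.mpr hy.le)
      rintro y (rfl | rfl | rfl)
      · exact key _ ha
      · exact key _ hb
      · exact key _ hc
    · right
      have key : ∀ y, ¬ c < lf n' (g (Sum.inl y)) → lf n (g (Sum.inl y)) ≤ c := by
        intro y hy
        by_contra hcon
        exact hy (hgt y (not_le.mp hcon))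
      rintro y (rfl | rfl | rfl)
      · exact key _ ha
      · exact key _ hb
      · exact key _ hc
  -- a side is inherited by the open triangle
  have hin : ∀ i : Fin 27, (∀ y, IsCor y i → c ≤ lf n (g (Sum.inl y))) → ∀ p ∈ TU g i, c < lf n p :=
    fun i h p hp => triU_gt hn hp (h _ (Or.inl rfl)) (h _ (Or.inr (Or.inl rfl))) (h _ (Or.inr (Or.inr rfl)))
  have hin' : ∀ i : Fin 27, (∀ y, IsCor y i → lf n (g (Sum.inl y)) ≤ c) → ∀ p ∈ TU g i, lf n p < c :=
    fun i h p hp => triU_lt hn hp (h _ (Or.inl rfl)) (h _ (Or.inr (Or.inl rfl))) (h _ (Or.inr (Or.inr rfl)))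
  rcases h3 g hg j with hk | hfull
  · refine ⟨j, hk, ?_⟩
    intro p hp
    rcases hside with h | h
    · exact (hin j h p hp).ne'
    · exact (hin' j h p hp).ne
  · obtain ⟨j', hd⟩ := disj_face j
    rcases h3 g hg j' with hk' | hfull'
    · refine ⟨j', hk', ?_⟩
      have hc' : ∀ y, IsCor y j' → g (Sum.inl y) ∈ TU g j := fun y hy => hfull y (fun h => hd y ⟨h, hy⟩)
      intro p hp
      rcases hside with h | h
      · exact (hin j' (fun y hy => (hin j h _ (hc' y hy)).le) p hp).ne'
      · exact (hin' j' (fun y hy => (hin' j h _ (hc' y hy)).le) p hp).ne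
    · exact absurd (not_both hd hfull hfull') id

end MFS
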