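import Pool.Agent.MFS.Geo

/-! Monotone neighbours in a drawing of the gadget graph (note 1963 of MP_6c0025_co, section 1 (a)-(c)), and
the dichotomy for its faces. -/

set_option autoImplicit false

namespace MFS

namespace MNx

/-- next neighbour in the rotation of the gadget graph: `u w (nxt u w)` is a face -/
def nxtL : List (List ℕ) :=
  [[0, 4, 1, 23, 5, 8, 0, 0, 3, 0, 0, 0, 0, 0, 0, 0, 0, 0, 2, 0, 18, 20, 0, 21, 0],
   [2, 0, 11, 9, 0, 0, 4, 6, 0, 7, 0, 12, 15, 0, 0, 3, 0, 0, 0, 0, 0, 0, 0, 0, 0],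
   [18, 0, 0, 16, 0, 0, 0, 0, 0, 0, 0, 1, 0, 11, 13, 0, 14, 0, 19, 22, 0, 0, 3, 0, 0],
   [8, 15, 22, 0, 0, 0, 0, 0, 9, 1, 0, 0, 0, 0, 0, 16, 2, 0, 0, 0, 0, 0, 23, 0, 0],
   [1, 6, 0, 0, 0, 0, 5, 0, 0, 0, 0, 0, 0, 0, 0, 0, 0, 0, 0, 0, 0, 0, 0, 0, 0],
   [4, 0, 0, 0, 6, 0, 10, 0, 0, 0, 8, 0, 0, 0, 0, 0, 0, 0, 0, 0, 0, 0, 0, 0, 0],
   [0, 7, 0, 0, 1, 4, 0, 10, 0, 0, 5, 0, 0, 0, 0, 0, 0, 0, 0, 0, 0, 0, 0, 0, 0],
   [0, 9, 0, 0, 0, 0, 1, 0, 0, 10, 6, 0, 0, 0, 0, 0, 0, 0, 0, 0, 0, 0, 0, 0, 0],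
   [5, 0, 0, 0, 0, 10, 0, 0, 0, 3, 9, 0, 0, 0, 0, 0, 0, 0, 0, 0, 0, 0, 0, 0, 0],
   [0, 3, 0, 8, 0, 0, 0, 1, 10, 0, 7, 0, 0, 0, 0, 0, 0, 0, 0, 0, 0, 0, 0, 0, 0],
   [0, 0, 0, 0, 0, 6, 7, 9, 5, 8, 0, 0, 0, 0, 0, 0, 0, 0, 0, 0, 0, 0, 0, 0, 0],
   [0, 2, 13, 0, 0, 0, 0, 0, 0, 0, 0, 0, 1, 12, 0, 0, 0, 0, 0, 0, 0, 0, 0, 0, 0],
   [0, 11, 0, 0, 0, 0, 0, 0, 0, 0, 0, 13, 0, 17, 0, 1, 0, 15, 0, 0, 0, 0, 0, 0, 0],
   [0, 0, 14, 0, 0, 0, 0, 0, 0, 0, 0, 2, 11, 0, 17, 0, 0, 12, 0, 0, 0, 0, 0, 0, 0],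
   [0, 0, 16, 0, 0, 0, 0, 0, 0, 0, 0, 0, 0, 2, 0, 0, 17, 13, 0, 0, 0, 0, 0, 0, 0],
   [0, 12, 0, 1, 0, 0, 0, 0, 0, 0, 0, 0, 17, 0, 0, 0, 3, 16, 0, 0, 0, 0, 0, 0, 0],
   [0, 0, 3, 15, 0, 0, 0, 0, 0, 0, 0, 0, 0, 0, 2, 17, 0, 14, 0, 0, 0, 0, 0, 0, 0],
   [0, 0, 0, 0, 0, 0, 0, 0, 0, 0, 0, 0, 13, 14, 16, 12, 15, 0, 0, 0, 0, 0, 0, 0, 0],
   [20, 0, 0, 0, 0, 0, 0, 0, 0, 0, 0, 0, 0, 0, 0, 0, 0, 0, 0, 2, 19, 0, 0, 0, 0],
   [0, 0, 18, 0, 0, 0, 0, 0, 0, 0, 0, 0, 0, 0, 0, 0, 0, 0, 20, 0, 24, 0, 2, 0, 22],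
   [21, 0, 0, 0, 0, 0, 0, 0, 0, 0, 0, 0, 0, 0, 0, 0, 0, 0, 0, 18, 0, 24, 0, 0, 19],
   [23, 0, 0, 0, 0, 0, 0, 0, 0, 0, 0, 0, 0, 0, 0, 0, 0, 0, 0, 0, 0, 0, 0, 24, 20],
   [0, 0, 19, 2, 0, 0, 0, 0, 0, 0, 0, 0, 0, 0, 0, 0, 0, 0, 0, 24, 0, 0, 0, 3, 23],
   [3, 0, 0, 22, 0, 0, 0, 0, 0, 0, 0, 0, 0, 0, 0, 0, 0, 0, 0, 0, 0, 0, 24, 0, 21],
   [0, 0, 0, 0, 0, 0, 0, 0, 0, 0, 0, 0, 0, 0, 0, 0, 0, 0, 0, 20, 21, 23, 19, 22, 0]]

def wkL : List (ℕ × List (Fin 25)) :=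
  [(19, [5, 6, 7, 10, 8, 9, 3, 15, 12, 11, 13, 17, 14, 16, 2, 18, 19, 20, 21, 23, 22, 24]),
   (49, [1, 6, 7, 10, 8, 9, 3, 15, 12, 11, 13, 17, 14, 16, 2, 18, 19, 20, 21, 23, 22, 24]),
   (289, [1, 4, 6, 7, 10, 9, 3, 15, 12, 11, 13, 17, 14, 16, 2, 18, 19, 20, 21, 23, 22, 24]),
   (265, [4, 5, 6, 10, 7, 9, 1, 11, 12, 15, 16, 17, 13, 14, 2, 18, 19, 20, 21, 23, 22, 24]),
   (522, [4, 6, 7, 10, 5, 8, 0, 18, 20, 21, 23, 24, 19, 22, 2, 11, 12, 13, 14, 16, 15, 17]),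
   (642, [0, 4, 6, 5, 10, 8, 3, 15, 12, 11, 13, 17, 14, 16, 2, 18, 19, 20, 21, 23, 22, 24]),
   (194, [0, 4, 5, 10, 8, 9, 3, 15, 12, 11, 13, 17, 14, 16, 2, 18, 19, 20, 21, 23, 22, 24]),
   (82, [0, 5, 8, 10, 7, 9, 3, 15, 12, 11, 13, 17, 14, 16, 2, 18, 19, 20, 21, 23, 22, 24]),
   (776, [0, 4, 5, 10, 6, 7, 1, 11, 12, 15, 16, 17, 13, 14, 2, 18, 19, 20, 21, 23, 22, 24]),
   (1792, [0, 5, 4, 6, 7, 1, 11, 12, 13, 14, 17, 15, 16, 3, 2, 18, 19, 20, 21, 23, 22, 24]),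
   (1312, [0, 4, 6, 7, 9, 1, 11, 12, 13, 14, 17, 15, 16, 3, 2, 18, 19, 20, 21, 23, 22, 24]),
   (1120, [0, 4, 1, 7, 9, 8, 3, 15, 12, 11, 13, 17, 14, 16, 2, 18, 19, 20, 21, 23, 22, 24]),
   (1216, [0, 4, 5, 8, 9, 1, 11, 12, 13, 14, 17, 15, 16, 3, 2, 18, 19, 20, 21, 23, 22, 24]),
   (1664, [0, 8, 5, 4, 6, 1, 11, 12, 13, 14, 17, 15, 16, 3, 2, 18, 19, 20, 21, 23, 22, 24]),
   (112, [0, 8, 10, 7, 9, 1, 11, 12, 13, 14, 17, 15, 16, 3, 2, 18, 19, 20, 21, 23, 22, 24]),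
   (2054, [4, 6, 7, 9, 10, 5, 8, 0, 18, 19, 20, 21, 24, 22, 23, 3, 15, 12, 13, 14, 16, 17]),
   (6146, [0, 4, 5, 6, 7, 10, 8, 9, 3, 15, 16, 17, 13, 14, 2, 18, 19, 20, 21, 23, 22, 24]),
   (36866, [0, 4, 5, 6, 7, 10, 8, 9, 3, 16, 17, 14, 13, 11, 2, 18, 19, 20, 21, 23, 22, 24]),
   (32778, [4, 6, 7, 9, 10, 5, 8, 0, 18, 20, 21, 23, 24, 19, 22, 2, 11, 12, 13, 14, 16, 17]),
   (65548, [11, 13, 14, 17, 12, 15, 1, 4, 6, 7, 9, 10, 5, 8, 0, 18, 19, 20, 21, 23, 22, 24]),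
   (81924, [0, 18, 19, 20, 21, 24, 22, 23, 3, 8, 5, 4, 6, 10, 7, 9, 1, 11, 13, 12, 15, 17]),
   (24580, [0, 18, 19, 20, 21, 24, 22, 23, 3, 16, 17, 15, 12, 11, 1, 4, 5, 6, 7, 9, 8, 10]),
   (10244, [0, 18, 19, 20, 21, 24, 22, 23, 3, 8, 5, 4, 6, 10, 7, 9, 1, 12, 15, 16, 14, 17]),
   (98312, [0, 4, 5, 8, 9, 10, 6, 7, 1, 11, 12, 17, 13, 14, 2, 18, 19, 20, 21, 23, 22, 24]),
   (229376, [0, 4, 5, 6, 7, 10, 8, 9, 1, 12, 11, 13, 14, 2, 3, 22, 23, 21, 24, 19, 18, 20]),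
   (167936, [0, 4, 5, 6, 7, 10, 8, 9, 1, 11, 13, 14, 16, 3, 2, 18, 19, 20, 21, 23, 22, 24]),
   (143360, [0, 4, 5, 6, 7, 10, 8, 9, 1, 11, 2, 14, 16, 15, 3, 22, 23, 21, 24, 19, 18, 20]),
   (155648, [0, 4, 5, 6, 7, 10, 8, 9, 1, 11, 12, 15, 16, 3, 2, 18, 19, 20, 21, 23, 22, 24]),
   (212992, [0, 4, 5, 6, 7, 10, 8, 9, 1, 15, 12, 11, 13, 2, 3, 22, 23, 21, 24, 19, 18, 20]),
   (14336, [0, 4, 5, 6, 7, 10, 8, 9, 1, 15, 17, 14, 16, 3, 2, 18, 19, 20, 21, 23, 22, 24]),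
   (262149, [4, 5, 6, 7, 10, 8, 9, 1, 11, 12, 13, 14, 17, 15, 16, 3, 22, 19, 20, 21, 23, 24]),
   (786436, [0, 20, 21, 24, 22, 23, 3, 8, 5, 4, 6, 10, 7, 9, 1, 11, 12, 13, 14, 16, 15, 17]),
   (4718596, [0, 18, 20, 21, 24, 23, 3, 8, 5, 4, 6, 10, 7, 9, 1, 11, 12, 13, 14, 16, 15, 17]),
   (4194316, [11, 13, 14, 16, 17, 12, 15, 1, 4, 6, 7, 9, 10, 5, 8, 0, 18, 19, 20, 21, 23, 24]),
   (8388617, [4, 5, 8, 9, 10, 6, 7, 1, 11, 12, 15, 16, 17, 13, 14, 2, 18, 19, 22, 24, 20, 21]),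
   (10485761, [1, 4, 5, 6, 7, 10, 8, 9, 3, 15, 12, 11, 13, 17, 14, 16, 2, 18, 20, 19, 22, 24]),
   (3145729, [1, 4, 5, 6, 7, 10, 8, 9, 3, 23, 24, 22, 19, 18, 2, 11, 12, 13, 14, 16, 15, 17]),
   (1310721, [1, 4, 5, 6, 7, 10, 8, 9, 3, 15, 12, 11, 13, 17, 14, 16, 2, 19, 22, 23, 21, 24]),
   (12582920, [0, 21, 24, 20, 18, 19, 2, 11, 13, 14, 16, 17, 12, 15, 1, 4, 5, 6, 7, 9, 8, 10]),
   (29360128, [0, 21, 20, 18, 19, 2, 11, 13, 14, 16, 17, 12, 15, 3, 8, 5, 4, 1, 6, 7, 9, 10]),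
   (21495808, [0, 18, 20, 21, 23, 3, 8, 5, 4, 6, 10, 7, 9, 1, 11, 2, 13, 12, 15, 16, 14, 17]),
   (18350080, [1, 4, 6, 7, 9, 10, 5, 8, 0, 18, 2, 11, 12, 13, 14, 17, 15, 16, 3, 22, 23, 21]),
   (19922944, [0, 18, 19, 22, 23, 3, 8, 5, 4, 6, 10, 7, 9, 1, 11, 2, 13, 12, 15, 16, 14, 17]),
   (27262976, [0, 20, 18, 19, 22, 2, 11, 13, 14, 16, 17, 12, 15, 3, 8, 5, 4, 1, 6, 7, 9, 10]),
   (1835008, [0, 21, 24, 23, 22, 2, 11, 13, 14, 16, 17, 12, 15, 3, 8, 5, 4, 1, 6, 7, 9, 10]),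
   (7, [3, 8, 5, 4, 6, 7, 9, 10, 9, 7, 6, 4, 5, 8, 3, 15, 12, 11, 13, 14, 16, 17, 16, 14, 13, 11, 12, 15, 3, 22, 19, 18, 20, 21, 23, 24])]

/-- next neighbour in the rotation -/
def nxt (u w : Fin 25) : Fin 25 := Fin.ofNat 25 ((nxtL.getD u.val []).getD w.val 0)

/-- walk through all vertices outside the face with the given mask -/
def wk (m : ℕ) : List (Fin 25) := ((wkL.find? (fun p => p.1 == m)).getD (0, [])).2

/-- mask of a triple -/
def msk (a b c : Fin 25) : ℕ := 2 ^ a.val + 2 ^ b.val + 2 ^ c.val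

/-- consecutive elements are adjacent -/
def chn : List (Fin 25) → Bool
  | [] => true
  | [_] => true
  | x :: y :: l => ga x y && chn (y :: l)

/-- the walk avoids `a b c` and visits all other vertices -/
def chk (a b c : Fin 25) (l : List (Fin 25)) : Bool :=
  chn l && l.all (fun v => v != a && v != b && v != c) &&
    (List.finRange 25).all (fun v => v == a || v == b || v == c || l.contains v)

theorem nxt_adj : ∀ u w : Fin 25, GA u w → GA u (nxt u w) ∧ GA w (nxt u w) := by decide +kernel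

theorem nxt_surj : ∀ u w : Fin 25, GA u w → ∃ v, GA u v ∧ nxt u v = w := by decide +kernel

theorem nxt_ne : ∀ u w : Fin 25, GA u w → nxt u (nxt u w) ≠ w := by decide +kernel

theorem exists_nb : ∀ u : Fin 25, ∃ w, GA u w := by decide +kernel

theorem GA_symm : ∀ u v : Fin 25, GA u v → GA v u := by decide +kernel

theorem GA_ne : ∀ u v : Fin 25, GA u v → u ≠ v := by decide +kernel

theorem chk_face : ∀ u w : Fin 25, GA u w → chk u w (nxt u w) (wk (msk u w (nxt u w))) = true := by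
  decide +kernel

theorem nxt_sp : ∀ j : Fin 27, GA (Sa j) (Sb j) ∧ nxt (Sa j) (Sb j) = Sc j := by decide +kernel

/-- a property which passes to neighbours outside a face holds everywhere outside the face -/
theorem walk_prop {P : Fin 25 → Prop} {l : List (Fin 25)} (hc : chn l = true)
    (hP : ∀ x ∈ l, ∀ y ∈ l, GA x y → (P x ↔ P y)) : ∀ x ∈ l, ∀ y ∈ l, P x → P y := by
  induction l with
  | nil => intro x hx; simp at hx
  | cons a l ih =>
    match l, hc, ih, hP with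
    | [], _, _, _ =>
      intro x hx y hy h
      simp only [List.mem_singleton] at hx hy
      rw [hy, ← hx]; exact h
    | b :: l, hc, ih, hP =>
      simp only [chn, Bool.and_eq_true] at hc
      have ih' := ih hc.2 (fun x hx y hy => hP x (List.mem_cons_of_mem _ hx) y (List.mem_cons_of_mem _ hy))
      have hab : P a ↔ P b := hP a (by simp) b (by simp) hc.1
      intro x hx y hy h
      rcases List.mem_cons.1 hx with rfl | hx'
      · rcases List.mem_cons.1 hy with rfl | hy'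
        · exact h
        · exact ih' b (by simp) y hy' (hab.1 h)
      · rcases List.mem_cons.1 hy with rfl | hy'
        · exact hab.2 (ih' x hx' b (by simp) h)
        · exact ih' x hx' y hy' h

theorem face_conn (u w : Fin 25) (h : GA u w) (P : Fin 25 → Prop)
    (hP : ∀ x y, x ≠ u → x ≠ w → x ≠ nxt u w → y ≠ u → y ≠ w → y ≠ nxt u w → GA x y → (P x → P y))
    (x y : Fin 25) (x1 : x ≠ u) (x2 : x ≠ w) (x3 : x ≠ nxt u w) (y1 : y ≠ u) (y2 : y ≠ w)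
    (y3 : y ≠ nxt u w) (hx : P x) : P y := by
  have hk := chk_face u w h
  simp only [chk, Bool.and_eq_true, List.all_eq_true, bne_iff_ne, ne_eq, Bool.or_eq_true, beq_iff_eq,
    List.contains_iff_mem] at hk
  obtain ⟨⟨h1, h2⟩, h3⟩ := hk
  have hmem : ∀ v : Fin 25, v ≠ u → v ≠ w → v ≠ nxt u w → v ∈ wk (msk u w (nxt u w)) := by
    intro v a1 a2 a3
    rcases h3 v (List.mem_finRange v) with ((h | h) | h) | h
    · exact absurd h a1
    · exact absurd h a2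
    · exact absurd h a3
    · exact h
  refine walk_prop (P := P) h1 ?_ x (hmem x x1 x2 x3) y (hmem y y1 y2 y3) hx
  intro a ha b hb hab
  have ea := h2 a ha
  have eb := h2 b hb
  exact ⟨hP a b ea.1.1 ea.1.2 ea.2 eb.1.1 eb.1.2 eb.2 hab,
    hP b a eb.1.1 eb.1.2 eb.2 ea.1.1 ea.1.2 ea.2 (GA_symm _ _ hab)⟩

/-! ### plane geometry -/

theorem TriU_swap23 (a b c : Pt) : TriU a b c = TriU a c b := Set.union_comm _ _

theorem TriU_swap12 (a b c : Pt) : TriU a b c = TriU b a c := by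
  unfold TriU
  rw [Set.union_comm, Tri_rot a c b, Tri_rot c b a]
  rw [Tri_rot a b c]

theorem TriU_rot (a b c : Pt) : TriU a b c = TriU b c a := by
  unfold TriU
  rw [Tri_rot a b c, Tri_rot b a c, Tri_rot a c b]

/-- leaving a triangle (any orientation) through its boundary -/
theorem TriU_exit {a b c p q : Pt} (hp : p ∈ TriU a b c) (hq : q ∉ TriU a b c) :
    ∃ x ∈ segment ℝ p q, x ∈ segment ℝ a b ∨ x ∈ segment ℝ b c ∨ x ∈ segment ℝ c a := by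
  rcases hp with hp | hp
  · exact Tri_exit hp (fun h => hq (Or.inl h))
  · obtain ⟨x, hx, h⟩ := Tri_exit hp (fun h => hq (Or.inr h))
    refine ⟨x, hx, ?_⟩
    rw [segment_symm ℝ a b, segment_symm ℝ b c, segment_symm ℝ c a]
    tauto

/-- the linear function `n` on a triangle is at most its maximum over the corners -/
theorem lin_le_of_Tri {a b c x : Pt} (hx : x ∈ Tri a b c) (n : Pt) {M : ℝ}
    (ha : n.1 * a.1 + n.2 * a.2 ≤ M) (hb : n.1 * b.1 + n.2 * b.2 ≤ M)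
    (hc : n.1 * c.1 + n.2 * c.2 ≤ M) : n.1 * x.1 + n.2 * x.2 ≤ M := by
  have hD := Tri_pos hx
  obtain ⟨h1, h2, h3⟩ := hx
  have hs := D_sum a b c x
  have hb' := bary hD.ne' x
  have e1 : 0 < D b c x / D a b c := by positivity
  have e2 : 0 < D c a x / D a b c := by positivity
  have e3 : 0 < D a b x / D a b c := by positivity
  have es : D b c x / D a b c + D c a x / D a b c + D a b x / D a b c = 1 := by
    field_simp; linarith
  set r := D b c x / D a b c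
  set s := D c a x / D a b c
  set t := D a b x / D a b c
  have hx1 : x.1 = r * a.1 + s * b.1 + t * c.1 := by
    conv_lhs => rw [hb']
    simp
  have hx2 : x.2 = r * a.2 + s * b.2 + t * c.2 := by
    conv_lhs => rw [hb']
    simp
  have hM : M = r * M + s * M + t * M := by
    rw [← add_mul, ← add_mul, es, one_mul]
  have m1 := mul_le_mul_of_nonneg_left ha e1.le
  have m2 := mul_le_mul_of_nonneg_left hb e2.le
  have m3 := mul_le_mul_of_nonneg_left hc e3.le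
  rw [hx1, hx2]
  nlinarith [m1, m2, m3, hM]

theorem lin_le_of_TriU {a b c x : Pt} (hx : x ∈ TriU a b c) (n : Pt) {M : ℝ}
    (ha : n.1 * a.1 + n.2 * a.2 ≤ M) (hb : n.1 * b.1 + n.2 * b.2 ≤ M)
    (hc : n.1 * c.1 + n.2 * c.2 ≤ M) : n.1 * x.1 + n.2 * x.2 ≤ M := by
  rcases hx with hx | hx
  · exact lin_le_of_Tri hx n ha hb hc
  · exact lin_le_of_Tri hx n ha hc hb

/-- two triangles on the same side of a common edge, the apexes not in each other's triangle: two of the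
other sides meet -/
theorem opp_aux {U W X Y : Pt} (h1 : 0 < D U W X) (h2 : 0 < D U W Y) (h3 : D W X Y ≤ 0)
    (h4 : 0 ≤ D X U Y) : ∃ p, p ∈ segment ℝ U Y ∧ p ∈ segment ℝ X W := by
  have e1 : D U Y X = D X U Y := D_rot' U Y X
  have e2 : D U Y W = - D U W Y := D_swap23 U Y W
  have e3 : D X W U = - D U W X := D_swap13 X W U
  have e4 : D X W Y = - D W X Y := D_swap12 X W Y
  exact cross (by rw [e1]; exact h4) (by rw [e2]; linarith) (by rw [e3]; linarith)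
    (by rw [e4]; linarith) (by rw [e1, e2]; linarith)

theorem opp {U W X Y : Pt} (h1 : 0 < D U W X) (h2 : 0 < D U W Y) (n1 : Y ∉ Tri U W X)
    (n2 : X ∉ Tri U W Y) : (∃ p, p ∈ segment ℝ U Y ∧ p ∈ segment ℝ X W) ∨
      ∃ p, p ∈ segment ℝ U X ∧ p ∈ segment ℝ Y W := by
  have m1 : D W X Y ≤ 0 ∨ D X U Y ≤ 0 := by
    by_contra h
    push Not at h
    exact n1 ⟨h2, h.1, h.2⟩
  have m2 : D W Y X ≤ 0 ∨ D Y U X ≤ 0 := by
    by_contra h
    push Not at h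
    exact n2 ⟨h1, h.1, h.2⟩
  have e1 : D W Y X = - D W X Y := D_swap23 W Y X
  have e2 : D Y U X = - D X U Y := D_swap13 Y U X
  rw [e1, e2] at m2
  rcases le_total (D W X Y) 0 with h | h
  · rcases le_total 0 (D X U Y) with h' | h'
    · exact Or.inl (opp_aux h1 h2 h h')
    · rcases m2 with m | m
      · right
        refine opp_aux h2 h1 ?_ ?_
        · rw [e1]; linarith
        · rw [e2]; linarith
      · left
        exact opp_aux h1 h2 h (by linarith)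
  · rcases le_total (D X U Y) 0 with h' | h'
    · right
      refine opp_aux h2 h1 ?_ ?_
      · rw [e1]; linarith
      · rw [e2]; linarith
    · rcases m1 with m | m
      · left
        exact opp_aux h1 h2 m h'
      · right
        refine opp_aux h2 h1 ?_ ?_
        · rw [e1]; linarith
        · rw [e2]; linarith

/-- a cycle of vectors turning to the left does not fit in a closed half plane -/
theorem cyc {ι : Type} (s : Finset ι) (hs : s.Nonempty) (f : ι → ι) (hf : ∀ i ∈ s, f i ∈ s)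
    (hp : ∀ i ∈ s, ∃ j ∈ s, f j = i) (α β : ι → ℝ) (hα : ∀ i ∈ s, α i ≤ 0)
    (h : ∀ i ∈ s, 0 < α i * β (f i) - β i * α (f i)) : False := by
  have hneg : ∀ i ∈ s, α i < 0 := by
    intro i hi
    refine lt_of_le_of_ne (hα i hi) ?_
    intro h0
    have h1 := h i hi
    obtain ⟨j, hj, rfl⟩ := hp i hi
    have h2 := h j hj
    rw [h0] at h1 h2
    have a1 := hα _ (hf _ hi)
    have a2 := hα _ hj
    have b1 : 0 < β (f j) := by
      by_contra hcon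
      push Not at hcon
      nlinarith [mul_nonneg (neg_nonneg.2 hcon) (neg_nonneg.2 a1)]
    nlinarith [mul_nonneg b1.le (neg_nonneg.2 a2)]
  obtain ⟨i, hi, hmax⟩ := s.exists_max_image (fun i => β i / α i) hs
  have h1 := hmax (f i) (hf i hi)
  have h2 := h i hi
  have a1 := hneg i hi
  have a2 := hneg _ (hf i hi)
  have h3 : β (f i) / α (f i) - β i / α i = (α i * β (f i) - β i * α (f i)) / (α i * α (f i)) := by
    have b1 : α i ≠ 0 := a1.ne
    have b2 : α (f i) ≠ 0 := a2.ne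
    field_simp
  have h4 : 0 < α i * α (f i) := mul_pos_of_neg_of_neg a1 a2
  have h5 : 0 < β (f i) / α (f i) - β i / α i := by
    rw [h3]; exact div_pos h2 h4
  linarith

/-! ### faces in a drawing -/

variable {g : Fin 25 → Pt}

theorem D_ne (hg : Drw GA g) {a b c : Fin 25} (hab : GA a b) (hbc : GA b c) (hac : GA a c) :
    D (g a) (g b) (g c) ≠ 0 := by
  intro h
  rw [← collinear_iff_D] at h
  rcases h.wbtw_or_wbtw_or_wbtw with h | h | h
  · exact hg.vtx a c b hac (GA_ne _ _ hab).symm (GA_ne _ _ hbc) (mem_segment_iff_wbtw.2 h)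
  · exact hg.vtx b a c (GA_symm _ _ hab) (GA_ne _ _ hbc).symm (GA_ne _ _ hac).symm
      (mem_segment_iff_wbtw.2 h)
  · exact hg.vtx c b a (GA_symm _ _ hbc) (GA_ne _ _ hac) (GA_ne _ _ hab) (mem_segment_iff_wbtw.2 h)

/-- a face is full or all other vertices are outside -/
theorem face_dichotomy (hg : Drw GA g) (u w : Fin 25) (h : GA u w) :
    (∀ x, x ≠ u → x ≠ w → x ≠ nxt u w → g x ∈ TriU (g u) (g w) (g (nxt u w))) ∨
    (∀ x, x ≠ u → x ≠ w → x ≠ nxt u w → g x ∉ TriU (g u) (g w) (g (nxt u w))) := by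
  by_contra hcon
  push Not at hcon
  obtain ⟨⟨y, y1, y2, y3, hy⟩, ⟨x, x1, x2, x3, hx⟩⟩ := hcon
  refine hy ?_
  refine face_conn u w h (fun v => g v ∈ TriU (g u) (g w) (g (nxt u w))) ?_ x y x1 x2 x3 y1 y2 y3 hx
  intro a b a1 a2 a3 b1 b2 b3 hab ha
  by_contra hb
  obtain ⟨p, hp, hq⟩ := TriU_exit ha hb
  have n := nxt_adj u w h
  rcases hq with hq | hq | hq
  · exact Set.disjoint_left.1 (hg.edg a b u w hab h a1 a2 b1 b2) hp hq
  · exact Set.disjoint_left.1 (hg.edg a b w (nxt u w) hab n.2 a2 a3 b2 b3) hp hq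
  · exact Set.disjoint_left.1 (hg.edg a b (nxt u w) u hab (GA_symm _ _ n.1) a3 a1 b3 b1) hp hq

/-- the dichotomy for the special faces -/
theorem face_dichotomy_sp (hg : Drw GA g) (j : Fin 27) :
    (∀ x, ¬ IsCor x j → g x ∈ TriU (g (Sa j)) (g (Sb j)) (g (Sc j))) ∨
    (∀ x, ¬ IsCor x j → g x ∉ TriU (g (Sa j)) (g (Sb j)) (g (Sc j))) := by
  have h := nxt_sp j
  have hd := face_dichotomy hg (Sa j) (Sb j) h.1
  rw [h.2] at hd
  rcases hd with hd | hd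
  · left
    intro x hx
    simp only [IsCor, not_or] at hx
    exact hd x hx.1 hx.2.1 hx.2.2
  · right
    intro x hx
    simp only [IsCor, not_or] at hx
    exact hd x hx.1 hx.2.1 hx.2.2

/-- the apexes of two faces on a common edge which are not full are on different sides of the edge -/
theorem turn (hg : Drw GA g) {u v : Fin 25} (h : GA u v)
    (n1 : ∀ x, x ≠ u → x ≠ v → x ≠ nxt u v → g x ∉ TriU (g u) (g v) (g (nxt u v)))
    (n2 : ∀ x, x ≠ u → x ≠ nxt u v → x ≠ nxt u (nxt u v) →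
      g x ∉ TriU (g u) (g (nxt u v)) (g (nxt u (nxt u v)))) :
    (0 < D (g u) (g v) (g (nxt u v)) ↔ 0 < D (g u) (g (nxt u v)) (g (nxt u (nxt u v)))) := by
  set w := nxt u v with hw
  set x := nxt u w with hx
  have a1 := nxt_adj u v h
  rw [← hw] at a1
  have a2 := nxt_adj u w a1.1
  rw [← hx] at a2
  have hvx : v ≠ x := (nxt_ne u v h).symm
  have d1 := D_ne hg h a1.2 a1.1
  have d2 := D_ne hg a1.1 a2.2 a2.1
  have huv := GA_ne _ _ h
  have huw := GA_ne _ _ a1.1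
  have hux := GA_ne _ _ a2.1
  have hvw := GA_ne _ _ a1.2
  have hwx := GA_ne _ _ a2.2
  -- apexes v and x of the edge u w
  have m1 : g x ∉ TriU (g u) (g v) (g w) := n1 x hux.symm hvx.symm hwx.symm
  have m2 : g v ∉ TriU (g u) (g w) (g x) := n2 v huv.symm hvw hvx
  have key : ∀ {U W X Y : Pt}, 0 < D U W X → 0 < D U W Y → Y ∉ TriU U W X → X ∉ TriU U W Y →
      (∃ p, p ∈ segment ℝ U Y ∧ p ∈ segment ℝ X W) ∨ ∃ p, p ∈ segment ℝ U X ∧ p ∈ segment ℝ Y W :=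
    fun h1 h2 h3 h4 => opp h1 h2 (fun h => h3 (Or.inl h)) (fun h => h4 (Or.inl h))
  have e1 : D (g u) (g v) (g w) = - D (g u) (g w) (g v) := D_swap23 _ _ _
  have e1' : D (g u) (g v) (g w) = D (g w) (g u) (g v) := D_rot' _ _ _
  have e2 : D (g u) (g w) (g x) = - D (g w) (g u) (g x) := D_swap12 _ _ _
  constructor
  · intro hp
    by_contra hn
    have hn' : D (g u) (g w) (g x) < 0 := lt_of_le_of_ne (not_lt.1 hn) d2
    -- both v and x on the left of w u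
    have k := key (U := g w) (W := g u) (X := g v) (Y := g x) (by rw [← e1']; exact hp)
      (by linarith) (by
        intro hh; apply m1
        rw [TriU_rot] at hh
        exact hh) (by
        intro hh; apply m2
        rw [TriU_swap12] at hh
        exact hh)
    rcases k with ⟨p, p1, p2⟩ | ⟨p, p1, p2⟩
    · exact Set.disjoint_left.1 (hg.edg w x v u a2.2 (GA_symm _ _ h) hvw.symm huw.symm hvx.symm
        hux.symm) p1 p2
    · exact Set.disjoint_left.1 (hg.edg w v x u (GA_symm _ _ a1.2) (GA_symm _ _ a2.1) hwx huw.symm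
        hvx huv.symm) p1 p2
  · intro hp
    by_contra hn
    have hn' : D (g u) (g v) (g w) < 0 := lt_of_le_of_ne (not_lt.1 hn) d1
    have k := key (U := g u) (W := g w) (X := g v) (Y := g x) (by linarith) hp (by
        intro hh; apply m1
        rw [TriU_swap23] at hh
        exact hh) (by
        intro hh; exact m2 hh)
    rcases k with ⟨p, p1, p2⟩ | ⟨p, p1, p2⟩
    · exact Set.disjoint_left.1 (hg.edg u x v w a2.1 a1.2 huv huw hvx.symm hwx.symm) p1 p2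
    · exact Set.disjoint_left.1 (hg.edg u v x w h (GA_symm _ _ a2.2) hux huw hvx hvw) p1 p2

end MNx

open MNx in
/-- monotone neighbours -/
theorem mnLemma : MNLemma := by
  classical
  intro g hg n u
  by_contra hcon
  push Not at hcon
  obtain ⟨hnb, x0, hx0⟩ := hcon
  -- no face at `u` is full
  have hnf : ∀ w, GA u w → ∀ x, x ≠ u → x ≠ w → x ≠ nxt u w →
      g x ∉ TriU (g u) (g w) (g (nxt u w)) := by
    intro w hw
    rcases face_dichotomy hg u w hw with h | h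
    · exfalso
      have a := nxt_adj u w hw
      have h1 : x0 ≠ u := by rintro rfl; exact lt_irrefl _ hx0
      have h2 : x0 ≠ w := by rintro rfl; exact absurd hx0 (not_lt.2 (hnb _ hw))
      have h3 : x0 ≠ nxt u w := by rintro rfl; exact absurd hx0 (not_lt.2 (hnb _ a.1))
      have := lin_le_of_TriU (h x0 h1 h2 h3) n le_rfl (hnb _ hw) (hnb _ a.1)
      exact absurd hx0 (not_lt.2 this)
    · exact h
  have hn0 : 0 < n.1 ^ 2 + n.2 ^ 2 := by
    by_contra h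
    have h1 : n.1 = 0 := by nlinarith [sq_nonneg n.1, sq_nonneg n.2]
    have h2 : n.2 = 0 := by nlinarith [sq_nonneg n.1, sq_nonneg n.2]
    rw [h1, h2] at hx0
    simp at hx0
  have hturn : ∀ w, GA u w → (0 < D (g u) (g w) (g (nxt u w)) ↔
      0 < D (g u) (g (nxt u w)) (g (nxt u (nxt u w)))) := by
    intro w hw
    exact turn hg hw (hnf w hw) (hnf _ (nxt_adj u w hw).1)
  have hne : ∀ w, GA u w → D (g u) (g w) (g (nxt u w)) ≠ 0 := by
    intro w hw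
    have a := nxt_adj u w hw
    exact D_ne hg hw a.2 a.1
  let α : Fin 25 → ℝ := fun w => n.1 * ((g w).1 - (g u).1) + n.2 * ((g w).2 - (g u).2)
  let β : Fin 25 → ℝ := fun w => n.1 * ((g w).2 - (g u).2) - n.2 * ((g w).1 - (g u).1)
  have hid : ∀ v w, α v * β w - β v * α w = (n.1 ^ 2 + n.2 ^ 2) * D (g u) (g v) (g w) := by
    intro v w
    simp only [α, β, D]
    ring
  have hα : ∀ w, GA u w → α w ≤ 0 := by
    intro w hw
    have := hnb w hw
    simp only [α]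
    linarith
  obtain ⟨w0, hw0⟩ := exists_nb u
  rcases lt_or_gt_of_ne (hne w0 hw0) with hlt | hgt
  · -- all negative
    refine cyc (Finset.univ.filter (fun w => GA u w ∧ D (g u) (g w) (g (nxt u w)) < 0))
      ⟨w0, by simp [hw0, hlt]⟩ (nxt u) ?_ ?_ α (fun w => - β w) ?_ ?_
    · intro w hw
      simp only [Finset.mem_filter, Finset.mem_univ, true_and] at hw ⊢
      have a := nxt_adj u w hw.1
      refine ⟨a.1, lt_of_le_of_ne (not_lt.1 ?_) (hne _ a.1)⟩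
      intro h
      exact absurd ((hturn w hw.1).2 h) (not_lt.2 hw.2.le)
    · intro w hw
      simp only [Finset.mem_filter, Finset.mem_univ, true_and] at hw
      obtain ⟨v, hv, rfl⟩ := nxt_surj u w hw.1
      refine ⟨v, ?_, rfl⟩
      simp only [Finset.mem_filter, Finset.mem_univ, true_and]
      refine ⟨hv, lt_of_le_of_ne (not_lt.1 ?_) (hne _ hv)⟩
      intro h
      exact absurd ((hturn v hv).1 h) (not_lt.2 hw.2.le)
    · intro w hw
      simp only [Finset.mem_filter, Finset.mem_univ, true_and] at hw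
      exact hα w hw.1
    · intro w hw
      simp only [Finset.mem_filter, Finset.mem_univ, true_and] at hw
      have h1 := hid w (nxt u w)
      have h2 := mul_neg_of_pos_of_neg hn0 hw.2
      linarith
  · refine cyc (Finset.univ.filter (fun w => GA u w ∧ 0 < D (g u) (g w) (g (nxt u w))))
      ⟨w0, by simp [hw0, hgt]⟩ (nxt u) ?_ ?_ α β ?_ ?_
    · intro w hw
      simp only [Finset.mem_filter, Finset.mem_univ, true_and] at hw ⊢
      exact ⟨(nxt_adj u w hw.1).1, (hturn w hw.1).1 hw.2⟩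
    · intro w hw
      simp only [Finset.mem_filter, Finset.mem_univ, true_and] at hw
      obtain ⟨v, hv, rfl⟩ := nxt_surj u w hw.1
      refine ⟨v, ?_, rfl⟩
      simp only [Finset.mem_filter, Finset.mem_univ, true_and]
      exact ⟨hv, (hturn v hv).2 hw.2⟩
    · intro w hw
      simp only [Finset.mem_filter, Finset.mem_univ, true_and] at hw
      exact hα w hw.1
    · intro w hw
      simp only [Finset.mem_filter, Finset.mem_univ, true_and] at hw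
      have h1 := hid w (nxt u w)
      have h2 := mul_pos hn0 hw.2
      linarith

end MFS
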