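import Pool.Agent.MFS.Defs

/-! MP_6c0025_co: numbers for the greedy packing with few leftovers. -/

set_option autoImplicit false

namespace MFS

namespace Num

/-- greedy choice of the numbers: after `J` steps the leftover is at most
`N * exp (-(a/(2c)) * (sum of 1/(t+jb)))` plus a constant -/
theorem greedy (i c b : ℕ) (hc : 27 ^ i ≤ c) (J : ℕ) :
    ∀ t : ℕ, 1 ≤ t → ∃ K : ℝ, ∀ N : ℕ, ∃ qs : List ℕ, Good i c b qs N t ∧ 27 ^ i * qs.sum ≤ N ∧
      (N : ℝ) - 27 ^ i * qs.sum ≤
        N * Real.exp (-((27 ^ i : ℝ) / (2 * c) * ∑ j ∈ Finset.range J, 1 / ((t : ℝ) + j * b))) + K := by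
  induction J with
  | zero =>
    intro t ht
    refine ⟨0, fun N => ⟨[], trivial, by simp, by simp⟩⟩
  | succ J ih =>
    intro t ht
    obtain ⟨K, hK⟩ := ih (t + b) (by omega)
    have ha1 : 1 ≤ 27 ^ i := Nat.one_le_pow _ _ (by norm_num)
    have hc1 : 1 ≤ c := le_trans ha1 hc
    have hct : 1 ≤ c * t := Nat.one_le_iff_ne_zero.mpr (by positivity)
    refine ⟨|K| + b + 4 * (c * t), fun N => ?_⟩
    have hK0 : (0 : ℝ) ≤ |K| := abs_nonneg K
    have hKle : K ≤ |K| := le_abs_self K
    by_cases hN : N ≤ 4 * (c * t)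
    · refine ⟨[], trivial, by simp, ?_⟩
      have h1 : (N : ℝ) ≤ 4 * (c * t) := by exact_mod_cast hN
      have h2 : (0 : ℝ) ≤ N * Real.exp (-((27 ^ i : ℝ) / (2 * c) *
          ∑ j ∈ Finset.range (J + 1), 1 / ((t : ℝ) + j * b))) := by positivity
      have h3 : (0 : ℝ) ≤ b := by positivity
      simp only [List.sum_nil, Nat.cast_zero, mul_zero, sub_zero]
      linarith
    · rw [not_le] at hN
      set q : ℕ := (N - 1) / (c * t) with hq
      have hq1 : 1 ≤ q := by
        rw [hq, Nat.le_div_iff_mul_le (by omega)]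
        omega
      have hqle : c * t * q ≤ N - 1 := Nat.mul_div_le _ _
      have hqge : N - 1 < c * t * (q + 1) := by
        have := Nat.lt_mul_div_succ (N - 1) (show 0 < c * t by omega)
        simpa [hq] using this
      have hqlt : c * q * t < N := by
        have : c * q * t = c * t * q := by ring
        omega
      have haq : 27 ^ i * q ≤ c * t * q := by
        apply Nat.mul_le_mul_right
        calc 27 ^ i ≤ c := hc
          _ = c * 1 := (mul_one c).symm
          _ ≤ c * t := Nat.mul_le_mul_left _ ht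
      have haqN : 27 ^ i * q ≤ N := by omega
      obtain ⟨qs, hG, hsum, hle⟩ := hK (N - 27 ^ i * q - b)
      refine ⟨q :: qs, ⟨hq1, hqlt, hG⟩, ?_, ?_⟩
      · rw [List.sum_cons, Nat.mul_add]
        omega
      · have hN' : ((N - 27 ^ i * q - b : ℕ) : ℝ) ≤ (N : ℝ) - 27 ^ i * q := by
          have : N - 27 ^ i * q - b + 27 ^ i * q ≤ N := by omega
          have h2 : ((N - 27 ^ i * q - b : ℕ) : ℝ) + 27 ^ i * q ≤ N := by exact_mod_cast this
          linarith
        have hN'' : (N : ℝ) - 27 ^ i * q ≤ ((N - 27 ^ i * q - b : ℕ) : ℝ) + b := by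
          have : N ≤ N - 27 ^ i * q - b + b + 27 ^ i * q := by omega
          have h2 : (N : ℝ) ≤ ((N - 27 ^ i * q - b : ℕ) : ℝ) + b + 27 ^ i * q := by exact_mod_cast this
          linarith
        have htpos : (0 : ℝ) < t := by exact_mod_cast (show 0 < t by omega)
        have hcpos : (0 : ℝ) < c := by exact_mod_cast (show 0 < c by omega)
        have hctR : (1 : ℝ) ≤ c * t := by exact_mod_cast hct
        -- q is at least N / (2 c t)
        have hqR : (N : ℝ) ≤ 2 * c * t * q := by
          have h1 : (N : ℝ) ≤ c * t * (q + 1) := by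
            have : N ≤ c * t * (q + 1) := by omega
            exact_mod_cast this
          have h2 : (4 : ℝ) * (c * t) ≤ N := by exact_mod_cast hN.le
          nlinarith
        have hmain : (N : ℝ) - 27 ^ i * q ≤ N * (1 - (27 ^ i : ℝ) / (2 * c) * (1 / t)) := by
          have h1 : (27 ^ i : ℝ) / (2 * c) * (1 / t) * N ≤ 27 ^ i * q := by
            have : (27 ^ i : ℝ) / (2 * c) * (1 / t) * N = 27 ^ i * (N / (2 * c * t)) := by
              field_simp
            rw [this]
            apply mul_le_mul_of_nonneg_left _ (by positivity)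
            rw [div_le_iff₀ (by positivity)]
            linarith
          nlinarith
        have hexp : 1 - (27 ^ i : ℝ) / (2 * c) * (1 / t) ≤
            Real.exp (-((27 ^ i : ℝ) / (2 * c) * (1 / t))) := by
          have := Real.add_one_le_exp (-((27 ^ i : ℝ) / (2 * c) * (1 / t)))
          linarith
        have hNn : (0 : ℝ) ≤ N := by positivity
        have hsumeq : (27 ^ i : ℝ) / (2 * c) * ∑ j ∈ Finset.range (J + 1), 1 / ((t : ℝ) + j * b) =
            (27 ^ i : ℝ) / (2 * c) * (1 / t) +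
              (27 ^ i : ℝ) / (2 * c) * ∑ j ∈ Finset.range J, 1 / (((t + b : ℕ) : ℝ) + j * b) := by
          rw [Finset.sum_range_succ', mul_add, add_comm]
          congr 1
          · simp
          · congr 1
            apply Finset.sum_congr rfl
            intro j _
            congr 1
            push_cast
            ring
        rw [hsumeq, neg_add, Real.exp_add]
        set E := Real.exp (-((27 ^ i : ℝ) / (2 * c) *
          ∑ j ∈ Finset.range J, 1 / (((t + b : ℕ) : ℝ) + j * b))) with hE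
        have hEpos : 0 ≤ E := (Real.exp_pos _).le
        have h5 : ((N - 27 ^ i * q - b : ℕ) : ℝ) * E ≤
            N * (Real.exp (-((27 ^ i : ℝ) / (2 * c) * (1 / t))) * E) := by
          rw [← mul_assoc]
          apply mul_le_mul_of_nonneg_right _ hEpos
          calc ((N - 27 ^ i * q - b : ℕ) : ℝ) ≤ (N : ℝ) - 27 ^ i * q := hN'
            _ ≤ N * (1 - (27 ^ i : ℝ) / (2 * c) * (1 / t)) := hmain
            _ ≤ _ := mul_le_mul_of_nonneg_left hexp hNn
        rw [List.sum_cons, Nat.cast_add]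
        have h6 : (0 : ℝ) ≤ 4 * (c * t) := by positivity
        have h7 : (N : ℝ) - 27 ^ i * (q + qs.sum) =
          ((N : ℝ) - 27 ^ i * q) - 27 ^ i * qs.sum := by ring
        rw [h7]
        linarith

end Num

theorem numLemma : NumLemma := by
  intro i c b hc δ hδ
  have ha1 : 1 ≤ 27 ^ i := Nat.one_le_pow _ _ (by norm_num)
  have hc1 : 1 ≤ c := le_trans ha1 hc
  have hcpos : (0 : ℝ) < c := by exact_mod_cast (show 0 < c by omega)
  have hκ : (0 : ℝ) < (27 ^ i : ℝ) / (2 * c) := by positivity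
  -- the exponent tends to infinity
  have hdiv := Real.tendsto_sum_range_one_div_nat_succ_atTop
  rw [Filter.tendsto_atTop_atTop] at hdiv
  obtain ⟨J, hJ⟩ := hdiv ((b + 1) * (Real.log (2 / δ) / ((27 ^ i : ℝ) / (2 * c))))
  have hJ1 := hJ J le_rfl
  have hsum : Real.log (2 / δ) ≤
      (27 ^ i : ℝ) / (2 * c) * ∑ j ∈ Finset.range J, 1 / (((1 : ℕ) : ℝ) + j * b) := by
    have h1 : (1 / ((b : ℝ) + 1)) * ∑ j ∈ Finset.range J, (1 / ((j : ℝ) + 1)) ≤
        ∑ j ∈ Finset.range J, 1 / (((1 : ℕ) : ℝ) + j * b) := by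
      rw [Finset.mul_sum]
      apply Finset.sum_le_sum
      intro j _
      rw [one_div_mul_one_div]
      apply one_div_le_one_div_of_le
      · positivity
      · push_cast
        have hj : (0 : ℝ) ≤ j := by positivity
        have hb : (0 : ℝ) ≤ b := by positivity
        nlinarith
    have hb1 : (0 : ℝ) < b + 1 := by positivity
    have h2 : Real.log (2 / δ) / ((27 ^ i : ℝ) / (2 * c)) ≤
        (1 / ((b : ℝ) + 1)) * ∑ j ∈ Finset.range J, (1 / ((j : ℝ) + 1)) := by
      rw [one_div_mul_eq_div, le_div_iff₀ hb1, mul_comm]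
      exact hJ1
    have h3 := le_trans h2 h1
    rw [div_le_iff₀ hκ, mul_comm] at h3
    exact h3
  obtain ⟨K, hK⟩ := Num.greedy i c b hc J 1 le_rfl
  obtain ⟨n, hn⟩ := exists_nat_gt (2 * |K| / δ)
  obtain ⟨qs, hG, hs, hle⟩ := hK (n + 1)
  refine ⟨qs, n + 1, Nat.succ_pos _, hG, hs, ?_⟩
  have hexp : Real.exp (-((27 ^ i : ℝ) / (2 * c) *
      ∑ j ∈ Finset.range J, 1 / (((1 : ℕ) : ℝ) + j * b))) ≤ δ / 2 := by
    calc _ ≤ Real.exp (-Real.log (2 / δ)) := Real.exp_le_exp.mpr (by linarith)
      _ = δ / 2 := by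
        rw [Real.exp_neg, Real.exp_log (by positivity), inv_div]
  have hn1 : (0 : ℝ) ≤ ((n + 1 : ℕ) : ℝ) := by positivity
  have h4 : K ≤ δ / 2 * ((n + 1 : ℕ) : ℝ) := by
    have h5 : 2 * |K| < n * δ := by rwa [div_lt_iff₀ hδ] at hn
    have h6 := le_abs_self K
    push_cast
    nlinarith
  calc ((n + 1 : ℕ) : ℝ) - 27 ^ i * qs.sum ≤ _ := hle
    _ ≤ ((n + 1 : ℕ) : ℝ) * (δ / 2) + δ / 2 * ((n + 1 : ℕ) : ℝ) :=
        add_le_add (mul_le_mul_of_nonneg_left hexp hn1) h4
    _ = δ * ((n + 1 : ℕ) : ℝ) := by ring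

end MFS
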