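import Pool.Agent.MFS.Geo

/-! The greedy packing. -/

set_option autoImplicit false

namespace MFS

/-- every vertex of a gadget has a neighbour -/
theorem Gad_nbr {q : ℕ} (hq : 1 ≤ q) : (i : ℕ) → ∀ x : Inn q i, ∃ y, Gad q i x y
  | 0 => by
      intro x
      change ∃ y, Adj0 q x y
      match (x : Option (Fin q)) with
      | none => exact ⟨some ⟨0, hq⟩, trivial⟩
      | some s => exact ⟨none, trivial⟩
  | i + 1 => by
      intro x
      change ∃ y, AdjS (Gad q i) (root i) x y
      match (x : Option (Fin 25 ⊕ (Fin 27 × Inn q i))) with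
      | none => exact ⟨some (Sum.inl 0), rfl⟩
      | some (Sum.inl v) =>
        obtain ⟨w, hw⟩ := (by decide : ∀ v : Fin 25, ∃ w : Fin 25, GA v w) v
        exact ⟨some (Sum.inl w), hw⟩
      | some (Sum.inr (j, x)) =>
        obtain ⟨y, hy⟩ := Gad_nbr hq i x
        exact ⟨some (Sum.inr (j, y)), rfl, hy⟩

theorem mem_DSet_vertex {q i : ℕ} (hq : 1 ≤ q) {A B C : Pt} {f : Inn q i → Pt} (x : Inn q i) :
    f x ∈ DSet q i A B C f := by
  obtain ⟨y, hy⟩ := Gad_nbr hq i x
  exact Or.inl ⟨x, y, hy, left_mem_segment ℝ _ _⟩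

theorem seg_sub_DSet {q i : ℕ} {A B C : Pt} {f : Inn q i → Pt} {x y : Inn q i} (h : Gad q i x y) :
    segment ℝ (f x) (f y) ⊆ DSet q i A B C f :=
  fun _ hp => Or.inl ⟨x, y, h, hp⟩

/-- the disjoint union of two drawings in disjoint regions -/
theorem Drw_sum {I J : Type} {A : I → I → Prop} {B : J → J → Prop} {f : I → Pt} {g : J → Pt}
    (hf : Drw A f) (hg : Drw B g) (X : Set Pt) (hX : ∀ x, f x ∈ X)
    (hXs : ∀ x y, A x y → segment ℝ (f x) (f y) ⊆ X) (hY : ∀ y, g y ∉ X)
    (hYs : ∀ x y, B x y → Disjoint X (segment ℝ (g x) (g y))) :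
    Drw (AdjU A B) (Sum.elim f g) := by
  refine ⟨?_, ?_, ?_⟩
  · rintro (x | x) (y | y) h
    · exact congrArg _ (hf.inj h)
    · have h' : f x = g y := h
      exact absurd (h' ▸ hX x) (hY y)
    · have h' : g x = f y := h
      exact absurd (h'.symm ▸ hX y) (hY x)
    · exact congrArg _ (hg.inj h)
  · rintro (u | u) (v | v) (w | w) h hu hv
    · exact hf.vtx u v w h (fun e => hu (congrArg _ e)) (fun e => hv (congrArg _ e))
    · exact fun hm => hY w (hXs u v h hm)
    · exact h.elim
    · exact h.elim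
    · exact h.elim
    · exact h.elim
    · exact fun hm => Set.disjoint_left.1 (hYs u v h) (hX w) hm
    · exact hg.vtx u v w h (fun e => hu (congrArg _ e)) (fun e => hv (congrArg _ e))
  · rintro (u | u) (v | v) (x | x) (y | y) h h' h1 h2 h3 h4
    all_goals first
      | exact h.elim
      | exact h'.elim
      | exact hf.edg u v x y h h' (fun e => h1 (congrArg _ e)) (fun e => h2 (congrArg _ e))
          (fun e => h3 (congrArg _ e)) (fun e => h4 (congrArg _ e))
      | exact hg.edg u v x y h h' (fun e => h1 (congrArg _ e)) (fun e => h2 (congrArg _ e))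
          (fun e => h3 (congrArg _ e)) (fun e => h4 (congrArg _ e))
      | exact (hYs x y h').mono_left (hXs u v h)
      | exact ((hYs u v h).mono_left (hXs x y h')).symm

open Classical in
/-- pigeonhole: some triangle contains many points -/
theorem exists_rich (F : List T3) (P : Finset Pt) (m : ℕ)
    (h : m * F.length < (P.filter (fun p => ∃ s ∈ F, p ∈ tri s)).card) :
    ∃ s ∈ F, m ≤ (P.filter (fun p => p ∈ tri s)).card := by
  by_contra hcon
  push Not at hcon
  have key : ∀ G : List T3, (∀ s ∈ G, (P.filter (fun p => p ∈ tri s)).card < m) →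
      (P.filter (fun p => ∃ s ∈ G, p ∈ tri s)).card ≤ m * G.length := by
    intro G
    induction G with
    | nil => intro _; simp
    | cons a G ih =>
      intro hG
      have h1 : P.filter (fun p => ∃ s ∈ a :: G, p ∈ tri s) ⊆
          P.filter (fun p => p ∈ tri a) ∪ P.filter (fun p => ∃ s ∈ G, p ∈ tri s) := by
        intro p hp
        simp only [Finset.mem_filter, Finset.mem_union, List.mem_cons] at hp ⊢
        obtain ⟨hp, s, rfl | hs, hps⟩ := hp
        · exact Or.inl ⟨hp, hps⟩
        · exact Or.inr ⟨hp, s, hs, hps⟩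
      have h2 := (Finset.card_le_card h1).trans (Finset.card_union_le _ _)
      have h3 := ih (fun s hs => hG s (List.mem_cons_of_mem _ hs))
      have h4 := hG a List.mem_cons_self
      rw [List.length_cons, Nat.mul_succ]
      omega
  exact absurd h (not_lt.2 (key F hcon))

theorem pack : PackLemma := by
  classical
  intro i hU
  obtain ⟨c0, b, hU⟩ := hU
  refine ⟨max c0 (27 ^ i), b, le_max_right _ _, ?_⟩
  intro qs
  induction qs with
  | nil =>
    intro N t _ F _ _ _ P _ _
    refine ⟨fun x => (x : Empty).elim, ⟨fun x => (x : Empty).elim, fun x => (x : Empty).elim,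
      fun x => (x : Empty).elim⟩, fun x => (x : Empty).elim, fun x => (x : Empty).elim,
      fun x => (x : Empty).elim, ?_⟩
    intro p _ _
    exact ⟨fun x => (x : Empty).elim, fun x => (x : Empty).elim⟩
  | cons q qs ih =>
    intro N t hgood F hFt hFpos hFdis P hgp hN
    obtain ⟨hq, hqt, hgood⟩ := hgood
    set c := max c0 (27 ^ i) with hc
    -- the rich triangle
    obtain ⟨s, hsF, hs⟩ : ∃ s ∈ F, c * q ≤ (P.filter (fun p => p ∈ tri s)).card := by
      apply exists_rich F P (c * q)
      calc c * q * F.length ≤ c * q * t := Nat.mul_le_mul_left _ hFt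
        _ < N := hqt
        _ ≤ _ := hN
    obtain ⟨l1, l2, rfl⟩ := List.append_of_mem hsF
    have hFdis' := hFdis
    rw [List.pairwise_append, List.pairwise_cons] at hFdis'
    obtain ⟨hd1, ⟨hs2, hd2⟩, hd12⟩ := hFdis'
    -- s is disjoint from the others
    have hsd : ∀ u ∈ l1 ++ l2, Disjoint (tri u) (tri s) := by
      intro u hu
      rcases List.mem_append.1 hu with hu | hu
      · exact hd12 u hu s List.mem_cons_self
      · exact (hs2 u hu).symm
    set Ps := P.filter (fun p => p ∈ tri s) with hPs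
    have hPsP : Ps ⊆ P := Finset.filter_subset _ _
    have hgpPs : GP Ps := fun a ha b hb c hc => hgp a (hPsP ha) b (hPsP hb) c (hPsP hc)
    obtain ⟨f1, hf1, F', hF'⟩ := hU q hq s.1 s.2.1 s.2.2 (hFpos s hsF) Ps hgpPs
      (fun p hp => (Finset.mem_filter.1 hp).2)
      (le_trans (Nat.mul_le_mul_right _ (le_max_left _ _)) hs)
    set X := DSet q i s.1 s.2.1 s.2.2 f1 with hX
    -- the new family
    have hsub : ∀ u ∈ F', tri u ⊆ tri s := hF'.sub
    have hnewdis : (F' ++ (l1 ++ l2)).Pairwise (fun s t => Disjoint (tri s) (tri t)) := by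
      rw [List.pairwise_append]
      refine ⟨hF'.dis, ?_, ?_⟩
      · rw [List.pairwise_append]
        exact ⟨hd1, hd2, fun a ha b hb => hd12 a ha b (List.mem_cons_of_mem _ hb)⟩
      · intro a ha b hb
        exact (hsd b hb).symm.mono_left (hsub a ha)
    have hnewpos : ∀ u ∈ F' ++ (l1 ++ l2), 0 < D u.1 u.2.1 u.2.2 := by
      intro u hu
      rcases List.mem_append.1 hu with hu | hu
      · exact hF'.pos u hu
      · apply hFpos u
        rcases List.mem_append.1 hu with hu | hu
        · exact List.mem_append_left _ hu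
        · exact List.mem_append_right _ (List.mem_cons_of_mem _ hu)
    have hnewlen : (F' ++ (l1 ++ l2)).length ≤ t + b := by
      have h1 := hF'.len
      have h2 := hFt
      simp only [List.length_append, List.length_cons] at h2 ⊢
      omega
    have hnewin : ∀ u ∈ F' ++ (l1 ++ l2), ∃ s' ∈ l1 ++ s :: l2, tri u ⊆ tri s' := by
      intro u hu
      rcases List.mem_append.1 hu with hu | hu
      · exact ⟨s, hsF, hsub u hu⟩
      · refine ⟨u, ?_, subset_rfl⟩
        rcases List.mem_append.1 hu with hu | hu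
        · exact List.mem_append_left _ hu
        · exact List.mem_append_right _ (List.mem_cons_of_mem _ hu)
    -- counting
    have hcount : N - 27 ^ i * q - b ≤
        (P.filter (fun p => ∃ u ∈ F' ++ (l1 ++ l2), p ∈ tri u)).card := by
      have h1 : P.filter (fun p => ∃ u ∈ l1 ++ s :: l2, p ∈ tri u) ⊆
          (P.filter (fun p => ∃ u ∈ F' ++ (l1 ++ l2), p ∈ tri u)) ∪
          (Finset.univ.image (fun l : Lf q i => f1 (leaf i l)) ∪
            Ps.filter (fun p => p ∉ X ∧ ∀ t ∈ F', p ∉ tri t)) := by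
        intro p hp
        rw [Finset.mem_filter] at hp
        obtain ⟨hpP, u, hu, hpu⟩ := hp
        by_cases hnew : ∃ u ∈ F' ++ (l1 ++ l2), p ∈ tri u
        · exact Finset.mem_union_left _ (Finset.mem_filter.2 ⟨hpP, hnew⟩)
        · apply Finset.mem_union_right
          have hps : p ∈ tri s := by
            rcases List.mem_append.1 hu with hu | hu
            · exact absurd ⟨u, List.mem_append_right _ (List.mem_append_left _ hu), hpu⟩ hnew
            · rcases List.mem_cons.1 hu with rfl | hu
              · exact hpu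
              · exact absurd ⟨u, List.mem_append_right _ (List.mem_append_right _ hu), hpu⟩ hnew
          have hpPs : p ∈ Ps := Finset.mem_filter.2 ⟨hpP, hps⟩
          by_cases hpX : p ∈ X
          · apply Finset.mem_union_left
            obtain ⟨l, hl⟩ := hf1.off p hpPs hpX
            exact Finset.mem_image.2 ⟨l, Finset.mem_univ _, hl.symm⟩
          · apply Finset.mem_union_right
            exact Finset.mem_filter.2 ⟨hpPs, hpX,
              fun u hu hpu => hnew ⟨u, List.mem_append_left _ hu, hpu⟩⟩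
      have h2 := Finset.card_le_card h1
      have h3 := Finset.card_union_le
        (P.filter (fun p => ∃ u ∈ F' ++ (l1 ++ l2), p ∈ tri u))
        (Finset.univ.image (fun l : Lf q i => f1 (leaf i l)) ∪
            Ps.filter (fun p => p ∉ X ∧ ∀ t ∈ F', p ∉ tri t))
      have h4 := Finset.card_union_le (Finset.univ.image (fun l : Lf q i => f1 (leaf i l)))
        (Ps.filter (fun p => p ∉ X ∧ ∀ t ∈ F', p ∉ tri t))
      have h5 : (Finset.univ.image (fun l : Lf q i => f1 (leaf i l))).card ≤ 27 ^ i * q := by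
        rw [← card_Lf q i]
        exact Finset.card_image_le
      have h6 : (Ps.filter (fun p => p ∉ X ∧ ∀ t ∈ F', p ∉ tri t)).card ≤ b := by
        convert hF'.cov
      omega
    obtain ⟨f2, hf2, hf2in, hf2seg, hf2leaf, hf2off⟩ :=
      ih (N - 27 ^ i * q - b) (t + b) hgood (F' ++ (l1 ++ l2)) hnewlen hnewpos hnewdis P hgp hcount
    -- separation of the two parts
    have hX1 : ∀ x, f1 x ∈ X ∩ tri s := fun x => ⟨mem_DSet_vertex hq x, hf1.ins x⟩
    have hX2 : ∀ x y, Gad q i x y → segment ℝ (f1 x) (f1 y) ⊆ X ∩ tri s := fun x y h =>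
      Set.subset_inter (seg_sub_DSet h) (seg_Tri (hf1.ins x) (hf1.ins y))
    have hXd : ∀ u ∈ F' ++ (l1 ++ l2), Disjoint (X ∩ tri s) (tri u) := by
      intro u hu
      rcases List.mem_append.1 hu with hu | hu
      · exact (hF'.off u hu).symm.mono_left Set.inter_subset_left
      · exact (hsd u hu).symm.mono_left Set.inter_subset_right
    have hY1 : ∀ y, f2 y ∉ X ∩ tri s := by
      intro y hy
      obtain ⟨u, hu, hyu⟩ := hf2in y
      exact Set.disjoint_left.1 (hXd u hu) hy hyu
    have hY2 : ∀ x y, As i qs x y → Disjoint (X ∩ tri s) (segment ℝ (f2 x) (f2 y)) := by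
      intro x y h
      obtain ⟨u, hu, hsu⟩ := hf2seg x y h
      exact (hXd u hu).mono_right hsu
    refine ⟨(Sum.elim f1 f2 : Inn q i ⊕ Vs i qs → Pt),
      Drw_sum hf1.drw hf2 (X ∩ tri s) hX1 hX2 hY1 hY2, ?_, ?_, ?_, ?_⟩
    · intro x
      match (x : Inn q i ⊕ Vs i qs) with
      | Sum.inl x => exact ⟨s, hsF, hf1.ins x⟩
      | Sum.inr x =>
        obtain ⟨u, hu, hxu⟩ := hf2in x
        obtain ⟨s', hs', hss⟩ := hnewin u hu
        exact ⟨s', hs', hss hxu⟩
    · intro x y h
      match (x : Inn q i ⊕ Vs i qs), (y : Inn q i ⊕ Vs i qs), h with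
      | Sum.inl x, Sum.inl y, h => exact ⟨s, hsF, (hX2 x y h).trans Set.inter_subset_right⟩
      | Sum.inr x, Sum.inr y, h =>
        obtain ⟨u, hu, hxu⟩ := hf2seg x y h
        obtain ⟨s', hs', hss⟩ := hnewin u hu
        exact ⟨s', hs', hxu.trans hss⟩
      | Sum.inl x, Sum.inr y, h => exact h.elim
      | Sum.inr x, Sum.inl y, h => exact h.elim
    · intro l
      match (l : Lf q i ⊕ Ls i qs) with
      | Sum.inl l => exact hPsP (hf1.leafP l)
      | Sum.inr l => exact hf2leaf l
    · intro p hp hpl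
      have hl1 : ∀ l, p ≠ f1 (leaf i l) := fun l => hpl (Sum.inl l : Lf q i ⊕ Ls i qs)
      have hl2 : ∀ l, p ≠ f2 (lfs i qs l) := fun l => hpl (Sum.inr l : Lf q i ⊕ Ls i qs)
      have hno : p ∉ X ∩ tri s := by
        rintro ⟨hpX, hps⟩
        obtain ⟨l, hl⟩ := hf1.off p (Finset.mem_filter.2 ⟨hp, hps⟩) hpX
        exact hl1 l hl
      obtain ⟨ho1, ho2⟩ := hf2off p hp hl2
      constructor
      · intro x
        match (x : Inn q i ⊕ Vs i qs) with
        | Sum.inl x => exact fun e => hno (e ▸ hX1 x)
        | Sum.inr x => exact ho1 x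
      · intro x y h
        match (x : Inn q i ⊕ Vs i qs), (y : Inn q i ⊕ Vs i qs), h with
        | Sum.inl x, Sum.inl y, h => exact fun hm => hno (hX2 x y h hm)
        | Sum.inr x, Sum.inr y, h => exact ho2 x y h
        | Sum.inl x, Sum.inr y, h => exact h.elim
        | Sum.inr x, Sum.inl y, h => exact h.elim

end MFS
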