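import Pool.Agent.MFS.Geo

set_option autoImplicit false

namespace MFS

namespace PlX

theorem quad_finite {a b : ℝ} (c : ℝ) (h : a ≠ 0 ∨ b ≠ 0) :
    {s : ℝ | a * s ^ 2 + b * s + c = 0}.Finite := by
  have hp : (Polynomial.C a * Polynomial.X ^ 2 + Polynomial.C b * Polynomial.X + Polynomial.C c : Polynomial ℝ) ≠ 0 := by
    intro h0
    rcases h with h | h
    · have := congrArg (fun p => Polynomial.coeff p 2) h0
      simp [Polynomial.coeff_X, Polynomial.coeff_C] at this
      exact h this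
    · have := congrArg (fun p => Polynomial.coeff p 1) h0
      simp [Polynomial.coeff_X, Polynomial.coeff_C] at this
      exact h this
  refine (Polynomial.finite_setOf_isRoot hp).subset ?_
  intro s hs
  simp only [Set.mem_setOf_eq, Polynomial.IsRoot.def, Polynomial.eval_add, Polynomial.eval_mul,
    Polynomial.eval_C, Polynomial.eval_pow, Polynomial.eval_X]
  exact hs

end PlX

open Filter Topology in
theorem gamPlaceX (h1 : ChainLemma) (h2 : FrameDraw) : GamPlace := by
  classical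
  obtain ⟨W, n0, h⟩ := h1 134
  refine ⟨W, n0, ?_⟩
  intro A B C hD P hGP hP hn
  obtain ⟨O, H, V, ξ, σ, hO, hH, hV, hOHV, sξ, sσ, hbox⟩ := h A B C hD P hGP hP hn
  obtain ⟨g0, hg0, ok, hb⟩ := h2 O H V hOHV ξ σ sξ sσ
  let τ : ℝ → Pt := fun s => (s, s ^ 2)
  have hτ : Continuous τ := by unfold τ; fun_prop
  have hτ0 : τ 0 = 0 := by simp [τ]
  -- open conditions
  have c1 : ∀ v, ∀ᶠ s in 𝓝 (0 : ℝ), g0 v + τ s ∈ Tri A B C := by
    intro v
    have hc : ContinuousAt (fun s => g0 v + τ s) 0 := (continuous_const.add hτ).continuousAt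
    apply hc.eventually_mem
    rw [hτ0, add_zero]
    exact (Tri_open A B C).mem_nhds (Tri_sub hO hH hV (hg0 v))
  have c2 : ∀ j, ∀ p ∈ P, p ∈ Tj g0 j → ∀ᶠ s in 𝓝 (0 : ℝ), p - τ s ∈ Tj g0 j := by
    intro j p _ hp
    have hc : ContinuousAt (fun s => p - τ s) 0 := (continuous_const.sub hτ).continuousAt
    apply hc.eventually_mem
    rw [hτ0, sub_zero]
    exact (Tri_open _ _ _).mem_nhds hp
  -- generic conditions
  have c3 : ∀ u v, GA u v → ∀ p ∈ P, ∀ᶠ s in 𝓝[≠] (0 : ℝ), D (g0 u) (g0 v) (p - τ s) ≠ 0 := by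
    intro u v huv p _
    have hne : g0 u ≠ g0 v := by
      intro he
      have := ok.drw.inj he
      subst this
      exact (by decide : ∀ u : Fin 25, ¬ GA u u) _ huv
    have hfin := PlX.quad_finite (a := -((g0 v).1 - (g0 u).1)) (b := ((g0 v).2 - (g0 u).2))
      (D (g0 u) (g0 v) p) (by
        by_contra hcon
        push Not at hcon
        exact hne (Prod.ext (by linarith [hcon.1]) (by linarith [hcon.2])))
    have h1 : ∀ᶠ s in 𝓝[≠] (0 : ℝ), s ∉ {s : ℝ | -((g0 v).1 - (g0 u).1) * s ^ 2 +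
        ((g0 v).2 - (g0 u).2) * s + D (g0 u) (g0 v) p = 0} := by
      have h2 := (hfin.subset (Set.diff_subset (t := {(0 : ℝ)}))).isClosed.isOpen_compl.mem_nhds
        (show (0 : ℝ) ∈ _ by simp)
      filter_upwards [nhdsWithin_le_nhds h2, self_mem_nhdsWithin] with s hs hs0 hbad
      exact hs ⟨hbad, hs0⟩
    filter_upwards [h1] with s hs h0
    apply hs
    have e : -((g0 v).1 - (g0 u).1) * s ^ 2 + ((g0 v).2 - (g0 u).2) * s + D (g0 u) (g0 v) p =
        D (g0 u) (g0 v) (p - τ s) := by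
      unfold D; simp [τ]; ring
    exact e.trans h0
  have e1 : ∀ᶠ s in 𝓝[≠] (0 : ℝ), ∀ v, g0 v + τ s ∈ Tri A B C :=
    eventually_all.2 fun v => (c1 v).filter_mono nhdsWithin_le_nhds
  have e2 : ∀ᶠ s in 𝓝[≠] (0 : ℝ), ∀ j, ∀ p ∈ P, p ∈ Tj g0 j → p - τ s ∈ Tj g0 j := by
    refine eventually_all.2 fun j => ?_
    rw [Filter.eventually_all_finset]
    intro p hp
    by_cases hj : p ∈ Tj g0 j
    · exact ((c2 j p hp hj).filter_mono nhdsWithin_le_nhds).mono fun s hs _ => hs
    · exact Eventually.of_forall fun s hh => absurd hh hj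
  have e3 : ∀ᶠ s in 𝓝[≠] (0 : ℝ), ∀ u v, ∀ p ∈ P, GA u v → D (g0 u) (g0 v) (p - τ s) ≠ 0 := by
    refine eventually_all.2 fun u => eventually_all.2 fun v => ?_
    rw [Filter.eventually_all_finset]
    intro p hp
    by_cases huv : GA u v
    · exact (c3 u v huv p hp).mono fun s hs _ => hs
    · exact Eventually.of_forall fun s hh => absurd hh huv
  obtain ⟨s, h1s, h2s, h3s⟩ := (e1.and (e2.and e3)).exists
  have hTj : ∀ j p, p - τ s ∈ Tj g0 j ↔ p ∈ Tj (fun v => g0 v + τ s) j := by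
    intro j p
    unfold Tj Tri
    simp only [Set.mem_setOf_eq]
    have e : ∀ a b : Pt, D a b (p - τ s) = D (a + τ s) (b + τ s) p := by
      intro a b
      have := D_add a b (p - τ s) (τ s)
      rw [sub_add_cancel] at this
      exact this.symm
    rw [e, e, e]
  have hseg : ∀ a b p : Pt, p ∈ segment ℝ (a + τ s) (b + τ s) → p - τ s ∈ segment ℝ a b := by
    intro a b p hp
    obtain ⟨t, h0, h1, rfl⟩ := mem_seg.1 hp
    refine mem_seg.2 ⟨t, h0, h1, ?_⟩
    ext <;> simp <;> ring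
  refine ⟨fun v => g0 v + τ s, h1s, ⟨ok.drw.translate _, ?_, ?_, ?_, ?_⟩, ?_, ?_⟩
  · intro v; rw [D_add]; exact ok.out v
  · intro j; rw [D_add]; exact ok.pos j
  · intro j u v huv
    rw [Set.disjoint_left]
    intro p hp hq
    exact Set.disjoint_left.1 (ok.edg j u v huv) ((hTj j p).2 hp) (hseg _ _ _ hq)
  · intro j j' hjj
    rw [Set.disjoint_left]
    intro p hp hq
    exact Set.disjoint_left.1 (ok.fac j j' hjj) ((hTj j p).2 hp) ((hTj j' p).2 hq)
  · intro u v huv p hp hm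
    exact h3s u v p hp huv (D_seg_zero (hseg _ _ _ hm))
  · intro j
    have hcc : cc j < 134 := by
      unfold cc; have := j.2; omega
    refine (hbox (cc j) hcc).trans ?_
    apply Nat.mul_le_mul_left
    apply Finset.card_le_card
    intro p hp
    rw [Finset.mem_filter] at hp ⊢
    exact ⟨hp.1, (hTj j p).1 (h2s j p hp.1 (hb j hp.2))⟩

end MFS
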