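import Pool.Agent.MFS.Defs

/-! A generic root close to the corner `C` (module RootS of the MFS development). -/

set_option autoImplicit false

namespace MFS

namespace RootS

open Filter Topology

/-- the curve of candidate roots -/
def kk (A B C : Pt) (t : ℝ) : Pt :=
  (C.1 + t * ((A.1 - C.1) + (B.1 - C.1)) + t ^ 2 * (A.1 - C.1),
   C.2 + t * ((A.2 - C.2) + (B.2 - C.2)) + t ^ 2 * (A.2 - C.2))

theorem kk_zero (A B C : Pt) : kk A B C 0 = C := by
  unfold kk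
  ext <;> simp

theorem cont_kk (A B C : Pt) : Continuous (kk A B C) := by
  unfold kk
  fun_prop

theorem cont_D3 (p q : Pt) (A B C : Pt) : Continuous (fun t => D p q (kk A B C t)) := by
  unfold D kk
  fun_prop

theorem cont_D2 (p x : Pt) (A B C : Pt) : Continuous (fun t => D p (kk A B C t) x) := by
  unfold D kk
  fun_prop

theorem cont_D1 (q x : Pt) (A B C : Pt) : Continuous (fun t => D (kk A B C t) q x) := by
  unfold D kk
  fun_prop

theorem ev_pos {f : ℝ → ℝ} (hf : Continuous f) (h0 : 0 < f 0) : ∀ᶠ t in 𝓝[>] (0 : ℝ), 0 < f t := by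
  have h : ∀ᶠ t in 𝓝 (0 : ℝ), 0 < f t := hf.continuousAt.eventually (lt_mem_nhds h0)
  exact h.filter_mono nhdsWithin_le_nhds

theorem ev_ne {f : ℝ → ℝ} (hf : Continuous f) (h0 : f 0 ≠ 0) : ∀ᶠ t in 𝓝[>] (0 : ℝ), f t ≠ 0 := by
  have h : ∀ᶠ t in 𝓝 (0 : ℝ), f t ≠ 0 := hf.continuousAt.eventually_ne h0
  exact h.filter_mono nhdsWithin_le_nhds

theorem ev_gt : ∀ᶠ t in 𝓝[>] (0 : ℝ), 0 < t := eventually_mem_nhdsWithin

/-- a quadratic polynomial which is not zero has no zero just right of `0` -/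
theorem ev_quad (c0 c1 c2 : ℝ) (h : ¬ (c0 = 0 ∧ c1 = 0 ∧ c2 = 0)) :
    ∀ᶠ t in 𝓝[>] (0 : ℝ), c0 + t * c1 + t ^ 2 * c2 ≠ 0 := by
  by_cases h0 : c0 = 0
  · by_cases h1 : c1 = 0
    · have h2 : c2 ≠ 0 := fun h2 => h ⟨h0, h1, h2⟩
      filter_upwards [ev_gt] with t ht
      rw [h0, h1]
      have : t ^ 2 * c2 ≠ 0 := mul_ne_zero (pow_ne_zero 2 ht.ne') h2
      simpa using this
    · have hc : Continuous (fun t : ℝ => c1 + t * c2) := by fun_prop
      have h3 : ∀ᶠ t in 𝓝[>] (0 : ℝ), c1 + t * c2 ≠ 0 := ev_ne hc (by simpa using h1)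
      filter_upwards [ev_gt, h3] with t ht h4
      have : c0 + t * c1 + t ^ 2 * c2 = t * (c1 + t * c2) := by rw [h0]; ring
      rw [this]
      exact mul_ne_zero ht.ne' h4
  · have hc : Continuous (fun t : ℝ => c0 + t * c1 + t ^ 2 * c2) := by fun_prop
    exact ev_ne hc (by simpa using h0)

theorem ev_line (A B C : Pt) (hD : 0 < D A B C) (p q : Pt) (hpq : p ≠ q) :
    ∀ᶠ t in 𝓝[>] (0 : ℝ), D p q (kk A B C t) ≠ 0 := by
  have key : ∀ t, D p q (kk A B C t) =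
      ((q.1 - p.1) * (C.2 - p.2) - (q.2 - p.2) * (C.1 - p.1)) +
      t * ((q.1 - p.1) * ((A.2 - C.2) + (B.2 - C.2)) - (q.2 - p.2) * ((A.1 - C.1) + (B.1 - C.1))) +
      t ^ 2 * ((q.1 - p.1) * (A.2 - C.2) - (q.2 - p.2) * (A.1 - C.1)) := by
    intro t
    unfold D kk
    ring
  have h := ev_quad ((q.1 - p.1) * (C.2 - p.2) - (q.2 - p.2) * (C.1 - p.1))
    ((q.1 - p.1) * ((A.2 - C.2) + (B.2 - C.2)) - (q.2 - p.2) * ((A.1 - C.1) + (B.1 - C.1)))
    ((q.1 - p.1) * (A.2 - C.2) - (q.2 - p.2) * (A.1 - C.1)) (by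
      rintro ⟨-, h1, h2⟩
      have hD' : 0 < (A.1 - C.1) * (B.2 - C.2) - (A.2 - C.2) * (B.1 - C.1) := by
        unfold D at hD
        nlinarith [hD]
      have h3 : (q.1 - p.1) * (B.2 - C.2) - (q.2 - p.2) * (B.1 - C.1) = 0 := by linarith
      have e1 : (q.1 - p.1) * ((A.1 - C.1) * (B.2 - C.2) - (A.2 - C.2) * (B.1 - C.1)) = 0 := by
        have : (q.1 - p.1) * ((A.1 - C.1) * (B.2 - C.2) - (A.2 - C.2) * (B.1 - C.1)) =
          (A.1 - C.1) * ((q.1 - p.1) * (B.2 - C.2) - (q.2 - p.2) * (B.1 - C.1)) -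
          (B.1 - C.1) * ((q.1 - p.1) * (A.2 - C.2) - (q.2 - p.2) * (A.1 - C.1)) := by ring
        rw [this, h3, h2]; ring
      have e2 : (q.2 - p.2) * ((A.1 - C.1) * (B.2 - C.2) - (A.2 - C.2) * (B.1 - C.1)) = 0 := by
        have : (q.2 - p.2) * ((A.1 - C.1) * (B.2 - C.2) - (A.2 - C.2) * (B.1 - C.1)) =
          (A.2 - C.2) * ((q.1 - p.1) * (B.2 - C.2) - (q.2 - p.2) * (B.1 - C.1)) -
          (B.2 - C.2) * ((q.1 - p.1) * (A.2 - C.2) - (q.2 - p.2) * (A.1 - C.1)) := by ring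
        rw [this, h3, h2]; ring
      have f1 := (mul_eq_zero.mp e1).resolve_right hD'.ne'
      have f2 := (mul_eq_zero.mp e2).resolve_right hD'.ne'
      exact hpq (Prod.ext (by linarith) (by linarith)))
  filter_upwards [h] with t ht
  rw [key t]
  exact ht

end RootS

open RootS Filter Topology in
/-- a generic root close to the corner `C` -/
theorem rootSel : RootSel := by
  intro A B C hD F hF X Y hXY Q hQ
  have k2 : ∀ t, D B C (kk A B C t) = t * (1 + t) * D A B C := by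
    intro t; unfold D kk; ring
  have k3 : ∀ t, D C A (kk A B C t) = t * D A B C := by
    intro t; unfold D kk; ring
  have e1 : ∀ᶠ t in 𝓝[>] (0 : ℝ), 0 < D A B (kk A B C t) :=
    ev_pos (cont_D3 A B A B C) (by rw [kk_zero]; exact hD)
  have e2 : ∀ᶠ t in 𝓝[>] (0 : ℝ), ∀ x ∈ F, x ∈ Tri A B (kk A B C t) := by
    rw [Filter.eventually_all_finset]
    intro x hx
    obtain ⟨h1, h2, h3⟩ := hF x hx
    have a2 : ∀ᶠ t in 𝓝[>] (0 : ℝ), 0 < D B (kk A B C t) x :=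
      ev_pos (cont_D2 B x A B C) (by rw [kk_zero]; exact h2)
    have a3 : ∀ᶠ t in 𝓝[>] (0 : ℝ), 0 < D (kk A B C t) A x :=
      ev_pos (cont_D1 A x A B C) (by rw [kk_zero]; exact h3)
    filter_upwards [a2, a3] with t b2 b3
    exact ⟨h1, b2, b3⟩
  have e3 : ∀ᶠ t in 𝓝[>] (0 : ℝ), 0 < - D X Y (kk A B C t) :=
    ev_pos (cont_D3 X Y A B C).neg (by rw [kk_zero]; linarith)
  have e4 : ∀ᶠ t in 𝓝[>] (0 : ℝ), ∀ s ∈ Q, D s.1 s.2 (kk A B C t) ≠ 0 := by
    rw [Filter.eventually_all_finset]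
    intro s hs
    exact ev_line A B C hD s.1 s.2 (hQ s hs)
  obtain ⟨t, ht, h1, h2, h3, h4⟩ := (ev_gt.and (e1.and (e2.and (e3.and e4)))).exists
  refine ⟨kk A B C t, ⟨h1, ?_, ?_⟩, h2, by linarith, h4⟩
  · rw [k2]; positivity
  · rw [k3]; positivity

end MFS
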