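import Pool.Agent.MFS.Defs

/-! Connectivity of the gadget graph minus a few vertices. -/

set_option autoImplicit false

namespace MFS

/-- union of the neighbourhoods of the vertices of the mask -/
def nbm (m : ℕ) : ℕ :=
  (List.range 25).foldl (fun acc v => if m.testBit v then acc ||| adjM.getD v 0 else acc) 0

/-- one step of the search in the complement of `F` -/
def grow (F m : ℕ) : ℕ := m ||| (nbm m &&& ((2 ^ 25 - 1) ^^^ F))

/-- the search from the vertex `s` reaches all vertices outside `F` -/
def check (F s : ℕ) : Bool :=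
  s < 25 && !F.testBit s && ((grow F)^[10] (2 ^ s) ||| F) == 2 ^ 25 - 1

theorem foldl_testBit (m w : ℕ) (l : List ℕ) (a : ℕ) :
    (l.foldl (fun acc v => if m.testBit v then acc ||| adjM.getD v 0 else acc) a).testBit w = true →
      a.testBit w = true ∨ ∃ v ∈ l, m.testBit v = true ∧ (adjM.getD v 0).testBit w = true := by
  induction l generalizing a with
  | nil => intro h; exact Or.inl h
  | cons x l ih =>
    intro h
    rw [List.foldl_cons] at h
    rcases ih _ h with h1 | ⟨v, hv, h1, h2⟩
    · by_cases hx : m.testBit x = true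
      · rw [if_pos hx, Nat.testBit_or, Bool.or_eq_true] at h1
        rcases h1 with h1 | h1
        · exact Or.inl h1
        · exact Or.inr ⟨x, List.mem_cons_self, hx, h1⟩
      · rw [if_neg hx] at h1
        exact Or.inl h1
    · exact Or.inr ⟨v, List.mem_cons_of_mem _ hv, h1, h2⟩

/-- `Γ - F` is connected -/
theorem conn (F s : ℕ) (h : check F s = true) (Q : Fin 25 → Prop)
    (hQ : ∀ u v, GA u v → F.testBit u = false → F.testBit v = false → Q u → Q v) :
    ∀ u v : Fin 25, F.testBit u = false → F.testBit v = false → Q u → Q v := by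
  unfold check at h
  rw [Bool.and_eq_true, Bool.and_eq_true] at h
  obtain ⟨⟨hs, hsF⟩, hfull⟩ := h
  have hs' : s < 25 := by simpa using hs
  have hsF' : F.testBit s = false := by simpa using hsF
  have hfull' : ((grow F)^[10] (2 ^ s) ||| F) = 2 ^ 25 - 1 := by simpa using hfull
  have key : ∀ R : Fin 25 → Prop,
      (∀ u v, GA u v → F.testBit u = false → F.testBit v = false → R u → R v) →
      R ⟨s, hs'⟩ → ∀ v : Fin 25, F.testBit v = false → R v := by
    intro R hR hRs
    have inv : ∀ n : ℕ, ∀ w : ℕ, ((grow F)^[n] (2 ^ s)).testBit w = true →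
        ∃ hw : w < 25, F.testBit w = false ∧ R ⟨w, hw⟩ := by
      intro n
      induction n with
      | zero =>
        intro w hw
        rw [Function.iterate_zero, id, Nat.testBit_two_pow] at hw
        have : s = w := by simpa using hw
        subst this
        exact ⟨hs', hsF', hRs⟩
      | succ n ih =>
        intro w hw
        rw [Function.iterate_succ_apply', grow, Nat.testBit_or, Bool.or_eq_true] at hw
        rcases hw with hw | hw
        · exact ih w hw
        · rw [Nat.testBit_and, Bool.and_eq_true, Nat.testBit_xor, Nat.testBit_two_pow_sub_one] at hw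
          obtain ⟨h1, h2⟩ := hw
          rw [nbm] at h1
          rcases foldl_testBit _ _ _ _ h1 with h3 | ⟨v, hv, h3, h4⟩
          · simp at h3
          · obtain ⟨hv', hvF, hRv⟩ := ih v h3
            have hw25 : w < 25 := by
              have h5 : ∀ v < 25, (adjM.getD v 0) < 2 ^ 25 := by decide
              by_contra hcon
              push Not at hcon
              have h6 := Nat.testBit_eq_false_of_lt
                (lt_of_lt_of_le (h5 v hv') (Nat.pow_le_pow_right (by norm_num) hcon))
              rw [h6] at h4
              exact absurd h4 (by decide)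
            have hwF : F.testBit w = false := by
              have h5 : decide (w < 25) = true := by simpa using hw25
              rw [h5] at h2
              simpa using h2
            exact ⟨hw25, hwF, hR ⟨v, hv'⟩ ⟨w, hw25⟩ h4 hvF hwF hRv⟩
    intro v hv
    have h1 : (((grow F)^[10] (2 ^ s)) ||| F).testBit v = true := by
      rw [hfull', Nat.testBit_two_pow_sub_one]
      simp
    rw [Nat.testBit_or, hv, Bool.or_false] at h1
    obtain ⟨_, _, h2⟩ := inv 10 v h1
    exact h2
  intro u v hu hv hQu
  by_cases hQs : Q ⟨s, hs'⟩
  · exact key Q hQ hQs v hv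
  · exfalso
    have hsym : ∀ u v : Fin 25, GA u v → GA v u := by decide
    exact key (fun x => ¬ Q x) (fun x y hxy hx hy hQx hQy => hQx (hQ y x (hsym x y hxy) hy hx hQy))
      hQs u hu hQu

/-- masks of the special faces -/
def msk (u v w : Fin 25) : ℕ := 2 ^ u.val ||| 2 ^ v.val ||| 2 ^ w.val

theorem msk_testBit (u v w x : Fin 25) :
    (msk u v w).testBit x = false ↔ x ≠ u ∧ x ≠ v ∧ x ≠ w := by
  rw [msk, Nat.testBit_or, Nat.testBit_or, Nat.testBit_two_pow, Nat.testBit_two_pow,
    Nat.testBit_two_pow]
  simp only [Bool.or_eq_false_iff, decide_eq_false_iff_not, Fin.val_inj]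
  constructor
  · rintro ⟨⟨h1, h2⟩, h3⟩
    exact ⟨fun h => h1 h.symm, fun h => h2 h.symm, fun h => h3 h.symm⟩
  · rintro ⟨h1, h2, h3⟩
    exact ⟨⟨fun h => h1 h.symm, fun h => h2 h.symm⟩, fun h => h3 h.symm⟩

/-- a vertex outside three given ones -/
def seed (u v w : Fin 25) : ℕ :=
  if (msk u v w).testBit 0 = false then 0 else if (msk u v w).testBit 1 = false then 1
  else if (msk u v w).testBit 2 = false then 2 else 3

/-- `Γ` minus the corners of a special face is connected, and so is `Γ` minus two of them -/
theorem check_special : ∀ j : Fin 27,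
    check (msk (Sa j) (Sb j) (Sc j)) (seed (Sa j) (Sb j) (Sc j)) = true ∧
    check (msk (Sa j) (Sb j) (Sb j)) (Sc j) = true ∧
    check (msk (Sb j) (Sc j) (Sc j)) (Sa j) = true ∧
    check (msk (Sc j) (Sa j) (Sa j)) (Sb j) = true := by
  decide +kernel

end MFS
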