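import Pool.Agent.MFS.Geo
import Pool.Agent.MFS.Conn

/-! The stacked vertex is in its face unless all other vertices are in the face. -/

set_option autoImplicit false

namespace MFS

theorem TriU_rot (a b c : Pt) : TriU a b c = TriU b c a := by
  rw [TriU, TriU, Tri_rot a b c, Tri_rot' a c b, Tri_rot b a c, Tri_rot' a c b]

theorem TriU_swap (a b c : Pt) : TriU a b c = TriU a c b := by
  rw [TriU, TriU, Set.union_comm]

theorem D_ne_of_drw {V : Type} {A : V → V → Prop} {f : V → Pt} (h : Drw A f) {u v w : V}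
    (h1 : A u v) (h2 : A v w) (h3 : A w u) (huv : u ≠ v) (hvw : v ≠ w) (hwu : w ≠ u) :
    D (f u) (f v) (f w) ≠ 0 := by
  intro h0
  rw [← collinear_iff_D] at h0
  rcases h0.wbtw_or_wbtw_or_wbtw with h4 | h4 | h4
  · exact h.vtx w u v h3 hvw (Ne.symm huv) (by
      rw [segment_symm]; exact mem_segment_iff_wbtw.2 h4)
  · exact h.vtx u v w h1 hwu (Ne.symm hvw) (by
      rw [segment_symm]; exact mem_segment_iff_wbtw.2 h4)
  · exact h.vtx v w u h2 huv (Ne.symm hwu) (by
      rw [segment_symm]; exact mem_segment_iff_wbtw.2 h4)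

/-- four points in general position without crossing -/
theorem k4_pos {a b c k : Pt} (h : 0 < D a b c) (h1 : D b c k ≠ 0) (h2 : D c a k ≠ 0)
    (h3 : D a b k ≠ 0) (x1 : Disjoint (segment ℝ a b) (segment ℝ c k))
    (x2 : Disjoint (segment ℝ b c) (segment ℝ a k)) (x3 : Disjoint (segment ℝ c a) (segment ℝ b k)) :
    k ∈ Tri a b c ∨ a ∈ Tri k b c ∨ b ∈ Tri k c a ∨ c ∈ Tri k a b := by
  have hs := D_sum a b c k
  have e1 : D c k a = - D c a k := D_swap23 _ _ _
  have e2 : D c k b = D b c k := by rw [D_rot' b c k, D_swap12 k b c, D_swap23 b k c]; unfold D; ring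
  have e3 : D a k b = - D a b k := D_swap23 _ _ _
  have e4 : D a k c = D c a k := by unfold D; ring
  have e5 : D b k c = - D b c k := D_swap23 _ _ _
  have e6 : D b k a = D a b k := by unfold D; ring
  have f1 : D b c a = D a b c := (D_rot a b c).symm
  have f2 : D c a b = D a b c := (D_rot' a b c).symm
  rcases lt_or_gt_of_ne h1 with a1 | a1 <;> rcases lt_or_gt_of_ne h2 with a2 | a2 <;>
    rcases lt_or_gt_of_ne h3 with a3 | a3
  · exfalso; linarith
  · -- beyond the vertex c
    right; right; right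
    refine ⟨?_, ?_, ?_⟩
    · have : D k a c = - D c a k := by unfold D; ring
      rw [this]; linarith
    · exact h
    · have : D b k c = - D b c k := e5
      rw [this]; linarith
  · -- beyond b
    right; right; left
    refine ⟨?_, ?_, ?_⟩
    · have : D k c b = - D b c k := by unfold D; ring
      rw [this]; linarith
    · rw [f2]; exact h
    · have : D a k b = - D a b k := e3
      rw [this]; linarith
  · -- beyond the side b c
    exfalso
    obtain ⟨p, hp1, hp2⟩ := cross (a := b) (b := c) (c := a) (d := k) (by rw [f1]; exact h.le) a1.le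
      (by rw [e3]; linarith) (by rw [e4]; linarith) (by rw [f1]; intro h0; linarith)
    exact Set.disjoint_left.1 x2 hp1 hp2
  · -- beyond a
    right; left
    refine ⟨?_, ?_, ?_⟩
    · have : D k b a = - D a b k := by unfold D; ring
      rw [this]; linarith
    · rw [f1]; exact h
    · rw [e1]; linarith
  · -- beyond the side c a
    exfalso
    obtain ⟨p, hp1, hp2⟩ := cross (a := c) (b := a) (c := b) (d := k) (by rw [f2]; exact h.le) a2.le
      (by rw [e5]; linarith) (by rw [e6]; linarith) (by rw [f2]; intro h0; linarith)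
    exact Set.disjoint_left.1 x3 hp1 hp2
  · -- beyond the side a b
    exfalso
    obtain ⟨p, hp1, hp2⟩ := cross (a := a) (b := b) (c := c) (d := k) h.le a3.le
      (by rw [e1]; linarith) (by rw [e2]; linarith) (by intro h0; linarith)
    exact Set.disjoint_left.1 x1 hp1 hp2
  · exact Or.inl ⟨a3, a1, a2⟩

/-- the position of a point with respect to the three segments from an inner point -/
theorem split {a b c w p : Pt} (hw : w ∈ Tri a b c) (hp : p ∈ Tri a b c) (hne : p ≠ w) :
    p ∈ Tri a b w ∨ p ∈ Tri b c w ∨ p ∈ Tri c a w ∨ p ∈ segment ℝ w a ∨ p ∈ segment ℝ w b ∨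
      p ∈ segment ℝ w c := by
  have hD := Tri_pos hw
  obtain ⟨w1, w2, w3⟩ := hw
  obtain ⟨p1, p2, p3⟩ := hp
  have hrel : D b c w * D w a p + D c a w * D w b p + D a b w * D w c p = 0 := by
    unfold D; ring
  -- a point on the line `w a`, on the side of `a`
  have ray : ∀ a b c : Pt, 0 < D a b w → 0 < D b c w → 0 < D c a w → 0 < D a b p →
      D w a p = 0 → D w b p < 0 → p ∈ segment ℝ w a := by
    intro a b c u1 u2 u3 v1 h0 hb
    have hS : D w b a < 0 := by
      have : D w b a = - D a b w := by unfold D; ring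
      linarith
    have hSne : D w b a ≠ 0 := hS.ne
    -- p = w + t (a - w), t = D w b p / D w b a
    have ht0 : 0 ≤ D w b p / D w b a := div_nonneg_of_nonpos hb.le hS.le
    have hid : p = (1 - D w b p / D w b a) • w + (D w b p / D w b a) • a := by
      have hSne' : (b.1 - w.1) * (a.2 - w.2) - (b.2 - w.2) * (a.1 - w.1) ≠ 0 := hSne
      have h0' : (a.1 - w.1) * (p.2 - w.2) - (a.2 - w.2) * (p.1 - w.1) = 0 := h0
      ext
      · simp only [Prod.fst_add, Prod.smul_fst, smul_eq_mul]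
        unfold D
        field_simp
        linear_combination (-(b.1 - w.1)) * h0'
      · simp only [Prod.snd_add, Prod.smul_snd, smul_eq_mul]
        unfold D
        field_simp
        linear_combination (-(b.2 - w.2)) * h0'
    refine mem_seg.2 ⟨_, ht0, ?_, hid⟩
    by_contra hcon
    push Not at hcon
    have h5 : D a b p = (1 - D w b p / D w b a) * D a b w := by
      conv_lhs => rw [hid]
      rw [D_line, D_aba, mul_zero, add_zero]
    nlinarith
  have zero : D w a p = 0 → D w b p = 0 → False := by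
    intro h1 h2
    apply hne
    have h3 : D w a b ≠ 0 := by
      have : D w a b = D a b w := by unfold D; ring
      rw [this]; exact w1.ne'
    have h3' : (a.1 - w.1) * (b.2 - w.2) - (a.2 - w.2) * (b.1 - w.1) ≠ 0 := h3
    have h1' : (a.1 - w.1) * (p.2 - w.2) - (a.2 - w.2) * (p.1 - w.1) = 0 := h1
    have h2' : (b.1 - w.1) * (p.2 - w.2) - (b.2 - w.2) * (p.1 - w.1) = 0 := h2
    ext
    · have : ((a.1 - w.1) * (b.2 - w.2) - (a.2 - w.2) * (b.1 - w.1)) * (p.1 - w.1) = 0 := by
        linear_combination (b.1 - w.1) * h1' - (a.1 - w.1) * h2'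
      rcases mul_eq_zero.1 this with h4 | h4
      · exact absurd h4 h3'
      · linarith
    · have : ((a.1 - w.1) * (b.2 - w.2) - (a.2 - w.2) * (b.1 - w.1)) * (p.2 - w.2) = 0 := by
        linear_combination (b.2 - w.2) * h1' - (a.2 - w.2) * h2'
      rcases mul_eq_zero.1 this with h4 | h4
      · exact absurd h4 h3'
      · linarith
  have tab : 0 < D w a p → D w b p < 0 → p ∈ Tri a b w := fun h1 h2 =>
    ⟨p1, by have : D b w p = - D w b p := D_swap12 _ _ _; rw [this]; linarith, h1⟩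
  have tbc : 0 < D w b p → D w c p < 0 → p ∈ Tri b c w := fun h1 h2 =>
    ⟨p2, by have : D c w p = - D w c p := D_swap12 _ _ _; rw [this]; linarith, h1⟩
  have tca : 0 < D w c p → D w a p < 0 → p ∈ Tri c a w := fun h1 h2 =>
    ⟨p3, by have : D a w p = - D w a p := D_swap12 _ _ _; rw [this]; linarith, h1⟩
  have m1 := w2
  have m2 := w3
  have m3 := w1
  rcases lt_trichotomy (D w a p) 0 with ha | ha | ha
  · rcases lt_trichotomy (D w c p) 0 with hc | hc | hc
    · -- b > 0
      have hb : 0 < D w b p := by nlinarith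
      exact Or.inr (Or.inl (tbc hb hc))
    · -- c = 0, a < 0, b > 0
      have hseg := ray c a b m2 m3 m1 p3 hc ha
      exact Or.inr (Or.inr (Or.inr (Or.inr (Or.inr hseg))))
    · exact Or.inr (Or.inr (Or.inl (tca hc ha)))
  · rcases lt_trichotomy (D w b p) 0 with hb | hb | hb
    · exact Or.inr (Or.inr (Or.inr (Or.inl (ray a b c m3 m1 m2 p1 ha hb))))
    · exact absurd (zero ha hb) id
    · have hc : D w c p < 0 := by
        rw [ha, mul_zero, zero_add] at hrel
        nlinarith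
      exact Or.inr (Or.inl (tbc hb hc))
  · rcases lt_trichotomy (D w b p) 0 with hb | hb | hb
    · exact Or.inl (tab ha hb)
    · have hc : D w c p < 0 := by
        rw [hb, mul_zero, add_zero] at hrel
        nlinarith
      exact Or.inr (Or.inr (Or.inr (Or.inr (Or.inl (ray b c a m1 m2 m3 p2 hb hc)))))
    · have hc : D w c p < 0 := by nlinarith
      exact Or.inr (Or.inl (tbc hb hc))

/-- an edge which avoids the sides of a triangle does not leave it -/
theorem stay {a b c p q : Pt} (hp : p ∈ Tri a b c) (h1 : Disjoint (segment ℝ p q) (segment ℝ a b))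
    (h2 : Disjoint (segment ℝ p q) (segment ℝ b c)) (h3 : Disjoint (segment ℝ p q) (segment ℝ c a)) :
    q ∈ Tri a b c := by
  by_contra hq
  obtain ⟨x, hx, h4 | h4 | h4⟩ := Tri_exit hp hq
  · exact Set.disjoint_left.1 h1 hx h4
  · exact Set.disjoint_left.1 h2 hx h4
  · exact Set.disjoint_left.1 h3 hx h4

/-- `u`, `v`, `w` are the corners of the special face `j`, with the facts on the graph -/
structure Corn (j : Fin 27) (u v w : Fin 25) : Prop where
  cor : ∀ x, IsCor x j ↔ x = u ∨ x = v ∨ x = w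
  uv : GA u v
  vw : GA v w
  wu : GA w u
  nuv : u ≠ v
  nvw : v ≠ w
  nwu : w ≠ u
  two : check (msk u v v) w = true
  three : ∃ s, check (msk u v w) s = true
  du : ∃ y, GA y u ∧ y ≠ u ∧ y ≠ v ∧ y ≠ w
  dv : ∃ y, GA y v ∧ y ≠ u ∧ y ≠ v ∧ y ≠ w

variable {g : Fin 25 ⊕ Fin 27 → Pt} {j : Fin 27} {u v w : Fin 25}

theorem Corn.core (hc : Corn j u v w) (hg : Drw GPl g)
    (hw : g (Sum.inl w) ∈ Tri (g (Sum.inr j)) (g (Sum.inl u)) (g (Sum.inl v))) :
    ∀ x, x ≠ u → x ≠ v → x ≠ w →
      g (Sum.inl x) ∈ Tri (g (Sum.inl u)) (g (Sum.inl v)) (g (Sum.inl w)) := by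
  have cu : IsCor u j := (hc.cor u).2 (Or.inl rfl)
  have cv : IsCor v j := (hc.cor v).2 (Or.inr (Or.inl rfl))
  have cw : IsCor w j := (hc.cor w).2 (Or.inr (Or.inr rfl))
  obtain ⟨k, hk⟩ : ∃ k, k = g (Sum.inr j) := ⟨_, rfl⟩
  -- edges of the gadget graph and the edges at `k`
  have ek : ∀ x y z : Fin 25, GA x y → IsCor z j → x ≠ z → y ≠ z →
      Disjoint (segment ℝ (g (Sum.inl x)) (g (Sum.inl y))) (segment ℝ k (g (Sum.inl z))) := by
    intro x y z hxy hz h1 h2
    rw [hk]
    exact hg.edg (Sum.inl x) (Sum.inl y) (Sum.inr j) (Sum.inl z) hxy hz (by simp)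
      (by simpa using h1) (by simp) (by simpa using h2)
  have ek' : ∀ x y z : Fin 25, GA x y → IsCor z j → x ≠ z → y ≠ z →
      Disjoint (segment ℝ (g (Sum.inl x)) (g (Sum.inl y))) (segment ℝ (g (Sum.inl z)) k) := by
    intro x y z hxy hz h1 h2
    rw [segment_symm ℝ (g (Sum.inl z)) k]
    exact ek x y z hxy hz h1 h2
  have ee : ∀ x y z t : Fin 25, GA x y → GA z t → x ≠ z → x ≠ t → y ≠ z → y ≠ t →
      Disjoint (segment ℝ (g (Sum.inl x)) (g (Sum.inl y)))
        (segment ℝ (g (Sum.inl z)) (g (Sum.inl t))) := by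
    intro x y z t hxy hzt h1 h2 h3 h4
    exact hg.edg _ _ _ _ hxy hzt (by simpa using h1) (by simpa using h2) (by simpa using h3)
      (by simpa using h4)
  have hsym : ∀ x y : Fin 25, GA x y → GA y x := by decide
  rw [← hk] at hw
  -- all vertices except `u`, `v` are in the triangle `k u v`
  have hall : ∀ x, x ≠ u → x ≠ v → g (Sum.inl x) ∈ Tri k (g (Sum.inl u)) (g (Sum.inl v)) := by
    intro x hxu hxv
    refine conn _ _ hc.two (fun x => g (Sum.inl x) ∈ Tri k (g (Sum.inl u)) (g (Sum.inl v)))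
      ?_ w x ?_ ?_ hw
    · intro y z hyz hy hz hyT
      rw [msk_testBit] at hy hz
      refine stay hyT ?_ ?_ ?_
      · exact ek y z u hyz cu hy.1 hz.1
      · exact ee y z u v hyz hc.uv hy.1 hy.2.1 hz.1 hz.2.1
      · exact ek' y z v hyz cv hy.2.1 hz.2.1
    · rw [msk_testBit]
      exact ⟨hc.nwu, Ne.symm hc.nvw, Ne.symm hc.nvw⟩
    · rw [msk_testBit]
      exact ⟨hxu, hxv, hxv⟩
  obtain ⟨s, hs⟩ := hc.three
  -- the part at `u`, `k`, `w`
  have part1 : ∀ x, x ≠ u → x ≠ v → x ≠ w →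
      g (Sum.inl x) ∉ Tri k (g (Sum.inl u)) (g (Sum.inl w)) := by
    intro x hxu hxv hxw hx
    have hallP : ∀ y, y ≠ u → y ≠ v → y ≠ w →
        g (Sum.inl y) ∈ Tri k (g (Sum.inl u)) (g (Sum.inl w)) := by
      intro y h1 h2 h3
      refine conn _ _ hs (fun x => g (Sum.inl x) ∈ Tri k (g (Sum.inl u)) (g (Sum.inl w)))
        ?_ x y ?_ ?_ hx
      · intro y z hyz hy hz hyT
        rw [msk_testBit] at hy hz
        refine stay hyT ?_ ?_ ?_
        · exact ek y z u hyz cu hy.1 hz.1
        · exact ee y z u w hyz (hsym _ _ hc.wu) hy.1 hy.2.2 hz.1 hz.2.2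
        · exact ek' y z w hyz cw hy.2.2 hz.2.2
      · rw [msk_testBit]; exact ⟨hxu, hxv, hxw⟩
      · rw [msk_testBit]; exact ⟨h1, h2, h3⟩
    obtain ⟨y, hyv, h1, h2, h3⟩ := hc.dv
    have hv : g (Sum.inl v) ∈ Tri k (g (Sum.inl u)) (g (Sum.inl w)) := by
      refine stay (hallP y h1 h2 h3) ?_ ?_ ?_
      · exact ek y v u hyv cu h1 (Ne.symm hc.nuv)
      · exact ee y v u w hyv (hsym _ _ hc.wu) h1 h3 (Ne.symm hc.nuv) hc.nvw
      · exact ek' y v w hyv cw h3 hc.nvw
    exact right_notMem_Tri k (g (Sum.inl u)) (g (Sum.inl v)) (Tri_sub_corner hw hv)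
  -- the part at `v`, `k`, `w`
  have part2 : ∀ x, x ≠ u → x ≠ v → x ≠ w →
      g (Sum.inl x) ∉ Tri (g (Sum.inl v)) k (g (Sum.inl w)) := by
    intro x hxu hxv hxw hx
    have hallP : ∀ y, y ≠ u → y ≠ v → y ≠ w →
        g (Sum.inl y) ∈ Tri (g (Sum.inl v)) k (g (Sum.inl w)) := by
      intro y h1 h2 h3
      refine conn _ _ hs (fun x => g (Sum.inl x) ∈ Tri (g (Sum.inl v)) k (g (Sum.inl w)))
        ?_ x y ?_ ?_ hx
      · intro y z hyz hy hz hyT
        rw [msk_testBit] at hy hz
        refine stay hyT ?_ ?_ ?_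
        · exact ek' y z v hyz cv hy.2.1 hz.2.1
        · exact ek y z w hyz cw hy.2.2 hz.2.2
        · exact ee y z w v hyz (hsym _ _ hc.vw) hy.2.2 hy.2.1 hz.2.2 hz.2.1
      · rw [msk_testBit]; exact ⟨hxu, hxv, hxw⟩
      · rw [msk_testBit]; exact ⟨h1, h2, h3⟩
    obtain ⟨y, hyu, h1, h2, h3⟩ := hc.du
    have hu : g (Sum.inl u) ∈ Tri (g (Sum.inl v)) k (g (Sum.inl w)) := by
      refine stay (hallP y h1 h2 h3) ?_ ?_ ?_
      · exact ek' y u v hyu cv h2 hc.nuv
      · exact ek y u w hyu cw h3 (Ne.symm hc.nwu)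
      · exact ee y u w v hyu (hsym _ _ hc.vw) h3 h2 (Ne.symm hc.nwu) hc.nuv
    have hw' : g (Sum.inl w) ∈ Tri (g (Sum.inl v)) k (g (Sum.inl u)) := by
      rw [← Tri_rot' k (g (Sum.inl u)) (g (Sum.inl v))]
      exact hw
    exact right_notMem_Tri (g (Sum.inl v)) k (g (Sum.inl u)) (Tri_sub_corner hw' hu)
  intro x hxu hxv hxw
  have hne : g (Sum.inl x) ≠ g (Sum.inl w) := fun h => hxw (by simpa using hg.inj h)
  rcases split hw (hall x hxu hxv) hne with h | h | h | h | h | h
  · exact absurd h (part1 x hxu hxv hxw)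
  · exact h
  · exact absurd h (part2 x hxu hxv hxw)
  · rw [hk] at h
    exact absurd h (hg.vtx (Sum.inl w) (Sum.inr j) (Sum.inl x) cw (by simpa using hxw) (by simp))
  · exact absurd h (hg.vtx (Sum.inl w) (Sum.inl u) (Sum.inl x) hc.wu (by simpa using hxw)
      (by simpa using hxu))
  · exact absurd h (hg.vtx (Sum.inl w) (Sum.inl v) (Sum.inl x) (hsym _ _ hc.vw)
      (by simpa using hxw) (by simpa using hxv))

/-- exchange of `u` and `v` -/
theorem Corn.swap (hc : Corn j u v w) (h2 : check (msk v u u) w = true)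
    (h3 : ∃ s, check (msk v u w) s = true) : Corn j v u w where
  cor := fun x => (hc.cor x).trans ⟨fun h => by tauto, fun h => by tauto⟩
  uv := (by decide : ∀ x y : Fin 25, GA x y → GA y x) _ _ hc.uv
  vw := (by decide : ∀ x y : Fin 25, GA x y → GA y x) _ _ hc.wu
  wu := (by decide : ∀ x y : Fin 25, GA x y → GA y x) _ _ hc.vw
  nuv := Ne.symm hc.nuv
  nvw := Ne.symm hc.nwu
  nwu := Ne.symm hc.nvw
  two := h2
  three := h3
  du := by
    obtain ⟨y, h1, h2, h3, h4⟩ := hc.dv
    exact ⟨y, h1, h3, h2, h4⟩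
  dv := by
    obtain ⟨y, h1, h2, h3, h4⟩ := hc.du
    exact ⟨y, h1, h3, h2, h4⟩

/-- finite facts on the special faces -/
def fin1 (j : Fin 27) (u v w : Fin 25) : Bool :=
  ga u v && ga v w && ga w u && (u != v) && (v != w) && (w != u) && check (msk u v v) w.val &&
    check (msk u v w) (seed u v w) && check (msk v u u) w.val &&
    check (msk v u w) (seed u v w) &&
    (List.finRange 25).all (fun x => decide (IsCor x j) == (x == u || x == v || x == w)) &&
    (List.finRange 25).any (fun y => ga y u && y != u && y != v && y != w) &&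
    (List.finRange 25).any (fun y => ga y v && y != u && y != v && y != w)

theorem fin1_all : ∀ j : Fin 27, fin1 j (Sa j) (Sb j) (Sc j) = true ∧
    fin1 j (Sb j) (Sc j) (Sa j) = true ∧ fin1 j (Sc j) (Sa j) (Sb j) = true := by
  decide +kernel

theorem Corn.of_fin {j : Fin 27} {u v w : Fin 25} (h : fin1 j u v w = true) :
    Corn j u v w ∧ Corn j v u w := by
  simp only [fin1, Bool.and_eq_true, bne_iff_ne, List.all_eq_true, List.any_eq_true,
    List.mem_finRange, true_and, forall_true_left] at h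
  obtain ⟨⟨⟨⟨⟨⟨⟨⟨⟨⟨⟨⟨h1, h2⟩, h3⟩, h4⟩, h5⟩, h6⟩, h7⟩, h8⟩, h9⟩, h10⟩, h11⟩, h12⟩, h13⟩ := h
  have hc : Corn j u v w := by
    refine ⟨fun x => ?_, h1, h2, h3, h4, h5, h6, h7, ⟨_, h8⟩, ?_, ?_⟩
    · have h14 := h11 x
      rw [beq_iff_eq] at h14
      rw [← decide_eq_true_iff (p := IsCor x j), h14]
      simp [or_assoc]
    · obtain ⟨y, ⟨⟨a1, a2⟩, a3⟩, a4⟩ := h12
      exact ⟨y, a1, a2, a3, a4⟩
    · obtain ⟨y, ⟨⟨a1, a2⟩, a3⟩, a4⟩ := h13
      exact ⟨y, a1, a2, a3, a4⟩
  exact ⟨hc, hc.swap h9 ⟨_, h10⟩⟩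

/-- the core for any orientation -/
theorem Corn.coreU (hc : Corn j u v w) (hc' : Corn j v u w) (hg : Drw GPl g)
    (hw : g (Sum.inl w) ∈ TriU (g (Sum.inr j)) (g (Sum.inl u)) (g (Sum.inl v))) :
    ∀ x, ¬ IsCor x j → g (Sum.inl x) ∈ TriU (g (Sum.inl u)) (g (Sum.inl v)) (g (Sum.inl w)) := by
  intro x hx
  rw [hc.cor] at hx
  push Not at hx
  rcases hw with h | h
  · exact Or.inl (hc.core hg h x hx.1 hx.2.1 hx.2.2)
  · right
    have := hc'.core hg h x hx.2.1 hx.1 hx.2.2
    rw [Tri_rot] at this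
    exact this

theorem stackLemma : StackLemma := by
  intro g hg j
  obtain ⟨f1, f2, f3⟩ := fin1_all j
  obtain ⟨c1, c1'⟩ := Corn.of_fin f1
  obtain ⟨c2, c2'⟩ := Corn.of_fin f2
  obtain ⟨c3, c3'⟩ := Corn.of_fin f3
  have ca : IsCor (Sa j) j := Or.inl rfl
  have cb : IsCor (Sb j) j := Or.inr (Or.inl rfl)
  have cc : IsCor (Sc j) j := Or.inr (Or.inr rfl)
  -- orientation free form of `k4_pos`
  have main : ∀ u v w : Fin 25, Corn j u v w →
      0 < D (g (Sum.inl u)) (g (Sum.inl v)) (g (Sum.inl w)) →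
      g (Sum.inr j) ∈ Tri (g (Sum.inl u)) (g (Sum.inl v)) (g (Sum.inl w)) ∨
      g (Sum.inl u) ∈ Tri (g (Sum.inr j)) (g (Sum.inl v)) (g (Sum.inl w)) ∨
      g (Sum.inl v) ∈ Tri (g (Sum.inr j)) (g (Sum.inl w)) (g (Sum.inl u)) ∨
      g (Sum.inl w) ∈ Tri (g (Sum.inr j)) (g (Sum.inl u)) (g (Sum.inl v)) := by
    intro u v w hc hD
    have cu : IsCor u j := (hc.cor u).2 (Or.inl rfl)
    have cv : IsCor v j := (hc.cor v).2 (Or.inr (Or.inl rfl))
    have cw : IsCor w j := (hc.cor w).2 (Or.inr (Or.inr rfl))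
    have nn : ∀ x y : Fin 25, GA x y → x ≠ y → IsCor x j → IsCor y j →
        D (g (Sum.inl x)) (g (Sum.inl y)) (g (Sum.inr j)) ≠ 0 := by
      intro x y hxy hne hx hy
      exact D_ne_of_drw (A := GPl) hg (u := Sum.inl x) (v := Sum.inl y) (w := Sum.inr j) hxy hy hx
        (by simpa using hne) (by simp) (by simp)
    have dd : ∀ x y z : Fin 25, GA x y → IsCor z j → x ≠ z → y ≠ z →
        Disjoint (segment ℝ (g (Sum.inl x)) (g (Sum.inl y)))
          (segment ℝ (g (Sum.inl z)) (g (Sum.inr j))) := by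
      intro x y z hxy hz h1 h2
      exact hg.edg (Sum.inl x) (Sum.inl y) (Sum.inl z) (Sum.inr j) hxy hz (by simpa using h1)
        (by simp) (by simpa using h2) (by simp)
    exact k4_pos hD (nn v w hc.vw hc.nvw cv cw) (nn w u hc.wu hc.nwu cw cu)
      (nn u v hc.uv hc.nuv cu cv) (dd u v w hc.uv cw (Ne.symm hc.nwu) hc.nvw)
      (dd v w u hc.vw cu (Ne.symm hc.nuv) hc.nwu) (dd w u v hc.wu cv (Ne.symm hc.nvw) hc.nuv)
  have hne : D (g (Sum.inl (Sa j))) (g (Sum.inl (Sb j))) (g (Sum.inl (Sc j))) ≠ 0 :=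
    D_ne_of_drw (A := GPl) hg (u := Sum.inl (Sa j)) (v := Sum.inl (Sb j)) (w := Sum.inl (Sc j))
      c1.uv c1.vw c1.wu (by simpa using c1.nuv) (by simpa using c1.nvw) (by simpa using c1.nwu)
  rcases lt_or_gt_of_ne hne with hD | hD
  · -- negative orientation: use the order `Sb, Sa, Sc`
    have hD' : 0 < D (g (Sum.inl (Sb j))) (g (Sum.inl (Sa j))) (g (Sum.inl (Sc j))) := by
      rw [D_swap12]; linarith
    rcases main _ _ _ c1' hD' with h | h | h | h
    · left
      right
      rw [← Tri_rot (g (Sum.inl (Sb j)))]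
      exact h
    · right
      have h1 := c3.coreU c3' hg (Or.inr (by exact h))
      intro x hx
      have h2 := h1 x hx
      rw [TU, TriU_rot, TriU_rot]
      exact h2
    · right
      have h1 := c2.coreU c2' hg (Or.inr (by exact h))
      intro x hx
      have h2 := h1 x hx
      rw [TU, TriU_rot]
      exact h2
    · right
      have h1 := c1.coreU c1' hg (Or.inr (by exact h))
      intro x hx
      exact h1 x hx
  · rcases main _ _ _ c1 hD with h | h | h | h
    · exact Or.inl (Or.inl h)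
    · right
      have h1 := c2.coreU c2' hg (Or.inl h)
      intro x hx
      have h2 := h1 x hx
      rw [TU, TriU_rot]
      exact h2
    · right
      have h1 := c3.coreU c3' hg (Or.inl h)
      intro x hx
      have h2 := h1 x hx
      rw [TU, TriU_rot, TriU_rot]
      exact h2
    · right
      have h1 := c1.coreU c1' hg (Or.inl h)
      intro x hx
      exact h1 x hx

end MFS
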