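import Pool.Agent.MFS.Geo

/-! MP_6c0025_co (S09336): the glued drawing one level up (note 1963, section 6). -/

set_option autoImplicit false

namespace MFS

namespace StepDM

theorem ex_nb : ∀ v : Fin 25, ∃ w, GA v w := by decide +kernel

section

variable {q i : ℕ} {A B C : Pt} {P : Finset Pt} {k : Pt} {g : Fin 25 → Pt}
  {fj : Fin 27 → Inn q i → Pt}

/-- vertices one level up -/
abbrev VV (q i : ℕ) : Type := Option (Fin 25 ⊕ (Fin 27 × Inn q i))

/-- placement with the unfolded type -/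
def FF (k : Pt) (g : Fin 25 → Pt) (fj : Fin 27 → Inn q i → Pt) : VV q i → Pt
  | none => k
  | some (Sum.inl v) => g v
  | some (Sum.inr (j, x)) => fj j x

theorem comb_eq (x : Inn q (i + 1)) : comb k g fj x = FF k g fj (x : VV q i) := by
  match (x : VV q i) with
  | none => rfl
  | some (Sum.inl _) => rfl
  | some (Sum.inr (_, _)) => rfl

theorem nn_f (H : StepHyp q i A B C P k g fj) (j : Fin 27) (x : Inn q i) :
    0 ≤ D (g 0) (g 1) (fj j x) :=
  D_nonneg_of_Tri ((H.cop j).ins x) (H.ok.out _) (H.ok.out _) (H.ok.out _)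

theorem nn_T (H : StepHyp q i A B C P k g fj) (j : Fin 27) {p : Pt} (hp : p ∈ Tj g j) :
    0 ≤ D (g 0) (g 1) p :=
  D_nonneg_of_Tri hp (H.ok.out _) (H.ok.out _) (H.ok.out _)

theorem f_T (H : StepHyp q i A B C P k g fj) (j : Fin 27) (x : Inn q i) : fj j x ∈ Tj g j :=
  (H.cop j).ins x

theorem g_notT (H : StepHyp q i A B C P k g fj) (v : Fin 25) (j : Fin 27) : g v ∉ Tj g j := by
  intro h
  obtain ⟨w, hw⟩ := ex_nb v
  exact Set.disjoint_left.1 (H.ok.edg j v w hw) h (left_mem_segment ℝ _ _)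

theorem seg_c (H : StepHyp q i A B C P k g fj) {u : Fin 25} {j : Fin 27} (hu : IsCor u j) {x : Inn q i}
    {p : Pt} (hp : p ∈ segment ℝ (g u) (fj j x)) : p = g u ∨ p ∈ Tj g j := by
  have hx := f_T H j x
  rcases hu with hu | hu | hu
  · subst hu
    exact seg_corner_Tri hx hp
  · subst hu
    unfold Tj at hx ⊢
    rw [Tri_rot] at hx ⊢
    exact seg_corner_Tri hx hp
  · subst hu
    unfold Tj at hx ⊢
    rw [Tri_rot'] at hx ⊢
    exact seg_corner_Tri hx hp

theorem seg_f (H : StepHyp q i A B C P k g fj) {j : Fin 27} {x y : Inn q i}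
    {p : Pt} (hp : p ∈ segment ℝ (fj j x) (fj j y)) : p ∈ Tj g j :=
  seg_Tri (f_T H j x) (f_T H j y) hp

theorem seg_k0 (H : StepHyp q i A B C P k g fj) {p : Pt} (hp : p ∈ segment ℝ k (g 0))
    (h : 0 ≤ D (g 0) (g 1) p) : p = g 0 := by
  obtain ⟨t, h0, h1, rfl⟩ := mem_seg.1 hp
  rw [D_line, D_aba] at h
  have hneg := H.neg
  have h2 : 1 - t = 0 := by
    by_contra h3
    have h4 : 0 < 1 - t := lt_of_le_of_ne (by linarith) (Ne.symm h3)
    nlinarith [mul_pos h4 (neg_pos.2 hneg)]
  have h3 : t = 1 := by linarith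
  subst h3
  simp

theorem f_in (H : StepHyp q i A B C P k g fj) (x : VV q i) (hx : x ≠ none) :
    FF k g fj x ∈ Tri A B k := by
  match x, hx with
  | some (Sum.inl v), _ => exact H.gk v
  | some (Sum.inr (j, x)), _ =>
    exact Tri_sub (H.gk _) (H.gk _) (H.gk _) (f_T H j x)

theorem T_in (H : StepHyp q i A B C P k g fj) {j : Fin 27} {p : Pt} (hp : p ∈ Tj g j) :
    p ∈ Tri A B k := Tri_sub (H.gk _) (H.gk _) (H.gk _) hp

theorem f_nn (H : StepHyp q i A B C P k g fj) (x : VV q i) (hx : x ≠ none) :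
    0 ≤ D (g 0) (g 1) (FF k g fj x) := by
  match x, hx with
  | some (Sum.inl v), _ => exact H.ok.out v
  | some (Sum.inr (j, x)), _ => exact nn_f H j x

/-- the four kinds of edges -/
def EK (q i : ℕ) (a b : VV q i) : Prop :=
  (a = none ∧ b = some (Sum.inl 0)) ∨
  (∃ u v, a = some (Sum.inl u) ∧ b = some (Sum.inl v) ∧ GA u v) ∨
  (∃ u j, a = some (Sum.inl u) ∧ b = some (Sum.inr (j, root i)) ∧ IsCor u j) ∨
  (∃ j s t, a = some (Sum.inr (j, s)) ∧ b = some (Sum.inr (j, t)) ∧ Gad q i s t)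

theorem cls (x y : VV q i) (h : AdjS (Gad q i) (root i) x y) :
    ∃ a b, EK q i a b ∧ ((x = a ∧ y = b) ∨ (x = b ∧ y = a)) := by
  match x, y, h with
  | none, some (Sum.inl v), h =>
    exact ⟨_, _, Or.inl ⟨rfl, rfl⟩, Or.inl ⟨rfl, by rw [show v = 0 from h]⟩⟩
  | some (Sum.inl v), none, h =>
    exact ⟨_, _, Or.inl ⟨rfl, rfl⟩, Or.inr ⟨by rw [show v = 0 from h], rfl⟩⟩
  | some (Sum.inl u), some (Sum.inl v), h =>
    exact ⟨_, _, Or.inr (Or.inl ⟨u, v, rfl, rfl, h⟩), Or.inl ⟨rfl, rfl⟩⟩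
  | some (Sum.inl u), some (Sum.inr (j, x)), h =>
    obtain ⟨rfl, h2⟩ := h
    exact ⟨_, _, Or.inr (Or.inr (Or.inl ⟨u, j, rfl, rfl, h2⟩)), Or.inl ⟨rfl, rfl⟩⟩
  | some (Sum.inr (j, x)), some (Sum.inl u), h =>
    obtain ⟨rfl, h2⟩ := h
    exact ⟨_, _, Or.inr (Or.inr (Or.inl ⟨u, j, rfl, rfl, h2⟩)), Or.inr ⟨rfl, rfl⟩⟩
  | some (Sum.inr (j, x)), some (Sum.inr (j', y)), h =>
    obtain ⟨rfl, h2⟩ := h
    exact ⟨_, _, Or.inr (Or.inr (Or.inr ⟨j, x, y, rfl, rfl, h2⟩)), Or.inl ⟨rfl, rfl⟩⟩

theorem cor_mem {u : Fin 25} {j : Fin 27} (hu : IsCor u j) :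
    g u = g (Sa j) ∨ g u = g (Sb j) ∨ g u = g (Sc j) := by
  rcases hu with hu | hu | hu
  · exact Or.inl (by rw [hu])
  · exact Or.inr (Or.inl (by rw [hu]))
  · exact Or.inr (Or.inr (by rw [hu]))

theorem fac' (H : StepHyp q i A B C P k g fj) {j j' : Fin 27} (hj : j ≠ j') {p : Pt}
    (h1 : p ∈ Tj g j) (h2 : p ∈ Tj g j') : False :=
  Set.disjoint_left.1 (H.ok.fac j j' hj) h1 h2

theorem vtx (H : StepHyp q i A B C P k g fj) (a b w : VV q i) (hab : EK q i a b) (h1 : w ≠ a)
    (h2 : w ≠ b) : FF k g fj w ∉ segment ℝ (FF k g fj a) (FF k g fj b) := by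
  intro hp
  rcases hab with ⟨rfl, rfl⟩ | ⟨u, v, rfl, rfl, huv⟩ | ⟨u, j, rfl, rfl, hu⟩ | ⟨j, s, t, rfl, rfl, hst⟩
  · have h3 := seg_k0 H hp (f_nn H w h1)
    match w, h1, h2, h3 with
    | some (Sum.inl v), _, h2, h3 => exact h2 (by rw [H.ok.drw.inj h3])
    | some (Sum.inr (j, x)), _, _, h3 =>
      have h4 := f_T H j x
      rw [show fj j x = g 0 from h3] at h4
      exact g_notT H 0 j h4
  · match w, h1, h2, hp with
    | none, _, _, hp =>
      have h3 := D_seg_nonneg hp (H.ok.out u) (H.ok.out v)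
      exact absurd H.neg (not_lt.2 h3)
    | some (Sum.inl w), h1, h2, hp =>
      exact H.ok.drw.vtx u v w huv (fun h => h1 (by rw [h])) (fun h => h2 (by rw [h])) hp
    | some (Sum.inr (j, x)), _, _, hp =>
      exact Set.disjoint_left.1 (H.ok.edg j u v huv) (f_T H j x) hp
  · match w, h1, h2, hp with
    | none, _, _, hp =>
      have h3 := D_seg_nonneg hp (H.ok.out u) (nn_f H j (root i))
      exact absurd H.neg (not_lt.2 h3)
    | some (Sum.inl w), h1, h2, hp =>
      rcases seg_c H hu hp with h3 | h3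
      · exact h1 (by rw [H.ok.drw.inj h3])
      · exact g_notT H w j h3
    | some (Sum.inr (j', x)), h1, h2, hp =>
      by_cases hj : j' = j
      · subst hj
        have hp' : fj j' x ∈ segment ℝ (fj j' (root i)) (g u) := by
          rw [segment_symm]; exact hp
        exact (H.cop j').cor1 (g u) (cor_mem hu) x (fun h => h2 (by rw [h])) hp'
      · rcases seg_c H hu hp with h3 | h3
        · have h4 := f_T H j' x
          rw [show fj j' x = g u from h3] at h4
          exact g_notT H u j' h4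
        · exact fac' H hj (f_T H j' x) h3
  · match w, h1, h2, hp with
    | none, _, _, hp =>
      have h3 := D_seg_nonneg hp (nn_f H j s) (nn_f H j t)
      exact absurd H.neg (not_lt.2 h3)
    | some (Sum.inl w), h1, h2, hp => exact g_notT H w j (seg_f H hp)
    | some (Sum.inr (j', x)), h1, h2, hp =>
      by_cases hj : j' = j
      · subst hj
        exact (H.cop j').drw.vtx s t x hst (fun h => h1 (by rw [h])) (fun h => h2 (by rw [h])) hp
      · exact fac' H hj (f_T H j' x) (seg_f H hp)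

/-- kinds of pairs of edges, half of the cases -/
theorem edg1 (H : StepHyp q i A B C P k g fj) (a b c d : VV q i) (hab : EK q i a b)
    (hcd : EK q i c d) (h1 : a ≠ c) (h2 : a ≠ d) (h3 : b ≠ c) (h4 : b ≠ d) (p : Pt)
    (hp : p ∈ segment ℝ (FF k g fj a) (FF k g fj b))
    (hq : p ∈ segment ℝ (FF k g fj c) (FF k g fj d)) : False := by
  rcases hab with ⟨rfl, rfl⟩ | ⟨u, v, rfl, rfl, huv⟩ | ⟨u, j, rfl, rfl, hu⟩ | ⟨j, s, t, rfl, rfl, hst⟩
  · -- root edge
    have hc : c ≠ none := Ne.symm h1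
    have hd : d ≠ none := Ne.symm h2
    have h5 : p = g 0 := seg_k0 H hp (D_seg_nonneg hq (f_nn H c hc) (f_nn H d hd))
    subst h5
    exact vtx H c d (some (Sum.inl 0)) hcd h3 h4 hq
  · rcases hcd with ⟨rfl, rfl⟩ | ⟨u', v', rfl, rfl, huv'⟩ | ⟨u', j', rfl, rfl, hu'⟩ |
      ⟨j', s', t', rfl, rfl, hst'⟩
    · have h5 : p = g 0 := seg_k0 H hq (D_seg_nonneg hp (H.ok.out u) (H.ok.out v))
      subst h5
      exact H.ok.drw.vtx u v 0 huv (fun h => h2 (by rw [h])) (fun h => h4 (by rw [h])) hp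
    · exact Set.disjoint_left.1 (H.ok.drw.edg u v u' v' huv huv' (fun h => h1 (by rw [h]))
        (fun h => h2 (by rw [h])) (fun h => h3 (by rw [h])) (fun h => h4 (by rw [h]))) hp hq
    · rcases seg_c H hu' hq with h5 | h5
      · subst h5
        exact H.ok.drw.vtx u v u' huv (fun h => h1 (by rw [h])) (fun h => h3 (by rw [h])) hp
      · exact Set.disjoint_left.1 (H.ok.edg j' u v huv) h5 hp
    · exact Set.disjoint_left.1 (H.ok.edg j' u v huv) (seg_f H hq) hp
  · rcases hcd with ⟨rfl, rfl⟩ | ⟨u', v', rfl, rfl, huv'⟩ | ⟨u', j', rfl, rfl, hu'⟩ |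
      ⟨j', s', t', rfl, rfl, hst'⟩
    · have h5 : p = g 0 := seg_k0 H hq (D_seg_nonneg hp (H.ok.out u) (nn_f H j (root i)))
      subst h5
      rcases seg_c H hu hp with h6 | h6
      · exact h2 (by rw [H.ok.drw.inj h6])
      · exact g_notT H 0 j h6
    · rcases seg_c H hu hp with h5 | h5
      · subst h5
        exact H.ok.drw.vtx u' v' u huv' (fun h => h1 (by rw [h])) (fun h => h2 (by rw [h])) hq
      · exact Set.disjoint_left.1 (H.ok.edg j u' v' huv') h5 hq
    · have hj : j ≠ j' := fun h => h4 (by rw [h])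
      rcases seg_c H hu hp with h5 | h5
      · rcases seg_c H hu' hq with h6 | h6
        · exact h1 (by rw [H.ok.drw.inj (h5.symm.trans h6)])
        · rw [h5] at h6
          exact g_notT H u j' h6
      · rcases seg_c H hu' hq with h6 | h6
        · rw [h6] at h5
          exact g_notT H u' j h5
        · exact fac' H hj h5 h6
    · by_cases hj : j = j'
      · subst hj
        have hp' : p ∈ segment ℝ (fj j (root i)) (g u) := by
          rw [segment_symm]; exact hp
        exact Set.disjoint_left.1 ((H.cop j).cor2 (g u) (cor_mem hu) s' t' hst'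
          (fun h => h3 (by rw [h])) (fun h => h4 (by rw [h]))) hp' hq
      · rcases seg_c H hu hp with h5 | h5
        · have h6 := seg_f H hq
          rw [h5] at h6
          exact g_notT H u j' h6
        · exact fac' H hj h5 (seg_f H hq)
  · rcases hcd with ⟨rfl, rfl⟩ | ⟨u', v', rfl, rfl, huv'⟩ | ⟨u', j', rfl, rfl, hu'⟩ |
      ⟨j', s', t', rfl, rfl, hst'⟩
    · have h6 := seg_f H hp
      have h5 : p = g 0 := seg_k0 H hq (nn_T H j h6)
      rw [h5] at h6
      exact g_notT H 0 j h6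
    · exact Set.disjoint_left.1 (H.ok.edg j u' v' huv') (seg_f H hp) hq
    · by_cases hj : j' = j
      · subst hj
        have hq' : p ∈ segment ℝ (fj j' (root i)) (g u') := by
          rw [segment_symm]; exact hq
        exact Set.disjoint_left.1 ((H.cop j').cor2 (g u') (cor_mem hu') s t hst
          (fun h => h2 (by rw [h])) (fun h => h4 (by rw [h]))) hq' hp
      · rcases seg_c H hu' hq with h5 | h5
        · have h6 := seg_f H hp
          rw [h5] at h6
          exact g_notT H u' j h6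
        · exact fac' H hj h5 (seg_f H hp)
    · by_cases hj : j = j'
      · subst hj
        exact Set.disjoint_left.1 ((H.cop j).drw.edg s t s' t' hst hst' (fun h => h1 (by rw [h]))
          (fun h => h2 (by rw [h])) (fun h => h3 (by rw [h])) (fun h => h4 (by rw [h]))) hp hq
      · exact fac' H hj (seg_f H hp) (seg_f H hq)

theorem inj (H : StepHyp q i A B C P k g fj) : Function.Injective (FF k g fj) := by
  intro x y hxy
  have key : ∀ x : VV q i, x ≠ none → FF k g fj x ≠ k := by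
    intro x hx h
    have h1 := f_nn H x hx
    rw [h] at h1
    exact absurd H.neg (not_lt.2 h1)
  match x, y, hxy with
  | none, none, _ => rfl
  | none, some y, h => exact absurd h.symm (key _ (by simp))
  | some x, none, h => exact absurd h (key _ (by simp))
  | some (Sum.inl u), some (Sum.inl v), h => rw [H.ok.drw.inj h]
  | some (Sum.inl u), some (Sum.inr (j, x)), h =>
    have h1 := f_T H j x
    rw [← show g u = fj j x from h] at h1
    exact absurd h1 (g_notT H u j)
  | some (Sum.inr (j, x)), some (Sum.inl u), h =>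
    have h1 := f_T H j x
    rw [show fj j x = g u from h] at h1
    exact absurd h1 (g_notT H u j)
  | some (Sum.inr (j, x)), some (Sum.inr (j', y)), h =>
    by_cases hj : j = j'
    · subst hj
      rw [(H.cop j).drw.inj h]
    · have h1 := f_T H j x
      rw [show fj j x = fj j' y from h] at h1
      exact (fac' H hj h1 (f_T H j' y)).elim

theorem drw (H : StepHyp q i A B C P k g fj) : Drw (Gad q (i + 1)) (comb k g fj) := by
  refine ⟨?_, ?_, ?_⟩
  · intro x y hxy
    rw [comb_eq, comb_eq] at hxy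
    exact inj H hxy
  · intro u v w huv h1 h2
    rw [comb_eq, comb_eq, comb_eq]
    obtain ⟨a, b, hab, h | h⟩ := cls (q := q) (i := i) u v huv
    · obtain ⟨rfl, rfl⟩ := h
      exact vtx H u v w hab h1 h2
    · obtain ⟨rfl, rfl⟩ := h
      rw [segment_symm]
      exact vtx H v u w hab h2 h1
  · intro u v x y huv hxy h1 h2 h3 h4
    rw [comb_eq, comb_eq, comb_eq, comb_eq, Set.disjoint_left]
    intro p hp hq
    obtain ⟨a, b, hab, h | h⟩ := cls (q := q) (i := i) u v huv
    · obtain ⟨rfl, rfl⟩ := h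
      obtain ⟨c, d, hcd, h' | h'⟩ := cls (q := q) (i := i) x y hxy
      · obtain ⟨rfl, rfl⟩ := h'
        exact edg1 H u v x y hab hcd h1 h2 h3 h4 p hp hq
      · obtain ⟨rfl, rfl⟩ := h'
        rw [segment_symm] at hq
        exact edg1 H u v y x hab hcd h2 h1 h4 h3 p hp hq
    · obtain ⟨rfl, rfl⟩ := h
      rw [segment_symm] at hp
      obtain ⟨c, d, hcd, h' | h'⟩ := cls (q := q) (i := i) x y hxy
      · obtain ⟨rfl, rfl⟩ := h'
        exact edg1 H v u x y hab hcd h3 h4 h1 h2 p hp hq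
      · obtain ⟨rfl, rfl⟩ := h'
        rw [segment_symm] at hq
        exact edg1 H v u y x hab hcd h4 h3 h2 h1 p hp hq

theorem root_disj (H : StepHyp q i A B C P k g fj) {K : Pt} (hK : K = A ∨ K = B ∨ K = C) {p : Pt}
    (hp : p ∈ segment ℝ k K) : p ∉ Tri A B k := by
  rcases hK with rfl | rfl | rfl
  · exact seg_side_disj_a hp
  · exact seg_side_disj_b hp
  · exact seg_corner_disj H.hk hp

theorem off_T (H : StepHyp q i A B C P k g fj) {p : Pt} (hp : p ∈ P) {j : Fin 27} (hT : p ∈ Tj g j)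
    (h : p ∈ DSet q i (g (Sa j)) (g (Sb j)) (g (Sc j)) (fj j)) :
    ∃ l : Lf q (i + 1), p = comb k g fj (leaf (i + 1) l) := by
  classical
  obtain ⟨l, hl⟩ := (H.cop j).off p (Finset.mem_filter.2 ⟨hp, hT⟩) h
  exact ⟨((j, l) : Fin 27 × Lf q i), hl⟩

theorem off (H : StepHyp q i A B C P k g fj) (p : Pt) (hp : p ∈ P)
    (h : p ∈ DSet q (i + 1) A B C (comb k g fj)) :
    ∃ l : Lf q (i + 1), p = comb k g fj (leaf (i + 1) l) := by
  have hroot : comb k g fj (root (i + 1)) = k := rfl
  rcases h with ⟨x, y, hxy, hs⟩ | h | h | h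
  · have key : ∀ a b : VV q i, EK q i a b → p ∈ segment ℝ (FF k g fj a) (FF k g fj b) →
        ∃ l : Lf q (i + 1), p = comb k g fj (leaf (i + 1) l) := by
      intro a b hab hs
      rcases hab with ⟨rfl, rfl⟩ | ⟨u, v, rfl, rfl, huv⟩ | ⟨u, j, rfl, rfl, hu⟩ |
        ⟨j, s, t, rfl, rfl, hst⟩
      · have h1 : D k (g 0) p = 0 := D_seg_zero hs
        exact absurd ((D_rot k (g 0) p).symm.trans h1) (H.gen p hp)
      · exact absurd hs (H.av u v huv p hp)
      · rcases seg_c H hu hs with h1 | h1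
        · obtain ⟨w, hw⟩ := ex_nb u
          exact absurd (h1 ▸ left_mem_segment ℝ (g u) (g w)) (H.av u w hw p hp)
        · refine off_T H hp h1 ?_
          rw [segment_symm] at hs
          have hs' : p ∈ segment ℝ (fj j (root i)) (g u) := hs
          rcases hu with rfl | rfl | rfl
          · exact Or.inr (Or.inl hs')
          · exact Or.inr (Or.inr (Or.inl hs'))
          · exact Or.inr (Or.inr (Or.inr hs'))
      · exact off_T H hp (seg_f H hs) (Or.inl ⟨s, t, hst, hs⟩)
    rw [comb_eq, comb_eq] at hs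
    obtain ⟨a, b, hab, h | h⟩ := cls (q := q) (i := i) x y hxy
    · obtain ⟨rfl, rfl⟩ := h
      exact key _ _ hab hs
    · obtain ⟨rfl, rfl⟩ := h
      rw [segment_symm] at hs
      exact key _ _ hab hs
  · rw [hroot] at h
    exact absurd (H.Pk p hp) (root_disj H (Or.inl rfl) h)
  · rw [hroot] at h
    exact absurd (H.Pk p hp) (root_disj H (Or.inr (Or.inl rfl)) h)
  · rw [hroot] at h
    exact absurd (H.Pk p hp) (root_disj H (Or.inr (Or.inr rfl)) h)

end

end StepDM

open StepDM in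
theorem stepDraw : StepDraw := by
  intro q i A B C P k g fj _ H
  have hroot : comb k g fj (root (i + 1)) = k := rfl
  refine ⟨drw H, ?_, ?_, ?_, ?_, off H⟩
  · intro x
    rw [comb_eq]
    match (x : VV q i) with
    | none => exact H.hk
    | some (Sum.inl v) => exact H.hg v
    | some (Sum.inr (j, x)) => exact Tri_sub (H.hg _) (H.hg _) (H.hg _) (f_T H j x)
  · intro l
    classical
    exact (Finset.mem_filter.1 ((H.cop l.1).leafP l.2)).1
  · intro K hK x hx
    rw [hroot, comb_eq]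
    intro hp
    exact root_disj H hK hp (f_in H x hx)
  · intro K hK x y _ hx hy
    rw [hroot, comb_eq, comb_eq, Set.disjoint_left]
    intro p hp hq
    exact root_disj H hK hp (seg_Tri (f_in H x hx) (f_in H y hy) hq)

end MFS
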