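import Pool.Agent.MFS.Geo

/-! MFS/StepL: the leftover family one level up. -/

set_option autoImplicit false

namespace MFS

namespace StepL

/-- ordered edges of the gadget graph -/
def eL : List (Fin 25 × Fin 25) :=
  ((List.finRange 25).product (List.finRange 25)).filter (fun e => ga e.1 e.2)

theorem mem_eL {u v : Fin 25} (h : GA u v) : (u, v) ∈ eL := by
  unfold eL
  rw [List.mem_filter]
  refine ⟨?_, h⟩
  exact List.mem_product.2 ⟨List.mem_finRange u, List.mem_finRange v⟩

theorem of_mem_eL {e : Fin 25 × Fin 25} (h : e ∈ eL) : GA e.1 e.2 := by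
  unfold eL at h
  rw [List.mem_filter] at h
  exact h.2

/-- the cutting lines -/
def ls (g : Fin 25 → Pt) (k A B C : Pt) : List (Pt × Pt) :=
  eL.map (fun e => (g e.1, g e.2)) ++ [(k, g 0), (k, A), (k, B), (k, C)]

theorem ls_length (g : Fin 25 → Pt) (k A B C : Pt) : (ls g k A B C).length = eL.length + 4 := by
  simp [ls]

theorem mem_ls {g : Fin 25 → Pt} {k A B C : Pt} {u v : Fin 25} (h : GA u v) :
    (g u, g v) ∈ ls g k A B C :=
  List.mem_append_left _ (List.mem_map.2 ⟨(u, v), mem_eL h, rfl⟩)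

theorem GA_irr : ∀ u : Fin 25, ¬ GA u u := by decide

theorem GA_ab : ∀ j : Fin 27, GA (Sa j) (Sb j) := by decide
theorem GA_bc : ∀ j : Fin 27, GA (Sb j) (Sc j) := by decide
theorem GA_ca : ∀ j : Fin 27, GA (Sc j) (Sa j) := by decide
theorem GA_ex : ∀ u : Fin 25, ∃ v, GA u v := by decide

/-- the sign of `D a b` is constant on an open triangle which avoids the line -/
theorem sign_const {a b : Pt} {t : T3} (h : ∀ x ∈ tri t, D a b x ≠ 0) {x y : Pt} (hx : x ∈ tri t)
    (hy : y ∈ tri t) (hpos : 0 < D a b x) : 0 < D a b y := by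
  by_contra hn
  push Not at hn
  have hy0 : D a b y < 0 := lt_of_le_of_ne hn (h y hy)
  have hs : 0 < D a b x - D a b y := by linarith
  have h1 : 0 ≤ D a b x / (D a b x - D a b y) := by positivity
  have h2 : D a b x / (D a b x - D a b y) ≤ 1 := by
    rw [div_le_one hs]; linarith
  have hz : (1 - D a b x / (D a b x - D a b y)) • x + (D a b x / (D a b x - D a b y)) • y ∈ tri t :=
    seg_Tri hx hy (mem_seg.2 ⟨_, h1, h2, rfl⟩)
  apply h _ hz
  rw [D_line]
  field_simp
  ring

end StepL

open StepL in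
theorem stepLeft (h : CutLemma) : StepLeft := by
  classical
  intro b
  obtain ⟨bc, hbc⟩ := h (eL.length + 4)
  refine ⟨bc + 27 * b, ?_⟩
  intro q i A B C P k g fj hq H hF
  choose Fj hFj using hF
  have hne : ∀ l ∈ ls g k A B C, l.1 ≠ l.2 := by
    intro l hl
    unfold ls at hl
    rcases List.mem_append.1 hl with hl | hl
    · obtain ⟨e, he, rfl⟩ := List.mem_map.1 hl
      intro heq
      have := H.ok.drw.inj heq
      have h1 := of_mem_eL he
      rw [this] at h1
      exact GA_irr _ h1
    · simp only [List.mem_cons, List.not_mem_nil, or_false] at hl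
      rcases hl with rfl | rfl | rfl | rfl
      · intro heq
        change k = g 0 at heq
        have := H.neg
        rw [heq, D_aba] at this
        exact lt_irrefl _ this
      · intro heq
        change k = A at heq
        have := H.hk
        rw [heq] at this
        exact left_notMem_Tri _ _ _ this
      · intro heq
        change k = B at heq
        have := H.hk
        rw [heq] at this
        exact mid_notMem_Tri _ _ _ this
      · intro heq
        change k = C at heq
        have := H.hk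
        rw [heq] at this
        exact right_notMem_Tri _ _ _ this
  obtain ⟨F, hFlen, hFpos, hFsub, hFdis, hFline, hFcov⟩ :=
    hbc (ls g k A B C) (ls_length g k A B C) hne A B C H.hD P H.gp
  -- segments on the lines avoid the triangles of F
  have hseg : ∀ t ∈ F, ∀ l ∈ ls g k A B C, ∀ x ∈ segment ℝ l.1 l.2, x ∉ tri t := by
    intro t ht l hl x hx hxt
    exact hFline t ht l hl x hxt (D_seg_zero hx)
  have hgseg : ∀ t ∈ F, ∀ u, g u ∉ tri t := by
    intro t ht u hut
    obtain ⟨v, hv⟩ := GA_ex u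
    exact hseg t ht _ (mem_ls hv) (g u) (left_mem_segment ℝ _ _) hut
  have hgT : ∀ j u, g u ∉ Tj g j := by
    intro j u hu
    obtain ⟨v, hv⟩ := GA_ex u
    exact Set.disjoint_left.1 (H.ok.edg j u v hv) hu (left_mem_segment ℝ _ _)
  have hTsub : ∀ j, Tj g j ⊆ Tri A B C := fun j => Tri_sub (H.hg _) (H.hg _) (H.hg _)
  have hTsubk : ∀ j, Tj g j ⊆ Tri A B k := fun j => Tri_sub (H.gk _) (H.gk _) (H.gk _)
  -- segments from the root of copy j to a corner
  have hcorseg : ∀ j u, IsCor u j → ∀ x ∈ segment ℝ (g u) (fj j (root i)), x = g u ∨ x ∈ Tj g j := by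
    intro j u hu x hx
    have hr := (H.cop j).ins (root i)
    rcases hu with rfl | rfl | rfl
    · exact seg_corner_Tri hr hx
    · rw [Tri_rot] at hr
      rcases seg_corner_Tri hr hx with h1 | h1
      · exact Or.inl h1
      · right
        unfold Tj
        rw [Tri_rot]; exact h1
    · rw [Tri_rot'] at hr
      rcases seg_corner_Tri hr hx with h1 | h1
      · exact Or.inl h1
      · right
        unfold Tj
        rw [Tri_rot']; exact h1
  have hcopseg : ∀ j x y, ∀ p ∈ segment ℝ (fj j x) (fj j y), p ∈ Tj g j := by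
    intro j x y p hp
    exact seg_Tri ((H.cop j).ins x) ((H.cop j).ins y) hp
  -- the drawn set one level up
  have hX : ∀ p ∈ DSet q (i + 1) A B C (comb k g fj),
      (∃ u v, GA u v ∧ p ∈ segment ℝ (g u) (g v)) ∨
      (p ∈ segment ℝ k (g 0) ∨ p ∈ segment ℝ k A ∨ p ∈ segment ℝ k B ∨ p ∈ segment ℝ k C) ∨
      (∃ j, (∃ x y, Gad q i x y ∧ p ∈ segment ℝ (fj j x) (fj j y)) ∨
        ∃ u, IsCor u j ∧ p ∈ segment ℝ (g u) (fj j (root i))) := by
    intro p hp
    rcases hp with ⟨x, y, hxy, hmem⟩ | hmem | hmem | hmem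
    · change AdjS (Gad q i) (root i) x y at hxy
      match (x : Option (Fin 25 ⊕ (Fin 27 × Inn q i))), (y : Option (Fin 25 ⊕ (Fin 27 × Inn q i))),
        hxy, hmem with
      | none, some (Sum.inl v), hxy, hmem =>
        change v = 0 at hxy
        subst hxy
        exact Or.inr (Or.inl (Or.inl hmem))
      | some (Sum.inl v), none, hxy, hmem =>
        change v = 0 at hxy
        subst hxy
        rw [segment_symm] at hmem
        exact Or.inr (Or.inl (Or.inl hmem))
      | some (Sum.inl u), some (Sum.inl v), hxy, hmem => exact Or.inl ⟨u, v, hxy, hmem⟩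
      | some (Sum.inl u), some (Sum.inr (j, z)), hxy, hmem =>
        obtain ⟨h1, h2⟩ := hxy
        subst h1
        exact Or.inr (Or.inr ⟨j, Or.inr ⟨u, h2, hmem⟩⟩)
      | some (Sum.inr (j, z)), some (Sum.inl u), hxy, hmem =>
        obtain ⟨h1, h2⟩ := hxy
        subst h1
        rw [segment_symm] at hmem
        exact Or.inr (Or.inr ⟨j, Or.inr ⟨u, h2, hmem⟩⟩)
      | some (Sum.inr (j, z)), some (Sum.inr (j', z')), hxy, hmem =>
        obtain ⟨h1, h2⟩ := hxy
        subst h1
        exact Or.inr (Or.inr ⟨j, Or.inl ⟨z, z', h2, hmem⟩⟩)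
    · exact Or.inr (Or.inl (Or.inr (Or.inl hmem)))
    · exact Or.inr (Or.inl (Or.inr (Or.inr (Or.inl hmem))))
    · exact Or.inr (Or.inl (Or.inr (Or.inr (Or.inr hmem))))
  have hDX : ∀ j, ∀ p ∈ DSet q i (g (Sa j)) (g (Sb j)) (g (Sc j)) (fj j),
      p ∈ DSet q (i + 1) A B C (comb k g fj) := by
    intro j p hp
    rcases hp with ⟨x, y, hxy, hmem⟩ | hmem | hmem | hmem
    · exact Or.inl ⟨(some (Sum.inr (j, x)) : Option (Fin 25 ⊕ (Fin 27 × Inn q i))),
        (some (Sum.inr (j, y)) : Option (Fin 25 ⊕ (Fin 27 × Inn q i))), ⟨rfl, hxy⟩, hmem⟩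
    · exact Or.inl ⟨(some (Sum.inr (j, root i)) : Option (Fin 25 ⊕ (Fin 27 × Inn q i))),
        (some (Sum.inl (Sa j)) : Option (Fin 25 ⊕ (Fin 27 × Inn q i))), ⟨rfl, Or.inl rfl⟩, hmem⟩
    · exact Or.inl ⟨(some (Sum.inr (j, root i)) : Option (Fin 25 ⊕ (Fin 27 × Inn q i))),
        (some (Sum.inl (Sb j)) : Option (Fin 25 ⊕ (Fin 27 × Inn q i))), ⟨rfl, Or.inr (Or.inl rfl)⟩, hmem⟩
    · exact Or.inl ⟨(some (Sum.inr (j, root i)) : Option (Fin 25 ⊕ (Fin 27 × Inn q i))),
        (some (Sum.inl (Sc j)) : Option (Fin 25 ⊕ (Fin 27 × Inn q i))), ⟨rfl, Or.inr (Or.inr rfl)⟩, hmem⟩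
  -- a triangle of F is in a special face or disjoint from it
  have hdich : ∀ t ∈ F, ∀ j, ∀ x ∈ tri t, x ∈ Tj g j → tri t ⊆ Tj g j := by
    intro t ht j x hx hxT y hy
    obtain ⟨h1, h2, h3⟩ := hxT
    exact ⟨sign_const (hFline t ht _ (mem_ls (GA_ab j))) hx hy h1,
      sign_const (hFline t ht _ (mem_ls (GA_bc j))) hx hy h2,
      sign_const (hFline t ht _ (mem_ls (GA_ca j))) hx hy h3⟩
  let F1 : List T3 := F.filter (fun t => decide (∀ j, Disjoint (tri t) (Tj g j)))
  let F2 : List T3 := (List.finRange 27).flatMap Fj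
  have hF1 : ∀ t ∈ F1, t ∈ F ∧ ∀ j, Disjoint (tri t) (Tj g j) := by
    intro t ht
    have := List.mem_filter.1 ht
    exact ⟨this.1, by simpa using this.2⟩
  have hF2 : ∀ t ∈ F2, ∃ j, t ∈ Fj j := by
    intro t ht
    obtain ⟨j, -, hj⟩ := List.mem_flatMap.1 ht
    exact ⟨j, hj⟩
  refine ⟨F1 ++ F2, ⟨?_, ?_, ?_, ?_, ?_, ?_⟩⟩
  · -- length
    rw [List.length_append]
    have h1 : F1.length ≤ bc := le_trans (List.length_filter_le _ _) hFlen
    have h2 : F2.length ≤ 27 * b := by
      change ((List.finRange 27).flatMap Fj).length ≤ 27 * b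
      rw [List.length_flatMap]
      calc ((List.finRange 27).map (fun a => (Fj a).length)).sum
          ≤ ((List.finRange 27).map (fun a => (Fj a).length)).length • b :=
            List.sum_le_card_nsmul _ _ (by
              intro x hx
              obtain ⟨j, -, rfl⟩ := List.mem_map.1 hx
              exact (hFj j).len)
        _ = 27 * b := by simp
    omega
  · intro t ht
    rcases List.mem_append.1 ht with ht | ht
    · exact hFpos t (hF1 t ht).1
    · obtain ⟨j, hj⟩ := hF2 t ht
      exact (hFj j).pos t hj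
  · intro t ht
    rcases List.mem_append.1 ht with ht | ht
    · exact hFsub t (hF1 t ht).1
    · obtain ⟨j, hj⟩ := hF2 t ht
      exact ((hFj j).sub t hj).trans (hTsub j)
  · rw [List.pairwise_append]
    refine ⟨List.Pairwise.filter _ hFdis, ?_, ?_⟩
    · change List.Pairwise _ ((List.finRange 27).flatMap Fj)
      rw [List.pairwise_flatMap]
      refine ⟨fun j _ => (hFj j).dis, ?_⟩
      refine List.Pairwise.imp ?_ (List.nodup_finRange 27)
      intro j j' hjj s hs t ht
      exact (H.ok.fac j j' hjj).mono ((hFj j).sub s hs) ((hFj j').sub t ht)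
    · intro s hs t ht
      obtain ⟨j, hj⟩ := hF2 t ht
      exact ((hF1 s hs).2 j).mono_right ((hFj j).sub t hj)
  · -- disjoint from the drawn set
    intro t ht
    rw [Set.disjoint_left]
    intro x hxt hxX
    rcases List.mem_append.1 ht with ht | ht
    · obtain ⟨htF, htT⟩ := hF1 t ht
      rcases hX x hxX with ⟨u, v, huv, hm⟩ | (hm | hm | hm | hm) | ⟨j, ⟨y, z, hyz, hm⟩ | ⟨u, hu, hm⟩⟩
      · exact hseg t htF _ (mem_ls huv) x hm hxt
      · exact hseg t htF (k, g 0) (by simp [ls]) x hm hxt
      · exact hseg t htF (k, A) (by simp [ls]) x hm hxt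
      · exact hseg t htF (k, B) (by simp [ls]) x hm hxt
      · exact hseg t htF (k, C) (by simp [ls]) x hm hxt
      · exact Set.disjoint_left.1 (htT j) hxt (hcopseg j y z x hm)
      · rcases hcorseg j u hu x hm with h1 | h1
        · rw [h1] at hxt
          exact hgseg t htF u hxt
        · exact Set.disjoint_left.1 (htT j) hxt h1
    · obtain ⟨j, hj⟩ := hF2 t ht
      have hxT : x ∈ Tj g j := (hFj j).sub t hj hxt
      have hoff := Set.disjoint_left.1 ((hFj j).off t hj) hxt
      rcases hX x hxX with ⟨u, v, huv, hm⟩ | (hm | hm | hm | hm) | ⟨j', ⟨y, z, hyz, hm⟩ | ⟨u, hu, hm⟩⟩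
      · exact Set.disjoint_left.1 (H.ok.edg j u v huv) hxT hm
      · have h0 : 0 ≤ D (g 0) (g 1) x := D_nonneg_of_Tri hxT (H.ok.out _) (H.ok.out _) (H.ok.out _)
        obtain ⟨s, hs0, hs1, hxs⟩ := mem_seg.1 hm
        rw [hxs, D_line, D_aba, mul_zero, add_zero] at h0
        have hneg := H.neg
        have h1 : 1 - s = 0 := by
          by_contra hs
          have h2 : 0 < 1 - s := lt_of_le_of_ne (by linarith) (Ne.symm hs)
          have := mul_neg_of_pos_of_neg h2 hneg
          linarith
        have hs' : s = 1 := by linarith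
        rw [hs'] at hxs
        simp only [sub_self, zero_smul, one_smul, zero_add] at hxs
        rw [hxs] at hxT
        exact hgT j 0 hxT
      · exact seg_side_disj_a hm (hTsubk j hxT)
      · exact seg_side_disj_b hm (hTsubk j hxT)
      · exact seg_corner_disj H.hk hm (hTsubk j hxT)
      · by_cases hjj : j = j'
        · subst hjj
          exact hoff (Or.inl ⟨y, z, hyz, hm⟩)
        · exact Set.disjoint_left.1 (H.ok.fac j j' hjj) hxT (hcopseg j' y z x hm)
      · by_cases hjj : j = j'
        · subst hjj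
          rw [segment_symm] at hm
          rcases hu with rfl | rfl | rfl
          · exact hoff (Or.inr (Or.inl hm))
          · exact hoff (Or.inr (Or.inr (Or.inl hm)))
          · exact hoff (Or.inr (Or.inr (Or.inr hm)))
        · rcases hcorseg j' u hu x hm with h1 | h1
          · rw [h1] at hxT
            exact hgT j u hxT
          · exact Set.disjoint_left.1 (H.ok.fac j j' hjj) hxT h1
  · -- covering
    let X := DSet q (i + 1) A B C (comb k g fj)
    have hsub : P.filter (fun p => p ∉ DSet q (i + 1) A B C (comb k g fj) ∧ ∀ t ∈ F1 ++ F2, p ∉ tri t) ⊆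
        P.filter (fun p => p ∈ Tri A B C ∧ ∀ t ∈ F, p ∉ tri t) ∪
        Finset.univ.biUnion (fun j : Fin 27 => (P.filter (fun p => p ∈ Tj g j)).filter
          (fun p => p ∉ DSet q i (g (Sa j)) (g (Sb j)) (g (Sc j)) (fj j) ∧ ∀ t ∈ Fj j, p ∉ tri t)) := by
      intro p hp
      rw [Finset.mem_filter] at hp
      obtain ⟨hpP, hpX, hpt⟩ := hp
      rw [Finset.mem_union]
      by_cases hj : ∃ j, p ∈ Tj g j
      · obtain ⟨j, hj⟩ := hj
        right
        rw [Finset.mem_biUnion]
        refine ⟨j, Finset.mem_univ _, ?_⟩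
        rw [Finset.mem_filter, Finset.mem_filter]
        refine ⟨⟨hpP, hj⟩, fun hm => hpX (hDX j p hm), ?_⟩
        intro t ht
        apply hpt
        apply List.mem_append_right
        exact List.mem_flatMap.2 ⟨j, List.mem_finRange j, ht⟩
      · push Not at hj
        left
        rw [Finset.mem_filter]
        refine ⟨hpP, H.hP p hpP, ?_⟩
        intro t ht hpt'
        apply hpt t _ hpt'
        apply List.mem_append_left
        refine List.mem_filter.2 ⟨ht, ?_⟩
        rw [decide_eq_true_eq]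
        intro j
        rw [Set.disjoint_left]
        intro x hx hxT
        exact hj j (hdich t ht j x hx hxT hpt')
    have hc1 : (P.filter (fun p => p ∈ Tri A B C ∧ ∀ t ∈ F, p ∉ tri t)).card ≤ bc := by
      convert hFcov
    have hc2 : ∀ j : Fin 27, ((P.filter (fun p => p ∈ Tj g j)).filter
          (fun p => p ∉ DSet q i (g (Sa j)) (g (Sb j)) (g (Sc j)) (fj j) ∧ ∀ t ∈ Fj j, p ∉ tri t)).card ≤ b := by
      intro j
      have := (hFj j).cov
      convert this
    have hc3 : (Finset.univ.biUnion (fun j : Fin 27 => (P.filter (fun p => p ∈ Tj g j)).filter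
          (fun p => p ∉ DSet q i (g (Sa j)) (g (Sb j)) (g (Sc j)) (fj j) ∧ ∀ t ∈ Fj j, p ∉ tri t))).card
          ≤ 27 * b := by
      refine le_trans Finset.card_biUnion_le ?_
      refine le_trans (Finset.sum_le_card_nsmul _ _ b (fun j _ => hc2 j)) ?_
      simp
    have hc4 := Finset.card_le_card hsub
    have hc5 := Finset.card_union_le (P.filter (fun p => p ∈ Tri A B C ∧ ∀ t ∈ F, p ∉ tri t))
      (Finset.univ.biUnion (fun j : Fin 27 => (P.filter (fun p => p ∈ Tj g j)).filter
          (fun p => p ∉ DSet q i (g (Sa j)) (g (Sb j)) (g (Sc j)) (fj j) ∧ ∀ t ∈ Fj j, p ∉ tri t)))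
    have hc6 : (P.filter (fun p => p ∉ DSet q (i + 1) A B C (comb k g fj) ∧
        ∀ t ∈ F1 ++ F2, p ∉ tri t)).card ≤ bc + 27 * b := by omega
    convert hc6

end MFS
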