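import Mathlib
import Pool.Agent.MFS.Defs

set_option autoImplicit false

namespace MFS.Sup

open Finset Function

/-- Many good tuples: if every injection of `Fin K` contains a good `L`-tuple, then a positive
proportion of all `L`-tuples is good. -/
theorem count_good {β : Type*} [Fintype β] (K L : ℕ) (Good : (Fin L → β) → Prop)
    [DecidablePred Good]
    (hK : 2 * K ≤ Fintype.card β) (hpos : 0 < Fintype.card β)
    (h : ∀ φ : Fin K → β, Injective φ → ∃ e : Fin L → Fin K, Injective e ∧ Good (φ ∘ e)) :
    Fintype.card β ^ L ≤ 2 ^ K * K ^ L * (univ.filter Good).card := by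
  classical
  set N := Fintype.card β with hN
  -- number of embeddings
  have h1 : N ^ K ≤ 2 ^ K * Fintype.card (Fin K ↪ β) := by
    rw [Fintype.card_embedding_eq, Fintype.card_fin, ← hN]
    calc N ^ K ≤ (2 * (N + 1 - K)) ^ K := Nat.pow_le_pow_left (by omega) K
      _ = 2 ^ K * (N + 1 - K) ^ K := mul_pow _ _ _
      _ ≤ 2 ^ K * N.descFactorial K := Nat.mul_le_mul_left _ (Nat.pow_sub_le_descFactorial N K)
  -- each embedding gives an index map
  have hex : ∀ φ : Fin K ↪ β, ∃ e : Fin L → Fin K, Injective e ∧ Good (φ ∘ e) :=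
    fun φ => h φ φ.injective
  choose e he hg using hex
  -- there is an embedding
  have hemb : ∃ φ : Fin K ↪ β, True := by
    have : K ≤ Fintype.card β := by omega
    have : Nonempty (Fin K ↪ β) := by
      rw [Embedding.nonempty_iff_card_le, Fintype.card_fin]; omega
    exact ⟨this.some, trivial⟩
  have hLK : L ≤ K := by
    obtain ⟨φ, -⟩ := hemb
    simpa using Fintype.card_le_of_injective _ (he φ)
  -- count by index maps
  have h2 : Fintype.card (Fin K ↪ β) ≤ K ^ L * ((univ.filter Good).card * N ^ (K - L)) := by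
    have hc : Fintype.card (Fin K ↪ β) ≤
        ∑ u : Fin L → Fin K, (univ.filter (fun φ : Fin K ↪ β => e φ = u)).card := by
      rw [← Finset.card_eq_sum_card_fiberwise (s := (univ : Finset (Fin K ↪ β))) (t := univ)
        (f := e) (by intro x _; simp)]
      simp
    refine hc.trans ?_
    have hfib : ∀ u : Fin L → Fin K,
        (univ.filter (fun φ : Fin K ↪ β => e φ = u)).card ≤
          (univ.filter Good).card * N ^ (K - L) := by
      intro u
      by_cases hu : Injective u
      · have hcard : Fintype.card {i : Fin K // i ∉ Set.range u} = K - L := by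
          rw [Fintype.card_subtype_compl (fun i => i ∈ Set.range u)]
          have : Fintype.card {i : Fin K // i ∈ Set.range u} = L := by
            have h9 := Fintype.card_congr (Equiv.ofInjective u hu)
            rw [Fintype.card_fin] at h9
            exact h9.symm
          rw [this, Fintype.card_fin]
        have hinj : Set.InjOn (fun φ : Fin K ↪ β =>
            ((φ ∘ u : Fin L → β), (fun i : {i : Fin K // i ∉ Set.range u} => φ i.1)))
            (univ.filter (fun φ : Fin K ↪ β => e φ = u) : Finset (Fin K ↪ β)) := by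
          intro φ _ ψ _ hφψ
          simp only [Prod.mk.injEq] at hφψ
          obtain ⟨ha, hb⟩ := hφψ
          ext i
          by_cases hi : i ∈ Set.range u
          · obtain ⟨j, rfl⟩ := hi
            exact congrFun ha j
          · exact congrFun hb ⟨i, hi⟩
        have hle := Finset.card_le_card_of_injOn (s := univ.filter (fun φ : Fin K ↪ β => e φ = u))
          (t := (univ.filter Good) ×ˢ
            (univ : Finset ({i : Fin K // i ∉ Set.range u} → β)))
          (fun φ : Fin K ↪ β =>
            ((φ ∘ u : Fin L → β), (fun i : {i : Fin K // i ∉ Set.range u} => φ i.1)))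
          (by
            intro φ hφ
            simp only [coe_filter, mem_univ, true_and, Set.mem_ofPred_eq] at hφ
            simp only [coe_product, coe_filter, mem_univ, true_and, coe_univ, Set.mem_prod,
              Set.mem_ofPred_eq, Set.mem_univ, and_true]
            rw [← hφ]; exact hg φ) hinj
        rw [card_product, card_univ, Fintype.card_fun, hcard] at hle
        exact hle
      · have : (univ.filter (fun φ : Fin K ↪ β => e φ = u)) = ∅ := by
          rw [filter_eq_empty_iff]
          intro φ _ hφ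
          exact hu (hφ ▸ he φ)
        rw [this]; simp
    calc ∑ u : Fin L → Fin K, (univ.filter (fun φ : Fin K ↪ β => e φ = u)).card
        ≤ ∑ _u : Fin L → Fin K, (univ.filter Good).card * N ^ (K - L) :=
          Finset.sum_le_sum (fun u _ => hfib u)
      _ = K ^ L * ((univ.filter Good).card * N ^ (K - L)) := by
          rw [Finset.sum_const, card_univ, Fintype.card_fun, Fintype.card_fin, Fintype.card_fin,
            smul_eq_mul]
  -- combine
  have h3 : N ^ L * N ^ (K - L) ≤ (2 ^ K * K ^ L * (univ.filter Good).card) * N ^ (K - L) := by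
    rw [← pow_add, Nat.add_sub_cancel' hLK]
    calc N ^ K ≤ 2 ^ K * Fintype.card (Fin K ↪ β) := h1
      _ ≤ 2 ^ K * (K ^ L * ((univ.filter Good).card * N ^ (K - L))) := Nat.mul_le_mul_left _ h2
      _ = _ := by ring
  exact Nat.le_of_mul_le_mul_right h3 (Nat.pow_pos (by omega))

/-- Supersaturation, type form. -/
theorem supersat_type {β : Type*} [Fintype β] (K L : ℕ) (Good : (Fin L → β) → Prop)
    (C : Finset (Fin L)) (hK : 2 * K ≤ Fintype.card β) (hpos : 0 < Fintype.card β)
    (h : ∀ φ : Fin K → β, Injective φ → ∃ e : Fin L → Fin K, Injective e ∧ Good (φ ∘ e)) :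
    ∃ ρ : Fin L → β, (∃ g : Fin L → β, Good g ∧ ∀ i, i ∉ C → g i = ρ i) ∧
      ∀ l ∈ C, ∃ Q : Finset β, Fintype.card β ≤ 2 ^ K * K ^ L * Q.card ∧
      ∀ q ∈ Q, ∃ g : Fin L → β, Good g ∧ (∀ i, i ∉ C → g i = ρ i) ∧ g l = q := by
  classical
  set N := Fintype.card β with hN
  have hcount := count_good K L Good hK hpos h
  rw [← hN] at hcount
  set W := 2 ^ K * K ^ L with hW
  have hb : Nonempty β := Fintype.card_pos_iff.mp hpos
  -- the references
  let R : (Fin L → β) → ({i : Fin L // i ∉ C} → β) := fun g i => g i.1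
  have hcardR : Fintype.card {i : Fin L // i ∉ C} = L - C.card := by
    rw [Fintype.card_subtype_compl (fun i => i ∈ C)]
    simp
  have hCL : C.card ≤ L := by simpa using Finset.card_le_univ C
  -- choose the best reference
  obtain ⟨r, hr⟩ : ∃ r : {i : Fin L // i ∉ C} → β,
      (univ.filter Good).card ≤
        N ^ (L - C.card) * ((univ.filter Good).filter (fun g => R g = r)).card := by
    by_contra hcon
    push Not at hcon
    have hs : (univ.filter Good).card =
        ∑ r : {i : Fin L // i ∉ C} → β, ((univ.filter Good).filter (fun g => R g = r)).card :=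
      Finset.card_eq_sum_card_fiberwise (by intro x _; simp)
    have hn : Fintype.card ({i : Fin L // i ∉ C} → β) = N ^ (L - C.card) := by
      rw [Fintype.card_fun, hcardR]
    have hlt : ∑ r : {i : Fin L // i ∉ C} → β,
        N ^ (L - C.card) * ((univ.filter Good).filter (fun g => R g = r)).card <
        ∑ _r : {i : Fin L // i ∉ C} → β, (univ.filter Good).card :=
      Finset.sum_lt_sum_of_nonempty (univ_nonempty) (fun r _ => hcon r)
    rw [← Finset.mul_sum, ← hs, Finset.sum_const, card_univ, hn, smul_eq_mul] at hlt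
    exact lt_irrefl _ hlt
  set F := (univ.filter Good).filter (fun g => R g = r) with hF
  -- N ^ card C ≤ W * card F
  have hNF : N ^ C.card ≤ W * F.card := by
    have : N ^ C.card * N ^ (L - C.card) ≤ (W * F.card) * N ^ (L - C.card) := by
      rw [← pow_add, Nat.add_sub_cancel' hCL]
      calc N ^ L ≤ W * (univ.filter Good).card := hcount
        _ ≤ W * (N ^ (L - C.card) * F.card) := Nat.mul_le_mul_left _ hr
        _ = _ := by ring
    exact Nat.le_of_mul_le_mul_right this (Nat.pow_pos (by omega))
  refine ⟨fun i => if hi : i ∈ C then hb.some else r ⟨i, hi⟩, ?_, fun l hl => ?_⟩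
  · have hFpos : 0 < F.card := by
      rcases Nat.eq_zero_or_pos F.card with h0 | h0
      · rw [h0, Nat.mul_zero] at hNF
        exact absurd hNF (Nat.not_le.mpr (Nat.pow_pos hpos))
      · exact h0
    obtain ⟨g, hg⟩ := Finset.card_pos.mp hFpos
    have hg1 := mem_filter.mp hg
    refine ⟨g, (mem_filter.mp hg1.1).2, fun i hi => ?_⟩
    have h8 := congrFun hg1.2 ⟨i, hi⟩
    simp only [hi, dif_neg, not_false_eq_true]
    exact h8
  refine ⟨F.image (fun g => g l), ?_, ?_⟩
  · -- F injects into Q × (values on C \ {l})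
    have hcl : Fintype.card {i : Fin L // i ∈ C ∧ i ≠ l} = C.card - 1 := by
      rw [Fintype.card_subtype]
      rw [← Finset.card_erase_of_mem hl]
      congr 1
      ext i
      simp only [mem_filter, mem_univ, true_and, mem_erase]
      tauto
    have hle : F.card ≤ (F.image (fun g => g l)).card * N ^ (C.card - 1) := by
      have := Finset.card_le_card_of_injOn (s := F)
        (t := (F.image (fun g => g l)) ×ˢ (univ : Finset ({i : Fin L // i ∈ C ∧ i ≠ l} → β)))
        (fun g => (g l, fun i => g i.1))
        (by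
          intro g hg
          simp only [coe_product, coe_image, coe_univ, Set.mem_prod, Set.mem_univ, and_true]
          exact ⟨g, hg, rfl⟩)
        (by
          intro g hg g' hg' hgg
          simp only [Prod.mk.injEq] at hgg
          obtain ⟨ha, hb'⟩ := hgg
          have hg2 : R g = r := (mem_filter.mp (Finset.mem_coe.mp hg)).2
          have hg2' : R g' = r := (mem_filter.mp (Finset.mem_coe.mp hg')).2
          funext i
          by_cases hi : i ∈ C
          · by_cases hil : i = l
            · rw [hil]; exact ha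
            · exact congrFun hb' ⟨i, hi, hil⟩
          · have h1 := congrFun hg2 ⟨i, hi⟩
            have h2 := congrFun hg2' ⟨i, hi⟩
            exact h1.trans h2.symm)
      rw [card_product, card_univ, Fintype.card_fun, hcl] at this
      exact this
    have hC1 : 1 ≤ C.card := Finset.card_pos.mpr ⟨l, hl⟩
    have : N * N ^ (C.card - 1) ≤ (W * (F.image (fun g => g l)).card) * N ^ (C.card - 1) := by
      rw [← pow_succ', Nat.sub_add_cancel hC1]
      calc N ^ C.card ≤ W * F.card := hNF
        _ ≤ W * ((F.image (fun g => g l)).card * N ^ (C.card - 1)) := Nat.mul_le_mul_left _ hle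
        _ = _ := by ring
    exact Nat.le_of_mul_le_mul_right this (Nat.pow_pos (by omega))
  · intro q hq
    obtain ⟨g, hg, rfl⟩ := mem_image.mp hq
    have hg1 := mem_filter.mp hg
    refine ⟨g, (mem_filter.mp hg1.1).2, fun i hi => ?_, rfl⟩
    have h8 := congrFun hg1.2 ⟨i, hi⟩
    simp only [hi, dif_neg, not_false_eq_true]
    exact h8

/-- Supersaturation (section 4(b)): if every injection `Fin K → P` contains a good `L`-tuple, then
for suitable reference points (indices outside `C`) every cluster index `l ∈ C` has at least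
`|P| / (2^K K^L)` completions. -/
theorem supersat {α : Type*} (P : Finset α) (K L : ℕ) (Good : (Fin L → α) → Prop)
    (C : Finset (Fin L)) (hK : 2 * K ≤ P.card) (hP : P.Nonempty)
    (h : ∀ φ : Fin K → α, Injective φ → (∀ i, φ i ∈ P) →
      ∃ e : Fin L → Fin K, Injective e ∧ Good (φ ∘ e)) :
    ∃ ρ : Fin L → α, (∀ i, ρ i ∈ P) ∧ (∃ g : Fin L → α, Good g ∧ ∀ i, i ∉ C → g i = ρ i) ∧
      ∀ l ∈ C, ∃ Q : Finset α, Q ⊆ P ∧
      P.card ≤ 2 ^ K * K ^ L * Q.card ∧
      ∀ q ∈ Q, ∃ g : Fin L → α, Good g ∧ (∀ i, g i ∈ P) ∧ (∀ i, i ∉ C → g i = ρ i) ∧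
        g l = q := by
  classical
  have hcard : Fintype.card P = P.card := Fintype.card_coe P
  obtain ⟨ρ, ⟨g0, hg0, hg0'⟩, hρ⟩ := supersat_type (β := P) K L (fun g => Good (fun i => (g i : α))) C
    (by rw [hcard]; exact hK) (by rw [hcard]; exact hP.card_pos)
    (by
      intro φ hφ
      obtain ⟨e, he, hg⟩ := h (fun i => (φ i : α)) (fun a b hab => hφ (Subtype.ext hab))
        (fun i => (φ i).2)
      exact ⟨e, he, hg⟩)
  refine ⟨fun i => (ρ i : α), fun i => (ρ i).2,
    ⟨fun i => (g0 i : α), hg0, fun i hi => congrArg Subtype.val (hg0' i hi)⟩, fun l hl => ?_⟩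
  obtain ⟨Q, hQ, hq⟩ := hρ l hl
  refine ⟨Q.map (Function.Embedding.subtype _), ?_, ?_, ?_⟩
  · intro x hx
    obtain ⟨y, _, rfl⟩ := mem_map.mp hx
    exact y.2
  · rw [card_map, ← hcard]; exact hQ
  · intro q hq'
    obtain ⟨y, hy, rfl⟩ := mem_map.mp hq'
    obtain ⟨g, hg, hi, hl'⟩ := hq y hy
    exact ⟨fun i => (g i : α), hg, fun i => (g i).2, fun i hi' => congrArg Subtype.val (hi i hi'),
      congrArg Subtype.val hl'⟩

end MFS.Sup

namespace MFS

theorem supLemma : SupLemma := by
  classical
  intro a b K
  refine ⟨2 ^ K * K ^ (a + b), 2 * K + 1, fun P G hn h => ?_⟩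
  let E := (finSumFinEquiv : Fin a ⊕ Fin b ≃ Fin (a + b))
  have hPne : P.Nonempty := Finset.card_pos.mp (by omega)
  obtain ⟨ρ, hρ, ⟨g0, hg0, hg0'⟩, hl⟩ := Sup.supersat P K (a + b)
    (fun g => G (fun i => g (E (Sum.inl i))) (fun i => g (E (Sum.inr i))))
    (Finset.univ.image (fun i : Fin b => E (Sum.inr i))) (by omega) hPne
    (by
      intro φ hφ hφP
      obtain ⟨ρ, κ, hinj, hG⟩ := h φ hφ hφP
      refine ⟨(Sum.elim ρ κ) ∘ E.symm, hinj.comp E.symm.injective, ?_⟩
      simpa [Function.comp_def] using hG)
  have hnot : ∀ i : Fin a, E (Sum.inl i) ∉ Finset.univ.image (fun i : Fin b => E (Sum.inr i)) := by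
    intro i hi
    obtain ⟨j, _, hj⟩ := Finset.mem_image.mp hi
    exact Sum.inr_ne_inl (E.injective hj)
  refine ⟨fun i => ρ (E (Sum.inl i)), fun i => hρ _,
    ⟨fun i => g0 (E (Sum.inr i)), ?_⟩, fun l => ?_⟩
  · have : (fun i => ρ (E (Sum.inl i))) = fun i => g0 (E (Sum.inl i)) := by
      funext i; exact (hg0' _ (hnot i)).symm
    rw [this]; exact hg0
  · obtain ⟨Q, hQP, hQc, hQ⟩ := hl (E (Sum.inr l)) (Finset.mem_image.mpr ⟨l, Finset.mem_univ _, rfl⟩)
    refine ⟨Q, hQP, fun p hp => ?_, hQc⟩
    obtain ⟨g, hg, _, hgi, hgl⟩ := hQ p hp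
    refine ⟨fun i => g (E (Sum.inr i)), ?_, hgl⟩
    have : (fun i => ρ (E (Sum.inl i))) = fun i => g (E (Sum.inl i)) := by
      funext i; exact (hgi _ (hnot i)).symm
    rw [this]; exact hg

end MFS
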