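import Pool.Agent.MFS.Defs

/-! MFS/UBase: universality of the star gadgets (depth 0). -/

set_option autoImplicit false

namespace MFS

namespace UBase

theorem D_seg {a b x : Pt} (c : Pt) (hx : x ∈ segment ℝ a b) :
    ∃ β : ℝ, 0 ≤ β ∧ D a c x = β * D a c b ∧ D c a x = β * D c a b := by
  obtain ⟨α, β, hα, hβ, hab, rfl⟩ := hx
  refine ⟨β, hβ, ?_, ?_⟩
  · simp only [D, Prod.fst_add, Prod.snd_add, Prod.smul_fst, Prod.smul_snd, smul_eq_mul]
    have h : α = 1 - β := by linarith
    subst h; ring
  · simp only [D, Prod.fst_add, Prod.snd_add, Prod.smul_fst, Prod.smul_snd, smul_eq_mul]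
    have h : α = 1 - β := by linarith
    subst h; ring

theorem D_seg_zero {a b x : Pt} (hx : x ∈ segment ℝ a b) : D a b x = 0 := by
  obtain ⟨β, -, h, -⟩ := D_seg b hx
  have h0 : D a b b = 0 := by simp only [D]; ring
  rw [h, h0, mul_zero]

theorem pos_left {a b : ℝ} (h : 0 < a * b) (hb : 0 ≤ b) : 0 < a := by
  by_contra hn
  push Not at hn
  have := mul_nonpos_of_nonpos_of_nonneg hn hb
  linarith

theorem first (P : Finset Pt) (r : Pt → ℝ) (hr : ∀ p ∈ P, ∀ p' ∈ P, p ≠ p' → r p ≠ r p') :
    ∀ q, q ≤ P.card → ∃ Q ⊆ P, Q.card = q ∧ ∀ a ∈ Q, ∀ b ∈ P, b ∉ Q → r a < r b := by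
  classical
  intro q
  induction q with
  | zero => exact fun _ => ⟨∅, by simp, by simp, by simp⟩
  | succ q ih =>
    intro hq
    obtain ⟨Q, hQ, hc, hl⟩ := ih (by omega)
    have hne : (P \ Q).Nonempty := by
      rw [← Finset.card_pos, Finset.card_sdiff_of_subset hQ]; omega
    obtain ⟨m, hm, hmin⟩ := Finset.exists_min_image (P \ Q) r hne
    rw [Finset.mem_sdiff] at hm
    refine ⟨insert m Q, ?_, ?_, ?_⟩
    · intro x hx
      rcases Finset.mem_insert.1 hx with rfl | hx
      · exact hm.1
      · exact hQ hx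
    · rw [Finset.card_insert_of_notMem hm.2, hc]
    · intro a ha b hb hbn
      have hbm : b ≠ m := fun h => hbn (by rw [h]; exact Finset.mem_insert_self _ _)
      have hbQ : b ∉ Q := fun h => hbn (Finset.mem_insert_of_mem h)
      rcases Finset.mem_insert.1 ha with rfl | ha
      · exact lt_of_le_of_ne (hmin b (Finset.mem_sdiff.2 ⟨hb, hbQ⟩)) (hr _ hm.1 _ hb (Ne.symm hbm))
      · exact hl a ha b hb hbQ

end UBase

open UBase in
theorem univ_zero (h : RootSel) : Univ 0 := by
  classical
  refine ⟨1, 1, ?_⟩
  intro q hq A B C hD P hGP hP hcard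
  obtain ⟨k, hk, hkP, -, hgen⟩ := h A B C hD P hP B A (by
    have : D B A C = - D A B C := by simp only [D]; ring
    rw [this]; linarith) P.offDiag (fun s hs => (Finset.mem_offDiag.1 hs).2.2)
  have hgen' : ∀ p ∈ P, ∀ p' ∈ P, p ≠ p' → D p p' k ≠ 0 := fun p hp p' hp' hne =>
    hgen (p, p') (Finset.mem_offDiag.2 ⟨hp, hp', hne⟩)
  obtain ⟨hk1, hk2, hk3⟩ := hk
  -- the order
  let r : Pt → ℝ := fun p => D k A p / D B k p
  have hrel : ∀ p ∈ P, ∀ p' ∈ P, D k p p' * D A B k = D B k p * D k A p' - D k A p * D B k p' := by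
    intro p _ p' _
    simp only [D]; ring
  have hABk : 0 < D A B k := hk1
  have hrinj : ∀ p ∈ P, ∀ p' ∈ P, p ≠ p' → r p ≠ r p' := by
    intro p hp p' hp' hne heq
    obtain ⟨h1, h2, h3⟩ := hkP p hp
    obtain ⟨h1', h2', h3'⟩ := hkP p' hp'
    change D k A p / D B k p = D k A p' / D B k p' at heq
    rw [div_eq_div_iff (ne_of_gt h2) (ne_of_gt h2')] at heq
    have := hrel p hp p' hp'
    have h0 : D k p p' * D A B k = 0 := by rw [this]; linarith
    rcases mul_eq_zero.1 h0 with h0 | h0
    · apply hgen' p hp p' hp' hne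
      have : D p p' k = D k p p' := by simp only [D]; ring
      rw [this, h0]
    · exact absurd h0 (ne_of_gt hABk)
  obtain ⟨Q, hQ, hQc, hQl⟩ := first P r hrinj q (by omega)
  obtain ⟨τ, hτ1, hτ2⟩ := Order.exists_between_finsets (Q.image r) ((P \ Q).image r) (by
    intro x hx y hy
    obtain ⟨a, ha, rfl⟩ := Finset.mem_image.1 hx
    obtain ⟨b, hb, rfl⟩ := Finset.mem_image.1 hy
    rw [Finset.mem_sdiff] at hb
    exact hQl a ha b hb.1 hb.2)
  have hτ1' : ∀ p ∈ Q, D k A p < τ * D B k p := by
    intro p hp
    have h1 := hτ1 (r p) (Finset.mem_image_of_mem r hp)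
    obtain ⟨-, h2, -⟩ := hkP p (hQ hp)
    exact (div_lt_iff₀ h2).1 h1
  have hτ2' : ∀ p ∈ P, p ∉ Q → τ * D B k p < D k A p := by
    intro p hp hpQ
    have h1 := hτ2 (r p) (Finset.mem_image_of_mem r (Finset.mem_sdiff.2 ⟨hp, hpQ⟩))
    obtain ⟨-, h2, -⟩ := hkP p hp
    exact (lt_div_iff₀ h2).1 h1
  have hτ : 0 < τ := by
    have hQne : Q.Nonempty := by rw [← Finset.card_pos]; omega
    obtain ⟨p, hp⟩ := hQne
    have h1 := hτ1' p hp
    obtain ⟨-, h2, h3⟩ := hkP p (hQ hp)
    by_contra hneg
    push Not at hneg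
    have : τ * D B k p ≤ 0 := mul_nonpos_of_nonpos_of_nonneg hneg h2.le
    linarith
  have h1τ : (0 : ℝ) < 1 + τ := by linarith
  let E : Pt := ((A.1 + τ * B.1) / (1 + τ), (A.2 + τ * B.2) / (1 + τ))
  have hE1 : ∀ x : Pt, D k E x * (1 + τ) = D k A x - τ * D B k x := by
    intro x
    change (((A.1 + τ * B.1) / (1 + τ) - k.1) * (x.2 - k.2) -
      ((A.2 + τ * B.2) / (1 + τ) - k.2) * (x.1 - k.1)) * (1 + τ) = D k A x - τ * D B k x
    simp only [D]
    field_simp
    ring
  have hE2 : ∀ x : Pt, D E B x * (1 + τ) = D A B x := by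
    intro x
    change ((B.1 - (A.1 + τ * B.1) / (1 + τ)) * (x.2 - (A.2 + τ * B.2) / (1 + τ)) -
      (B.2 - (A.2 + τ * B.2) / (1 + τ)) * (x.1 - (A.1 + τ * B.1) / (1 + τ))) * (1 + τ) = D A B x
    simp only [D]
    field_simp
    ring
  -- the star
  let e : Q ≃ Fin q := Q.equivFinOfCardEq hQc
  let f : Option (Fin q) → Pt := fun x => match x with
    | none => k
    | some i => ((e.symm i : Q) : Pt)
  have hfn : f none = k := rfl
  have hfs : ∀ i, f (some i) = ((e.symm i : Q) : Pt) := fun i => rfl
  have hfQ : ∀ i, f (some i) ∈ Q := fun i => (e.symm i).2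
  have hfP : ∀ i, f (some i) ∈ P := fun i => hQ (hfQ i)
  have hQf : ∀ p ∈ Q, ∃ i, f (some i) = p := by
    intro p hp
    refine ⟨e ⟨p, hp⟩, ?_⟩
    rw [hfs]; simp
  have hsub : Tri A B k ⊆ Tri A B C := by
    intro x hx
    obtain ⟨h1, h2, h3⟩ := hx
    refine ⟨h1, ?_, ?_⟩
    · have : D B C x * D A B k = D A B x * D B C k + D B k x * D A B C := by
        simp only [D]; ring
      have h4 : 0 < D A B x * D B C k + D B k x * D A B C :=
        add_pos (mul_pos h1 hk2) (mul_pos h2 hD)
      rw [← this] at h4
      exact pos_left h4 hABk.le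
    · have : D C A x * D A B k = D A B x * D C A k + D k A x * D A B C := by
        simp only [D]; ring
      have h4 : 0 < D A B x * D C A k + D k A x * D A B C :=
        add_pos (mul_pos h1 hk3) (mul_pos h3 hD)
      rw [← this] at h4
      exact pos_left h4 hABk.le
  have hkK : ∀ p ∈ Tri A B k, ∀ K, (K = A ∨ K = B ∨ K = C) → p ∉ segment ℝ k K := by
    intro p hp K hK hmem
    obtain ⟨h1, h2, h3⟩ := hp
    rcases hK with rfl | rfl | rfl
    · rw [D_seg_zero hmem] at h3; exact lt_irrefl _ h3
    · obtain ⟨β, hβ, -, h5⟩ := D_seg K hmem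
      rw [h5] at h2
      have : D K k K = 0 := by simp only [D]; ring
      rw [this, mul_zero] at h2; exact lt_irrefl _ h2
    · obtain ⟨β, hβ, -, h5⟩ := D_seg B hmem
      rw [h5] at h2
      have h6 : D B k K = - D B K k := by simp only [D]; ring
      rw [h6] at h2
      have : β * -D B K k ≤ 0 := by
        have := mul_nonneg hβ hk2.le
        linarith
      linarith
  have hcol : ∀ p ∈ P, ∀ p' ∈ P, p' ∈ segment ℝ k p → p = p' := by
    intro p hp p' hp' hmem
    by_contra hne
    apply hgen' p hp p' hp' hne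
    have h0 := D_seg_zero hmem
    have : D p p' k = D k p p' := by simp only [D]; ring
    rw [this, h0]
  refine ⟨f, ⟨⟨?_, ?_, ?_⟩, ?_, ?_, ?_, ?_, ?_⟩, ?_⟩
  · -- injective
    intro x y hxy
    have hkne : ∀ i, f (some i) ≠ k := by
      intro i heq
      obtain ⟨-, -, h3⟩ := hkP _ (hfP i)
      rw [heq] at h3
      have : D k A k = 0 := by simp only [D]; ring
      rw [this] at h3; exact lt_irrefl _ h3
    match x, y, hxy with
    | none, none, _ => rfl
    | none, some j, hxy => exact absurd hxy.symm (hkne j)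
    | some i, none, hxy => exact absurd hxy (hkne i)
    | some i, some j, hxy =>
      have h1 : (e.symm i) = (e.symm j) := Subtype.ext hxy
      rw [e.symm.injective h1]
  · -- vertices
    intro u v w huv hwu hwv hmem
    change Adj0 q u v at huv
    match u, v, w, huv, hwu, hwv, hmem with
    | none, some i, none, _, hwu, _, _ => exact hwu rfl
    | none, some i, some j, _, _, hwv, hmem =>
      have := hcol _ (hfP i) _ (hfP j) hmem
      apply hwv
      have h1 : (e.symm i) = (e.symm j) := Subtype.ext this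
      rw [e.symm.injective h1]
    | some i, none, none, _, _, hwv, _ => exact hwv rfl
    | some i, none, some j, _, hwu, _, hmem =>
      rw [segment_symm] at hmem
      have := hcol _ (hfP i) _ (hfP j) hmem
      apply hwu
      have h1 : (e.symm i) = (e.symm j) := Subtype.ext this
      rw [e.symm.injective h1]
  · -- edges
    intro u v x y huv hxy h1 h2 h3 h4
    change Adj0 q u v at huv
    change Adj0 q x y at hxy
    match u, v, x, y, huv, hxy, h1, h2, h3, h4 with
    | none, some i, none, some j, _, _, h1, _, _, _ => exact absurd rfl h1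
    | none, some i, some j, none, _, _, _, h2, _, _ => exact absurd rfl h2
    | some i, none, none, some j, _, _, _, _, h3, _ => exact absurd rfl h3
    | some i, none, some j, none, _, _, _, _, _, h4 => exact absurd rfl h4
  · -- inside
    intro x
    match x with
    | none => exact ⟨hk1, hk2, hk3⟩
    | some i => exact hP _ (hfP i)
  · intro l
    exact hfP l
  · -- corners, vertices
    intro K hK x hx hmem
    match x, hx, hmem with
    | none, hx, _ => exact hx rfl
    | some i, _, hmem => exact hkK _ (hkP _ (hfP i)) K hK hmem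
  · -- corners, edges
    intro K hK x y hxy hx hy
    change Adj0 q x y at hxy
    match x, y, hxy, hx, hy with
    | none, some i, _, hx, _ => exact absurd rfl hx
    | some i, none, _, _, hy => exact absurd rfl hy
  · -- off
    intro p hp hmem
    rcases hmem with ⟨x, y, hxy, hmem⟩ | hmem | hmem | hmem
    · change Adj0 q x y at hxy
      match x, y, hxy, hmem with
      | none, some i, _, hmem => exact ⟨i, (hcol _ (hfP i) _ hp hmem).symm⟩
      | some i, none, _, hmem =>
        rw [segment_symm] at hmem
        exact ⟨i, (hcol _ (hfP i) _ hp hmem).symm⟩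
    · exact absurd hmem (hkK _ (hkP _ hp) A (Or.inl rfl))
    · exact absurd hmem (hkK _ (hkP _ hp) B (Or.inr (Or.inl rfl)))
    · exact absurd hmem (hkK _ (hkP _ hp) C (Or.inr (Or.inr rfl)))
  · -- leftover
    refine ⟨[(E, B, k)], ⟨?_, ?_, ?_, ?_, ?_, ?_⟩⟩
    · simp
    · intro t ht
      rw [List.mem_singleton] at ht
      subst ht
      change 0 < D E B k
      have h5 := hE2 k
      have h6 : 0 < D E B k * (1 + τ) := by rw [h5]; exact hABk
      exact pos_left h6 h1τ.le
    · intro t ht
      rw [List.mem_singleton] at ht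
      subst ht
      intro x hx
      apply hsub
      obtain ⟨h1, h2, h3⟩ := hx
      change 0 < D E B x at h1
      change 0 < D B k x at h2
      change 0 < D k E x at h3
      refine ⟨?_, h2, ?_⟩
      · rw [← hE2 x]; exact mul_pos h1 h1τ
      · have h5 := hE1 x
        have h6 := mul_pos h3 h1τ
        have h7 := mul_pos hτ h2
        linarith
    · exact List.pairwise_singleton _ _
    · intro t ht
      rw [List.mem_singleton] at ht
      subst ht
      rw [Set.disjoint_left]
      intro x hx hmem
      obtain ⟨h1, h2, h3⟩ := hx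
      change 0 < D E B x at h1
      change 0 < D B k x at h2
      change 0 < D k E x at h3
      have hedge : ∀ i, x ∉ segment ℝ k (f (some i)) := by
        intro i hm
        obtain ⟨β, hβ, h4, -⟩ := D_seg E hm
        rw [h4] at h3
        have h5 := hE1 (f (some i))
        have h6 := hτ1' _ (hfQ i)
        have h7 : D k E (f (some i)) < 0 := by
          have h8 : D k E (f (some i)) * (1 + τ) < 0 := by rw [h5]; linarith
          by_contra hn
          push Not at hn
          have := mul_nonneg hn h1τ.le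
          linarith
        have := mul_nonneg hβ (neg_nonneg.2 h7.le)
        linarith
      have htri : x ∈ Tri A B k := by
        refine ⟨?_, h2, ?_⟩
        · rw [← hE2 x]; exact mul_pos h1 h1τ
        · have h5 := hE1 x
          have h6 := mul_pos h3 h1τ
          have h7 := mul_pos hτ h2
          linarith
      rcases hmem with ⟨u, v, huv, hmem⟩ | hmem | hmem | hmem
      · change Adj0 q u v at huv
        match u, v, huv, hmem with
        | none, some i, _, hmem => exact hedge i hmem
        | some i, none, _, hmem =>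
          rw [segment_symm] at hmem
          exact hedge i hmem
      · exact hkK _ htri A (Or.inl rfl) hmem
      · exact hkK _ htri B (Or.inr (Or.inl rfl)) hmem
      · exact hkK _ htri C (Or.inr (Or.inr rfl)) hmem
    · have hempty : P.filter (fun p => p ∉ DSet q 0 A B C f ∧ ∀ t ∈ [(E, B, k)], p ∉ tri t) = ∅ := by
        rw [Finset.filter_eq_empty_iff]
        rintro p hp ⟨hpX, hpt⟩
        by_cases hpQ : p ∈ Q
        · obtain ⟨i, hi⟩ := hQf p hpQ
          apply hpX
          refine Or.inl ⟨none, some i, trivial, ?_⟩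
          rw [← hi]
          exact right_mem_segment ℝ _ _
        · apply hpt (E, B, k) (List.mem_singleton.2 rfl)
          obtain ⟨h1, h2, h3⟩ := hkP p hp
          have h4 := hτ2' p hp hpQ
          refine ⟨?_, h2, ?_⟩
          · change 0 < D E B p
            have h6 : 0 < D E B p * (1 + τ) := by rw [hE2]; exact h1
            exact pos_left h6 h1τ.le
          · change 0 < D k E p
            have h6 : 0 < D k E p * (1 + τ) := by rw [hE1]; linarith
            exact pos_left h6 h1τ.le
      refine le_trans (le_of_eq ?_) (Nat.zero_le 1)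
      rw [Finset.card_eq_zero]
      convert hempty

end MFS
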