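import Pool.Agent.MFS.Defs
import Pool.Agent.MFS.Geo

/-! Induction step of universality. -/

set_option autoImplicit false

namespace MFS

namespace US

theorem DSet_rot (q i : ℕ) (A B C : Pt) (f : Inn q i → Pt) : DSet q i A B C f = DSet q i B C A f := by
  ext p
  constructor
  · rintro (h | h | h | h)
    · exact Or.inl h
    · exact Or.inr (Or.inr (Or.inr h))
    · exact Or.inr (Or.inl h)
    · exact Or.inr (Or.inr (Or.inl h))
  · rintro (h | h | h | h)
    · exact Or.inl h
    · exact Or.inr (Or.inr (Or.inl h))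
    · exact Or.inr (Or.inr (Or.inr h))
    · exact Or.inr (Or.inl h)

theorem Placed_rot {q i : ℕ} {A B C : Pt} {P : Finset Pt} {f : Inn q i → Pt}
    (h : Placed q i A B C P f) : Placed q i B C A P f where
  drw := h.drw
  ins := fun x => by rw [← Tri_rot]; exact h.ins x
  leafP := h.leafP
  cor1 := fun K hK => h.cor1 K (by tauto)
  cor2 := fun K hK => h.cor2 K (by tauto)
  off := fun p hp hd => h.off p hp (by rw [DSet_rot]; exact hd)

/-- conclusion -/
def Concl (b q i : ℕ) (A B C : Pt) (P : Finset Pt) : Prop :=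
  ∃ f : Inn q i → Pt, Placed q i A B C P f ∧
      ∃ F : List T3, Left b P (Tri A B C) (DSet q i A B C f) F

theorem Concl_rot {b q i : ℕ} {A B C : Pt} {P : Finset Pt} (h : Concl b q i A B C P) :
    Concl b q i B C A P := by
  obtain ⟨f, hf, F, hF⟩ := h
  refine ⟨f, Placed_rot hf, F, ?_⟩
  rw [← Tri_rot, ← DSet_rot]
  exact hF

theorem corner {A B C g0 g1 : Pt} (hD : 0 < D A B C) (h0 : g0 ∈ Tri A B C) (hne : g0 ≠ g1) :
    D g0 g1 A < 0 ∨ D g0 g1 B < 0 ∨ D g0 g1 C < 0 := by
  by_contra hcon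
  push Not at hcon
  obtain ⟨hA, hB, hC⟩ := hcon
  have hz : D g0 g1 g0 = 0 := D_aba g0 g1
  -- barycentric combination
  obtain ⟨k1, k2, k3⟩ := h0
  have key : D A B C * D g0 g1 g0 =
      D B C g0 * D g0 g1 A + D C A g0 * D g0 g1 B + D A B g0 * D g0 g1 C := by
    unfold D; ring
  rw [hz, mul_zero] at key
  have e1 : 0 ≤ D B C g0 * D g0 g1 A := mul_nonneg k2.le hA
  have e2 : 0 ≤ D C A g0 * D g0 g1 B := mul_nonneg k3.le hB
  have e3 : 0 ≤ D A B g0 * D g0 g1 C := mul_nonneg k1.le hC
  have z1 : D g0 g1 A = 0 := by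
    have : D B C g0 * D g0 g1 A = 0 := by linarith
    rcases mul_eq_zero.mp this with h | h
    · exact absurd h k2.ne'
    · exact h
  have z2 : D g0 g1 B = 0 := by
    have : D C A g0 * D g0 g1 B = 0 := by linarith
    rcases mul_eq_zero.mp this with h | h
    · exact absurd h k3.ne'
    · exact h
  have z3 : D g0 g1 C = 0 := by
    have : D A B g0 * D g0 g1 C = 0 := by linarith
    rcases mul_eq_zero.mp this with h | h
    · exact absurd h k1.ne'
    · exact h
  apply hne
  have x1 : (g1.1 - g0.1) * D A B C = 0 := by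
    have : (g1.1 - g0.1) * D A B C =
      (B.1 - A.1) * (D g0 g1 C - D g0 g1 A) - (C.1 - A.1) * (D g0 g1 B - D g0 g1 A) := by
      unfold D; ring
    rw [this, z1, z2, z3]; ring
  have x2 : (g1.2 - g0.2) * D A B C = 0 := by
    have : (g1.2 - g0.2) * D A B C =
      (B.2 - A.2) * (D g0 g1 C - D g0 g1 A) - (C.2 - A.2) * (D g0 g1 B - D g0 g1 A) := by
      unfold D; ring
    rw [this, z1, z2, z3]; ring
  have y1 : g1.1 - g0.1 = 0 := by
    rcases mul_eq_zero.mp x1 with h | h
    · exact h
    · exact absurd h hD.ne'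
  have y2 : g1.2 - g0.2 = 0 := by
    rcases mul_eq_zero.mp x2 with h | h
    · exact h
    · exact absurd h hD.ne'
  exact Prod.ext (by linarith) (by linarith)

theorem GP_filter {P : Finset Pt} (h : GP P) (p : Pt → Prop) [DecidablePred p] : GP (P.filter p) :=
  fun a ha b hb c hc => h a (Finset.mem_of_mem_filter a ha) b (Finset.mem_of_mem_filter b hb) c
    (Finset.mem_of_mem_filter c hc)

theorem nb0 : GA 0 1 := by decide

open Classical in
theorem main {q i b b' : ℕ} (h2 : RootSel) (h3 : StepDraw)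
    (hb' : ∀ (q i : ℕ) (A B C : Pt) (P : Finset Pt) (k : Pt) (g : Fin 25 → Pt)
      (fj : Fin 27 → Inn q i → Pt), 1 ≤ q → StepHyp q i A B C P k g fj →
      (∀ j, ∃ F : List T3, Left b (P.filter (fun p => p ∈ Tj g j)) (Tj g j)
        (DSet q i (g (Sa j)) (g (Sb j)) (g (Sc j)) (fj j)) F) →
      ∃ F : List T3, Left b' P (Tri A B C) (DSet q (i + 1) A B C (comb k g fj)) F)
    (hq : 1 ≤ q) {A B C : Pt} (hD : 0 < D A B C) {P : Finset Pt} (gp : GP P)
    (hP : ∀ p ∈ P, p ∈ Tri A B C) {g : Fin 25 → Pt} (hg : ∀ v, g v ∈ Tri A B C) (ok : GamOK g)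
    (av : ∀ u v, GA u v → ∀ p ∈ P, p ∉ segment ℝ (g u) (g v)) {fj : Fin 27 → Inn q i → Pt}
    (cop : ∀ j, Placed q i (g (Sa j)) (g (Sb j)) (g (Sc j)) (P.filter (fun p => p ∈ Tj g j)) (fj j))
    (lef : ∀ j, ∃ F : List T3, Left b (P.filter (fun p => p ∈ Tj g j)) (Tj g j)
      (DSet q i (g (Sa j)) (g (Sb j)) (g (Sc j)) (fj j)) F)
    (hK : D (g 0) (g 1) C < 0) : Concl b' q (i + 1) A B C P := by
  obtain ⟨k, hk, hF, hn, hQ⟩ := h2 A B C hD (P ∪ Finset.univ.image g) (by
      intro x hx
      rcases Finset.mem_union.mp hx with h | h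
      · exact hP x h
      · obtain ⟨v, _, rfl⟩ := Finset.mem_image.mp h
        exact hg v) (g 0) (g 1) hK (P.image (fun p => (g 0, p))) (by
      intro s hs
      obtain ⟨p, hp, rfl⟩ := Finset.mem_image.mp hs
      intro (he : g 0 = p)
      exact av 0 1 nb0 p hp (by rw [← he]; exact left_mem_segment ℝ _ _))
  have H : StepHyp q i A B C P k g fj :=
    { hD := hD
      gp := gp
      hP := hP
      hg := hg
      ok := ok
      av := av
      hk := hk
      gk := fun v => hF (g v) (Finset.mem_union_right _ (Finset.mem_image_of_mem g (Finset.mem_univ v)))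
      Pk := fun p hp => hF p (Finset.mem_union_left _ hp)
      neg := hn
      gen := fun p hp => hQ (g 0, p) (Finset.mem_image_of_mem (fun p => (g 0, p)) hp)
      cop := cop }
  exact ⟨comb k g fj, h3 q i A B C P k g fj hq H, hb' q i A B C P k g fj hq H lef⟩

open Classical in
theorem step (h1 : GamPlace) (h2 : RootSel) (h3 : StepDraw) (h4 : StepLeft) {i : ℕ} (h : Univ i) :
    Univ (i + 1) := by
  obtain ⟨c, b, hU⟩ := h
  obtain ⟨W, n0, hW⟩ := h1
  obtain ⟨b', hb'⟩ := h4 b
  refine ⟨n0 + W * c + 1, b', ?_⟩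
  intro q hq A B C hD P gp hP hc
  have hc1 : n0 + W * (c * q) + 1 ≤ P.card := by
    refine le_trans ?_ hc
    calc n0 + W * (c * q) + 1 ≤ n0 * q + W * (c * q) + 1 * q := by
          have := Nat.le_mul_of_pos_right n0 hq
          omega
      _ = (n0 + W * c + 1) * q := by ring
  obtain ⟨g, hg, ok, av, hj⟩ := hW A B C hD P gp hP (by omega)
  have hcnt : ∀ j, c * q ≤ (P.filter (fun p => p ∈ Tj g j)).card := by
    intro j
    have h1 := hj j
    have hWp : 0 < W := by
      rcases Nat.eq_zero_or_pos W with h | h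
      · rw [h, zero_mul] at h1; omega
      · exact h
    have : W * (c * q) ≤ W * (P.filter (fun p => p ∈ Tj g j)).card := by omega
    exact Nat.le_of_mul_le_mul_left this hWp
  have hcop : ∀ j, ∃ f : Inn q i → Pt, Placed q i (g (Sa j)) (g (Sb j)) (g (Sc j))
      (P.filter (fun p => p ∈ Tj g j)) f ∧
      ∃ F : List T3, Left b (P.filter (fun p => p ∈ Tj g j)) (Tj g j)
        (DSet q i (g (Sa j)) (g (Sb j)) (g (Sc j)) f) F := by
    intro j
    exact hU q hq (g (Sa j)) (g (Sb j)) (g (Sc j)) (ok.pos j) (P.filter (fun p => p ∈ Tj g j))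
      (GP_filter gp _) (fun p hp => (Finset.mem_filter.mp hp).2) (hcnt j)
  choose fj cop lef using hcop
  change Concl b' q (i + 1) A B C P
  have hne : g 0 ≠ g 1 := fun h => absurd (ok.drw.inj h) (by decide)
  rcases corner hD (hg 0) hne with hK | hK | hK
  · -- K = A : rotate to (B, C, A)
    have e1 : Tri A B C = Tri B C A := Tri_rot A B C
    have := main h2 h3 hb' hq (A := B) (B := C) (C := A) (by rw [← D_rot]; exact hD) gp
      (fun p hp => by rw [← e1]; exact hP p hp) (fun v => by rw [← e1]; exact hg v) ok av cop lef hK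
    exact Concl_rot (Concl_rot this)
  · have e1 : Tri A B C = Tri C A B := Tri_rot' A B C
    have := main h2 h3 hb' hq (A := C) (B := A) (C := B) (by rw [← D_rot']; exact hD) gp
      (fun p hp => by rw [← e1]; exact hP p hp) (fun v => by rw [← e1]; exact hg v) ok av cop lef hK
    exact Concl_rot this
  · exact main h2 h3 hb' hq hD gp hP hg ok av cop lef hK

end US

theorem univ_all (h1 : GamPlace) (h2 : RootSel) (h3 : StepDraw) (h4 : StepLeft) (h5 : Univ 0) :
    ∀ i, Univ i := by
  intro i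
  induction i with
  | zero => exact h5
  | succ i ih => exact US.step h1 h2 h3 h4 ih

end MFS
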