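import Pool.Agent.MFS.Col
import Pool.Agent.MFS.MN
import Pool.Agent.MFS.Stack
import Pool.Agent.MFS.LineL
import Pool.Agent.MFS.Bound
import Pool.Agent.MFS.Good
import Pool.Agent.MFS.Sup
import Pool.Agent.MFS.Chain
import Pool.Agent.MFS.Frame
import Pool.Agent.MFS.PlaceX
import Pool.Agent.MFS.Cut
import Pool.Agent.MFS.RootS
import Pool.Agent.MFS.UBase
import Pool.Agent.MFS.StepD
import Pool.Agent.MFS.StepL
import Pool.Agent.MFS.UStep
import Pool.Agent.MFS.Pack
import Pool.Agent.MFS.Num
import Pool.Agent.MFS.Final
import Pool.Agent.MFS.CoreP

/-! Assembly of all modules. -/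

set_option autoImplicit false

namespace MFS

theorem lineBound_holds : LineBound := lineBound (lineLemma colLemma mnLemma stackLemma)

theorem chain_holds : ChainLemma := chainLemma goodLemma supLemma

theorem gamPlace_holds : GamPlace := gamPlaceX chain_holds frameDraw

theorem univ_holds : ∀ i, Univ i :=
  univ_all gamPlace_holds rootSel stepDraw (stepLeft cutLemma) (univ_zero rootSel)

theorem core_holds : Core := core lineBound_holds pack univ_holds numLemma

theorem target_holds : Target := final lineBound_holds pack univ_holds numLemma

end MFS
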