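import Pool.Agent.MFS.Defs

/-! MFS/Col : the colouring lemma of the gadget graph. -/

set_option autoImplicit false

namespace MFS

namespace ColA

/-- `(U, neighbours of U outside U, a special face away from U)`, block 0 -/
def tab0 : List (List (Fin 25) × List (Fin 25) × Fin 27) :=
  [([4], [0, 1, 5, 6], 26),
   ([7], [1, 6, 9, 10], 26),
   ([4, 5], [0, 1, 6, 8, 10], 26),
   ([4, 6, 7], [0, 1, 5, 9, 10], 26),
   ([4, 6], [0, 1, 5, 7, 10], 26),
   ([4, 5, 7, 10], [0, 1, 6, 8, 9], 26),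
   ([4, 5, 7, 8, 9], [0, 1, 3, 6, 10], 26),
   ([4, 6, 7, 8, 9], [0, 1, 3, 5, 10], 26),
   ([4, 6, 8, 9, 10], [0, 1, 3, 5, 7], 26)]

/-- block 1 -/
def tab1 : List (List (Fin 25) × List (Fin 25) × Fin 27) :=
  [([11], [1, 2, 12, 13], 0),
   ([14], [2, 13, 16, 17], 0),
   ([11, 12], [1, 2, 13, 15, 17], 0),
   ([11, 13, 14], [1, 2, 12, 16, 17], 0),
   ([11, 13], [1, 2, 12, 14, 17], 0),
   ([11, 12, 14, 17], [1, 2, 13, 15, 16], 0),
   ([11, 12, 14, 15, 16], [1, 2, 3, 13, 17], 0),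
   ([11, 13, 14, 15, 16], [1, 2, 3, 12, 17], 0),
   ([11, 13, 15, 16, 17], [1, 2, 3, 12, 14], 0)]

/-- block 2 -/
def tab2 : List (List (Fin 25) × List (Fin 25) × Fin 27) :=
  [([18], [0, 2, 19, 20], 0),
   ([21], [0, 20, 23, 24], 0),
   ([18, 19], [0, 2, 20, 22, 24], 0),
   ([18, 20, 21], [0, 2, 19, 23, 24], 0),
   ([18, 20], [0, 2, 19, 21, 24], 0),
   ([18, 19, 21, 24], [0, 2, 20, 22, 23], 0),
   ([18, 19, 21, 22, 23], [0, 2, 3, 20, 24], 0),
   ([18, 20, 21, 22, 23], [0, 2, 3, 19, 24], 0),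
   ([18, 20, 22, 23, 24], [0, 2, 3, 19, 21], 0)]

/-- correctness of a table entry -/
def entB (e : List (Fin 25) × List (Fin 25) × Fin 27) : Bool :=
  (e.1.all fun u => (List.finRange 25).all fun w => !ga u w || (e.1.contains w || e.2.1.contains w)) &&
  (!e.1.contains (Sa e.2.2) && (!e.1.contains (Sb e.2.2) && (!e.1.contains (Sc e.2.2) && !e.1.isEmpty)))

theorem tab0_ok : tab0.all entB = true := by decide +kernel
theorem tab1_ok : tab1.all entB = true := by decide +kernel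
theorem tab2_ok : tab2.all entB = true := by decide +kernel

/-- the face `j` is monochromatic -/
def mono (c : Fin 25 → Bool) (t : Fin 25 × Fin 25 × Fin 25) : Bool :=
  (c t.1 && (c t.2.1 && c t.2.2)) || (!c t.1 && (!c t.2.1 && !c t.2.2))

/-- `U` is a monochromatic set whose outer neighbours have the other colour -/
def sep (c : Fin 25 → Bool) (e : List (Fin 25) × List (Fin 25) × Fin 27) : Bool :=
  (e.1.all c && e.2.1.all (fun w => !c w)) || (e.1.all (fun w => !c w) && e.2.1.all c)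

/-- check of a block -/
def chk (c : Fin 25 → Bool) (fs : List (Fin 25 × Fin 25 × Fin 25))
    (T : List (List (Fin 25) × List (Fin 25) × Fin 27)) : Bool :=
  fs.any (mono c) || T.any (sep c)

/-- the corners of a special face -/
def cor (j : Fin 27) : Fin 25 × Fin 25 × Fin 25 := (Sa j, Sb j, Sc j)

def fs0 : List (Fin 25 × Fin 25 × Fin 25) := ([0, 1, 2, 3, 4, 5, 6, 7, 8] : List (Fin 27)).map cor
def fs1 : List (Fin 25 × Fin 25 × Fin 25) :=
  ([18, 19, 20, 21, 22, 23, 24, 25, 26] : List (Fin 27)).map cor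
def fs2 : List (Fin 25 × Fin 25 × Fin 25) :=
  ([9, 10, 11, 12, 13, 14, 15, 16, 17] : List (Fin 27)).map cor

/-- all values of a Boolean argument -/
def allB (f : Bool → Bool) : Bool := f true && f false

theorem allB_spec {f : Bool → Bool} (h : allB f = true) : ∀ b, f b = true := by
  have h' := (Bool.and_eq_true _ _).mp h
  intro b; cases b
  · exact h'.2
  · exact h'.1

/-- colouring of block 0 from its values at 0 = 1, 3, 4, .., 10 -/
def mk0 (b b3 b4 b5 b6 b7 b8 b9 b10 : Bool) : Fin 25 → Bool := fun v =>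
  ([b, b, false, b3, b4, b5, b6, b7, b8, b9, b10] : List Bool).getD v.val false
def mk1 (b b3 b4 b5 b6 b7 b8 b9 b10 : Bool) : Fin 25 → Bool := fun v =>
  ([false, b, b, b3, false, false, false, false, false, false, false,
    b4, b5, b6, b7, b8, b9, b10] : List Bool).getD v.val false
def mk2 (b b3 b4 b5 b6 b7 b8 b9 b10 : Bool) : Fin 25 → Bool := fun v =>
  ([b, false, b, b3, false, false, false, false, false, false, false,
    false, false, false, false, false, false, false,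
    b4, b5, b6, b7, b8, b9, b10] : List Bool).getD v.val false

def F0 (b b3 b4 b5 b6 b7 b8 b9 b10 : Bool) : Bool :=
  chk (mk0 b b3 b4 b5 b6 b7 b8 b9 b10) fs0 tab0
def F1 (b b3 b4 b5 b6 b7 b8 b9 b10 : Bool) : Bool :=
  chk (mk1 b b3 b4 b5 b6 b7 b8 b9 b10) fs1 tab1
def F2 (b b3 b4 b5 b6 b7 b8 b9 b10 : Bool) : Bool :=
  chk (mk2 b b3 b4 b5 b6 b7 b8 b9 b10) fs2 tab2

theorem F0_all : (allB fun b => allB fun b3 => allB fun b4 => allB fun b5 => allB fun b6 =>
    allB fun b7 => allB fun b8 => allB fun b9 => allB fun b10 =>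
      F0 b b3 b4 b5 b6 b7 b8 b9 b10) = true := by decide +kernel
theorem F1_all : (allB fun b => allB fun b3 => allB fun b4 => allB fun b5 => allB fun b6 =>
    allB fun b7 => allB fun b8 => allB fun b9 => allB fun b10 =>
      F1 b b3 b4 b5 b6 b7 b8 b9 b10) = true := by decide +kernel
theorem F2_all : (allB fun b => allB fun b3 => allB fun b4 => allB fun b5 => allB fun b6 =>
    allB fun b7 => allB fun b8 => allB fun b9 => allB fun b10 =>
      F2 b b3 b4 b5 b6 b7 b8 b9 b10) = true := by decide +kernel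

theorem chk0 (c : Fin 25 → Bool) (h : c 0 = c 1) : chk c fs0 tab0 = true := by
  have h1 := allB_spec (allB_spec (allB_spec (allB_spec (allB_spec (allB_spec (allB_spec (allB_spec
    (allB_spec F0_all (c 0)) (c 3)) (c 4)) (c 5)) (c 6)) (c 7)) (c 8)) (c 9)) (c 10)
  have h2 : chk c fs0 tab0 = chk (fun v => if v = 1 then c 0 else c v) fs0 tab0 := by
    congr 1; funext v; split_ifs with hv
    · rw [hv, h]
    · rfl
  rw [h2]; exact h1

theorem chk1 (c : Fin 25 → Bool) (h : c 1 = c 2) : chk c fs1 tab1 = true := by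
  have h1 := allB_spec (allB_spec (allB_spec (allB_spec (allB_spec (allB_spec (allB_spec (allB_spec
    (allB_spec F1_all (c 1)) (c 3)) (c 11)) (c 12)) (c 13)) (c 14)) (c 15)) (c 16)) (c 17)
  have h2 : chk c fs1 tab1 = chk (fun v => if v = 2 then c 1 else c v) fs1 tab1 := by
    congr 1; funext v; split_ifs with hv
    · rw [hv, h]
    · rfl
  rw [h2]; exact h1

theorem chk2 (c : Fin 25 → Bool) (h : c 0 = c 2) : chk c fs2 tab2 = true := by
  have h1 := allB_spec (allB_spec (allB_spec (allB_spec (allB_spec (allB_spec (allB_spec (allB_spec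
    (allB_spec F2_all (c 0)) (c 3)) (c 18)) (c 19)) (c 20)) (c 21)) (c 22)) (c 23)) (c 24)
  have h2 : chk c fs2 tab2 = chk (fun v => if v = 2 then c 0 else c v) fs2 tab2 := by
    congr 1; funext v; split_ifs with hv
    · rw [hv, h]
    · rfl
  rw [h2]; exact h1

/-- the faces of the blocks are special faces -/
theorem fs_sp : (∀ t ∈ fs0, ∃ j : Fin 27, (Sa j, Sb j, Sc j) = t) ∧
    (∀ t ∈ fs1, ∃ j : Fin 27, (Sa j, Sb j, Sc j) = t) ∧
    (∀ t ∈ fs2, ∃ j : Fin 27, (Sa j, Sb j, Sc j) = t) := by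
  refine ⟨?_, ?_, ?_⟩ <;> intro t ht <;> obtain ⟨j, _, rfl⟩ := List.mem_map.mp ht <;> exact ⟨j, rfl⟩

theorem GA_symm : ∀ u v : Fin 25, GA u v → GA v u := by decide +kernel

/-- an upper class is connected -/
theorem conn (h : Fin 25 → ℝ) (hi : Function.Injective h)
    (H : ∀ u, (∃ w, GA u w ∧ h u < h w) ∨ ∀ x, h x ≤ h u) (L : Fin 25 → Prop)
    (HL : ∀ u v, L v → ¬ L u → h u < h v) (U : List (Fin 25)) (hne : ∃ u, u ∈ U)
    (hU : ∀ u ∈ U, L u) (hN : ∀ u ∈ U, ∀ w, GA u w → w ∉ U → ¬ L w) : ∀ w, w ∉ U → ¬ L w := by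
  classical
  intro w0 hw0 hL0
  have hne' : (Finset.univ.filter (fun u => u ∈ U)).Nonempty := by
    obtain ⟨u, hu⟩ := hne; exact ⟨u, by simp [hu]⟩
  obtain ⟨a, ha, hamax⟩ := Finset.exists_max_image _ h hne'
  have haU : a ∈ U := by simpa using ha
  have up : ∀ v w, L v → h v < h w → L w := by
    intro v w hv hvw; by_contra hw; exact absurd (HL w v hv hw) (not_lt.mpr hvw.le)
  rcases H a with ⟨w, hw, haw⟩ | hmax
  · have hLw : L w := up a w (hU a haU) haw
    have hwU : w ∈ U := by by_contra hwU; exact hN a haU w hw hwU hLw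
    exact absurd (hamax w (by simp [hwU])) (not_le.mpr haw)
  · have hne2 : (Finset.univ.filter (fun u => L u ∧ u ∉ U)).Nonempty := ⟨w0, by simp [hL0, hw0]⟩
    obtain ⟨b, hb, hbmax⟩ := Finset.exists_max_image _ h hne2
    have hb' : L b ∧ b ∉ U := by simpa using hb
    rcases H b with ⟨w, hw, hbw⟩ | hmaxb
    · have hLw : L w := up b w hb'.1 hbw
      by_cases hwU : w ∈ U
      · exact hN w hwU b (GA_symm b w hw) hb'.2 hb'.1
      · exact absurd (hbmax w (by simp [hLw, hwU])) (not_le.mpr hbw)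
    · have : a = b := hi (le_antisymm (hmaxb a) (hmax b))
      exact hb'.2 (this ▸ haU)

/-- conclusion from a successful check -/
theorem fin (h : Fin 25 → ℝ) (hi : Function.Injective h)
    (H1 : ∀ u, (∃ w, GA u w ∧ h u < h w) ∨ ∀ x, h x ≤ h u)
    (H2 : ∀ u, (∃ w, GA u w ∧ h w < h u) ∨ ∀ x, h u ≤ h x)
    (L : Fin 25 → Prop) (HL : ∀ u v, L v → ¬ L u → h u < h v) (c : Fin 25 → Bool)
    (hc : ∀ v, c v = true ↔ L v) (fs : List (Fin 25 × Fin 25 × Fin 25))
    (T : List (List (Fin 25) × List (Fin 25) × Fin 27)) (hT : T.all entB = true)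
    (hfs : ∀ t ∈ fs, ∃ j : Fin 27, (Sa j, Sb j, Sc j) = t) (hk : chk c fs T = true) :
    ∃ j, (L (Sa j) ∧ L (Sb j) ∧ L (Sc j)) ∨ (¬ L (Sa j) ∧ ¬ L (Sb j) ∧ ¬ L (Sc j)) := by
  have hcf : ∀ v, (!c v) = true ↔ ¬ L v := by
    intro v; rw [← hc v]; cases c v <;> simp
  simp only [chk, Bool.or_eq_true, List.any_eq_true] at hk
  rcases hk with ⟨t, ht, hm⟩ | ⟨e, he, hs⟩
  · obtain ⟨j, rfl⟩ := hfs t ht
    simp only [mono, Bool.or_eq_true, Bool.and_eq_true, hc, hcf] at hm
    exact ⟨j, hm⟩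
  · have hok := List.all_eq_true.mp hT e he
    simp only [entB, Bool.and_eq_true, List.all_eq_true, Bool.or_eq_true, Bool.not_eq_true',
      List.contains_eq_mem, decide_eq_true_eq, decide_eq_false_iff_not, List.mem_finRange,
      forall_true_left, List.isEmpty_eq_false_iff] at hok
    obtain ⟨hadj, hA, hB, hC, hne⟩ := hok
    have hadj' : ∀ u ∈ e.1, ∀ w, GA u w → w ∉ e.1 → w ∈ e.2.1 := by
      intro u hu w huw hw
      rcases hadj u hu w with h1 | h1 | h1
      · exact absurd huw (by simp [GA, h1])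
      · exact absurd h1 hw
      · exact h1
    have hex : ∃ u, u ∈ e.1 := List.exists_mem_of_ne_nil _ hne
    simp only [sep, Bool.or_eq_true, Bool.and_eq_true, List.all_eq_true, hc, hcf] at hs
    rcases hs with ⟨hU, hNU⟩ | ⟨hU, hNU⟩
    · have hcon := conn h hi H1 L HL e.1 hex hU
        (fun u hu w huw hw => hNU w (hadj' u hu w huw hw))
      exact ⟨e.2.2, Or.inr ⟨hcon _ hA, hcon _ hB, hcon _ hC⟩⟩
    · have hcon := conn (fun v => - h v) (fun a b hab => hi (neg_injective hab))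
        (fun u => (H2 u).imp (fun ⟨w, hw, hlt⟩ => ⟨w, hw, neg_lt_neg hlt⟩)
          (fun hx x => neg_le_neg (hx x)))
        (fun v => ¬ L v)
        (fun u v hv hu => neg_lt_neg (HL v u (not_not.mp hu) hv)) e.1 hex hU
        (fun u hu w huw hw => not_not.mpr (hNU w (hadj' u hu w huw hw)))
      exact ⟨e.2.2, Or.inl ⟨not_not.mp (hcon _ hA), not_not.mp (hcon _ hB), not_not.mp (hcon _ hC)⟩⟩

end ColA

/-- the colouring lemma -/
theorem colLemma : ColLemma := by
  classical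
  intro h hi H1 H2 L HL
  let c : Fin 25 → Bool := fun v => decide (L v)
  have hc : ∀ v, c v = true ↔ L v := fun v => decide_eq_true_iff
  have hcases : c 0 = c 1 ∨ c 1 = c 2 ∨ c 0 = c 2 := by
    cases c 0 <;> cases c 1 <;> cases c 2 <;> simp
  rcases hcases with h0 | h0 | h0
  · exact ColA.fin h hi H1 H2 L HL c hc _ _ ColA.tab0_ok ColA.fs_sp.1 (ColA.chk0 c h0)
  · exact ColA.fin h hi H1 H2 L HL c hc _ _ ColA.tab1_ok ColA.fs_sp.2.1 (ColA.chk1 c h0)
  · exact ColA.fin h hi H1 H2 L HL c hc _ _ ColA.tab2_ok ColA.fs_sp.2.2 (ColA.chk2 c h0)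

end MFS
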