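import Pool.Agent.MFS.Geo

/-! Cups: the inequalities A and B and the apex lemma C for the good chain lemma (note 1963, section 4 (a)). -/

set_option autoImplicit false

namespace MFS

/-- an increasing sequence of seven numbers contains four with cross ratio at least three -/
theorem slope4 (y : ℕ → ℝ) (hy : ∀ a b, a < b → b < 7 → y a < y b) :
    ∃ a k l j, a < k ∧ k < l ∧ l < j ∧ j < 7 ∧
      3 * ((y k - y a) * (y j - y l)) ≤ (y l - y a) * (y j - y k) := by
  by_contra hcon
  push Not at hcon
  have key : ∀ a k l j, a < k → k < l → l < j → j < 7 → y l - y a < 3 * (y k - y a) := by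
    intro a k l j h1 h2 h3 h4
    have h := hcon a k l j h1 h2 h3 h4
    by_contra hn
    push Not at hn
    have e1 : y a < y k := hy a k h1 (by omega)
    have e2 : y k < y l := hy k l h2 (by omega)
    have e3 : y l < y j := hy l j h3 h4
    nlinarith [mul_le_mul_of_nonneg_right hn (by linarith : (0:ℝ) ≤ y j - y k),
      mul_nonneg (by linarith : (0:ℝ) ≤ y k - y a) (by linarith : (0:ℝ) ≤ y l - y k)]
  have key2 : ∀ a k l j, a < k → k < l → l < j → j < 7 → y j - y k < 3 * (y j - y l) := by
    intro a k l j h1 h2 h3 h4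
    have h := hcon a k l j h1 h2 h3 h4
    by_contra hn
    push Not at hn
    have e1 : y a < y k := hy a k h1 (by omega)
    have e2 : y k < y l := hy k l h2 (by omega)
    have e3 : y l < y j := hy l j h3 h4
    nlinarith [mul_le_mul_of_nonneg_left hn (by linarith : (0:ℝ) ≤ y l - y a),
      mul_nonneg (by linarith : (0:ℝ) ≤ y j - y l) (by linarith : (0:ℝ) ≤ y l - y k)]
  have h1 := key 1 2 5 6 (by norm_num) (by norm_num) (by norm_num) (by norm_num)
  have h2 := key 2 3 5 6 (by norm_num) (by norm_num) (by norm_num) (by norm_num)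
  have h3 := key 3 4 5 6 (by norm_num) (by norm_num) (by norm_num) (by norm_num)
  have h4 := key2 0 1 4 5 (by norm_num) (by norm_num) (by norm_num) (by norm_num)
  have e := hy 4 5 (by norm_num) (by norm_num)
  linarith

/-- a cup with `m` points: convex and `x`-monotone -/
structure Cup (m : ℕ) (q : ℕ → Pt) : Prop where
  mono : ∀ i j, i < j → j < m → (q i).1 < (q j).1
  conv : ∀ i j k, i < j → j < k → k < m → 0 < D (q i) (q j) (q k)

/-- slope of the chord -/
noncomputable def sl (p q : Pt) : ℝ := (q.2 - p.2) / (q.1 - p.1)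

theorem D_sl {o a b : Pt} (ha : a.1 ≠ o.1) (hb : b.1 ≠ o.1) :
    D o a b = (a.1 - o.1) * (b.1 - o.1) * (sl o b - sl o a) := by
  have h1 : a.1 - o.1 ≠ 0 := sub_ne_zero.2 ha
  have h2 : b.1 - o.1 ≠ 0 := sub_ne_zero.2 hb
  unfold D sl
  field_simp

theorem D_sl' {o a b : Pt} (ha : a.1 ≠ o.1) (hb : b.1 ≠ o.1) :
    D a b o = (a.1 - o.1) * (b.1 - o.1) * (sl o b - sl o a) := by
  rw [D_rot']; exact D_sl ha hb

/-- inequality A holds for some five points of a cup with eight points -/
theorem cupA {q : ℕ → Pt} (hq : Cup 8 q) :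
    ∃ i k0 k l j, i < k0 ∧ k0 < k ∧ k < l ∧ l < j ∧ j < 8 ∧
      3 * (D (q i) (q k0) (q k) * D (q i) (q l) (q j)) ≤
        D (q i) (q k0) (q l) * D (q i) (q k) (q j) := by
  have hne : ∀ n, 0 < n → n < 8 → (q n).1 ≠ (q 0).1 := fun n h h' => (hq.mono 0 n h h').ne'
  obtain ⟨a, k, l, j, h1, h2, h3, h4, h⟩ := slope4 (fun n => sl (q 0) (q (n + 1))) (by
    intro a b hab hb
    have hp := hq.conv 0 (a + 1) (b + 1) (by omega) (by omega) (by omega)
    rw [D_sl (hne _ (by omega) (by omega)) (hne _ (by omega) (by omega))] at hp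
    have x1 := hq.mono 0 (a + 1) (by omega) (by omega)
    have x2 := hq.mono 0 (b + 1) (by omega) (by omega)
    have := (pos_iff_pos_of_mul_pos hp).1 (mul_pos (by linarith) (by linarith))
    show sl (q 0) (q (a + 1)) < sl (q 0) (q (b + 1))
    linarith)
  refine ⟨0, a + 1, k + 1, l + 1, j + 1, by omega, by omega, by omega, by omega, by omega, ?_⟩
  rw [D_sl (hne (a + 1) (by omega) (by omega)) (hne (k + 1) (by omega) (by omega)),
    D_sl (hne (l + 1) (by omega) (by omega)) (hne (j + 1) (by omega) (by omega)),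
    D_sl (hne (a + 1) (by omega) (by omega)) (hne (l + 1) (by omega) (by omega)),
    D_sl (hne (k + 1) (by omega) (by omega)) (hne (j + 1) (by omega) (by omega))]
  have x1 := hq.mono 0 (a + 1) (by omega) (by omega)
  have x2 := hq.mono 0 (k + 1) (by omega) (by omega)
  have x3 := hq.mono 0 (l + 1) (by omega) (by omega)
  have x4 := hq.mono 0 (j + 1) (by omega) (by omega)
  have hp : 0 ≤ ((q (a + 1)).1 - (q 0).1) * ((q (k + 1)).1 - (q 0).1) *
      (((q (l + 1)).1 - (q 0).1) * ((q (j + 1)).1 - (q 0).1)) := by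
    have e1 : 0 < (q (a + 1)).1 - (q 0).1 := by linarith
    have e2 : 0 < (q (k + 1)).1 - (q 0).1 := by linarith
    have e3 : 0 < (q (l + 1)).1 - (q 0).1 := by linarith
    have e4 : 0 < (q (j + 1)).1 - (q 0).1 := by linarith
    positivity
  have := mul_le_mul_of_nonneg_left h hp
  nlinarith [this]

/-- inequality B holds for some five points of a cup with eight points -/
theorem cupB {q : ℕ → Pt} (hq : Cup 8 q) :
    ∃ i k l j0 j, i < k ∧ k < l ∧ l < j0 ∧ j0 < j ∧ j < 8 ∧
      3 * (D (q i) (q k) (q j) * D (q l) (q j0) (q j)) ≤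
        D (q i) (q l) (q j) * D (q k) (q j0) (q j) := by
  have hne : ∀ n, n < 7 → (q n).1 ≠ (q 7).1 := fun n h => (hq.mono n 7 h (by norm_num)).ne
  obtain ⟨a, k, l, j, h1, h2, h3, h4, h⟩ := slope4 (fun n => sl (q 7) (q n)) (by
    intro a b hab hb
    have hp := hq.conv a b 7 (by omega) (by omega) (by omega)
    rw [D_sl' (hne _ (by omega)) (hne _ (by omega))] at hp
    have x1 := hq.mono a 7 (by omega) (by omega)
    have x2 := hq.mono b 7 (by omega) (by omega)
    have := (pos_iff_pos_of_mul_pos hp).1 (mul_pos_of_neg_of_neg (by linarith) (by linarith))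
    show sl (q 7) (q a) < sl (q 7) (q b)
    linarith)
  refine ⟨a, k, l, j, 7, by omega, by omega, by omega, by omega, by omega, ?_⟩
  rw [D_sl' (hne a (by omega)) (hne k (by omega)), D_sl' (hne l (by omega)) (hne j (by omega)),
    D_sl' (hne a (by omega)) (hne l (by omega)), D_sl' (hne k (by omega)) (hne j (by omega))]
  have x1 := hq.mono a 7 (by omega) (by omega)
  have x2 := hq.mono k 7 (by omega) (by omega)
  have x3 := hq.mono l 7 (by omega) (by omega)
  have x4 := hq.mono j 7 (by omega) (by omega)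
  have hp : 0 ≤ ((q a).1 - (q 7).1) * ((q k).1 - (q 7).1) *
      (((q l).1 - (q 7).1) * ((q j).1 - (q 7).1)) := by
    have e1 : (q a).1 - (q 7).1 < 0 := by linarith
    have e2 : (q k).1 - (q 7).1 < 0 := by linarith
    have e3 : (q l).1 - (q 7).1 < 0 := by linarith
    have e4 : (q j).1 - (q 7).1 < 0 := by linarith
    exact mul_nonneg (mul_pos_of_neg_of_neg e1 e2).le (mul_pos_of_neg_of_neg e3 e4).le
  have := mul_le_mul_of_nonneg_left h hp
  nlinarith [this]

end MFS
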