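import Pool.Agent.MFS.GoodA

/-! The apex lemma (colour C) for cups: note 1963, section 4 (a). -/

set_option autoImplicit false

namespace MFS

theorem D_sl_mid {a b c : Pt} (h1 : b.1 ≠ a.1) (h2 : c.1 ≠ b.1) :
    D a b c = (b.1 - a.1) * (c.1 - b.1) * (sl b c - sl a b) := by
  have h1' : b.1 - a.1 ≠ 0 := sub_ne_zero.2 h1
  have h2' : c.1 - b.1 ≠ 0 := sub_ne_zero.2 h2
  unfold D sl
  field_simp
  ring

/-- chords of a cup have increasing slopes -/
theorem Cup.sl_adj {m : ℕ} {q : ℕ → Pt} (hq : Cup m q) {i j k : ℕ} (h1 : i < j) (h2 : j < k)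
    (h3 : k < m) : sl (q i) (q j) < sl (q j) (q k) := by
  have x1 := hq.mono i j h1 (by omega)
  have x2 := hq.mono j k h2 h3
  have hp := hq.conv i j k h1 h2 h3
  rw [D_sl_mid x1.ne' x2.ne'] at hp
  have := (pos_iff_pos_of_mul_pos hp).1 (mul_pos (by linarith) (by linarith))
  linarith

theorem Cup.sl_lt {m : ℕ} {q : ℕ → Pt} (hq : Cup m q) {i j k l : ℕ} (h1 : i < j) (h2 : j ≤ k)
    (h3 : k < l) (h4 : l < m) : sl (q i) (q j) < sl (q k) (q l) := by
  rcases h2.eq_or_lt with rfl | h2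
  · exact hq.sl_adj h1 h3 h4
  · exact (hq.sl_adj h1 h2 (by omega)).trans (hq.sl_adj h2 h3 h4)

/-- the lines through the first two and through the last two of four points of a cup meet in
between -/
theorem Cup.apex {m : ℕ} {q : ℕ → Pt} (hq : Cup m q) {i k0 j0 j : ℕ} (h1 : i < k0) (h2 : k0 < j0)
    (h3 : j0 < j) (h4 : j < m) :
    ∃ t t' : ℝ, 1 < t ∧ 1 < t' ∧
      q i + t • (q k0 - q i) = q j + t' • (q j0 - q j) := by
  have x1 := hq.mono i k0 h1 (by omega)
  have x2 := hq.mono j0 j h3 h4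
  have hs := hq.sl_lt h1 h2.le h3 h4
  have hw : 0 < ((q k0).1 - (q i).1) * ((q j).2 - (q j0).2) -
      ((q k0).2 - (q i).2) * ((q j).1 - (q j0).1) := by
    have e : ((q k0).1 - (q i).1) * ((q j).2 - (q j0).2) -
      ((q k0).2 - (q i).2) * ((q j).1 - (q j0).1) =
      ((q k0).1 - (q i).1) * ((q j).1 - (q j0).1) * (sl (q j0) (q j) - sl (q i) (q k0)) := by
      have e1 : (q k0).1 - (q i).1 ≠ 0 := by linarith
      have e2 : (q j).1 - (q j0).1 ≠ 0 := by linarith
      unfold sl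
      field_simp
    rw [e]
    exact mul_pos (mul_pos (by linarith) (by linarith)) (by linarith)
  have hr : 0 < D (q k0) (q j0) (q j) := hq.conv _ _ _ h2 h3 h4
  have hr' : 0 < D (q i) (q k0) (q j0) := hq.conv _ _ _ h1 h2 (by omega)
  have ew : D (q i) (q j0) (q j) = D (q k0) (q j0) (q j) +
      (((q k0).1 - (q i).1) * ((q j).2 - (q j0).2) -
      ((q k0).2 - (q i).2) * ((q j).1 - (q j0).1)) := by
    unfold D; ring
  have ew' : D (q i) (q k0) (q j) = D (q i) (q k0) (q j0) +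
      (((q k0).1 - (q i).1) * ((q j).2 - (q j0).2) -
      ((q k0).2 - (q i).2) * ((q j).1 - (q j0).1)) := by
    unfold D; ring
  refine ⟨D (q i) (q j0) (q j) / (((q k0).1 - (q i).1) * ((q j).2 - (q j0).2) -
      ((q k0).2 - (q i).2) * ((q j).1 - (q j0).1)),
    D (q i) (q k0) (q j) / (((q k0).1 - (q i).1) * ((q j).2 - (q j0).2) -
      ((q k0).2 - (q i).2) * ((q j).1 - (q j0).1)), ?_, ?_, ?_⟩
  · rw [lt_div_iff₀ hw]; linarith
  · rw [lt_div_iff₀ hw]; linarith
  · have hw0 := hw.ne'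
    ext
    · simp only [Prod.fst_add, Prod.smul_fst, Prod.fst_sub, smul_eq_mul]
      rw [div_mul_eq_mul_div, div_mul_eq_mul_div, add_div_eq_mul_add_div _ _ hw0,
        add_div_eq_mul_add_div _ _ hw0]
      congr 1
      unfold D; ring
    · simp only [Prod.snd_add, Prod.smul_snd, Prod.snd_sub, smul_eq_mul]
      rw [div_mul_eq_mul_div, div_mul_eq_mul_div, add_div_eq_mul_add_div _ _ hw0,
        add_div_eq_mul_add_div _ _ hw0]
      congr 1
      unfold D; ring

theorem D_ray (a b x y : Pt) (t : ℝ) :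
    D a b (x + t • (y - x)) = D a b x + t * (D a b y - D a b x) := by
  unfold D
  simp only [Prod.fst_add, Prod.snd_add, Prod.smul_fst, Prod.smul_snd, Prod.fst_sub, Prod.snd_sub,
    smul_eq_mul]
  ring

theorem D_diff_sl (a b : Pt) {x y : Pt} (h : y.1 ≠ x.1) :
    D a b y - D a b x = (y.1 - x.1) * ((b.1 - a.1) * sl x y - (b.2 - a.2)) := by
  have h' : y.1 - x.1 ≠ 0 := sub_ne_zero.2 h
  unfold D sl
  field_simp
  ring

/-- two consecutive blocks of a cup cannot have their apex beyond the same line -/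
theorem Cup.two_blocks {m : ℕ} {q : ℕ → Pt} (hq : Cup m q) {a b : Pt}
    (hpos : ∀ n < m, 0 < D a b (q n)) {i k0 j0 j i' k0' : ℕ} (h1 : i < k0) (h2 : k0 < j0)
    (h3 : j0 < j) (h4 : j ≤ i') (h5 : i' < k0') (h6 : k0' < m) {t t' s : ℝ} (ht : 1 < t) (ht' : 1 < t')
    (hs : 1 < s) (e1 : D a b (q i + t • (q k0 - q i)) ≤ 0)
    (e2 : D a b (q j + t' • (q j0 - q j)) ≤ 0)
    (e3 : D a b (q i' + s • (q k0' - q i')) ≤ 0) : False := by
  rw [D_ray] at e1 e2 e3
  have x1 := hq.mono i k0 h1 (by omega)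
  have x2 := hq.mono j0 j h3 (by omega)
  have x3 := hq.mono i' k0' h5 h6
  have s1 := hq.sl_lt h1 h2.le h3 (by omega)
  have s2 := hq.sl_lt h3 h4 h5 h6
  have p1 := hpos i (by omega)
  have p2 := hpos j (by omega)
  have p3 := hpos i' (by omega)
  have d1 : D a b (q k0) - D a b (q i) < 0 := by
    by_contra hn; push Not at hn
    have := mul_nonneg (by linarith : (0:ℝ) ≤ t) hn
    linarith
  have d2 : D a b (q j0) - D a b (q j) < 0 := by
    by_contra hn; push Not at hn
    have := mul_nonneg (by linarith : (0:ℝ) ≤ t') hn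
    linarith
  have d3 : D a b (q k0') - D a b (q i') < 0 := by
    by_contra hn; push Not at hn
    have := mul_nonneg (by linarith : (0:ℝ) ≤ s) hn
    linarith
  rw [D_diff_sl a b x1.ne'] at d1
  have d2' : 0 < D a b (q j) - D a b (q j0) := by linarith
  rw [D_diff_sl a b x2.ne'] at d2'
  rw [D_diff_sl a b x3.ne'] at d3
  have f1 : (b.1 - a.1) * sl (q i) (q k0) - (b.2 - a.2) < 0 := by
    by_contra hn; push Not at hn
    have := mul_nonneg (by linarith : (0:ℝ) ≤ (q k0).1 - (q i).1) hn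
    linarith
  have f2 : 0 < (b.1 - a.1) * sl (q j0) (q j) - (b.2 - a.2) :=
    (pos_iff_pos_of_mul_pos d2').1 (by linarith)
  have f3 : (b.1 - a.1) * sl (q i') (q k0') - (b.2 - a.2) < 0 := by
    by_contra hn; push Not at hn
    have := mul_nonneg (by linarith : (0:ℝ) ≤ (q k0').1 - (q i').1) hn
    linarith
  have g1 : 0 < (b.1 - a.1) * (sl (q j0) (q j) - sl (q i) (q k0)) := by linarith
  have g2 : 0 < b.1 - a.1 := (pos_iff_pos_of_mul_pos g1).2 (by linarith)
  have := mul_pos g2 (by linarith : (0:ℝ) < sl (q i') (q k0') - sl (q j0) (q j))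
  linarith

/-- colour C: a cup with sixteen points in a triangle contains four points whose apex is in the
triangle -/
theorem cupC {q : ℕ → Pt} (hq : Cup 16 q) {A B C : Pt} (hin : ∀ n < 16, q n ∈ Tri A B C) :
    ∃ i k0 j0 j, i < k0 ∧ k0 < j0 ∧ j0 < j ∧ j < 16 ∧ ∃ z ∈ Tri A B C,
      (∃ τ : ℝ, 1 < τ ∧ z = q i + τ • (q k0 - q i)) ∧
      ∃ τ : ℝ, 1 < τ ∧ z = q j + τ • (q j0 - q j) := by
  by_contra hcon
  push Not at hcon
  -- apexes
  have hap : ∀ b : Fin 4, ∃ t t' : ℝ, 1 < t ∧ 1 < t' ∧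
      q (4 * b.val) + t • (q (4 * b.val + 1) - q (4 * b.val)) =
        q (4 * b.val + 3) + t' • (q (4 * b.val + 2) - q (4 * b.val + 3)) := fun b =>
    hq.apex (by omega) (by omega) (by omega) (by omega)
  choose t t' ht ht' he using hap
  have hside : ∀ b : Fin 4, ∃ s : Fin 3,
      (s = 0 → D A B (q (4 * b.val) + t b • (q (4 * b.val + 1) - q (4 * b.val))) ≤ 0) ∧
      (s = 1 → D B C (q (4 * b.val) + t b • (q (4 * b.val + 1) - q (4 * b.val))) ≤ 0) ∧
      (s = 2 → D C A (q (4 * b.val) + t b • (q (4 * b.val + 1) - q (4 * b.val))) ≤ 0) := by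
    intro b
    have hz : q (4 * b.val) + t b • (q (4 * b.val + 1) - q (4 * b.val)) ∉ Tri A B C := by
      intro hz
      exact hcon (4 * b.val) (4 * b.val + 1) (4 * b.val + 2) (4 * b.val + 3) (by omega) (by omega)
        (by omega) (by omega) _ hz ⟨t b, ht b, rfl⟩ (t' b) (ht' b) (he b)
    by_cases g0 : D A B (q (4 * b.val) + t b • (q (4 * b.val + 1) - q (4 * b.val))) ≤ 0
    · exact ⟨0, fun _ => g0, by simp, by simp⟩
    by_cases g1 : D B C (q (4 * b.val) + t b • (q (4 * b.val + 1) - q (4 * b.val))) ≤ 0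
    · exact ⟨1, by simp, fun _ => g1, by simp⟩
    refine ⟨2, by simp, by simp, fun _ => ?_⟩
    by_contra g2
    push Not at g0 g1 g2
    exact hz ⟨g0, g1, g2⟩
  choose s hs using hside
  obtain ⟨b, b', hbb, hsb⟩ := Fintype.exists_ne_map_eq_of_card_lt s (by simp)
  -- order the blocks
  have main : ∀ b b' : Fin 4, b < b' → s b = s b' → False := by
    intro b b' hlt hsb
    have hv : b.val < b'.val := hlt
    have h4 : b'.val < 4 := b'.isLt
    have hs1 := hs b
    have hs2 := hs b'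
    rw [← hsb] at hs2
    have hin' : ∀ n < 16, 0 < D A B (q n) ∧ 0 < D B C (q n) ∧ 0 < D C A (q n) := hin
    have gen : ∀ a c : Pt, (∀ n < 16, 0 < D a c (q n)) →
        D a c (q (4 * b.val) + t b • (q (4 * b.val + 1) - q (4 * b.val))) ≤ 0 →
        D a c (q (4 * b'.val) + t b' • (q (4 * b'.val + 1) - q (4 * b'.val))) ≤ 0 → False := by
      intro a c hac g1 g2
      have g3 := g1
      rw [he b] at g3
      exact hq.two_blocks hac (i := 4 * b.val) (k0 := 4 * b.val + 1) (j0 := 4 * b.val + 2)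
        (j := 4 * b.val + 3) (i' := 4 * b'.val) (k0' := 4 * b'.val + 1) (by omega) (by omega)
        (by omega) (by omega) (by omega) (by omega) (ht b) (ht' b) (ht b') g1 g3 g2
    rcases (show s b = 0 ∨ s b = 1 ∨ s b = 2 by
      generalize s b = x; fin_cases x <;> simp) with h | h | h
    · exact gen A B (fun n hn => (hin' n hn).1) (hs1.1 h) (hs2.1 h)
    · exact gen B C (fun n hn => (hin' n hn).2.1) (hs1.2.1 h) (hs2.2.1 h)
    · exact gen C A (fun n hn => (hin' n hn).2.2) (hs1.2.2 h) (hs2.2.2 h)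
  rcases lt_or_gt_of_ne hbb with h | h
  · exact main b b' h hsb
  · exact main b' b h hsb.symm

end MFS
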