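import Pool.Agent.MFS.Own

/-! From the core statement to our own statement. -/

set_option autoImplicit false

namespace MFS

/-- `S` is free in `G` -/
def LitFree {V : Type} (G : SimpleGraph V) (S : Finset V) : Prop :=
  ∀ P : Finset (ℝ × ℝ), P.card = S.card → ∃ f : V → ℝ × ℝ, LitDrw G f ∧ f '' S = P

/-- `S` is mostly free in `G` -/
def LitMostlyFree {V : Type} (G : SimpleGraph V) (S : Finset V) : Prop :=
  ∀ P : Finset (ℝ × ℝ), P.card = S.card →
    (∀ a ∈ P, ∀ b ∈ P, ∀ c ∈ P, a ≠ b → a ≠ c → b ≠ c → ¬ Collinear ℝ ({a, b, c} : Set (ℝ × ℝ))) →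
    ∃ f : V → ℝ × ℝ, LitDrw G f ∧ f '' S = P

/-- points on a parabola: a general position set of any size -/
theorem exists_GP (m : ℕ) : ∃ P : Finset Pt, P.card = m ∧ GP P := by
  classical
  refine ⟨(Finset.range m).image (fun k : ℕ => ((k : ℝ), (k : ℝ) ^ 2)), ?_, ?_⟩
  · rw [Finset.card_image_of_injective, Finset.card_range]
    intro a b h
    have := congrArg Prod.fst h
    simpa using this
  · intro a ha b hb c hc hab hac hbc
    simp only [Finset.mem_image, Finset.mem_range] at ha hb hc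
    obtain ⟨i, -, rfl⟩ := ha
    obtain ⟨j, -, rfl⟩ := hb
    obtain ⟨k, -, rfl⟩ := hc
    have hij : (i : ℝ) ≠ j := fun h => hab (by rw [h])
    have hik : (i : ℝ) ≠ k := fun h => hac (by rw [h])
    have hjk : (j : ℝ) ≠ k := fun h => hbc (by rw [h])
    have : D ((i : ℝ), (i : ℝ) ^ 2) ((j : ℝ), (j : ℝ) ^ 2) ((k : ℝ), (k : ℝ) ^ 2) =
      ((j : ℝ) - i) * ((k : ℝ) - i) * ((k : ℝ) - j) := by unfold D; ring
    rw [this]
    have h1 : (j : ℝ) - i ≠ 0 := sub_ne_zero.2 hij.symm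
    have h2 : (k : ℝ) - i ≠ 0 := sub_ne_zero.2 hik.symm
    have h3 : (k : ℝ) - j ≠ 0 := sub_ne_zero.2 hjk.symm
    exact mul_ne_zero (mul_ne_zero h1 h2) h3

/-- a collinear set lies on a line -/
theorem collinear_line {A : Set Pt} (h : Collinear ℝ A) :
    ∃ n : Pt, n ≠ 0 ∧ ∃ c : ℝ, ∀ p ∈ A, n.1 * p.1 + n.2 * p.2 = c := by
  obtain ⟨p0, v, hv⟩ := (collinear_iff_exists_forall_eq_smul_vadd A).1 h
  by_cases h0 : v = 0
  · refine ⟨(1, 0), by simp, p0.1, ?_⟩
    intro p hp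
    obtain ⟨r, rfl⟩ := hv p hp
    simp [h0]
  · refine ⟨(-v.2, v.1), ?_, -v.2 * p0.1 + v.1 * p0.2, ?_⟩
    · intro hh
      apply h0
      have h1 := congrArg Prod.fst hh
      have h2 := congrArg Prod.snd hh
      simp at h1 h2
      exact Prod.ext h2 h1
    · intro p hp
      obtain ⟨r, rfl⟩ := hv p hp
      simp only [vadd_eq_add, Prod.fst_add, Prod.smul_fst, smul_eq_mul, Prod.snd_add, Prod.smul_snd]
      ring

theorem image_eq_of_mem {V : Type} {f : V → Pt} (hf : Function.Injective f) {S : Finset V}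
    {P : Finset Pt} (hc : P.card = S.card) (h : ∀ s ∈ S, f s ∈ P) : f '' S = P := by
  classical
  have h1 : S.image f ⊆ P := by
    intro p hp
    obtain ⟨s, hs, rfl⟩ := Finset.mem_image.1 hp
    exact h s hs
  have h2 : S.image f = P := by
    apply Finset.eq_of_subset_of_card_le h1
    rw [Finset.card_image_of_injective _ hf, hc]
  rw [← h2, Finset.coe_image]

theorem hedge (core : Core) : ∀ γ : ℝ, 0 < γ →
    ∃ (V : Type) (_ : Fintype V) (G : SimpleGraph V) (S : Finset V),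
      (∃ f, LitDrw G f) ∧ S.Nonempty ∧ LitMostlyFree G S ∧
      (∀ f, LitDrw G f → ∀ T ⊆ S, Collinear ℝ (f '' T) → (T.card : ℝ) < γ * S.card) ∧
      ∀ T ⊆ S, LitFree G T → (T.card : ℝ) < γ * S.card := by
  classical
  intro γ hγ
  obtain ⟨V, hV, G, S, hS, h1, h2⟩ := core γ hγ
  have hcol : ∀ f, LitDrw G f → ∀ T ⊆ S, Collinear ℝ (f '' T) → (T.card : ℝ) < γ * S.card := by
    intro f hf T hT hc
    obtain ⟨n, hn, c, hl⟩ := collinear_line hc
    refine lt_of_le_of_lt ?_ (h2 f ((litDrw_iff G f).1 hf) n hn c)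
    have : T ⊆ S.filter (fun s => n.1 * (f s).1 + n.2 * (f s).2 = c) := by
      intro t ht
      rw [Finset.mem_filter]
      exact ⟨hT ht, hl _ ⟨t, ht, rfl⟩⟩
    exact_mod_cast Finset.card_le_card this
  refine ⟨V, hV, G, S, ?_, hS, ?_, hcol, ?_⟩
  · obtain ⟨P, hP, hg⟩ := exists_GP S.card
    obtain ⟨f, hf, -⟩ := h1 P hP hg
    exact ⟨f, (litDrw_iff G f).2 hf⟩
  · intro P hP hg
    obtain ⟨f, hf, hs⟩ := h1 P hP (fun a ha b hb c hc hab hac hbc h0 =>
      hg a ha b hb c hc hab hac hbc ((collinear_iff_D a b c).2 h0))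
    exact ⟨f, (litDrw_iff G f).2 hf, image_eq_of_mem hf.inj hP hs⟩
  · intro T hT hfree
    obtain ⟨f, hf, him⟩ := hfree ((Finset.range T.card).image (fun k : ℕ => ((k : ℝ), (0 : ℝ)))) (by
      rw [Finset.card_image_of_injective, Finset.card_range]
      intro a b h
      have := congrArg Prod.fst h
      simpa using this)
    refine hcol f hf T hT ?_
    rw [him]
    rw [collinear_iff_exists_forall_eq_smul_vadd]
    refine ⟨(0, 0), (1, 0), ?_⟩
    intro p hp
    simp only [Finset.coe_image, Set.mem_image, Finset.coe_range, Set.mem_Iio] at hp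
    obtain ⟨k, -, rfl⟩ := hp
    exact ⟨k, by simp⟩

end MFS
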