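import Pool.Agent.MFS.CoreDef

/-! Literal drawings (open segments) and the drawings of `MFS`. -/

set_option autoImplicit false

namespace MFS

/-- literal definition: distinct edges are disjoint open segments, no vertex lies on an edge -/
def LitDrw {V : Type} (G : SimpleGraph V) (f : V → ℝ × ℝ) : Prop :=
  Function.Injective f ∧
  (∀ u v w : V, G.Adj u v → f w ∉ openSegment ℝ (f u) (f v)) ∧
  ∀ u v x y : V, G.Adj u v → G.Adj x y → s(u, v) ≠ s(x, y) →
    Disjoint (openSegment ℝ (f u) (f v)) (openSegment ℝ (f x) (f y))

theorem mem_oseg {a b p : Pt} :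
    p ∈ openSegment ℝ a b ↔ ∃ t : ℝ, 0 < t ∧ t < 1 ∧ p = (1 - t) • a + t • b := by
  constructor
  · rintro ⟨r, s, hr, hs, hrs, h⟩
    refine ⟨s, hs, by linarith, ?_⟩
    rw [← h, show (1 - s) = r by linarith]
  · rintro ⟨t, h0, h1, h⟩
    exact ⟨1 - t, t, by linarith, h0, by ring, h.symm⟩

theorem seg_cases {a b p : Pt} (h : p ∈ segment ℝ a b) : p = a ∨ p = b ∨ p ∈ openSegment ℝ a b := by
  obtain ⟨t, h0, h1, rfl⟩ := mem_seg.1 h
  rcases eq_or_lt_of_le h0 with h | h
  · left; rw [← h]; simp
  rcases eq_or_lt_of_le h1 with h' | h'
  · right; left; rw [h']; simp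
  · right; right; exact mem_oseg.2 ⟨t, h, h', rfl⟩

/-- two segments from `u` with a common further point -/
theorem seg_share {u v w p : Pt} (h1 : p ∈ openSegment ℝ u v) (h2 : p ∈ openSegment ℝ u w) :
    w ∈ segment ℝ u v ∨ v ∈ segment ℝ u w := by
  obtain ⟨s, s0, s1, hs⟩ := mem_oseg.1 h1
  obtain ⟨t, t0, t1, ht⟩ := mem_oseg.1 h2
  have key : s • (v - u) = t • (w - u) := by
    have e : (1 - s) • u + s • v = (1 - t) • u + t • w := by rw [← hs, ← ht]
    have e1 : (1 - s) * u.1 + s * v.1 = (1 - t) * u.1 + t * w.1 := by
      have := congrArg Prod.fst e; simpa using this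
    have e2 : (1 - s) * u.2 + s * v.2 = (1 - t) * u.2 + t * w.2 := by
      have := congrArg Prod.snd e; simpa using this
    ext
    · simp only [Prod.smul_fst, Prod.fst_sub, smul_eq_mul]; linarith
    · simp only [Prod.smul_snd, Prod.snd_sub, smul_eq_mul]; linarith
  have k1 : s * (v.1 - u.1) = t * (w.1 - u.1) := by
    have := congrArg Prod.fst key; simpa using this
  have k2 : s * (v.2 - u.2) = t * (w.2 - u.2) := by
    have := congrArg Prod.snd key; simpa using this
  rcases le_total s t with h | h
  · left
    refine mem_seg.2 ⟨s / t, by positivity, by rw [div_le_one t0]; exact h, ?_⟩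
    ext
    · simp only [Prod.fst_add, Prod.smul_fst, smul_eq_mul]; field_simp; linarith
    · simp only [Prod.snd_add, Prod.smul_snd, smul_eq_mul]; field_simp; linarith
  · right
    refine mem_seg.2 ⟨t / s, by positivity, by rw [div_le_one s0]; exact h, ?_⟩
    ext
    · simp only [Prod.fst_add, Prod.smul_fst, smul_eq_mul]; field_simp; linarith
    · simp only [Prod.snd_add, Prod.smul_snd, smul_eq_mul]; field_simp; linarith

theorem litDrw_iff {V : Type} (G : SimpleGraph V) (f : V → Pt) : LitDrw G f ↔ Drw G.Adj f := by
  constructor
  · rintro ⟨h1, h2, h3⟩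
    refine ⟨h1, ?_, ?_⟩
    · intro u v w huv hu hv hw
      rcases seg_cases hw with h | h | h
      · exact hu (h1 h)
      · exact hv (h1 h)
      · exact h2 u v w huv h
    · intro u v x y huv hxy a b c d
      rw [Set.disjoint_left]
      intro p hp hq
      rcases seg_cases hp with rfl | rfl | hp
      · rcases seg_cases hq with h | h | h
        · exact a (h1 h)
        · exact b (h1 h)
        · exact h2 x y u hxy h
      · rcases seg_cases hq with h | h | h
        · exact c (h1 h)
        · exact d (h1 h)
        · exact h2 x y v hxy h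
      · rcases seg_cases hq with rfl | rfl | hq
        · exact h2 u v x huv hp
        · exact h2 u v y huv hp
        · refine Set.disjoint_left.1 (h3 u v x y huv hxy ?_) hp hq
          intro h
          rw [Sym2.eq_iff] at h
          rcases h with ⟨h, -⟩ | ⟨h, -⟩
          · exact a h
          · exact b h
  · intro h
    refine ⟨h.inj, ?_, ?_⟩
    · intro u v w huv hw
      by_cases e1 : w = u
      · subst e1
        have : f w ∈ openSegment ℝ (f w) (f v) ↔ f w = f v := left_mem_openSegment_iff
        exact huv.ne (h.inj (this.1 hw))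
      by_cases e2 : w = v
      · subst e2
        have : f w ∈ openSegment ℝ (f u) (f w) ↔ f u = f w := right_mem_openSegment_iff
        exact huv.ne (h.inj (this.1 hw))
      exact h.vtx u v w huv e1 e2 (openSegment_subset_segment _ _ _ hw)
    · intro u v x y huv hxy hne
      rw [Set.disjoint_left]
      intro p hp hq
      -- common lemma: edges u v and u w, v distinct from w
      have sh : ∀ u v w : V, G.Adj u v → G.Adj u w → v ≠ w →
          p ∈ openSegment ℝ (f u) (f v) → p ∈ openSegment ℝ (f u) (f w) → False := by
        intro u v w huv huw hvw hp hq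
        rcases seg_share hp hq with hh | hh
        · exact h.vtx u v w huv huw.ne' hvw.symm hh
        · exact h.vtx u w v huw huv.ne' hvw hh
      by_cases a : u = x
      · subst a
        exact sh u v y huv hxy (fun e => hne (by rw [e])) hp hq
      by_cases b : u = y
      · subst b
        rw [openSegment_symm] at hq
        exact sh u v x huv hxy.symm (fun e => hne (by rw [e]; exact Sym2.eq_swap)) hp hq
      by_cases c : v = x
      · subst c
        rw [openSegment_symm] at hp
        exact sh v u y huv.symm hxy (fun e => hne (by rw [e]; exact Sym2.eq_swap)) hp hq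
      by_cases d : v = y
      · subst d
        rw [openSegment_symm] at hp hq
        exact sh v u x huv.symm hxy.symm (fun e => hne (by rw [e])) hp hq
      exact Set.disjoint_left.1 (h.edg u v x y huv hxy a b c d)
        (openSegment_subset_segment _ _ _ hp) (openSegment_subset_segment _ _ _ hq)

end MFS
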