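import Pool.Agent.MFS.Geo

/-! MP_6c0025_co: placement of the gadget graph (chain lemma, frame drawing, small generic translation). -/

set_option autoImplicit false

namespace MFS
namespace Place

open Filter Topology

/-- the small vector -/
def tau (s : ℝ) : Pt := (s, s ^ 2)

theorem tau_cont : Continuous tau := by unfold tau; fun_prop

theorem tau_zero : tau 0 = 0 := by ext <;> simp [tau]

/-- an open set is not left by a small translation -/
theorem ev_open {U : Set Pt} (hU : IsOpen U) {p : Pt} (hp : p ∈ U) (f : ℝ → Pt) (hf : Continuous f)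
    (h0 : f 0 = p) : ∀ᶠ s in 𝓝[>] (0 : ℝ), f s ∈ U := by
  have h1 : f ⁻¹' U ∈ 𝓝 (0 : ℝ) := hf.continuousAt.preimage_mem_nhds (by rw [h0]; exact hU.mem_nhds hp)
  exact nhdsWithin_le_nhds h1

/-- a small generic translation avoids a point -/
theorem ev_avoid {u v : Pt} (huv : u ≠ v) (p : Pt) :
    ∀ᶠ s in 𝓝[>] (0 : ℝ), D (u + tau s) (v + tau s) p ≠ 0 := by
  have hD : ∀ s, D (u + tau s) (v + tau s) p =
      D u v p - ((v.1 - u.1) * s ^ 2 - (v.2 - u.2) * s) := by
    intro s; unfold D tau; simp only [Prod.fst_add, Prod.snd_add]; ring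
  by_cases h0 : D u v p = 0
  · by_cases hb : v.2 - u.2 = 0
    · have ha : v.1 - u.1 ≠ 0 := fun h => huv (Prod.ext (by linarith) (by linarith))
      filter_upwards [self_mem_nhdsWithin] with s hs
      have hs0 : s ≠ 0 := ne_of_gt hs
      rw [hD, h0, hb]
      have := mul_ne_zero ha (pow_ne_zero 2 hs0)
      intro h
      apply this
      linarith
    · have h1 : ∀ᶠ s in 𝓝[>] (0 : ℝ), (v.2 - u.2) - (v.1 - u.1) * s ≠ 0 := by
        have hc : Continuous fun s : ℝ => (v.2 - u.2) - (v.1 - u.1) * s := by fun_prop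
        have : (fun s : ℝ => (v.2 - u.2) - (v.1 - u.1) * s) ⁻¹' {x | x ≠ 0} ∈ 𝓝 (0 : ℝ) :=
          hc.continuousAt.preimage_mem_nhds (isOpen_ne.mem_nhds (by simpa using hb))
        exact nhdsWithin_le_nhds this
      filter_upwards [self_mem_nhdsWithin, h1] with s hs h1s
      have hs0 : s ≠ 0 := ne_of_gt hs
      rw [hD, h0]
      have := mul_ne_zero hs0 h1s
      intro h
      apply this
      linarith
  · have hc : Continuous fun s : ℝ => D (u + tau s) (v + tau s) p := by
      have : (fun s : ℝ => D (u + tau s) (v + tau s) p) =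
          fun s => D u v p - ((v.1 - u.1) * s ^ 2 - (v.2 - u.2) * s) := funext hD
      rw [this]; fun_prop
    have : (fun s : ℝ => D (u + tau s) (v + tau s) p) ⁻¹' {x | x ≠ 0} ∈ 𝓝 (0 : ℝ) :=
      hc.continuousAt.preimage_mem_nhds (isOpen_ne.mem_nhds (by
        show D (u + tau 0) (v + tau 0) p ≠ 0
        rw [tau_zero, add_zero, add_zero]; exact h0))
    exact nhdsWithin_le_nhds this

theorem mem_Tri_add {a b c x t : Pt} : x ∈ Tri (a + t) (b + t) (c + t) ↔ x - t ∈ Tri a b c := by
  have key : ∀ p q : Pt, D (p + t) (q + t) x = D p q (x - t) := by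
    intro p q; unfold D; simp only [Prod.fst_add, Prod.snd_add, Prod.fst_sub, Prod.snd_sub]; ring
  unfold Tri
  simp only [Set.mem_setOf_eq, key]

theorem seg_add {a b p t : Pt} (hp : p ∈ segment ℝ (a + t) (b + t)) : p - t ∈ segment ℝ a b := by
  obtain ⟨r, h0, h1, rfl⟩ := mem_seg.1 hp
  refine mem_seg.2 ⟨r, h0, h1, ?_⟩
  ext <;> simp <;> ring

theorem ok_add {g : Fin 25 → Pt} (h : GamOK g) (t : Pt) : GamOK (fun v => g v + t) where
  drw := h.drw.translate t
  out := fun v => by
    show 0 ≤ D (g 0 + t) (g 1 + t) (g v + t)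
    rw [D_add]; exact h.out v
  pos := fun j => by
    show 0 < D (g (Sa j) + t) (g (Sb j) + t) (g (Sc j) + t)
    rw [D_add]; exact h.pos j
  edg := fun j u v huv => by
    rw [Set.disjoint_left]
    intro p hp hq
    exact Set.disjoint_left.1 (h.edg j u v huv) (mem_Tri_add.1 hp) (seg_add hq)
  fac := fun j j' hj => by
    rw [Set.disjoint_left]
    intro p hp hq
    exact Set.disjoint_left.1 (h.fac j j' hj) (mem_Tri_add.1 hp) (mem_Tri_add.1 hq)

end Place

open Filter Topology Place in
theorem gamPlace (h1 : ChainLemma) (h2 : FrameDraw) : GamPlace := by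
  classical
  obtain ⟨W, n0, h1⟩ := h1 134
  refine ⟨W, n0, ?_⟩
  intro A B C hD P hGP hP hn
  obtain ⟨O, H, V, ξ, σ, hO, hH, hV, hOHV, hξ, hσ, hbox⟩ := h1 A B C hD P hGP hP hn
  obtain ⟨g, hg, hok, hsub⟩ := h2 O H V hOHV ξ σ hξ hσ
  have hTri : Tri O H V ⊆ Tri A B C := Tri_sub hO hH hV
  -- the small translation
  have e1 : ∀ᶠ s in 𝓝[>] (0 : ℝ), ∀ v, g v + tau s ∈ Tri A B C := by
    rw [eventually_all]
    intro v
    exact ev_open (Tri_open A B C) (hTri (hg v)) (fun s => g v + tau s)
      (continuous_const.add tau_cont) (by simp [tau_zero])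
  have e2 : ∀ᶠ s in 𝓝[>] (0 : ℝ), ∀ j : Fin 27, ∀ p ∈ P, p ∈ Tj g j → p - tau s ∈ Tj g j := by
    rw [eventually_all]
    intro j
    rw [Finset.eventually_all]
    intro p _
    by_cases hp : p ∈ Tj g j
    · filter_upwards [ev_open (Tri_open _ _ _) hp (fun s => p - tau s)
        (continuous_const.sub tau_cont) (by simp [tau_zero])] with s hs _
      exact hs
    · exact Eventually.of_forall fun s h => absurd h hp
  have e3 : ∀ᶠ s in 𝓝[>] (0 : ℝ), ∀ u v : Fin 25, GA u v → ∀ p ∈ P,
      D (g u + tau s) (g v + tau s) p ≠ 0 := by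
    rw [eventually_all]; intro u
    rw [eventually_all]; intro v
    by_cases huv : GA u v
    · have hne : u ≠ v := fun h => (by decide : ∀ u : Fin 25, ¬ GA u u) v (h ▸ huv)
      have : ∀ᶠ s in 𝓝[>] (0 : ℝ), ∀ p ∈ P, D (g u + tau s) (g v + tau s) p ≠ 0 := by
        rw [Finset.eventually_all]
        intro p _
        exact ev_avoid (fun h => hne (hok.drw.inj h)) p
      filter_upwards [this] with s hs _
      exact hs
    · exact Eventually.of_forall fun s h => absurd h huv
  obtain ⟨s, hs1, hs2, hs3⟩ := (e1.and (e2.and e3)).exists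
  refine ⟨fun v => g v + tau s, hs1, ok_add hok (tau s), ?_, ?_⟩
  · intro u v huv p hp hm
    exact hs3 u v huv p hp (D_seg_zero hm)
  · intro j
    have hj : cc j < 134 := by
      have := j.isLt
      unfold cc; omega
    refine (hbox (cc j) hj).trans (Nat.mul_le_mul_left W (Finset.card_le_card ?_))
    intro p hp
    rw [Finset.mem_filter] at hp ⊢
    exact ⟨hp.1, mem_Tri_add.2 (hs2 j p hp.1 (hsub j hp.2))⟩

end MFS
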