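import Pool.Agent.MFS.Geo

/-! MFS/Rot: `DSet`, `Placed` and the conclusion of `Univ` are invariant under the rotation `A B C -> B C A` -/

set_option autoImplicit false

namespace MFS

theorem DSet_rot (q i : ℕ) (A B C : Pt) (f : Inn q i → Pt) :
    DSet q i B C A f = DSet q i A B C f := by
  unfold DSet
  ext p
  constructor
  · rintro (h | h | h | h)
    · exact Or.inl h
    · exact Or.inr (Or.inr (Or.inl h))
    · exact Or.inr (Or.inr (Or.inr h))
    · exact Or.inr (Or.inl h)
  · rintro (h | h | h | h)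
    · exact Or.inl h
    · exact Or.inr (Or.inr (Or.inr h))
    · exact Or.inr (Or.inl h)
    · exact Or.inr (Or.inr (Or.inl h))

theorem DSet_rot' (q i : ℕ) (A B C : Pt) (f : Inn q i → Pt) :
    DSet q i C A B f = DSet q i A B C f := by
  rw [← DSet_rot q i A B C, ← DSet_rot q i B C A]

theorem Placed.rot {q i : ℕ} {A B C : Pt} {P : Finset Pt} {f : Inn q i → Pt}
    (h : Placed q i B C A P f) : Placed q i A B C P f where
  drw := h.drw
  ins := fun x => by rw [Tri_rot]; exact h.ins x
  leafP := h.leafP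
  cor1 := fun K hK x hx => h.cor1 K (by tauto) x hx
  cor2 := fun K hK x y hxy hx hy => h.cor2 K (by tauto) x y hxy hx hy
  off := fun p hp hpD => h.off p hp (by rw [DSet_rot]; exact hpD)

theorem Placed.rot' {q i : ℕ} {A B C : Pt} {P : Finset Pt} {f : Inn q i → Pt}
    (h : Placed q i C A B P f) : Placed q i A B C P f := h.rot.rot

/-- the conclusion of `Univ` -/
def UnivC (q i b : ℕ) (A B C : Pt) (P : Finset Pt) : Prop :=
  ∃ f : Inn q i → Pt, Placed q i A B C P f ∧
      ∃ F : List T3, Left b P (Tri A B C) (DSet q i A B C f) F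

theorem UnivC.rot {q i b : ℕ} {A B C : Pt} {P : Finset Pt} (h : UnivC q i b B C A P) :
    UnivC q i b A B C P := by
  obtain ⟨f, hf, F, hF⟩ := h
  refine ⟨f, hf.rot, F, ?_⟩
  rw [DSet_rot, ← Tri_rot A B C] at hF
  exact hF

theorem UnivC.rot' {q i b : ℕ} {A B C : Pt} {P : Finset Pt} (h : UnivC q i b C A B P) :
    UnivC q i b A B C P := h.rot.rot

/-- one corner of a triangle is strictly on the negative side of a line through a point of the open triangle
which has a point of the triangle on its nonnegative side -/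
theorem exists_neg_corner {A B C X Y : Pt} (hX : X ∈ Tri A B C) (hXY : X ≠ Y) :
    D X Y A < 0 ∨ D X Y B < 0 ∨ D X Y C < 0 := by
  by_contra hc
  push Not at hc
  obtain ⟨hA, hB, hC⟩ := hc
  have h0 : D X Y X = 0 := D_aba X Y
  by_cases h : 0 < D X Y A ∨ 0 < D X Y B ∨ 0 < D X Y C
  · have := D_pos_of_Tri hX hA hB hC h
    linarith
  · push Not at h
    obtain ⟨h1, h2, h3⟩ := h
    have a0 : D X Y A = 0 := le_antisymm h1 hA
    have b0 : D X Y B = 0 := le_antisymm h2 hB
    have c0 : D X Y C = 0 := le_antisymm h3 hC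
    have hT := Tri_pos hX
    apply hXY
    unfold D at a0 b0 c0 hT
    have e1 : (Y.1 - X.1) * ((B.1 - A.1) * (C.2 - A.2) - (B.2 - A.2) * (C.1 - A.1)) = 0 := by
      linear_combination (B.1 - A.1) * (c0 - a0) - (C.1 - A.1) * (b0 - a0)
    have e2 : (Y.2 - X.2) * ((B.1 - A.1) * (C.2 - A.2) - (B.2 - A.2) * (C.1 - A.1)) = 0 := by
      linear_combination (B.2 - A.2) * (c0 - a0) - (C.2 - A.2) * (b0 - a0)
    have f1 := (mul_eq_zero.1 e1).resolve_right hT.ne'
    have f2 := (mul_eq_zero.1 e2).resolve_right hT.ne'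
    exact Prod.ext (by linarith) (by linarith)

end MFS
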